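import Pool.Agent.LHD.Defs

/-!
# Counting

`brs_count`: let `E u v` be the set of darts `(x, y)` with `x ∈ S`, `H.Adj x y`, `g x = u`, `β x y = v`. For every `x ∈ S` with `g x = u` there is exactly one `y` with `(x, y) ∈ E u v` (`β x` is a bijection from `N(x)` to `N(g x) = N(u) ∋ v`), so `|E u v| = nS S g u` (the projection to `x` is injective on `E u v` with the image `{x ∈ S | g x = u}`).
`E u v` is the disjoint union of the set counted by `mx u v` (the exits) and `E' u v`, the rest: `x, y ∈ S`, `¬ D x y`, so `β x y = g y`, i.e. `E' u v = {(x, y) | x, y ∈ S, H.Adj x y, ¬ D x y, g x = u, g y = v}`. The map `(x, y) ↦ (y, x)` is a bijection `E' u v → E' v u` (`hD`). So `nS u - mx u v = |E' u v| = |E' v u| = nS v - mx v u`.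
`mx_pos`: the set is not empty. `mx_sum`: the sets of exits with the value `(u, v)` are disjoint and cover the set of all exits in `A` (fibres of the map `d ↦ (g d.1, β d.1 d.2)`; e.g. `Finset.card_eq_sum_card_fiberwise`).
-/

namespace Pool.Agent.LHD

open Pool.Agent.LIH Pool.Agent.LHA
open Pool.Agent.LHC (Rg DeepN De Br CZ Ctr nxt nxG glueS sAdj LN LC LO)

variable {V : Type} {H : SimpleGraph V} {S : Set V} {D : V → V → Prop} {g : V → V}
  {β : V → V → V}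

theorem Cnt_S [Finite V] (h : BrS H S D g β) {u v : V} (huv : H.Adj u v) :
    nS S g u = {d : V × V | d.1 ∈ S ∧ H.Adj d.1 d.2 ∧ g d.1 = u ∧ β d.1 d.2 = v}.ncard := by
  have h1 : Prod.fst '' {d : V × V | d.1 ∈ S ∧ H.Adj d.1 d.2 ∧ g d.1 = u ∧ β d.1 d.2 = v} =
      {x | x ∈ S ∧ g x = u} := by
    ext x
    constructor
    · rintro ⟨d, ⟨hS, -, hd, -⟩, rfl⟩
      exact ⟨hS, hd⟩
    · rintro ⟨hS, hx⟩
      have hv : v ∈ H.neighborSet (g x) := by rw [hx]; exact huv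
      obtain ⟨y, hy, hy'⟩ := (h.bij x hS).surjOn hv
      exact ⟨(x, y), ⟨hS, hy, hx, hy'⟩, rfl⟩
  unfold nS
  rw [← h1]
  apply Set.ncard_image_of_injOn
  rintro ⟨x, y⟩ ⟨h0, h2, h3, h4⟩ ⟨x', y'⟩ ⟨h0', h2', h3', h4'⟩ hxx
  have hxx' : x = x' := hxx
  subst hxx'
  have : y = y' := (h.bij x h0).injOn h2 h2' (h4.trans h4'.symm)
  rw [this]

theorem Cnt_swap [Finite V] (hD : ∀ x y, D x y → D y x) (u v : V) :
    {d : V × V | d.1 ∈ S ∧ d.2 ∈ S ∧ H.Adj d.1 d.2 ∧ ¬ D d.1 d.2 ∧ g d.1 = u ∧ g d.2 = v}.ncard =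
      {d : V × V | d.1 ∈ S ∧ d.2 ∈ S ∧ H.Adj d.1 d.2 ∧ ¬ D d.1 d.2 ∧ g d.1 = v ∧ g d.2 = u}.ncard := by
  have h1 : Prod.swap '' {d : V × V | d.1 ∈ S ∧ d.2 ∈ S ∧ H.Adj d.1 d.2 ∧ ¬ D d.1 d.2 ∧ g d.1 = u ∧ g d.2 = v} =
      {d : V × V | d.1 ∈ S ∧ d.2 ∈ S ∧ H.Adj d.1 d.2 ∧ ¬ D d.1 d.2 ∧ g d.1 = v ∧ g d.2 = u} := by
    ext ⟨x, y⟩
    constructor
    · rintro ⟨⟨x', y'⟩, ⟨h0, h1, h2, h3, h4, h5⟩, h6⟩
      simp only [Prod.swap_prod_mk, Prod.mk.injEq] at h6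
      obtain ⟨rfl, rfl⟩ := h6
      exact ⟨h1, h0, h2.symm, fun hh => h3 (hD _ _ hh), h5, h4⟩
    · rintro ⟨h0, h1, h2, h3, h4, h5⟩
      exact ⟨(y, x), ⟨h1, h0, h2.symm, fun hh => h3 (hD _ _ hh), h5, h4⟩, rfl⟩
  rw [← h1, Set.ncard_image_of_injective _ Prod.swap_injective]

theorem Cnt_split [Finite V] (h : BrS H S D g β) {u v : V} (huv : H.Adj u v) :
    nS S g u = mx H S D g β u v +
      {d : V × V | d.1 ∈ S ∧ d.2 ∈ S ∧ H.Adj d.1 d.2 ∧ ¬ D d.1 d.2 ∧ g d.1 = u ∧ g d.2 = v}.ncard := by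
  rw [Cnt_S h huv]
  unfold mx
  rw [← Set.ncard_union_eq _ (Set.toFinite _) (Set.toFinite _)]
  · congr 1
    ext ⟨x, y⟩
    constructor
    · rintro ⟨h0, h1, h2, h3⟩
      by_cases hy : y ∈ S
      · by_cases hd : D x y
        · exact Or.inl ⟨⟨h0, h1, Or.inr hd⟩, h2, h3⟩
        · exact Or.inr ⟨h0, hy, h1, hd, h2, by
            have := h.eq x h0 y hy h1 hd
            exact this.symm.trans h3⟩
      · exact Or.inl ⟨⟨h0, h1, Or.inl hy⟩, h2, h3⟩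
    · rintro (⟨⟨h0, h1, -⟩, h3, h4⟩ | ⟨h0, hy, h1, h2, h3, h4⟩)
      · exact ⟨h0, h1, h3, h4⟩
      · exact ⟨h0, h1, h3, (h.eq x h0 y hy h1 h2).trans h4⟩
  · rw [Set.disjoint_left]
    rintro ⟨x, y⟩ ⟨⟨h0, h1, h2⟩, h3, h4⟩ ⟨h0', hy, h1', h2', h3', h4'⟩
    rcases h2 with h2 | h2
    · exact h2 hy
    · exact h2' h2

theorem brs_count [Finite V] (hD : ∀ x y, D x y → D y x) (h : BrS H S D g β) {u v : V}
    (huv : H.Adj u v) : nS S g u + mx H S D g β v u = nS S g v + mx H S D g β u v := by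
  have h1 := Cnt_split h huv
  have h2 := Cnt_split h huv.symm
  have h3 := Cnt_swap (H := H) (S := S) (g := g) hD u v
  omega

theorem mx_pos {u v : V} (h : 1 ≤ mx H S D g β u v) : ∃ x y, Xd H S D x y ∧ g x = u ∧ β x y = v := by
  unfold mx at h
  have h1 : {d : V × V | Xd H S D d.1 d.2 ∧ g d.1 = u ∧ β d.1 d.2 = v}.Nonempty := by
    by_contra h2
    rw [Set.not_nonempty_iff_eq_empty] at h2
    rw [h2, Set.ncard_empty] at h
    exact absurd h (by norm_num)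
  obtain ⟨d, hd⟩ := h1
  exact ⟨d.1, d.2, hd⟩

theorem mx_sum [Fintype V] (A : Finset (V × V)) : ∑ e ∈ A, mx H S D g β e.1 e.2 =
    {d : V × V | Xd H S D d.1 d.2 ∧ (g d.1, β d.1 d.2) ∈ A}.ncard := by
  classical
  obtain ⟨X, hX⟩ : ∃ X : Finset (V × V), X = Finset.univ.filter
    fun d : V × V => Xd H S D d.1 d.2 ∧ (g d.1, β d.1 d.2) ∈ A := ⟨_, rfl⟩
  have h1 : {d : V × V | Xd H S D d.1 d.2 ∧ (g d.1, β d.1 d.2) ∈ A}.ncard = X.card := by
    rw [← Set.ncard_coe_finset]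
    congr 1
    ext d
    simp [hX]
  have h2 : X.card = ∑ e ∈ A, (X.filter fun d => (g d.1, β d.1 d.2) = e).card := by
    apply Finset.card_eq_sum_card_fiberwise
    intro d hd
    have hd' : d ∈ X := hd
    rw [hX, Finset.mem_filter] at hd'
    exact hd'.2.2
  rw [h1, h2]
  apply Finset.sum_congr rfl
  intro e he
  unfold mx
  rw [← Set.ncard_coe_finset]
  congr 1
  ext d
  simp only [Set.mem_setOf_eq, Finset.coe_filter, hX, Finset.mem_filter, Finset.mem_univ, true_and]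
  constructor
  · rintro ⟨a1, a2, a3⟩
    have a4 : (g d.1, β d.1 d.2) = e := Prod.ext a2 a3
    exact ⟨⟨a1, by rw [a4]; exact he⟩, a4⟩
  · rintro ⟨⟨a1, -⟩, a4⟩
    exact ⟨a1, congrArg Prod.fst a4, congrArg Prod.snd a4⟩

end Pool.Agent.LHD
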