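import Pool.Agent.LHD.Defs

/-!
# The numbers `nS`

`nS_pos`: the set is nonempty. `nS_le_one`: at most one element for all `u` iff `g` is injective on `S`. `nS_sum`: `S` is the disjoint union of the fibres of `g`. `nS_zero`: otherwise `∑ u, nS S g u ≥ |V| > |S|`. `nS_bij`: `S = univ`: `g` is bijective iff all fibres have exactly one element.
-/

namespace Pool.Agent.LHD

open Pool.Agent.LIH Pool.Agent.LHA
open Pool.Agent.LHC (Rg DeepN De Br CZ Ctr nxt nxG glueS sAdj LN LC LO)

variable {V : Type} {S : Set V} {g : V → V}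

theorem nS_pos [Finite V] {u : V} : 1 ≤ nS S g u ↔ u ∈ g '' S := by
  unfold nS
  rw [Nat.one_le_iff_ne_zero, ← Nat.pos_iff_ne_zero, Set.ncard_pos (Set.toFinite _)]
  rfl

theorem nS_le_one [Finite V] : (∀ u, nS S g u ≤ 1) ↔ Set.InjOn g S := by
  unfold nS
  constructor
  · intro h x hx y hy hxy
    exact (Set.ncard_le_one (Set.toFinite _)).1 (h (g x)) x ⟨hx, rfl⟩ y ⟨hy, hxy.symm⟩
  · intro h u
    rw [Set.ncard_le_one (Set.toFinite _)]
    rintro x ⟨hx, hx'⟩ y ⟨hy, hy'⟩
    exact h hx hy (hx'.trans hy'.symm)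

theorem nS_sum [Fintype V] (S : Set V) (g : V → V) : ∑ u, nS S g u = S.ncard := by
  classical
  obtain ⟨X, hX⟩ : ∃ X : Finset V, X = Finset.univ.filter fun x => x ∈ S := ⟨_, rfl⟩
  have h1 : S.ncard = X.card := by
    rw [← Set.ncard_coe_finset]
    congr 1
    ext x
    simp [hX]
  have h2 : X.card = ∑ u ∈ (Finset.univ : Finset V), (X.filter fun x => g x = u).card :=
    Finset.card_eq_sum_card_fiberwise (fun x _ => Finset.mem_coe.2 (Finset.mem_univ _))
  rw [h1, h2]
  apply Finset.sum_congr rfl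
  intro u _
  unfold nS
  rw [← Set.ncard_coe_finset]
  congr 1
  ext x
  simp [hX]

theorem nS_zero [Finite V] (h : S ≠ Set.univ) : ∃ u, nS S g u = 0 := by
  by_contra hc
  push Not at hc
  have h1 : g '' S = Set.univ := by
    rw [Set.eq_univ_iff_forall]
    intro u
    exact nS_pos.1 (Nat.one_le_iff_ne_zero.2 (hc u))
  apply h
  apply Set.eq_of_subset_of_ncard_le (Set.subset_univ S) _ (Set.toFinite _)
  rw [← h1]
  exact Set.ncard_image_le (Set.toFinite _)

theorem nS_bij [Finite V] : (∀ u, nS Set.univ g u = 1) ↔ Function.Bijective g := by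
  constructor
  · intro h
    have h1 : Set.InjOn g Set.univ := nS_le_one.1 fun u => (h u).le
    exact Finite.injective_iff_bijective.1 (Set.injOn_univ.1 h1)
  · intro h u
    apply le_antisymm
    · exact nS_le_one.2 (Set.injOn_univ.2 h.injective) u
    · apply nS_pos.2
      obtain ⟨x, hx⟩ := h.surjective u
      exact ⟨x, Set.mem_univ _, hx⟩

end Pool.Agent.LHD
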