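import Pool.Agent.LHD.Defs
import Pool.Agent.LHD.NSb
import Pool.Agent.LHD.Cnt
import Pool.Agent.LHC.BrA

/-!
# Coverings of `H` by `H`

`BrS H univ (fun _ _ => False) h (fun _ y => h y)`. There are no exits, so `mx = 0` and by `brs_count` `nS univ h u = nS univ h v` for adjacent `u, v`; `H` is connected, so `nS univ h` is constant; the sum is `|V|` (`nS_sum`), so it is `1`: `h` is bijective (`nS_bij`). `h` is a homomorphism (`Set.BijOn`, `MapsTo`): `Pool.Agent.LHC.auto_of_hom`.
-/

namespace Pool.Agent.LHD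

open Pool.Agent.LIH Pool.Agent.LHA
open Pool.Agent.LHC (Rg DeepN De Br CZ Ctr nxt nxG glueS sAdj LN LC LO)

theorem auto_of_cov {V : Type} [Finite V] {H : SimpleGraph V} (hc : H.Connected) {h : V → V}
    (hh : ∀ x, Set.BijOn h (H.neighborSet x) (H.neighborSet (h x))) :
    ∃ φ : H ≃g H, ∀ x, h x = φ x := by
  classical
  have := Fintype.ofFinite V
  have hB : BrS H Set.univ (fun _ _ => False) h (fun _ y => h y) :=
    ⟨fun x _ => hh x, fun _ _ _ _ _ _ => rfl⟩
  have hmx : ∀ u v, mx H Set.univ (fun _ _ => False) h (fun _ y => h y) u v = 0 := by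
    intro u v
    unfold mx
    rw [Set.ncard_eq_zero (Set.toFinite _)]
    ext d
    constructor
    · rintro ⟨⟨-, -, h1 | h1⟩, -⟩
      · exact absurd (Set.mem_univ _) h1
      · exact h1.elim
    · intro h1
      exact h1.elim
  have hadj : ∀ u v, H.Adj u v → nS Set.univ h u = nS Set.univ h v := by
    intro u v huv
    have h1 := brs_count (fun _ _ h2 => h2) hB huv
    rw [hmx, hmx, add_zero, add_zero] at h1
    exact h1
  have hw : ∀ u v, H.Reachable u v → nS Set.univ h u = nS Set.univ h v := by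
    rintro u v ⟨p⟩
    induction p with
    | nil => rfl
    | cons h1 _ ih => exact (hadj _ _ h1).trans ih
  obtain ⟨v₀⟩ := hc.nonempty
  have hsum := nS_sum (Set.univ) h
  have h2 : ∀ u ∈ (Finset.univ : Finset V), nS Set.univ h u = nS Set.univ h v₀ :=
    fun u _ => hw u v₀ (hc.preconnected u v₀)
  rw [Finset.sum_congr rfl h2, Finset.sum_const, Finset.card_univ, smul_eq_mul, Set.ncard_univ,
    Nat.card_eq_fintype_card] at hsum
  have hpos : 0 < Fintype.card V := Fintype.card_pos_iff.2 ⟨v₀⟩
  have h3 : nS Set.univ h v₀ = 1 := by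
    have h4 : Fintype.card V * nS Set.univ h v₀ = Fintype.card V * 1 := by rw [hsum, mul_one]
    exact Nat.eq_of_mul_eq_mul_left hpos h4
  have hb : Function.Bijective h := nS_bij.1 fun u => (h2 u (Finset.mem_univ u)).trans h3
  exact Pool.Agent.LHC.auto_of_hom hb fun x y hxy => (hh x).mapsTo hxy

end Pool.Agent.LHD
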