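import Pool.Agent.LHD.Defs

/-!
# Walks which avoid a vertex

`av_ne`: induction on the walk. `av_symm`: induction on the walk (`Relation.ReflTransGen`): all vertices of the walk are different from `z` (`c ≠ z` for the first one), so the reversed walk is fine; if the last step is `u → v` then `v → u` is a step (`u ≠ z` by `av_ne`) followed by the reversed walk. `av_ext`: one more step.
`ex_self`: the empty walk. `ex_eq`: `c ≠ z` because `H.Adj z c`; `av_symm` and transitivity in both directions. `ex_symm`. `av_map`: apply `φ` (and `φ.symm`) to the walk. `ex_map`, `ex_card`: `w = φ (φ.symm w)`.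
-/

namespace Pool.Agent.LHD

open Pool.Agent.LIH Pool.Agent.LHA
open Pool.Agent.LHC (Rg DeepN De Br CZ Ctr nxt nxG glueS sAdj LN LC LO)

variable {V : Type} {H : SimpleGraph V}

theorem av_ne {z c w : V} (h : Av H z c w) (hc : c ≠ z) : w ≠ z := by
  unfold Av at h
  induction h with
  | refl => exact hc
  | tail _ h2 _ => exact h2.2

theorem av_symm {z c w : V} (h : Av H z c w) (hc : c ≠ z) : Av H z w c := by
  unfold Av at h ⊢
  induction h with
  | refl => exact Relation.ReflTransGen.refl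
  | tail h1 h2 ih => exact Relation.ReflTransGen.head ⟨h2.1.symm, av_ne h1 hc⟩ ih

theorem av_ext {z c w w' : V} (h : Av H z c w) (hw : H.Adj w w') (hz : w' ≠ z) : Av H z c w' :=
  Relation.ReflTransGen.tail h ⟨hw, hz⟩

theorem ex_self {z c : V} (h : H.Adj z c) : c ∈ Ex H z c := ⟨h, Relation.ReflTransGen.refl⟩

theorem ex_eq {z c c' : V} (h : H.Adj z c) (h' : c' ∈ Ex H z c) : Ex H z c' = Ex H z c := by
  ext w
  constructor
  · rintro ⟨h1, h2⟩
    exact ⟨h1, Relation.ReflTransGen.trans h'.2 h2⟩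
  · rintro ⟨h1, h2⟩
    exact ⟨h1, Relation.ReflTransGen.trans (av_symm h'.2 h.ne') h2⟩

theorem ex_symm {z c c' : V} (h : H.Adj z c) (h' : c' ∈ Ex H z c) : c ∈ Ex H z c' :=
  ⟨h, av_symm h'.2 h.ne'⟩

theorem av1_map (φ : H ≃g H) {z c w : V} (h : Av H z c w) : Av H (φ z) (φ c) (φ w) := by
  unfold Av at h ⊢
  induction h with
  | refl => exact Relation.ReflTransGen.refl
  | tail _ h2 ih => exact Relation.ReflTransGen.tail ih ⟨φ.map_adj_iff.2 h2.1, fun h3 => h2.2 (φ.injective h3)⟩

theorem av_map (φ : H ≃g H) (z c w : V) : Av H (φ z) (φ c) (φ w) ↔ Av H z c w := by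
  constructor
  · intro h
    have h1 := av1_map φ.symm h
    rw [RelIso.symm_apply_apply, RelIso.symm_apply_apply, RelIso.symm_apply_apply] at h1
    exact h1
  · exact av1_map φ

theorem ex_map (φ : H ≃g H) (z c : V) : Ex H (φ z) (φ c) = φ '' Ex H z c := by
  ext w
  constructor
  · rintro ⟨h1, h2⟩
    obtain ⟨w', rfl⟩ := φ.surjective w
    exact ⟨w', ⟨φ.map_adj_iff.1 h1, (av_map φ z c w').1 h2⟩, rfl⟩
  · rintro ⟨w', ⟨h1, h2⟩, rfl⟩
    exact ⟨φ.map_adj_iff.2 h1, (av_map φ z c w').2 h2⟩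

theorem ex_card (φ : H ≃g H) (z c : V) : (Ex H (φ z) (φ c)).ncard = (Ex H z c).ncard := by
  rw [ex_map, Set.ncard_image_of_injective _ φ.injective]

end Pool.Agent.LHD
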