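import Pool.Agent.LHD.Defs

/-!
# Lobes, bridges, thick vertices: basic facts

`lb_compl`: a dart `(x, y)` with `x ∉ S`, `y ∈ S` is the reverse of a dart which leaves `S`. `lb_map`: the image of a lobe under an automorphism. `bg_symm`: the complement of the lobe. `bg_map`: `lb_map` for `φ` and `φ.symm`.
`nbs_map`: `y = φ (φ.symm y)`. `nbs_card`: `Set.ncard_image_of_injective`. `nb_typ`: `nb_map`. `nb_not_bg`: definition of `NB`. `lb_uniq`: the only dart which leaves `S`.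
-/

namespace Pool.Agent.LHD

open Pool.Agent.LIH Pool.Agent.LHA
open Pool.Agent.LHC (Rg DeepN De Br CZ Ctr nxt nxG glueS sAdj LN LC LO)

variable {V : Type} {H : SimpleGraph V}

theorem lb_compl {S : Set V} {q p : V} (h : Lb H S q p) : Lb H Sᶜ p q := by
  obtain ⟨h1, h2, h3, h4⟩ := h
  refine ⟨h2, fun h5 => h5 h1, h3.symm, ?_⟩
  intro x y hx hy hxy
  obtain ⟨h6, h7⟩ := h4 y x (not_not.1 hy) hx hxy.symm
  exact ⟨h7, h6⟩

theorem lb_map (φ : H ≃g H) {S : Set V} {q p : V} (h : Lb H S q p) :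
    Lb H (φ '' S) (φ q) (φ p) := by
  obtain ⟨h1, h2, h3, h4⟩ := h
  refine ⟨⟨q, h1, rfl⟩, ?_, φ.map_adj_iff.2 h3, ?_⟩
  · rintro ⟨p', hp', he⟩
    exact h2 (φ.injective he ▸ hp')
  · rintro x y ⟨x', hx', rfl⟩ hy hxy
    obtain ⟨y', rfl⟩ := φ.surjective y
    have hy' : y' ∉ S := fun h => hy ⟨y', h, rfl⟩
    obtain ⟨h5, h6⟩ := h4 x' y' hx' hy' (φ.map_adj_iff.1 hxy)
    rw [h5, h6]
    exact ⟨rfl, rfl⟩

theorem lb_uniq {S : Set V} {q p q' p' : V} (h : Lb H S q p) (h' : Lb H S q' p') :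
    q' = q ∧ p' = p := h.2.2.2 q' p' h'.1 h'.2.1 h'.2.2.1

theorem bg_symm {a b : V} (h : Bg H a b) : Bg H b a := by
  obtain ⟨U, hU⟩ := h
  exact ⟨Uᶜ, lb_compl hU⟩

theorem bg_adj {a b : V} (h : Bg H a b) : H.Adj a b := by
  obtain ⟨U, hU⟩ := h
  exact hU.2.2.1

theorem nb_symm {a b : V} (h : NB H a b) : NB H b a :=
  ⟨h.1.symm, fun h' => h.2 (bg_symm h')⟩

theorem nb_not_bg {a b : V} (h : NB H a b) : ¬ Bg H a b := h.2

theorem adj_cases {a b : V} (h : H.Adj a b) : NB H a b ∨ Bg H a b := by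
  by_cases hb : Bg H a b
  · exact Or.inr hb
  · exact Or.inl ⟨h, hb⟩

theorem bg_map (φ : H ≃g H) (a b : V) : Bg H (φ a) (φ b) ↔ Bg H a b := by
  constructor
  · rintro ⟨U, hU⟩
    have h := lb_map φ.symm hU
    rw [RelIso.symm_apply_apply, RelIso.symm_apply_apply] at h
    exact ⟨_, h⟩
  · rintro ⟨U, hU⟩
    exact ⟨_, lb_map φ hU⟩

theorem nb_map (φ : H ≃g H) (a b : V) : NB H (φ a) (φ b) ↔ NB H a b := by
  unfold NB
  rw [bg_map, φ.map_adj_iff]

theorem nbs_map (φ : H ≃g H) (a : V) : {y | NB H (φ a) y} = φ '' {y | NB H a y} := by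
  ext y
  constructor
  · intro hy
    obtain ⟨y', rfl⟩ := φ.surjective y
    exact ⟨y', (nb_map φ a y').1 hy, rfl⟩
  · rintro ⟨y', hy', rfl⟩
    exact (nb_map φ a y').2 hy'

theorem nbs_card (φ : H ≃g H) (a : V) : {y | NB H (φ a) y}.ncard = {y | NB H a y}.ncard := by
  rw [nbs_map, Set.ncard_image_of_injective _ φ.injective]

theorem th_map (φ : H ≃g H) (a : V) : Th H (φ a) ↔ Th H a := by
  unfold Th
  rw [nbs_card]

theorem nb_typ {a b c d : V} (h : ∃ φ : H ≃g H, φ a = c ∧ φ b = d) (hab : NB H a b) :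
    NB H c d := by
  obtain ⟨φ, rfl, rfl⟩ := h
  exact (nb_map φ a b).2 hab

end Pool.Agent.LHD
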