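import Pool.Agent.LHD.Defs

/-!
# Bijections which are known except at one or two points

`excl1`: `v x ∈ N(Φ y)`, so `v x = Φ x'` with `x' ∈ N(y)` (`x' = Φ.symm (v x)`). If `x' ≠ x` then `v x' = Φ x' = v x`: contradiction to injectivity. `excl2`: the same: `x' ∉ {x, ε}` is impossible. `excl3`: `u = Φ x'` with `x' ∈ N(y)`; `x' ≠ x` is excluded.
-/

namespace Pool.Agent.LHD

open Pool.Agent.LIH Pool.Agent.LHA
open Pool.Agent.LHC (Rg DeepN De Br CZ Ctr nxt nxG glueS sAdj LN LC LO)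

variable {V : Type} {H : SimpleGraph V} {Φ : H ≃g H} {y x : V}

theorem excl1 {v : V → V} (hb : Set.BijOn v (H.neighborSet y) (H.neighborSet (Φ y)))
    (hx : H.Adj y x) (h : ∀ z, H.Adj y z → z ≠ x → v z = Φ z) : v x = Φ x := by
  have h1 : H.Adj (Φ y) (v x) := hb.mapsTo hx
  have h2 : H.Adj y (Φ.symm (v x)) := by
    have := (Φ.symm.map_rel_iff (a := Φ y) (b := v x)).2 h1
    rwa [RelIso.symm_apply_apply] at this
  by_cases h3 : Φ.symm (v x) = x
  · rw [← h3, RelIso.apply_symm_apply, h3]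
  · exfalso
    have h4 := h _ h2 h3
    rw [RelIso.apply_symm_apply] at h4
    exact h3 (hb.injOn h2 hx h4)

theorem excl2 {v : V → V} {ε : V}
    (hb : Set.BijOn v (H.neighborSet y) (H.neighborSet (Φ y))) (hx : H.Adj y x)
    (h : ∀ z, H.Adj y z → z ≠ x → z ≠ ε → v z = Φ z) : v x = Φ x ∨ v x = Φ ε := by
  have h1 : H.Adj (Φ y) (v x) := hb.mapsTo hx
  have h2 : H.Adj y (Φ.symm (v x)) := by
    have := (Φ.symm.map_rel_iff (a := Φ y) (b := v x)).2 h1
    rwa [RelIso.symm_apply_apply] at this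
  by_cases h3 : Φ.symm (v x) = x
  · left
    rw [← h3, RelIso.apply_symm_apply, h3]
  · by_cases h5 : Φ.symm (v x) = ε
    · right
      rw [← h5, RelIso.apply_symm_apply]
    · exfalso
      have h4 := h _ h2 h3 h5
      rw [RelIso.apply_symm_apply] at h4
      exact h3 (hb.injOn h2 hx h4)

theorem excl3 {u : V} (hu : H.Adj (Φ y) u) (h : ∀ z, H.Adj y z → z ≠ x → u ≠ Φ z) :
    u = Φ x := by
  have h2 : H.Adj y (Φ.symm u) := by
    have := (Φ.symm.map_rel_iff (a := Φ y) (b := u)).2 hu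
    rwa [RelIso.symm_apply_apply] at this
  by_cases h3 : Φ.symm u = x
  · rw [← h3, RelIso.apply_symm_apply]
  · exfalso
    exact h _ h2 h3 (RelIso.apply_symm_apply Φ u).symm

end Pool.Agent.LHD
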