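import Pool.Agent.LHD.Defs
import Pool.Agent.LHD.Bg1
import Pool.Agent.LHD.Av1

/-!
# Edges which are not bridges

Let `H.Adj z c`, `U = {w | Av H z c w}`. `z ∉ U` (`av_ne`), `c ∈ U`, and a dart which leaves `U` ends at `z` (`av_ext`), so it is `(w, z)` with `w ∈ Ex H z c`; conversely for `w ∈ Ex H z c` the dart `(w, z)` leaves `U`.
`nb_iff_ex`: (→) if `|Ex H z c| ≤ 1` then `Ex H z c = {c}` (`ex_self`), so `(c, z)` is the only dart which leaves `U`: `Bg H c z`, `Bg H z c` (`bg_symm`). (←) let `w ∈ Ex H z c`, `w ≠ c`, and suppose `Bg H z c`, i.e. `Bg H c z`: a lobe `S`, `c ∈ S`, `z ∉ S`, whose only exit is `(c, z)`. Then `w ∉ S` (otherwise `(w, z)` leaves `S`, `w = c`).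
The walk from `c` to `w` which avoids `z` leaves `S` at some step, which is `(c, z)`: but it does not enter `z` (use induction on the walk: all its vertices are in `S`). `ex_nb`: `ex_eq`, `nb_iff_ex`. `nb_two`: `|Ex H z c| ≥ 2`: there is `c' ≠ c` in it; `ex_nb`.
`cut_one`: if no dart leaves `U`: a walk from a vertex of `U` to a vertex of `Uᶜ` (`H.Connected`) has a dart which leaves `U` (`SimpleGraph.Walk.exists_boundary_dart`). `cut_two`: there is a dart `(x, y)` by `cut_one`; if it is the only one then `Lb H U x y`, so `Bg H x y`, but `NB H x y`.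
`exists_bg`: otherwise all neighbours of `z` are in `{y | NB H z y}` (`adj_cases`), so `Th H z`.
`nb_finite`: finite.
-/

namespace Pool.Agent.LHD

open Pool.Agent.LIH Pool.Agent.LHA
open Pool.Agent.LHC (Rg DeepN De Br CZ Ctr nxt nxG glueS sAdj LN LC LO)

variable {V : Type} [Finite V] {H : SimpleGraph V}

theorem nb_iff_ex {z c : V} (h : H.Adj z c) : NB H z c ↔ 2 ≤ (Ex H z c).ncard := by
  have hcz : c ≠ z := h.ne'
  constructor
  · intro hN
    by_contra hcon
    apply hN.2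
    apply bg_symm
    have hle : (Ex H z c).ncard ≤ 1 := by omega
    rw [Set.ncard_le_one_iff (Set.toFinite _)] at hle
    refine ⟨{w | Av H z c w}, Relation.ReflTransGen.refl, fun hz => av_ne hz hcz rfl, h.symm, ?_⟩
    intro x y hx hy hxy
    have hyz : y = z := by
      by_contra hne
      exact hy (av_ext hx hxy hne)
    subst hyz
    exact ⟨hle ⟨hxy.symm, hx⟩ (ex_self h), rfl⟩
  · intro h2
    refine ⟨h, fun hB => ?_⟩
    obtain ⟨w, hw, hwc⟩ := Set.exists_ne_of_one_lt_ncard (by omega : 1 < (Ex H z c).ncard) c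
    obtain ⟨S, hS1, hS2, _, hS4⟩ := bg_symm hB
    have key : ∀ w, Av H z c w → w ∈ S := by
      intro w hw
      induction hw with
      | refl => exact hS1
      | tail _ hst ih =>
        by_contra hcon
        exact hst.2 (hS4 _ _ ih hcon hst.1).2
    exact hwc (hS4 w z (key w hw.2) hS2 hw.1.symm).1

theorem ex_nb {z c c' : V} (h : NB H z c) (h' : c' ∈ Ex H z c) : NB H z c' := by
  rw [nb_iff_ex h'.1, ex_eq h.1 h', ← nb_iff_ex h.1]
  exact h

theorem nb_two {z c : V} (h : NB H z c) : ∃ c', c' ≠ c ∧ NB H z c' := by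
  have h2 := (nb_iff_ex h.1).1 h
  obtain ⟨w, hw, hwc⟩ := Set.exists_ne_of_one_lt_ncard (by omega : 1 < (Ex H z c).ncard) c
  exact ⟨w, hwc, ex_nb h hw⟩

omit [Finite V] in
theorem cut_one (hc : H.Connected) {U : Set V} (h1 : U.Nonempty) (h2 : Uᶜ.Nonempty) :
    ∃ x y, x ∈ U ∧ y ∉ U ∧ H.Adj x y := by
  obtain ⟨a, ha⟩ := h1
  obtain ⟨b, hb⟩ := h2
  obtain ⟨p⟩ := hc.preconnected a b
  obtain ⟨d, _, hd1, hd2⟩ := p.exists_boundary_dart U ha hb
  exact ⟨d.fst, d.snd, hd1, hd2, d.adj⟩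

omit [Finite V] in
theorem cut_two (hc : H.Connected) {U : Set V} (h1 : U.Nonempty) (h2 : Uᶜ.Nonempty)
    (h : ∀ x y, x ∈ U → y ∉ U → H.Adj x y → NB H x y) :
    ∃ x y x' y', x ∈ U ∧ y ∉ U ∧ H.Adj x y ∧ x' ∈ U ∧ y' ∉ U ∧ H.Adj x' y' ∧
      ¬ (x = x' ∧ y = y') := by
  obtain ⟨x, y, hx, hy, hxy⟩ := cut_one hc h1 h2
  by_contra hcon
  refine (h x y hx hy hxy).2 ⟨U, hx, hy, hxy, ?_⟩
  intro x' y' hx' hy' hxy'
  by_contra hne
  exact hcon ⟨x, y, x', y', hx, hy, hxy, hx', hy', hxy', fun e => hne ⟨e.1.symm, e.2.symm⟩⟩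

omit [Finite V] in
theorem exists_bg {z : V} (h3 : 3 ≤ (H.neighborSet z).ncard) (h : ¬ Th H z) :
    ∃ y, Bg H z y := by
  by_contra hcon
  push Not at hcon
  apply h
  have : {y | NB H z y} = H.neighborSet z := by
    ext y
    exact ⟨fun hy => hy.1, fun hy => ⟨hy, hcon y⟩⟩
  unfold Th
  rw [this]
  exact h3

end Pool.Agent.LHD
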