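import Pool.Agent.LHD.Defs
import Pool.Agent.LHD.Bg1
import Pool.Agent.LHD.Nb2

/-!
# Two lobes

Suppose that all four sets `C1 = S ∩ T`, `C2 = S \ T`, `C3 = T \ S`, `C4 = (S ∪ T)ᶜ` are nonempty. An edge between two different `Ci` crosses `S` (then it is the edge `{q, p}`) or crosses `T` (then it is `{q', p'}`). Let the edge `{q, p}` join `Ci` and `Cj` (`q ∈ S`, `p ∉ S`).
By `cut_one` some edge leaves the nonempty set `Ci ∪ Cj` (its complement contains another `Ck`); it is not `{q, p}` (both ends are in `Ci ∪ Cj`), so it is `{q', p'}`, which joins `Ci ∪ Cj` with a `Ck`, `k ≠ i, j`. Let `l` be the fourth index. Neither of the two edges has an end in `Cl`, but `cut_one` gives an edge which leaves `Cl`: contradiction.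
(Alternatively: if the two edges are the same edge, it has ends in at most two of the sets; if they are different they have ends in ... ; each `Ci` must contain an end of an edge which leaves it, so the four ends `q, p, q', p'` are in four different sets; then no edge leaves the union of the two sets which contain `q` and `p`.)
-/

namespace Pool.Agent.LHD

open Pool.Agent.LIH Pool.Agent.LHA
open Pool.Agent.LHC (Rg DeepN De Br CZ Ctr nxt nxG glueS sAdj LN LC LO)

theorem four_corners {V : Type} {H : SimpleGraph V} (hc : H.Connected) {S T : Set V}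
    {q p q' p' : V} (hS : Lb H S q p) (hT : Lb H T q' p') :
    S ∩ T = ∅ ∨ S ⊆ T ∨ T ⊆ S ∨ S ∪ T = Set.univ := by
  obtain ⟨hqS, hpS, hqp, s⟩ := hS
  obtain ⟨hqT, hpT, hqp', t⟩ := hT
  by_contra hcon
  simp only [not_or] at hcon
  obtain ⟨h1, h2, h3, h4⟩ := hcon
  obtain ⟨x1, hx1⟩ := Set.nonempty_iff_ne_empty.2 h1
  obtain ⟨x2, hx2, hx2'⟩ := Set.not_subset.1 h2
  obtain ⟨x3, hx3, hx3'⟩ := Set.not_subset.1 h3
  obtain ⟨x4, hx4⟩ := (Set.ne_univ_iff_exists_notMem _).1 h4
  have hx4S : x4 ∉ S := fun h => hx4 (Or.inl h)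
  have hx4T : x4 ∉ T := fun h => hx4 (Or.inr h)
  have e1 : q ∈ T ∨ q' ∈ S := by
    obtain ⟨x, y, hx, hy, hxy⟩ := cut_one hc (U := S ∩ T) ⟨x1, hx1⟩ ⟨x4, fun h => hx4S h.1⟩
    by_cases hyS : y ∈ S
    · have hyT : y ∉ T := fun h => hy ⟨hyS, h⟩
      right
      rw [← (t x y hx.2 hyT hxy).1]
      exact hx.1
    · left
      rw [← (s x y hx.1 hyS hxy).1]
      exact hx.2
  have e2 : q ∉ T ∨ p' ∈ S := by
    obtain ⟨x, y, hx, hy, hxy⟩ := cut_one hc (U := S \ T) ⟨x2, hx2, hx2'⟩ ⟨x4, fun h => hx4S h.1⟩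
    by_cases hyS : y ∈ S
    · have hyT : y ∈ T := by
        by_contra h
        exact hy ⟨hyS, h⟩
      right
      rw [← (t y x hyT hx.2 hxy.symm).2]
      exact hx.1
    · left
      rw [← (s x y hx.1 hyS hxy).1]
      exact hx.2
  have e3 : p ∈ T ∨ q' ∉ S := by
    obtain ⟨x, y, hx, hy, hxy⟩ := cut_one hc (U := T \ S) ⟨x3, hx3, hx3'⟩ ⟨x4, fun h => hx4T h.1⟩
    by_cases hyT : y ∈ T
    · have hyS : y ∈ S := by
        by_contra h
        exact hy ⟨hyT, h⟩
      left
      rw [← (s y x hyS hx.2 hxy.symm).2]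
      exact hx.1
    · right
      rw [← (t x y hx.1 hyT hxy).1]
      exact hx.2
  have e4 : p ∉ T ∨ p' ∉ S := by
    obtain ⟨x, y, hx, hy, hxy⟩ := cut_one hc (U := (S ∪ T)ᶜ) ⟨x4, hx4⟩ ⟨x1, fun h => h (Or.inl hx1.1)⟩
    have hxS : x ∉ S := fun h => hx (Or.inl h)
    have hxT : x ∉ T := fun h => hx (Or.inr h)
    by_cases hyS : y ∈ S
    · left
      rw [← (s y x hyS hxS hxy.symm).2]
      exact hxT
    · have hyT : y ∈ T := by
        by_contra h
        exact hy fun h' => h'.elim hyS h
      right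
      rw [← (t y x hyT hxT hxy.symm).2]
      exact hxS
  by_cases a : q ∈ T
  · by_cases b : p ∈ T
    · rcases e4 with e4 | e4
      · exact e4 b
      · rcases e2 with e2 | e2
        · exact e2 a
        · exact e4 e2
    · obtain ⟨_, f2⟩ := t q p a b hqp
      rcases e2 with e2 | e2
      · exact e2 a
      · rw [← f2] at e2
        exact hpS e2
  · by_cases b : p ∈ T
    · obtain ⟨f1, _⟩ := t p q b a hqp.symm
      rcases e1 with e1 | e1
      · exact a e1
      · rw [← f1] at e1
        exact hpS e1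
    · rcases e1 with e1 | e1
      · exact a e1
      · rcases e3 with e3 | e3
        · exact b e3
        · exact e3 e1

end Pool.Agent.LHD
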