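import Pool.Agent.LHD.Defs
import Pool.Agent.LHD.Bg1
import Pool.Agent.LHD.Nb2
import Pool.Agent.LHD.Fc

/-!
# Every lobe contains a thick vertex

`lobe_thick`: among the lobes contained in `S` take one, `S'`, with the least number of elements; its exit is `(q', p')`. Claim: if `x ∈ S'`, `x ≠ q'` then `NB H x y` for all `y` with `H.Adj x y`. Otherwise `Bg H x y` (`adj_cases`): a lobe `T` with the exit `(x, y)`, `x ∈ T`, `y ∉ T`. `y ∈ S'` since the only exit of `S'` is at `q'`.
`four_corners` for `S'`, `T`: `S' ∩ T = ∅` is false (`x`), `S' ⊆ T` is false (`y`); `T ⊆ S'`: `T` is a smaller lobe (`y ∈ S' \ T`); `S' ∪ T = univ`: `Tᶜ ⊆ S'` is a smaller lobe (`lb_compl`, `x ∈ S' \ Tᶜ`). Contradiction.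
`q'` has at least three neighbours, and at most one of them (`p'`) is not in `S'`; so there is `x ∈ S'`, `x ≠ q'`. All its at least three neighbours `y` satisfy `NB H x y`: `Th H x`.
-/

namespace Pool.Agent.LHD

open Pool.Agent.LIH Pool.Agent.LHA
open Pool.Agent.LHC (Rg DeepN De Br CZ Ctr nxt nxG glueS sAdj LN LC LO)

theorem lob_aux {V : Type} [Finite V] {H : SimpleGraph V} (hc : H.Connected)
    (h3 : ∀ v, 3 ≤ (H.neighborSet v).ncard) (n : ℕ) : ∀ {S : Set V} {q p : V}, S.ncard = n → Lb H S q p →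
    ∃ z ∈ S, Th H z := by
  induction n using Nat.strong_induction_on with
  | _ n ih =>
  intro S q p hn hS
  by_cases hmin : ∃ T : Set V, ∃ q' p', T ⊂ S ∧ Lb H T q' p'
  · obtain ⟨T, q', p', hTS, hT⟩ := hmin
    have h1 : T.ncard < S.ncard := Set.ncard_lt_ncard hTS (Set.toFinite S)
    obtain ⟨z, hz, hz'⟩ := ih T.ncard (hn ▸ h1) rfl hT
    exact ⟨z, hTS.1 hz, hz'⟩
  · have claim : ∀ x y, x ∈ S → x ≠ q → H.Adj x y → NB H x y := by
      intro x y hx hxq hxy
      rcases adj_cases hxy with h | h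
      · exact h
      · exfalso
        obtain ⟨T, hT⟩ := h
        have hyS : y ∈ S := by
          by_contra hyS
          exact hxq (hS.2.2.2 x y hx hyS hxy).1
        rcases four_corners hc hS hT with h1 | h1 | h1 | h1
        · have : x ∈ S ∩ T := ⟨hx, hT.1⟩
          rw [h1] at this
          exact this
        · exact hT.2.1 (h1 hyS)
        · exact hmin ⟨T, x, y, ⟨h1, fun h2 => hT.2.1 (h2 hyS)⟩, hT⟩
        · refine hmin ⟨Tᶜ, y, x, ⟨?_, fun h2 => h2 hx hT.1⟩, lb_compl hT⟩
          intro w hw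
          have hw' : w ∈ S ∪ T := by
            rw [h1]
            trivial
          exact hw'.resolve_right hw
    obtain ⟨x, hx, hxp⟩ : ∃ x, H.Adj q x ∧ x ≠ p := by
      by_contra hcon
      push Not at hcon
      have h1 : H.neighborSet q ⊆ {p} := fun x hx => hcon x hx
      have h2 := Set.ncard_le_ncard h1 (Set.toFinite _)
      rw [Set.ncard_singleton] at h2
      have h4 := h3 q
      omega
    have hxS : x ∈ S := by
      by_contra hxS
      exact hxp (hS.2.2.2 q x hS.1 hxS hx).2
    refine ⟨x, hxS, ?_⟩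
    have h1 : H.neighborSet x ⊆ {y | NB H x y} := fun y hy => claim x y hxS (H.ne_of_adj hx).symm hy
    exact (h3 x).trans (Set.ncard_le_ncard h1 (Set.toFinite _))

theorem lobe_thick {V : Type} [Finite V] {H : SimpleGraph V} (hc : H.Connected)
    (h3 : ∀ v, 3 ≤ (H.neighborSet v).ncard) {S : Set V} {q p : V} (hS : Lb H S q p) :
    ∃ z ∈ S, Th H z := lob_aux hc h3 S.ncard rfl hS

end Pool.Agent.LHD
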