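import Pool.Agent.LHD.Defs
import Pool.Agent.LHD.Bg1
import Pool.Agent.LHD.Av1
import Pool.Agent.LHD.Nb2
import Pool.Agent.LHD.Lob

/-!
# Thick vertices which can be reached

`lobe_av`: let `U = {w ∈ T | Av H x q w}`, `q ∈ U`. A dart `(w, w')` which leaves `U`: if `w' ∈ T` then `w' ≠ x` (`hx`), so `w' ∈ U` (`av_ext`); so `w' ∉ T` and `(w, w') = (q, c)`. Suppose that `T \ U` is not empty. A dart `(w, w')` leaves it (`cut_one`; `q ∉ T \ U`). If `w' ∉ T` then `w = q ∈ U`: contradiction. So `w' ∈ U` and `(w', w)` leaves `U`, so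
`w = c ∉ T`: contradiction. So `T = U`.
`av_thick`: Case 1: `Th H y`: the empty walk. Case 2: there is `q ≠ x` with `Bg H y q`. Let `T` be the lobe with the exit `(q, y)` (`bg_symm`). `x ∉ T`: otherwise `(x, y)` leaves `T`, so `x = q`. `lobe_thick` gives a thick `t ∈ T`, `lobe_av` the walk from `q` to `t`; put the step `y → q` before it. Case 3: neither. By `exists_bg` there is a bridge at `y`, it is `(y, x)`; all neighbours `c ≠ x` of `y`
satisfy `NB H y c`. Take one (degree at least 3), `c ≠ x`. If `Th H c`: done (one step). Otherwise there is `q` with `Bg H c q` (`exists_bg`); `q ≠ y` because `NB H y c`. `q ≠ x`: let `U` be the lobe with the exit `(y, x)`, `y ∈ U`, `x ∉ U`; `c ∈ U` (otherwise `(y, c)` leaves `U`, `c = x`); if `q = x` then `(c, x)` leaves `U`, so `c = y`: contradiction. Let `T` be the lobe with the exit `(q, c)`, `q ∈ T`,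
`c ∉ T`. `y ∉ T`: otherwise `(y, c)` leaves `T`, `y = q`, but `q ≠ y`. `x ∉ T`: otherwise `(x, y)` leaves `T`, so `x = q`: contradiction. As in case 2 with the steps `y → c → q`.
-/

namespace Pool.Agent.LHD

open Pool.Agent.LIH Pool.Agent.LHA
open Pool.Agent.LHC (Rg DeepN De Br CZ Ctr nxt nxG glueS sAdj LN LC LO)

variable {V : Type} {H : SimpleGraph V}

theorem lobe_av (hc : H.Connected) {T : Set V} {q c x : V} (hT : Lb H T q c) (hx : x ∉ T) {t : V}
    (ht : t ∈ T) : Av H x q t := by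
  by_contra hcon
  have hW : ({w | w ∈ T ∧ ¬ Av H x q w} : Set V).Nonempty := ⟨t, ht, hcon⟩
  have hWc : ({w | w ∈ T ∧ ¬ Av H x q w} : Set V)ᶜ.Nonempty :=
    ⟨q, fun hq => hq.2 Relation.ReflTransGen.refl⟩
  obtain ⟨w, w', hw, hw', ha⟩ := cut_one hc hW hWc
  have hwT : w ∈ T := hw.1
  by_cases hT' : w' ∈ T
  · have hav : Av H x q w' := by
      by_contra hn
      exact hw' ⟨hT', hn⟩
    apply hw.2
    refine av_ext hav ha.symm ?_
    rintro rfl
    exact hx hwT
  · obtain ⟨h1, _⟩ := hT.2.2.2 w w' hwT hT' ha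
    apply hw.2
    rw [h1]
    exact Relation.ReflTransGen.refl

theorem av_thick [Finite V] (hc : H.Connected) (h3 : ∀ v, 3 ≤ (H.neighborSet v).ncard) {x y : V}
    (h : H.Adj x y) : ∃ z, Av H x y z ∧ Th H z := by
  by_cases hy : Th H y
  · exact ⟨y, Relation.ReflTransGen.refl, hy⟩
  by_cases h2 : ∃ q, q ≠ x ∧ Bg H y q
  · obtain ⟨q, hqx, hb⟩ := h2
    obtain ⟨T, hT⟩ := bg_symm hb
    have hxT : x ∉ T := by
      intro hx
      exact hqx (hT.2.2.2 x y hx hT.2.1 h).1.symm
    obtain ⟨t, htT, htt⟩ := lobe_thick hc h3 hT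
    refine ⟨t, ?_, htt⟩
    exact Relation.ReflTransGen.head ⟨bg_adj hb, hqx⟩ (lobe_av hc hT hxT htT)
  · have h2' : ∀ q, Bg H y q → q = x := by
      intro q hb
      by_contra hne
      exact h2 ⟨q, hne, hb⟩
    obtain ⟨z, hz⟩ := exists_bg (h3 y) hy
    have hzx := h2' z hz
    subst hzx
    obtain ⟨U, hU⟩ := hz
    obtain ⟨c, hyc, hcx⟩ : ∃ c, H.Adj y c ∧ c ≠ z := by
      by_contra hn
      have hsub : H.neighborSet y ⊆ {z} := by
        intro c hc'
        by_contra hne
        exact hn ⟨c, hc', hne⟩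
      have h4 := Set.ncard_le_ncard hsub (Set.finite_singleton z)
      rw [Set.ncard_singleton] at h4
      have h5 := h3 y
      omega
    have hnb : NB H y c := by
      rcases adj_cases hyc with h1 | h1
      · exact h1
      · exact absurd (h2' c h1) hcx
    by_cases hct : Th H c
    · exact ⟨c, Relation.ReflTransGen.single ⟨hyc, hcx⟩, hct⟩
    obtain ⟨q, hq⟩ := exists_bg (h3 c) hct
    have hqy : q ≠ y := by
      rintro rfl
      exact (nb_symm hnb).2 hq
    have hcU : c ∈ U := by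
      by_contra hn
      exact hcx (hU.2.2.2 y c hU.1 hn hyc).2
    have hqz : q ≠ z := by
      rintro rfl
      have h6 := (hU.2.2.2 c q hcU hU.2.1 (bg_adj hq)).1
      rw [h6] at hyc
      exact H.loopless.irrefl _ hyc
    obtain ⟨T, hT⟩ := bg_symm hq
    have hyT : y ∉ T := by
      intro hy'
      exact hqy (hT.2.2.2 y c hy' hT.2.1 hyc).1.symm
    have hxT : z ∉ T := by
      intro hx
      exact hqz (hT.2.2.2 z y hx hyT h).1.symm
    obtain ⟨t, htT, htt⟩ := lobe_thick hc h3 hT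
    refine ⟨t, ?_, htt⟩
    exact Relation.ReflTransGen.head ⟨hyc, hcx⟩
      (Relation.ReflTransGen.head ⟨bg_adj hq, hqz⟩ (lobe_av hc hT hxT htT))

end Pool.Agent.LHD
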