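import Pool.Agent.LHD.Defs
import Pool.Agent.LHD.Av1
import Pool.Agent.LHD.PthA

/-!
# Paths to thick vertices

`wk_of_av`: induction on the walk: start with `[y]`; if `A` is a list for `w`, `H.Adj w w'`, `w' ≠ x` then `w' :: A` is a list for `w'` (`TreeBall_hd x A = w`).
`pth`: by `av_thick`, `wk_of_av` there is a list `A` with `P A`: `Wk H x A`, `A.getLast? = some y`, `x ∉ A`, `Th H (TreeBall_hd x A)`. Take one of minimal length (`A ≠ []`). It satisfies `PtK`: `nth`: if `d ∈ A.tail` is thick, `A = A1 ++ d :: A2` with `A1 ≠ []`; then `d :: A2` satisfies `P` (`Wk` passes to suffixes; the last element is the same) and is shorter. `nd`: if `A` is not `Nodup` then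
`A = A1 ++ d :: (A2 ++ d :: A3)`, and `A1 ++ d :: A3` satisfies `P` (`Wk`: the steps of `A1` before `d` are the same, since only the head `d` of the rest matters; last element: the one of `d :: A3`; head: the head of `A1` or `d`) and is shorter. `x ∉ A`.
-/

namespace Pool.Agent.LHD

open Pool.Agent.LIH Pool.Agent.LHA
open Pool.Agent.LHC (Rg DeepN De Br CZ Ctr nxt nxG glueS sAdj LN LC LO)

variable {V : Type} {H : SimpleGraph V}

theorem pthB_suf {x : V} : ∀ {A B : List V}, Wk H x (A ++ B) → Wk H x B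
  | [], _, h => h
  | _ :: _, _, h => pthB_suf h.1

theorem pthB_hd {x d : V} (A B B' : List V) : TreeBall_hd x (A ++ d :: B) = TreeBall_hd x (A ++ d :: B') := by
  cases A <;> rfl

theorem pthB_wk {x d : V} : ∀ {A B B' : List V}, Wk H x (A ++ d :: B) → Wk H x (d :: B') → Wk H x (A ++ d :: B')
  | [], _, _, _, h' => h'
  | _ :: A, B, B', h, h' => by
    refine ⟨pthB_wk h.1 h', ?_⟩
    have h2 : H.Adj (TreeBall_hd x (A ++ d :: B)) _ := h.2
    rw [pthB_hd A B B'] at h2
    exact h2

theorem pthB_dup : ∀ {A : List V}, ¬ A.Nodup → ∃ (d : V) (A1 A2 A3 : List V), A = A1 ++ d :: (A2 ++ d :: A3)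
  | [], h => absurd List.nodup_nil h
  | c :: A, h => by
    by_cases hc : c ∈ A
    · obtain ⟨A2, A3, h1⟩ := List.append_of_mem hc
      exact ⟨c, [], A2, A3, by rw [h1]; rfl⟩
    · have h1 : ¬ A.Nodup := fun h2 => h (List.nodup_cons.2 ⟨hc, h2⟩)
      obtain ⟨d, A1, A2, A3, h2⟩ := pthB_dup h1
      exact ⟨d, c :: A1, A2, A3, by rw [h2]; rfl⟩

theorem pthB_last {d : V} (A B : List V) : (A ++ d :: B).getLast? = (d :: B).getLast? := by
  rw [List.getLast?_append_of_ne_nil _ (List.cons_ne_nil d B)]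

theorem wk_of_av {x y w : V} (hxy : H.Adj x y) (h : Av H x y w) : ∃ A : List V, Wk H x A ∧
    A.getLast? = some y ∧ x ∉ A ∧ TreeBall_hd x A = w ∧ A ≠ [] := by
  unfold Av at h
  induction h with
  | refl => exact ⟨[y], ⟨trivial, hxy⟩, rfl, by simp [hxy.ne], rfl, by simp⟩
  | tail _ h2 ih =>
    obtain ⟨A, h3, h4, h5, h6, h7⟩ := ih
    rename_i b c _
    refine ⟨c :: A, ⟨h3, ?_⟩, ?_, ?_, rfl, by simp⟩
    · rw [h6]
      exact h2.1
    · rw [← h4]
      exact List.getLast?_append_of_ne_nil [c] h7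
    · rw [List.mem_cons, not_or]
      exact ⟨fun e => h2.2 e.symm, h5⟩

theorem pth [Finite V] (hc : H.Connected) (h3 : ∀ v, 3 ≤ (H.neighborSet v).ncard) {x y : V}
    (h : H.Adj x y) : ∃ A, PtK H x y A := by
  classical
  obtain ⟨z, hz, hth⟩ := av_thick hc h3 h
  obtain ⟨A0, g1, g2, g3, g4, _⟩ := wk_of_av h hz
  have hne : ({A : List V | Wk H x A ∧ A.getLast? = some y ∧ x ∉ A ∧ Th H (TreeBall_hd x A)}).Nonempty :=
    ⟨A0, g1, g2, g3, by rw [g4]; exact hth⟩
  obtain ⟨A, ⟨hA1, hA2, hA3, hA4⟩, hmin⟩ := WellFounded.has_min (measure List.length).wf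
    {A : List V | Wk H x A ∧ A.getLast? = some y ∧ x ∉ A ∧ Th H (TreeBall_hd x A)} hne
  have hmin' : ∀ B : List V, Wk H x B → B.getLast? = some y → x ∉ B → Th H (TreeBall_hd x B) →
      A.length ≤ B.length := fun B b1 b2 b3 b4 => not_lt.1 (hmin B ⟨b1, b2, b3, b4⟩)
  refine ⟨A, hA1, ?_, hA2, hA4, ?_⟩
  · have hnd : A.Nodup := by
      by_contra hcon
      obtain ⟨d, A1, A2, A3, hA⟩ := pthB_dup hcon
      have hlen : (A1 ++ d :: A3).length < A.length := by
        rw [hA]
        simp only [List.length_append, List.length_cons]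
        omega
      refine absurd (hmin' (A1 ++ d :: A3) ?_ ?_ ?_ ?_) (not_le.2 hlen)
      · have h5 : Wk H x (A1 ++ d :: (A2 ++ d :: A3)) := hA ▸ hA1
        have h6 : Wk H x ((A1 ++ d :: A2) ++ d :: A3) := by
          rw [List.append_assoc]
          exact h5
        exact pthB_wk h5 (pthB_suf h6)
      · rw [hA, show A1 ++ d :: (A2 ++ d :: A3) = (A1 ++ d :: A2) ++ d :: A3 by simp, pthB_last] at hA2
        rw [pthB_last]
        exact hA2
      · intro hx
        apply hA3
        rw [hA]
        simp only [List.mem_append, List.mem_cons] at hx ⊢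
        tauto
      · rw [pthB_hd A1 A3 (A2 ++ d :: A3), ← hA]
        exact hA4
    rw [List.nodup_append]
    refine ⟨hnd, List.nodup_singleton x, ?_⟩
    intro a ha b hb
    rw [List.mem_singleton] at hb
    rintro rfl
    exact hA3 (hb ▸ ha)
  · intro d hd hdt
    cases A with
    | nil => simp at hd
    | cons c A' =>
      obtain ⟨B1, A2, h5⟩ := List.append_of_mem (show d ∈ A' from hd)
      have hA : c :: A' = (c :: B1) ++ d :: A2 := by rw [h5]; rfl
      have hlen : (d :: A2).length < (c :: A').length := by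
        rw [hA]
        simp only [List.length_append, List.length_cons]
        omega
      refine absurd (hmin' (d :: A2) ?_ ?_ ?_ hdt) (not_le.2 hlen)
      · rw [hA] at hA1
        exact pthB_suf hA1
      · rw [hA, pthB_last] at hA2
        exact hA2
      · intro hx
        apply hA3
        rw [hA]
        exact List.mem_append_right _ hx

end Pool.Agent.LHD
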