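import Pool.Agent.LHD.Defs
import Pool.Agent.LHD.Bg1
import Pool.Agent.LHD.PthB

/-!
# The branches at a bridge

`dsj`: let `U` be the lobe with the exit `(x, y)`: `x ∈ U`, `y ∉ U`. All elements of `A` are in `U`: by induction from the last element `a` to the first: `a ∈ U`, otherwise `(x, a)` leaves `U` and `a = y`; if `d ∈ U` is in `A` and the next one `d'` is not in `U` then `d = x`, but `x ∉ A` (`nd`). All elements of `B` are not in `U`: the last one is `y`; if `d ∉ U` and the next one `d' ∈ U` then `(d', d)` leaves `U`, `d' = x`, but `x ∉ B`.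
`gp_exists`: `B` from `pth`. If `Th H x`: `A = []`. Otherwise: `x` has at least three neighbours, choose `a ≠ y, q`; `A` from `pth`, `dsj`. The fields of `GP` are those of `PtK`.
-/

namespace Pool.Agent.LHD

open Pool.Agent.LIH Pool.Agent.LHA
open Pool.Agent.LHC (Rg DeepN De Br CZ Ctr nxt nxG glueS sAdj LN LC LO)

variable {V : Type} {H : SimpleGraph V}

theorem Dsj_A {U : Set V} {x y a : V} (hU : Lb H U x y) (ha : a ≠ y) : ∀ A : List V, Wk H x A →
    x ∉ A → A.getLast? = some a → ∀ d ∈ A, d ∈ U
  | [], _, _, _ => by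
      intro d hd
      exact absurd hd List.not_mem_nil
  | [c], hw, hx, hl => by
      intro d hd
      have hd' : d = c := List.mem_singleton.1 hd
      have hc : c = a := by simpa using hl
      rw [hd']
      by_contra hcU
      have hadj : H.Adj x c := hw.2
      have h1 := hU.2.2.2 x c hU.1 hcU hadj
      exact ha (hc.symm.trans h1.2)
  | c :: e :: A, hw, hx, hl => by
      have hx1 : x ∉ e :: A := fun h => hx (List.mem_cons_of_mem c h)
      have hl1 : (e :: A).getLast? = some a := by
        rw [List.getLast?_cons_cons] at hl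
        exact hl
      have ih := Dsj_A hU ha (e :: A) hw.1 hx1 hl1
      intro d hd
      rcases List.mem_cons.1 hd with h1 | h1
      · rw [h1]
        by_contra hcU
        have hadj : H.Adj e c := hw.2
        have he : e ∈ U := ih e List.mem_cons_self
        have h2 := hU.2.2.2 e c he hcU hadj
        exact hx1 (by rw [← h2.1]; exact List.mem_cons_self)
      · exact ih d h1

theorem Dsj_B {U : Set V} {x y : V} (hU : Lb H U x y) : ∀ B : List V, Wk H x B →
    x ∉ B → B.getLast? = some y → ∀ d ∈ B, d ∉ U
  | [], _, _, _ => by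
      intro d hd
      exact absurd hd List.not_mem_nil
  | [c], hw, hx, hl => by
      intro d hd
      have hd' : d = c := List.mem_singleton.1 hd
      have hc : c = y := by simpa using hl
      rw [hd', hc]
      exact hU.2.1
  | c :: e :: A, hw, hx, hl => by
      have hx1 : x ∉ e :: A := fun h => hx (List.mem_cons_of_mem c h)
      have hl1 : (e :: A).getLast? = some y := by
        rw [List.getLast?_cons_cons] at hl
        exact hl
      have ih := Dsj_B hU (e :: A) hw.1 hx1 hl1
      intro d hd
      rcases List.mem_cons.1 hd with h1 | h1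
      · rw [h1]
        intro hcU
        have hadj : H.Adj e c := hw.2
        have he : e ∉ U := ih e List.mem_cons_self
        have h2 := hU.2.2.2 c e hcU he hadj.symm
        exact hx (by rw [← h2.1]; exact List.mem_cons_self)
      · exact ih d h1

theorem Dsj_nx {x : V} {A : List V} (h : (A ++ [x]).Nodup) : x ∉ A := by
  intro hx
  have h1 := (List.nodup_append.1 h).2.2
  exact h1 x hx x List.mem_cons_self rfl

theorem dsj {x y a : V} {A B : List V} (hb : Bg H x y) (ha : a ≠ y) (hA : PtK H x a A)
    (hB : PtK H x y B) : List.Disjoint A B := by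
  obtain ⟨U, hU⟩ := hb
  intro d h1 h2
  exact Dsj_B hU B hB.wk (Dsj_nx hB.nd) hB.last d h2 (Dsj_A hU ha A hA.wk (Dsj_nx hA.nd) hA.last d h1)

theorem gp_exists [Finite V] (hc : H.Connected) (h3 : ∀ v, 3 ≤ (H.neighborSet v).ncard)
    {x y : V} (hb : Bg H x y) (q : V) : ∃ A B, GP H x A B ∧ B.getLast? = some y ∧
      ((A = [] ∧ Th H x) ∨ (¬ Th H x ∧ ∃ a, A.getLast? = some a ∧ a ≠ q ∧ a ≠ y)) := by
  obtain ⟨B, hB⟩ := pth hc h3 (bg_adj hb)
  have hBn : B ≠ [] := by
    intro h
    have := hB.last
    rw [h] at this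
    simp at this
  by_cases hx : Th H x
  · refine ⟨[], B, ⟨trivial, hB.wk, ?_, hB.nd, ?_, hx, hB.th, ?_, hB.nth, ?_, hBn⟩, hB.last, Or.inl ⟨rfl, hx⟩⟩
    · simp
    · intro d h1
      exact absurd h1 List.not_mem_nil
    · intro d h1
      exact absurd h1 List.not_mem_nil
    · intro h
      exact absurd rfl h
  · obtain ⟨a, ha, hay, haq⟩ : ∃ a, H.Adj x a ∧ a ≠ y ∧ a ≠ q := by
      by_contra hcon
      push Not at hcon
      have h1 : H.neighborSet x ⊆ {y, q} := by
        intro a ha
        by_cases h2 : a = y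
        · exact Or.inl h2
        · exact Or.inr (hcon a ha h2)
      have h2 := Set.ncard_le_ncard h1 (Set.toFinite _)
      have h4 := Set.ncard_insert_le y ({q} : Set V)
      rw [Set.ncard_singleton] at h4
      have h5 := h3 x
      omega
    obtain ⟨A, hA⟩ := pth hc h3 ha
    exact ⟨A, B, ⟨hA.wk, hB.wk, hA.nd, hB.nd, dsj hb hay hA hB, hA.th, hB.th, hA.nth, hB.nth,
      fun _ => hx, hBn⟩, hB.last, Or.inr ⟨hx, a, hA.last, haq, hay⟩⟩

end Pool.Agent.LHD
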