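import Pool.Agent.LHD.Defs
import Pool.Agent.LHD.Bg1

/-!
# Nodes and link ports

`ndx_tail`, `ndx_adj`, `ndx_ne`, `ndx_lp`: parts of the definition (`ndx_ne`: for `l = x :: l'`, `D.hd j l.tail`). `ndx_len`: `l.length < ra j` for the parent. `ndx_par`: `l = c :: t`, `ndx_adj`. `ndx_mk`: the definition.
`lp_nb`: `l = []`: `D.mkd j []` means `lv j = 0` and `Th`: for `j = inl i` impossible (`D.two`); for `j = inr x`: `eps` is `x.2` if `NB H x.1 x.2`, otherwise `q0 x.1` (`D.nq`). `l = c :: t`: `D.en`. `lp_ne`: `D.en` (`l = c :: t`; the parent has the value `hd j t`). `ep_nb`: `lp_nb` or `D.nq`.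
`tr_AB`: `σ = 0, 1, 2`: `D.tr0`, `D.tr1`, `D.tr2` with `y = ep z u` (`ep_nb`). `nbX_par`: first `if`. `nbX_chd`: the first condition fails (`NdX`: `y ≠ hd j l.tail`), second `if`. `nbX_none`: both conditions fail (`NdX l.tail` holds, `ndx_tail`). `mkd_app`: `l.length ≤ (A ++ l).length`. `hd_app`: by cases.
-/

namespace Pool.Agent.LHD

open Pool.Agent.LIH Pool.Agent.LHA
open Pool.Agent.LHC (Rg DeepN De Br CZ Ctr nxt nxG glueS sAdj LN LC LO)

variable {V : Type} {H : SimpleGraph V} (D : DX H) {j : JX V} {l : List V} {y : V}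

theorem hd_nil : D.hd j [] = D.a j := rfl

theorem hd_cons : D.hd j (y :: l) = y := rfl

theorem hd_app (A : List V) : D.hd j (A ++ l) = TreeBall_hd (D.hd j l) A := by
  cases A with
  | nil => rfl
  | cons c t => rfl

theorem ndx_tail (h : D.NdX j l) : D.NdX j l.tail := by
  cases l with
  | nil => trivial
  | cons c t => exact h.1

theorem ndx_adj (h : D.NdX j (y :: l)) : H.Adj (D.hd j l) y := h.2.1

theorem ndx_ne (h : D.NdX j (y :: l)) (hl : l ≠ []) : y ≠ D.hd j l.tail := h.2.2.1 hl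

theorem ndx_lp (h : D.NdX j (y :: l)) : ¬ (D.mkd j l ∧ y = D.lp j l) := h.2.2.2.1

theorem ndx_len (h : D.NdX j l) : l.length ≤ D.ra j := by
  cases l with
  | nil => exact Nat.zero_le _
  | cons c t => exact h.2.2.2.2.2

theorem ndx_par (h : D.NdX j l) (hl : l ≠ []) : H.Adj (D.hd j l) (D.hd j l.tail) := by
  cases l with
  | nil => exact absurd rfl hl
  | cons c t => exact (ndx_adj D h).symm

theorem ndx_mk (h : D.NdX j l) (h1 : H.Adj (D.hd j l) y) (h2 : l ≠ [] → y ≠ D.hd j l.tail)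
    (h3 : ¬ (D.mkd j l ∧ y = D.lp j l)) (h4 : l = [] → y ∉ D.F j) (h5 : l.length < D.ra j) :
    D.NdX j (y :: l) := ⟨h, h1, h2, h3, h4, h5⟩

theorem lp_nb (h : D.NdX j l) (hm : D.mkd j l) : NB H (D.hd j l) (D.lp j l) := by
  classical
  cases l with
  | nil =>
    cases j with
    | inl i =>
      exfalso
      have h1 : D.R ≤ 0 := hm.1
      have h2 := D.two
      omega
    | inr x =>
      show NB H x.1 (if NB H x.1 x.2 then x.2 else D.q0 x.1)
      have h1 : Th H x.1 := hm.2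
      split_ifs with h2
      · exact h2
      · exact D.nq _ h1
  | cons c t =>
    have h1 : Th H c := hm.2
    exact (D.en (D.hd j t.tail) (D.hd j t) c h1 (ndx_adj D h)).1

theorem lp_ne (h : D.NdX j l) (hm : D.mkd j l) (hl : l ≠ []) : D.lp j l ≠ D.hd j l.tail := by
  cases l with
  | nil => exact absurd rfl hl
  | cons c t =>
    have h1 : Th H c := hm.2
    exact (D.en (D.hd j t.tail) (D.hd j t) c h1 (ndx_adj D h)).2

theorem ep_nb {z : V} (hz : Th H z) (u : D.U) : NB H z (D.ep z u) := by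
  classical
  unfold DX.ep
  split_ifs with h
  · have h1 := lp_nb D u.2.2 h.1
    rw [h.2] at h1
    exact h1
  · exact D.nq z hz

theorem tr_AB {z : V} (hz : Th H z) (u : D.U) (σ : Fin 3) : Tr H z (D.pA z u σ) (D.pB z u σ) := by
  fin_cases σ
  · exact D.tr0 z hz
  · exact D.tr1 z _ hz (ep_nb D hz u)
  · exact D.tr2 z _ hz (ep_nb D hz u)

theorem nbX_par {l : D.N j} (hl : l.1 ≠ []) :
    D.nbX j l (D.hd j l.1.tail) = some ⟨l.1.tail, ndx_tail D l.2⟩ := by
  classical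
  unfold DX.nbX
  rw [dif_pos ⟨hl, rfl, ndx_tail D l.2⟩]

theorem nbX_chd {l : D.N j} (h : D.NdX j (y :: l.1)) : D.nbX j l y = some ⟨y :: l.1, h⟩ := by
  classical
  unfold DX.nbX
  rw [dif_neg, dif_pos h]
  rintro ⟨h1, h2, -⟩
  exact ndx_ne D h h1 h2

theorem nbX_none {l : D.N j} : D.nbX j l y = none ↔
    ¬ (l.1 ≠ [] ∧ y = D.hd j l.1.tail) ∧ ¬ D.NdX j (y :: l.1) := by
  classical
  unfold DX.nbX
  constructor
  · intro h
    split_ifs at h with h1 h2
    refine ⟨fun h3 => h1 ⟨h3.1, h3.2, ndx_tail D l.2⟩, h2⟩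
  · rintro ⟨h1, h2⟩
    rw [dif_neg (fun h3 => h1 ⟨h3.1, h3.2.1⟩), dif_neg h2]

end Pool.Agent.LHD
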