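import Pool.Agent.LHD.Defs
import Pool.Agent.LHD.Bg1
import Pool.Agent.LHD.NdB

/-!
# The images of the branches

Write `x = hd j l`, `ℓ = |A| + |B|`, `w i = f k j (qq A B l i)`. `qq_hd`: `hd_app` (`hd j (A' ++ l) = TreeBall_hd x A'`). Steps: for `i < |A|`: `A.drop i = a :: A.drop (i+1)`, so `qq i = a :: qq (i+1)`: from the child to the parent; for `i ≥ |A|`: `qq (i+1) = b :: qq i`: from the parent to the child. All these lists are nodes (suffixes of `A ++ l` or `B ++ l`, `ndx_tail`), the parents have length `≥ |l| ≥ lv`.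
`adj`: `hT.adj`. `typ`: `hT.typ` (with `nb_symm` in the first case: the step of `v` is `(a, hd (parent))`). `brg`: `hT.brg`, `bg_symm`. `nbt`: `i + 2 ≤ |A|`, `i ≥ |A|`: `hT.inj'`. `i + 1 = |A|`: `qq i = a :: l`, `qq (i+2) = b :: l` with `a` the last element of `A`, `b` the last element of `B`: `hT.inj` and `hne`.
-/

namespace Pool.Agent.LHD

open Pool.Agent.LIH Pool.Agent.LHA
open Pool.Agent.LHC (Rg DeepN De Br CZ Ctr nxt nxG glueS sAdj LN LC LO)

variable {V : Type} {H : SimpleGraph V} {D : DX H} {κ : Type} {f : κ → JX V → List V → V}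
  {v : κ → JX V → List V → V → V} {Ψ : V → V}

theorem qq_hd (j : JX V) (A B l : List V) (i : ℕ) :
    D.hd j (qq A B l i) = vw (D.hd j l) A B i := by
  unfold qq vw
  split_ifs
  · rw [hd_app]
  · rw [hd_app]

theorem brw_up {A B l : List V} {i : ℕ} (hi : i < A.length) :
    qq A B l i = A[i] :: qq A B l (i + 1) ∧ qq A B l (i + 1) = A.drop (i + 1) ++ l := by
  have h1 : qq A B l (i + 1) = A.drop (i + 1) ++ l := by
    unfold qq
    rw [if_pos (by omega)]
  refine ⟨?_, h1⟩
  rw [h1]
  unfold qq
  rw [if_pos hi.le, List.drop_eq_getElem_cons hi]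
  rfl

theorem brw_dn' {A B l : List V} {i : ℕ} (hi : A.length ≤ i) :
    qq A B l i = B.drop (A.length + B.length - i) ++ l := by
  unfold qq
  split_ifs with h
  · have h1 : i = A.length := by omega
    subst h1
    rw [List.drop_length, Nat.add_sub_cancel_left, List.drop_length]
  · rfl

theorem brw_dn {A B l : List V} {i : ℕ} (hi : A.length ≤ i) (hi' : i < A.length + B.length) :
    ∃ h : A.length + B.length - (i + 1) < B.length,
      qq A B l (i + 1) = B[A.length + B.length - (i + 1)] :: qq A B l i := by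
  have h : A.length + B.length - (i + 1) < B.length := by omega
  refine ⟨h, ?_⟩
  rw [brw_dn' (by omega : A.length ≤ i + 1), brw_dn' hi, List.drop_eq_getElem_cons h]
  have h1 : A.length + B.length - (i + 1) + 1 = A.length + B.length - i := by omega
  rw [h1]
  rfl

theorem brw_drop {j : JX V} {A l : List V} (hA : D.NdX j (A ++ l)) (i : ℕ) :
    D.NdX j (A.drop i ++ l) := by
  induction i with
  | zero => simpa using hA
  | succ i ih =>
    by_cases h : i < A.length
    · rw [List.drop_eq_getElem_cons h] at ih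
      exact ndx_tail D ih
    · rw [List.drop_eq_nil_of_le (by omega)] at ih ⊢
      exact ih

theorem brw_nd {j : JX V} {A B l : List V} (hA : D.NdX j (A ++ l)) (hB : D.NdX j (B ++ l))
    (i : ℕ) : D.NdX j (qq A B l i) := by
  unfold qq
  split_ifs
  · exact brw_drop hA _
  · exact brw_drop hB _

theorem brw_len {A B l : List V} (i : ℕ) : l.length ≤ (qq A B l i).length := by
  unfold qq
  split_ifs <;> simp

theorem brw_last {A : List V} {i : ℕ} (hi : i < A.length) (hi' : i + 1 = A.length) :
    A.getLast? = some A[i] := by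
  rw [List.getLast?_eq_getElem?]
  have : A.length - 1 = i := by omega
  rw [this]
  exact List.getElem?_eq_getElem hi

theorem im_branch (hT : TS D κ f v Ψ) (k : κ) {j : JX V} {A B l : List V}
    (hA : D.NdX j (A ++ l)) (hB : D.NdX j (B ++ l)) (hl : D.lv j ≤ l.length)
    (hne : ∀ a b, A.getLast? = some a → B.getLast? = some b → a ≠ b) :
    Im H (A.length + B.length) (vw (D.hd j l) A B) (fun i => f k j (qq A B l i)) := by
  have hnd : ∀ i, D.NdX j (qq A B l i) := brw_nd hA hB
  have hlv : ∀ i, D.lv j ≤ (qq A B l i).length := fun i => hl.trans (brw_len i)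
  refine ⟨?_, ?_, ?_, ?_⟩
  · intro i hi
    show H.Adj (f k j (qq A B l i)) (f k j (qq A B l (i + 1)))
    rcases lt_or_ge i A.length with h | h
    · obtain ⟨e1, -⟩ := brw_up (B := B) (l := l) h
      have h2 := hnd i
      rw [e1] at h2 ⊢
      exact (hT.adj k j _ _ h2).symm
    · obtain ⟨h1, e1⟩ := brw_dn (A := A) (B := B) (l := l) h hi
      have h2 := hnd (i + 1)
      rw [e1] at h2 ⊢
      exact hT.adj k j _ _ h2
  · intro i hi
    show f k j (qq A B l i) ≠ f k j (qq A B l (i + 2))
    rcases lt_or_ge i A.length with h | h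
    · obtain ⟨e1, -⟩ := brw_up (B := B) (l := l) h
      rcases lt_or_ge (i + 1) A.length with h' | h'
      · obtain ⟨e2, -⟩ := brw_up (B := B) (l := l) h'
        have h2 := hnd i
        rw [e1, e2] at h2 ⊢
        exact hT.inj' k j _ _ _ h2
      · obtain ⟨h1, e2⟩ := brw_dn (A := A) (B := B) (l := l) h' (by omega)
        have h2 := hnd i
        have h3 := hnd (i + 1 + 1)
        rw [e1] at h2
        rw [e2] at h3
        intro he
        have he' : f k j (qq A B l i) = f k j (qq A B l (i + 1 + 1)) := he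
        rw [e1, e2] at he'
        have h4 := hT.inj k j _ _ _ h2 h3 he'
        refine hne _ _ (brw_last h (by omega)) (brw_last h1 (by omega)) h4
    · obtain ⟨h1, e1⟩ := brw_dn (A := A) (B := B) (l := l) h (by omega)
      obtain ⟨h1', e2⟩ := brw_dn (A := A) (B := B) (l := l) (by omega : A.length ≤ i + 1) (by omega)
      have h2 := hnd (i + 1 + 1)
      rw [e2, e1] at h2
      have h3 := hT.inj' k j _ _ _ h2
      rw [← e1, ← e2] at h3
      exact h3.symm
  · intro i hi hnb
    show ∃ φ : H ≃g H, φ (vw (D.hd j l) A B i) = f k j (qq A B l i) ∧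
      φ (vw (D.hd j l) A B (i + 1)) = f k j (qq A B l (i + 1))
    rw [← qq_hd, ← qq_hd] at hnb ⊢
    rcases lt_or_ge i A.length with h | h
    · obtain ⟨e1, -⟩ := brw_up (B := B) (l := l) h
      have h2 := hnd i
      rw [e1, hd_cons] at hnb
      rw [e1] at h2 ⊢
      rw [hd_cons]
      obtain ⟨φ, hφ1, hφ2⟩ := hT.typ k j _ _ h2 (hlv (i + 1)) (nb_symm hnb)
      exact ⟨φ, hφ2, hφ1⟩
    · obtain ⟨h1, e1⟩ := brw_dn (A := A) (B := B) (l := l) h hi
      have h2 := hnd (i + 1)
      rw [e1, hd_cons] at hnb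
      rw [e1] at h2 ⊢
      rw [hd_cons]
      exact hT.typ k j _ _ h2 (hlv i) hnb
  · intro i hi hbg
    show Bg H (f k j (qq A B l i)) (f k j (qq A B l (i + 1)))
    rw [← qq_hd, ← qq_hd] at hbg
    rcases lt_or_ge i A.length with h | h
    · obtain ⟨e1, -⟩ := brw_up (B := B) (l := l) h
      have h2 := hnd i
      rw [e1, hd_cons] at hbg
      rw [e1] at h2 ⊢
      exact bg_symm (hT.brg k j _ _ h2 ((hlv (i + 1)).trans (Nat.le_succ _)) (bg_symm hbg))
    · obtain ⟨h1, e1⟩ := brw_dn (A := A) (B := B) (l := l) h hi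
      have h2 := hnd (i + 1)
      rw [e1, hd_cons] at hbg
      rw [e1] at h2 ⊢
      exact hT.brg k j _ _ h2 ((hlv i).trans (Nat.le_succ _)) hbg

end Pool.Agent.LHD
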