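import Pool.Agent.LHD.Defs
import Pool.Agent.LHD.Bg1
import Pool.Agent.LHD.Nb2

/-!
# Images of paths through vertices which are not thick

`run_inj`: let `φ` be the automorphism of `typ` at `i` (`i < j ≤ ℓ`, `NB (v i) (v (i+1))`): `φ (v i) = w i`, `φ (v (i+1)) = w (i+1)`. Claim: `φ (v k) = w k` and `φ (v (k+1)) = w (k+1)` for `i ≤ k < j`. Induction: from `k` to `k + 1 < j`: the vertex `v (k+1)` is not thick (`0 < k + 1 < ℓ`), so `{y | NB (v (k+1)) y}` has at most two elements; `v k` and `v (k+2)` are two different elements. Let `ψ` be the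
automorphism of `typ` at `k + 1`. `NB (w (k+1)) (w (k+2))` (`nb_typ`). `w (k+1) = φ (v (k+1))`, so the elements `y` with `NB (w (k+1)) y` are `φ (v k) = w k` and `φ (v (k+2))` (`nbs_map`). `w (k+2) ≠ w k` (`nbt`), so `w (k+2) = φ (v (k+2))`. So `w i = φ (v i)`, `w j = φ (v j)`, and `v i ≠ v j`.
-/

namespace Pool.Agent.LHD

open Pool.Agent.LIH Pool.Agent.LHA
open Pool.Agent.LHC (Rg DeepN De Br CZ Ctr nxt nxG glueS sAdj LN LC LO)

theorem gt1_two {V : Type} [Finite V] {H : SimpleGraph V} {x a b y : V} (hx : ¬ Th H x)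
    (ha : NB H x a) (hb : NB H x b) (hab : a ≠ b) (hy : NB H x y) : y = a ∨ y = b := by
  by_contra hcon
  push Not at hcon
  apply hx
  unfold Th
  have h1 : ({a, b, y} : Set V) ⊆ {y | NB H x y} := by
    intro z hz
    simp only [Set.mem_insert_iff, Set.mem_singleton_iff] at hz
    rcases hz with rfl | rfl | rfl
    · exact ha
    · exact hb
    · exact hy
  have h2 : ({a, b, y} : Set V).ncard = 3 :=
    Set.ncard_eq_three.2 ⟨a, b, y, hab, hcon.1.symm, hcon.2.symm, rfl⟩
  rw [← h2]
  exact Set.ncard_le_ncard h1 (Set.toFinite _)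

theorem run_inj {V : Type} [Finite V] {H : SimpleGraph V} {ℓ : ℕ} {v w : ℕ → V}
    (hI : Im H ℓ v w) (hv : ∀ i ≤ ℓ, ∀ j ≤ ℓ, v i = v j → i = j)
    (hth : ∀ i, 0 < i → i < ℓ → ¬ Th H (v i)) {i j : ℕ} (hi : 0 < i) (hij : i < j) (hj : j < ℓ)
    (hnb : ∀ k, i ≤ k → k < j → NB H (v k) (v (k + 1))) : w i ≠ w j := by
  obtain ⟨φ, hφ1, hφ2⟩ := hI.typ i (by omega) (hnb i le_rfl hij)
  have key : ∀ n, i + n < j → φ (v (i + n)) = w (i + n) ∧ φ (v (i + n + 1)) = w (i + n + 1) := by
    intro n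
    induction n with
    | zero => exact fun _ => ⟨hφ1, hφ2⟩
    | succ n ih =>
      intro hn
      obtain ⟨h1, h2⟩ := ih (by omega)
      refine ⟨h2, ?_⟩
      have h3 := nb_typ (hI.typ (i + n + 1) (by omega) (hnb _ (by omega) (by omega)))
        (hnb _ (by omega) (by omega))
      have h4 : w (i + n + 1 + 1) ∈ {y | NB H (φ (v (i + n + 1))) y} := by
        rw [h2]
        exact h3
      rw [nbs_map] at h4
      obtain ⟨y, hy, hyw⟩ := h4
      have hne : v (i + n) ≠ v (i + n + 1 + 1) := by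
        intro h
        have := hv _ (by omega) _ (by omega) h
        omega
      rcases gt1_two (hth (i + n + 1) (by omega) (by omega))
        (nb_symm (hnb (i + n) (by omega) (by omega))) (hnb (i + n + 1) (by omega) (by omega))
        hne hy with rfl | rfl
      · exfalso
        apply hI.nbt (i + n) (by omega)
        rw [← h1, hyw]
      · exact hyw
  intro hw
  obtain ⟨m, rfl⟩ := Nat.exists_eq_add_of_lt hij
  have h5 := (key m (by omega)).2
  rw [← hφ1, ← h5] at hw
  have h6 := hv _ (by omega) _ (by omega) (φ.injective hw)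
  omega

end Pool.Agent.LHD
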