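import Pool.Agent.LHD.Defs
import Pool.Agent.LHD.Bg1
import Pool.Agent.LHD.Gt1

/-!
# Bridges are crossed at most once

`im_bg`: a step of `v` is not a bridge or a bridge (`hva`, `adj_cases`); use `nb_typ` and `brg`.
`no_rev`: induction on `j - i`. Suppose `w j = w (i+1)`, `w (j+1) = w i`. (1) If some step `k`, `i < k < j`, is a bridge step, `Bg (w k) (w (k+1))`: a lobe `U` with the exit `(w k, w (k+1))`, `w k ∈ U`, `w (k+1) ∉ U`. If `w (i+1) ∈ U`: `w j = w (i+1) ∈ U`, `w (k+1) ∉ U`, so there is a step `t`, `k + 1 ≤ t < j`, with `w t ∉ U`, `w (t+1) ∈ U`: the dart `(w (t+1), w t)` leaves `U`, so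
`w (t+1) = w k`, `w t = w (k+1)`: contradiction to the induction hypothesis for `k < t`. If `w (i+1) ∉ U`: `w k ∈ U` and `i + 1 < k`, so there is a step `t`, `i + 1 ≤ t < k`, with `w t ∉ U`, `w (t+1) ∈ U`, so `w (t+1) = w k`, `w t = w (k+1)`: contradiction to the induction hypothesis for `t < k` (`Bg (w t) (w (t+1))` by `bg_symm`; `w k = w (t+1)`, `w (k+1) = w t`). (2) Otherwise all the steps
`k`, `i < k < j`, of `v` satisfy `NB` (`im_bg`). `j = i + 1`: `w (i+2) = w i`: contradiction to `nbt`. `i + 1 < j`: `run_inj` for `i + 1, j`: contradiction to `w j = w (i+1)`.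
`no_rep`: a lobe `U` with the exit `(w i, w (i+1))`: `w (i+1) ∉ U`, `w j = w i ∈ U`; `i + 1 ≠ j` since `w (i+1) ≠ w i`; so there is a step `t`, `i + 1 ≤ t < j`, with `w t ∉ U`, `w (t+1) ∈ U`: `w (t+1) = w i`, `w t = w (i+1)`: contradiction to `no_rev`.
-/

namespace Pool.Agent.LHD

open Pool.Agent.LIH Pool.Agent.LHA
open Pool.Agent.LHC (Rg DeepN De Br CZ Ctr nxt nxG glueS sAdj LN LC LO)

variable {V : Type} {H : SimpleGraph V} {ℓ : ℕ} {v w : ℕ → V}

theorem Gt2_step {p : ℕ → Prop} {a b : ℕ} (hab : a < b) (ha : ¬ p a) (hb : p b) :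
    ∃ t, a ≤ t ∧ t < b ∧ ¬ p t ∧ p (t + 1) := by
  by_contra h
  push Not at h
  have h1 : ∀ k, a + k ≤ b → ¬ p (a + k) := by
    intro k
    induction k with
    | zero => intro _; exact ha
    | succ k ih =>
      intro hk
      exact h (a + k) (by omega) (by omega) (ih (by omega))
  have h2 := h1 (b - a) (by omega)
  rw [show a + (b - a) = b by omega] at h2
  exact h2 hb

theorem im_bg (hva : ∀ i < ℓ, H.Adj (v i) (v (i + 1))) (hI : Im H ℓ v w) {i : ℕ} (hi : i < ℓ) :
    Bg H (w i) (w (i + 1)) ↔ Bg H (v i) (v (i + 1)) := by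
  refine ⟨fun h => ?_, hI.brg i hi⟩
  rcases adj_cases (hva i hi) with h1 | h1
  · exact (nb_not_bg (nb_typ (hI.typ i hi h1) h1) h).elim
  · exact h1

theorem no_rev [Finite V] (hva : ∀ i < ℓ, H.Adj (v i) (v (i + 1)))
    (hv : ∀ i ≤ ℓ, ∀ j ≤ ℓ, v i = v j → i = j) (hth : ∀ i, 0 < i → i < ℓ → ¬ Th H (v i))
    (hI : Im H ℓ v w) {i j : ℕ} (hij : i < j) (hj : j < ℓ) (hb : Bg H (w i) (w (i + 1))) :
    ¬ (w j = w (i + 1) ∧ w (j + 1) = w i) := by
  have hmain : ∀ d : ℕ, ∀ i j : ℕ, i < j → j < ℓ → j - i = d → Bg H (w i) (w (i + 1)) →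
      ¬ (w j = w (i + 1) ∧ w (j + 1) = w i) := by
    intro d
    induction d using Nat.strong_induction_on with
    | _ d ih =>
      rintro i j hij hj hd hb ⟨h1, h2⟩
      by_cases hex : ∃ k, i < k ∧ k < j ∧ Bg H (w k) (w (k + 1))
      · obtain ⟨k, hik, hkj, hbk⟩ := hex
        obtain ⟨U, hU⟩ := id hbk
        by_cases h3 : w (i + 1) ∈ U
        · have h4 : w j ∈ U := by rw [h1]; exact h3
          have h5 : k + 1 ≠ j := by
            intro h6
            rw [← h6] at h4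
            exact hU.2.1 h4
          obtain ⟨t, ht1, ht2, ht3, ht4⟩ := Gt2_step (p := fun t => w t ∈ U) (a := k + 1) (b := j) (by omega) hU.2.1 h4
          obtain ⟨h6, h7⟩ := hU.2.2.2 _ _ ht4 ht3 (hI.adj t (by omega)).symm
          exact ih (t - k) (by omega) k t (by omega) (by omega) rfl hbk ⟨h7, h6⟩
        · have h5 : i + 1 ≠ k := by
            intro h6
            rw [h6] at h3
            exact h3 hU.1
          obtain ⟨t, ht1, ht2, ht3, ht4⟩ := Gt2_step (p := fun t => w t ∈ U) (a := i + 1) (b := k) (by omega) h3 hU.1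
          obtain ⟨h6, h7⟩ := hU.2.2.2 _ _ ht4 ht3 (hI.adj t (by omega)).symm
          refine ih (k - t) (by omega) t k (by omega) (by omega) rfl ?_ ⟨h6.symm, h7.symm⟩
          rw [h6, h7]
          exact bg_symm hbk
      · push Not at hex
        rcases Nat.lt_or_ge (i + 1) j with h3 | h3
        · refine run_inj hI hv hth (i := i + 1) (j := j) (by omega) h3 hj ?_ h1.symm
          intro k hk1 hk2
          rcases adj_cases (hva k (by omega)) with h4 | h4
          · exact h4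
          · exact (hex k (by omega) hk2 ((im_bg hva hI (by omega)).mpr h4)).elim
        · have h4 : j = i + 1 := by omega
          rw [h4] at h2 hj
          exact hI.nbt i (by omega) h2.symm
  exact hmain (j - i) i j hij hj rfl hb

theorem no_rep [Finite V] (hva : ∀ i < ℓ, H.Adj (v i) (v (i + 1)))
    (hv : ∀ i ≤ ℓ, ∀ j ≤ ℓ, v i = v j → i = j) (hth : ∀ i, 0 < i → i < ℓ → ¬ Th H (v i))
    (hI : Im H ℓ v w) {i j : ℕ} (hij : i < j) (hj : j < ℓ) (hb : Bg H (w i) (w (i + 1))) :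
    ¬ (w j = w i ∧ w (j + 1) = w (i + 1)) := by
  rintro ⟨h1, h2⟩
  obtain ⟨U, hU⟩ := id hb
  have h4 : w j ∈ U := by rw [h1]; exact hU.1
  have h5 : i + 1 ≠ j := by
    intro h6
    rw [← h6] at h4
    exact hU.2.1 h4
  obtain ⟨t, ht1, ht2, ht3, ht4⟩ := Gt2_step (p := fun t => w t ∈ U) (a := i + 1) (b := j) (by omega) hU.2.1 h4
  obtain ⟨h6, h7⟩ := hU.2.2.2 _ _ ht4 ht3 (hI.adj t (by omega)).symm
  exact no_rev hva hv hth hI (i := i) (j := t) (by omega) (by omega) hb ⟨h7, h6⟩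

end Pool.Agent.LHD
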