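import Pool.Agent.LHD.Defs
import Pool.Agent.LHD.Bg1
import Pool.Agent.LHD.Gt2

/-!
# Two images of a path with the same ends

`bg_side`: `U` is a lobe with the exit `(w i, w (i+1))`. Suppose `k ≤ i` and `w k ∉ U`: as `w i ∈ U` there is a step `t`, `k ≤ t < i`, with `w t ∉ U`, `w (t+1) ∈ U`, so `w (t+1) = w i`, `w t = w (i+1)`: contradiction to `no_rev` for `t < i` (`Bg (w t) (w (t+1))` by `bg_symm`). Suppose `i + 1 ≤ k` and `w k ∈ U`: `w (i+1) ∉ U`, so there is a step `t`, `i + 1 ≤ t < k`, with `w t ∉ U`, `w (t+1) ∈ U`: `w (t+1) = w i`,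
`w t = w (i+1)`: `no_rev` for `i < t`.
`gate_ge`: for every bridge step `i` of `w` let `U i` be the lobe with the exit `(w i, w (i+1))`. `w 0 ∈ U i`, `w ℓ ∉ U i` (`bg_side`), so the same for `w'`, and there is a step `s < ℓ` with `w' s ∈ U i`, `w' (s+1) ∉ U i`: `w' s = w i`, `w' (s+1) = w (i+1)`. Strong induction on `i`: claim `i ≤ s`. Suppose `s < i`. `s` is a bridge step of `w'`, so of `v` and of `w` (`im_bg`). By the induction hypothesis there is `s' ≥ s` with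
`w' s' = w s`, `w' (s'+1) = w (s+1)`. `U s` is a lobe with the exit `(w' s', w' (s'+1))`. `w i ∉ U s` (`bg_side` for `w`, `s + 1 ≤ i`), so `w' s = w i ∉ U s`; but `s ≤ s'`, so `w' s ∈ U s` by `bg_side` for `w'`: contradiction.
`gates`: `gate_ge` gives `s ≥ i` with `w' s = w i`, `w' (s+1) = w (i+1)`, and with `w, w'` exchanged for the bridge step `s` a number `t ≥ s` with `w t = w' s = w i`, `w (t+1) = w (i+1)`. `t = i` by `no_rep`. So `s = i`.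
-/

namespace Pool.Agent.LHD

open Pool.Agent.LIH Pool.Agent.LHA
open Pool.Agent.LHC (Rg DeepN De Br CZ Ctr nxt nxG glueS sAdj LN LC LO)

variable {V : Type} [Finite V] {H : SimpleGraph V} {ℓ : ℕ} {v w w' : ℕ → V}

omit [Finite V] in
private theorem gat_step {U : Set V} {u : ℕ → V} {a b : ℕ} (hab : a ≤ b) (ha : u a ∉ U) (hb : u b ∈ U) :
    ∃ t, a ≤ t ∧ t < b ∧ u t ∉ U ∧ u (t + 1) ∈ U := by
  induction b, hab using Nat.le_induction with
  | base => exact absurd hb ha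
  | succ b hab ih =>
    by_cases h : u b ∈ U
    · obtain ⟨t, h1, h2, h3, h4⟩ := ih h
      exact ⟨t, h1, by omega, h3, h4⟩
    · exact ⟨b, hab, by omega, h, hb⟩

theorem bg_side (hva : ∀ i < ℓ, H.Adj (v i) (v (i + 1)))
    (hv : ∀ i ≤ ℓ, ∀ j ≤ ℓ, v i = v j → i = j) (hth : ∀ i, 0 < i → i < ℓ → ¬ Th H (v i))
    (hI : Im H ℓ v w) {i : ℕ} (hi : i < ℓ) {U : Set V} (hU : Lb H U (w i) (w (i + 1))) :
    (∀ k ≤ i, w k ∈ U) ∧ ∀ k, i + 1 ≤ k → k ≤ ℓ → w k ∉ U := by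
  have hb : Bg H (w i) (w (i + 1)) := ⟨U, hU⟩
  refine ⟨fun k hk => ?_, fun k hk hkl hkU => ?_⟩
  · by_contra hkU
    obtain ⟨t, h1, h2, h3, h4⟩ := gat_step hk hkU hU.1
    obtain ⟨e1, e2⟩ := hU.2.2.2 _ _ h4 h3 (hI.adj t (by omega)).symm
    refine no_rev hva hv hth hI h2 hi ?_ ⟨e1.symm, e2.symm⟩
    rw [e1, e2]
    exact bg_symm hb
  · obtain ⟨t, h1, h2, h3, h4⟩ := gat_step hk hU.2.1 hkU
    obtain ⟨e1, e2⟩ := hU.2.2.2 _ _ h4 h3 (hI.adj t (by omega)).symm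
    exact no_rev hva hv hth hI (show i < t by omega) (show t < ℓ by omega) hb ⟨e2, e1⟩

theorem gate_ge (hva : ∀ i < ℓ, H.Adj (v i) (v (i + 1)))
    (hv : ∀ i ≤ ℓ, ∀ j ≤ ℓ, v i = v j → i = j) (hth : ∀ i, 0 < i → i < ℓ → ¬ Th H (v i))
    (hI : Im H ℓ v w) (hI' : Im H ℓ v w') (h0 : w 0 = w' 0) (hl : w ℓ = w' ℓ) {i : ℕ}
    (hi : i < ℓ) (hb : Bg H (v i) (v (i + 1))) :
    ∃ s, i ≤ s ∧ s < ℓ ∧ w' s = w i ∧ w' (s + 1) = w (i + 1) := by
  induction i using Nat.strong_induction_on with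
  | _ i ih =>
    obtain ⟨U, hU⟩ := hI.brg i hi hb
    have hside := bg_side hva hv hth hI hi hU
    have c0 : w' 0 ∉ Uᶜ := by
      rw [← h0]
      exact fun h => h (hside.1 0 (Nat.zero_le _))
    have c1 : w' ℓ ∈ Uᶜ := by
      rw [← hl]
      exact hside.2 ℓ (by omega) le_rfl
    obtain ⟨s, -, hs, h3, h4⟩ := gat_step (Nat.zero_le ℓ) c0 c1
    have h3' : w' s ∈ U := not_not.1 h3
    obtain ⟨e1, e2⟩ := hU.2.2.2 _ _ h3' h4 (hI'.adj s hs)
    refine ⟨s, ?_, hs, e1, e2⟩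
    by_contra hlt
    push Not at hlt
    have hbs : Bg H (v s) (v (s + 1)) := by
      rw [← im_bg hva hI' hs, e1, e2]
      exact ⟨U, hU⟩
    obtain ⟨s', k1, k2, k3, k4⟩ := ih s hlt hs hbs
    obtain ⟨U', hU'⟩ := hI.brg s hs hbs
    have n1 : w i ∉ U' := (bg_side hva hv hth hI hs hU').2 i hlt hi.le
    have hU'' : Lb H U' (w' s') (w' (s' + 1)) := by
      rw [k3, k4]
      exact hU'
    have n2 : w' s ∈ U' := (bg_side hva hv hth hI' k2 hU'').1 s k1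
    rw [e1] at n2
    exact n1 n2

theorem gates (hva : ∀ i < ℓ, H.Adj (v i) (v (i + 1)))
    (hv : ∀ i ≤ ℓ, ∀ j ≤ ℓ, v i = v j → i = j) (hth : ∀ i, 0 < i → i < ℓ → ¬ Th H (v i))
    (hI : Im H ℓ v w) (hI' : Im H ℓ v w') (h0 : w 0 = w' 0) (hl : w ℓ = w' ℓ) {i : ℕ}
    (hi : i < ℓ) (hb : Bg H (v i) (v (i + 1))) : w i = w' i ∧ w (i + 1) = w' (i + 1) := by
  obtain ⟨s, h1, h2, h3, h4⟩ := gate_ge hva hv hth hI hI' h0 hl hi hb
  have hbw : Bg H (w i) (w (i + 1)) := hI.brg i hi hb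
  have hbs : Bg H (v s) (v (s + 1)) := by
    rw [← im_bg hva hI' h2, h3, h4]
    exact hbw
  obtain ⟨t, k1, k2, k3, k4⟩ := gate_ge hva hv hth hI' hI h0.symm hl.symm h2 hbs
  have hti : t = i := by
    by_contra hne
    exact no_rep hva hv hth hI (show i < t by omega) k2 hbw ⟨k3.trans h3, k4.trans h4⟩
  have hsi : s = i := by omega
  rw [hsi] at h3 h4
  exact ⟨h3.symm, h4.symm⟩

end Pool.Agent.LHD
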