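import Pool.Agent.LHD.Defs

/-!
# The path given by two branches

`vw x A B i`: for `i ≤ |A|` the head of `A.drop i` (or `x`), for `i > |A|` the head of `B.drop (|A| + |B| - i)`. `vw_0`: `i = 0`. `vw_mid`: `A.drop |A| = []`. `vw_last`: `i = |A| + |B|`: if `B = []` it is `x`, otherwise `B.drop 0`. `vw_succ`: `B = B' ++ [y]`: `B.drop (|B| - 1) = [y]`. `vw_adj`: `i < |A|`: `A.drop i = a :: A.drop (i+1)`, and `Wk` for a suffix of `A`: `H.Adj (hd (A.drop (i+1))) a`.
`i ≥ |A|`: the same for `B` (`B.drop (t + 1)`, `B.drop t` with `t = |A| + |B| - i - 1`). `vw_inj`: for `i < |A|` the value is the element number `i` of `A`, for `i = |A|` it is `x`, for `i > |A|` it is the element number `|A| + |B| - i` of `B`; these are different by `ndA`, `ndB`, `dis`. `vw_th`: for `0 < i < |A|` an element of `A.tail`; `i = |A|` (then `A ≠ []`): `x`; `|A| < i < |A| + |B|`: an element of `B.tail`.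
`vw_shift`: `i ≤ |A|`, `i = |A| + 1`, `i > |A| + 1`: both sides are the head of `A.drop i` or `x`; `y`; the head of the same suffix of `B`.
-/

namespace Pool.Agent.LHD

open Pool.Agent.LIH Pool.Agent.LHA
open Pool.Agent.LHC (Rg DeepN De Br CZ Ctr nxt nxG glueS sAdj LN LC LO)

variable {V : Type} {H : SimpleGraph V} {x y : V} {A B : List V}

theorem VwA_hd_drop_lt {L : List V} {i : ℕ} (hi : i < L.length) (z : V) :
    TreeBall_hd z (L.drop i) = L[i] := by
  rw [List.drop_eq_getElem_cons hi]; rfl

theorem VwA_hd_drop_ge {L : List V} {i : ℕ} (hi : L.length ≤ i) (z : V) :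
    TreeBall_hd z (L.drop i) = z := by
  rw [List.drop_eq_nil_of_le hi]; rfl

theorem VwA_wk_drop : ∀ {L : List V} {z : V}, Wk H z L → ∀ i (hi : i < L.length),
    H.Adj (TreeBall_hd z (L.drop (i + 1))) L[i]
  | [], _, _, i, hi => by simp at hi
  | c :: L, z, h, 0, hi => by
      simpa using h.2
  | c :: L, z, h, i + 1, hi => by
      have := VwA_wk_drop h.1 i (by simpa using hi)
      simpa using this

theorem VwA_vw_lt {i : ℕ} (hi : i < A.length) : vw x A B i = A[i] := by
  unfold vw
  rw [if_pos hi.le, VwA_hd_drop_lt hi]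

theorem VwA_vw_eq : vw x A B A.length = x := by
  unfold vw
  rw [if_pos le_rfl, VwA_hd_drop_ge le_rfl]

theorem VwA_vw_gt {i : ℕ} (hi : A.length < i) (hi' : i ≤ A.length + B.length) :
    vw x A B i = B[A.length + B.length - i]'(by omega) := by
  unfold vw
  rw [if_neg (by omega), VwA_hd_drop_lt (by omega)]

theorem vw_0 : vw x A B 0 = TreeBall_hd x A := by
  unfold vw
  rw [if_pos (Nat.zero_le _)]; rfl

theorem vw_mid : vw x A B A.length = x := VwA_vw_eq

theorem vw_last : vw x A B (A.length + B.length) = TreeBall_hd x B := by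
  rcases B with _ | ⟨b, B⟩
  · simpa [TreeBall_hd] using (vw_mid (x := x) (A := A) (B := []))
  · unfold vw
    rw [if_neg (by simp)]
    simp

theorem vw_succ (hB : B.getLast? = some y) : vw x A B (A.length + 1) = y := by
  have hne : B ≠ [] := by rintro rfl; simp at hB
  have hl : 0 < B.length := List.length_pos_iff.mpr hne
  rw [VwA_vw_gt (by omega) (by omega)]
  rw [List.getLast?_eq_getElem?] at hB
  have h2 : A.length + B.length - (A.length + 1) = B.length - 1 := by omega
  have h3 : B[B.length - 1]? = some (B[B.length - 1]'(by omega)) := List.getElem?_eq_getElem _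
  rw [h3] at hB
  simp only [h2]
  exact Option.some.inj hB

theorem vw_adj (hA : Wk H x A) (hB : Wk H x B) (i : ℕ) (hi : i < A.length + B.length) :
    H.Adj (vw x A B i) (vw x A B (i + 1)) := by
  rcases Nat.lt_or_ge i A.length with h | h
  · rw [VwA_vw_lt h]
    have h1 : vw x A B (i + 1) = TreeBall_hd x (A.drop (i + 1)) := by
      unfold vw; rw [if_pos (by omega)]
    rw [h1]
    exact (VwA_wk_drop hA i h).symm
  · have ht : A.length + B.length - i - 1 < B.length := by omega
    have h1 : vw x A B (i + 1) = B[A.length + B.length - i - 1] := by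
      rw [VwA_vw_gt (by omega) (by omega)]
      rfl
    have h2 : vw x A B i = TreeBall_hd x (B.drop (A.length + B.length - i - 1 + 1)) := by
      rcases Nat.lt_or_ge A.length i with h' | h'
      · unfold vw
        rw [if_neg (by omega)]
        congr 2
        omega
      · have : i = A.length := le_antisymm h' h
        subst this
        rw [vw_mid, VwA_hd_drop_ge (by omega)]
    rw [h1, h2]
    exact VwA_wk_drop hB _ ht

theorem VwA_nd_get {L : List V} (h : (L ++ [x]).Nodup) :
    (∀ i (hi : i < L.length), L[i] ≠ x) ∧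
      (∀ i (hi : i < L.length) j (hj : j < L.length), L[i] = L[j] → i = j) := by
  rw [List.nodup_append] at h
  obtain ⟨h1, -, h3⟩ := h
  refine ⟨fun i hi he => h3 _ (List.getElem_mem hi) _ (by simp) he, fun i hi j hj he => ?_⟩
  exact (List.Nodup.getElem_inj_iff h1).mp he

theorem vw_inj (h : GP H x A B) : ∀ i ≤ A.length + B.length, ∀ j ≤ A.length + B.length,
    vw x A B i = vw x A B j → i = j := by
  obtain ⟨a1, a2⟩ := VwA_nd_get h.ndA
  obtain ⟨b1, b2⟩ := VwA_nd_get h.ndB
  have key : ∀ i ≤ A.length + B.length, ∀ j ≤ A.length + B.length, i < j →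
      vw x A B i ≠ vw x A B j := by
    intro i hi j hj hij he
    rcases lt_trichotomy i A.length with hi1 | hi1 | hi1
    · rw [VwA_vw_lt hi1] at he
      rcases lt_trichotomy j A.length with hj1 | hj1 | hj1
      · rw [VwA_vw_lt hj1] at he
        have := a2 _ _ _ _ he
        omega
      · subst hj1
        rw [vw_mid] at he
        exact a1 _ _ he
      · rw [VwA_vw_gt hj1 hj] at he
        exact h.dis (List.getElem_mem hi1) (he ▸ List.getElem_mem _)
    · subst hi1
      rw [vw_mid, VwA_vw_gt hij hj] at he
      exact b1 _ _ he.symm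
    · rw [VwA_vw_gt hi1 hi, VwA_vw_gt (by omega) hj] at he
      have := b2 _ _ _ _ he
      omega
  intro i hi j hj he
  rcases lt_trichotomy i j with h1 | h1 | h1
  · exact absurd he (key i hi j hj h1)
  · exact h1
  · exact absurd he.symm (key j hj i hi h1)

theorem VwA_mem_tail {L : List V} {i : ℕ} (h0 : 0 < i) (hi : i < L.length) : L[i] ∈ L.tail := by
  obtain ⟨k, rfl⟩ : ∃ k, i = k + 1 := ⟨i - 1, by omega⟩
  rcases L with _ | ⟨c, L⟩
  · simp at hi
  · simp only [List.getElem_cons_succ, List.tail_cons]
    exact List.getElem_mem _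

theorem vw_th (h : GP H x A B) (i : ℕ) (hi : 0 < i) (hi' : i < A.length + B.length) :
    ¬ Th H (vw x A B i) := by
  rcases lt_trichotomy i A.length with hi1 | hi1 | hi1
  · rw [VwA_vw_lt hi1]
    exact h.nA _ (VwA_mem_tail hi hi1)
  · subst hi1
    rw [vw_mid]
    exact h.nx (List.length_pos_iff.mp hi)
  · rw [VwA_vw_gt hi1 hi'.le]
    exact h.nB _ (VwA_mem_tail (by omega) (by omega))

theorem vw_shift (i : ℕ) : vw x A (B ++ [y]) i = vw y (A ++ [x]) B i := by
  unfold vw
  rcases Nat.lt_or_ge A.length i with h | h
  · rcases Nat.lt_or_ge (A.length + 1) i with h' | h'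
    · rw [if_neg (by omega), if_neg (by simp; omega)]
      simp only [List.length_append, List.length_singleton]
      have e : A.length + 1 + B.length - i = A.length + (B.length + 1) - i := by omega
      rw [e]
      rcases Nat.lt_or_ge (A.length + (B.length + 1) - i) B.length with h2 | h2
      · rw [List.drop_append_of_le_length h2.le]
        rw [List.drop_eq_getElem_cons h2]; rfl
      · have hB : B = [] := by
          apply List.eq_nil_of_length_eq_zero
          omega
        subst hB
        have e3 : A.length + (([] : List V).length + 1) - i = 0 := by simp; omega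
        rw [e3]; rfl
    · have hi : i = A.length + 1 := by omega
      subst hi
      rw [if_neg (by omega), if_pos (by simp)]
      simp only [List.length_append, List.length_singleton]
      have e : A.length + (B.length + 1) - (A.length + 1) = B.length := by omega
      rw [e]
      have e1 : (B ++ [y]).drop B.length = [y] := by simp
      have e2 : (A ++ [x]).drop (A.length + 1) = [] := by simp
      rw [e1, e2]; rfl
  · rw [if_pos h, if_pos (by simp; omega)]
    rw [List.drop_append_of_le_length h]
    rcases h' : A.drop i with _ | ⟨c, L⟩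
    · rfl
    · rfl

end Pool.Agent.LHD
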