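import Pool.Agent.LHD.Defs
import Pool.Agent.LHD.Bg1
import Pool.Agent.LHD.NdB
import Pool.Agent.LHD.Gat
import Pool.Agent.LHD.VwA
import Pool.Agent.LHD.BrW

/-!
# Comparing two nodes

`ends`: `mrk` at the node `A ++ l`: it is marked (`lv ≤ |l| ≤ |A ++ l|`, `Th`, `hd_app`), so `f k j (A ++ l) = Ψ (TreeBall_hd x A)`.
`eb_cmp`: let `ℓ = |A| + |B|`, `v = vw x A B`, `w i = f k j (qq A B l i)`, `w' i = f k' j' (qq A B l' i)`: images of `v` (`im_branch`; the first steps are different because `A`, `B` are disjoint). `w 0 = f (A ++ l) = w' 0`, `w ℓ = f (B ++ l) = w' ℓ` (`ends`; `qq A B l 0 = A ++ l`, `qq A B l ℓ = B ++ l`). `v` satisfies the hypotheses of `gates` (`vw_adj`, `vw_inj`, `vw_th`). `i = |A| < ℓ` (`B ≠ []`): `v i = x`, `v (i+1) = b` (`vw_mid`,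
`vw_succ`), `Bg H x b`. `qq A B l |A| = l`, `qq A B l (|A|+1) = b :: l`.
`eb_shift`: `A`, `B ++ [y]` at `l` and `A ++ [x]`, `B` at `l'`: `v = vw x A (B ++ [y]) = vw y (A ++ [x]) B` (`vw_shift`), `ℓ = |A| + |B| + 1`. `w i = f k j (qq A (B ++ [y]) l i)`, `w' i = f k' j' (qq (A ++ [x]) B l' i)`. `im_branch` for the second one: the last element `x` of `A ++ [x]` is not the last element of `B` (`ndB`). The ends: `w 0 = Ψ (TreeBall_hd x A)`, `w' 0 = f (A ++ [x] ++ l') = Ψ (TreeBall_hd y (A ++ [x]))`, the same vertex; `w ℓ = f (B ++ [y] ++ l) = Ψ (TreeBall_hd x (B ++ [y]))`,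
`w' ℓ = f (B ++ l') = Ψ (TreeBall_hd y B)`, the same vertex. `gates` at `i = |A|` (`v i = x`, `v (i+1) = y`): `w (|A|+1) = f k j (y :: l)`, `w' (|A|+1) = f k' j' l'`.
-/

namespace Pool.Agent.LHD

open Pool.Agent.LIH Pool.Agent.LHA
open Pool.Agent.LHC (Rg DeepN De Br CZ Ctr nxt nxG glueS sAdj LN LC LO)

variable {V : Type} {H : SimpleGraph V} {D : DX H} {κ : Type} {f : κ → JX V → List V → V}
  {v : κ → JX V → List V → V → V} {Ψ : V → V}

theorem ends (hT : TS D κ f v Ψ) (k : κ) {j : JX V} {A l : List V} {x : V}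
    (hx : D.hd j l = x) (hl : D.lv j ≤ l.length) (hA : D.NdX j (A ++ l))
    (ht : Th H (TreeBall_hd x A)) : f k j (A ++ l) = Ψ (TreeBall_hd x A) := by
  have h1 : D.hd j (A ++ l) = TreeBall_hd x A := by rw [hd_app, hx]
  have h2 : D.mkd j (A ++ l) := by
    refine ⟨hl.trans (by simp), ?_⟩
    rw [h1]
    exact ht
  rw [hT.mrk k j _ hA h2, h1]

theorem ebc_qq0 {A B l : List V} : qq A B l 0 = A ++ l := by
  unfold qq
  rw [if_pos (Nat.zero_le _)]
  rfl

theorem ebc_qqm {A B l : List V} : qq A B l A.length = l := by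
  unfold qq
  rw [if_pos le_rfl, List.drop_length]
  rfl

theorem ebc_qql {A B l : List V} : qq A B l (A.length + B.length) = B ++ l := by
  unfold qq
  split_ifs with h
  · have h1 : B.length = 0 := by omega
    have h2 : B = [] := List.eq_nil_of_length_eq_zero h1
    subst h2
    simp
  · rw [Nat.sub_self]
    rfl

theorem ebc_qqs {A B l : List V} {b : V} (hb : B.getLast? = some b) :
    qq A B l (A.length + 1) = b :: l := by
  have hB : B ≠ [] := by
    rintro rfl
    simp at hb
  have hpos : 0 < B.length := List.length_pos_iff.2 hB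
  unfold qq
  rw [if_neg (by omega)]
  have h1 : A.length + B.length - (A.length + 1) = B.length - 1 := by omega
  rw [h1]
  have h2 : B.drop (B.length - 1) = [b] := by
    have h3 : B.dropLast ++ [b] = B := List.dropLast_append_getLast? b (by rw [hb]; rfl)
    conv_lhs => rw [← h3]
    rw [List.drop_left']
    simp
  rw [h2]
  rfl

theorem ebc_ne {x : V} {A B : List V} (hG : GP H x A B) : ∀ a b, A.getLast? = some a →
    B.getLast? = some b → a ≠ b := by
  intro a b ha hb hab
  exact hG.dis (List.mem_of_getLast? ha) (hab ▸ List.mem_of_getLast? hb)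

theorem ebc_gates [Finite V] {x : V} {A B : List V} (hG : GP H x A B) {w w' : ℕ → V}
    (hI : Im H (A.length + B.length) (vw x A B) w) (hI' : Im H (A.length + B.length) (vw x A B) w')
    (h0 : w 0 = w' 0) (hl : w (A.length + B.length) = w' (A.length + B.length))
    {b : V} (hb : B.getLast? = some b) (hbg : Bg H x b) :
    w A.length = w' A.length ∧ w (A.length + 1) = w' (A.length + 1) := by
  have hpos : 0 < B.length := List.length_pos_iff.2 hG.neB
  refine gates (fun i hi => vw_adj hG.wA hG.wB i hi) (vw_inj hG)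
    (fun i hi hi' => vw_th hG i hi hi') hI hI' h0 hl (i := A.length) (by omega) ?_
  rw [vw_mid, vw_succ hb]
  exact hbg

theorem eb_cmp [Finite V] (hT : TS D κ f v Ψ) {x : V} {A B : List V} (hG : GP H x A B) {j : JX V}
    {l : List V} {j' : JX V} {l' : List V} (h1 : Frm D x A B j l) (h2 : Frm D x A B j' l')
    {b : V} (hb : B.getLast? = some b) (hbg : Bg H x b) (k k' : κ) :
    f k j l = f k' j' l' ∧ f k j (b :: l) = f k' j' (b :: l') := by
  have hI := im_branch hT k h1.nA h1.nB h1.lv (ebc_ne hG)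
  have hI' := im_branch hT k' h2.nA h2.nB h2.lv (ebc_ne hG)
  rw [h1.hd] at hI
  rw [h2.hd] at hI'
  have h := ebc_gates hG hI hI' (by
      show f k j (qq A B l 0) = f k' j' (qq A B l' 0)
      rw [ebc_qq0, ebc_qq0, ends hT k h1.hd h1.lv h1.nA hG.thA, ends hT k' h2.hd h2.lv h2.nA hG.thA])
    (by
      show f k j (qq A B l (A.length + B.length)) = f k' j' (qq A B l' (A.length + B.length))
      rw [ebc_qql, ebc_qql, ends hT k h1.hd h1.lv h1.nB hG.thB, ends hT k' h2.hd h2.lv h2.nB hG.thB])
    hb hbg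
  simp only [ebc_qqm, ebc_qqs hb] at h
  exact h

theorem eb_shift [Finite V] (hT : TS D κ f v Ψ) {x y : V} {A B : List V}
    (hG : GP H x A (B ++ [y])) {j : JX V} {l : List V} {j' : JX V} {l' : List V}
    (h1 : Frm D x A (B ++ [y]) j l) (h2 : Frm D y (A ++ [x]) B j' l') (hbg : Bg H x y)
    (k k' : κ) : f k j (y :: l) = f k' j' l' := by
  have hb : (B ++ [y]).getLast? = some y := by simp
  have hI := im_branch hT k h1.nA h1.nB h1.lv (ebc_ne hG)
  have hne : ∀ a b, (A ++ [x]).getLast? = some a → B.getLast? = some b → a ≠ b := by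
    intro a b ha hb' hab
    have ha' : x = a := by simpa using ha
    subst ha'
    have h3 : b ∈ B := List.mem_of_getLast? hb'
    rw [← hab] at h3
    have h4 := hG.ndB
    rw [List.append_assoc, List.nodup_append] at h4
    exact h4.2.2 x h3 x (by simp) rfl
  have hI' := im_branch hT k' h2.nA h2.nB h2.lv hne
  rw [h1.hd] at hI
  rw [h2.hd] at hI'
  have e1 : vw y (A ++ [x]) B = vw x A (B ++ [y]) := by
    funext i
    exact (vw_shift i).symm
  have e2 : (A ++ [x]).length + B.length = A.length + (B ++ [y]).length := by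
    simp only [List.length_append, List.length_singleton]
    omega
  have e2' : A.length + (B ++ [y]).length = (A ++ [x]).length + B.length := e2.symm
  rw [e1, e2] at hI'
  have e3 : TreeBall_hd y (A ++ [x]) = TreeBall_hd x A := by
    cases A <;> rfl
  have e4 : TreeBall_hd x (B ++ [y]) = TreeBall_hd y B := by
    cases B <;> rfl
  have h := ebc_gates hG hI hI' (by
      show f k j (qq A (B ++ [y]) l 0) = f k' j' (qq (A ++ [x]) B l' 0)
      rw [ebc_qq0, ebc_qq0, ends hT k h1.hd h1.lv h1.nA hG.thA,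
        ends hT k' h2.hd h2.lv h2.nA (by rw [e3]; exact hG.thA), e3])
    (by
      show f k j (qq A (B ++ [y]) l (A.length + (B ++ [y]).length)) =
        f k' j' (qq (A ++ [x]) B l' (A.length + (B ++ [y]).length))
      rw [ebc_qql, e2', ebc_qql, ends hT k h1.hd h1.lv h1.nB hG.thB,
        ends hT k' h2.hd h2.lv h2.nB (by rw [← e4]; exact hG.thB), e4])
    hb hbg
  have h5 := h.2
  simp only [ebc_qqs hb] at h5
  have e5 : A.length + 1 = (A ++ [x]).length := by simp
  rw [e5, ebc_qqm] at h5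
  exact h5

end Pool.Agent.LHD
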