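import Pool.Agent.LHD.Defs
import Pool.Agent.LHD.Bg1
import Pool.Agent.LHD.NdB

/-!
# Branches are nodes

`ndx_app`: induction on `A`. `A = c :: A'`: `NdX (A' ++ l)` by induction (`A'.tail ⊆ A'`; the last element of `A'` is the one of `A` if `A' ≠ []`). `ndx_mk` for `c`: `H.Adj (hd (A' ++ l)) c`: `Wk`, `hd_app`. `c ≠ hd (A' ++ l).tail`: `A' = []`: `hfst` (`c` is the last element of `A`); `A' = [a]`: `hd l = x ≠ c` by `hnd`; `A' = a :: a' :: _`: `a' ≠ c` by `hnd`. Not (`mkd (A' ++ l)` and `c = lp (A' ++ l)`): `A' = []`: `hfst` (`mkd` contains `Th`);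
`A' = a :: _`: `a ∈ A.tail` is not thick, but `mkd` says that `hd (A' ++ l) = a` is thick. `A' ++ l = []`: `hfst`. Length: `hlen`. `len_nodup`: a list without repetitions over `V` has at most `|V|` elements.
-/

namespace Pool.Agent.LHD

open Pool.Agent.LIH Pool.Agent.LHA
open Pool.Agent.LHC (Rg DeepN De Br CZ Ctr nxt nxG glueS sAdj LN LC LO)

variable {V : Type} {H : SimpleGraph V} (D : DX H)

theorem ndx_app {j : JX V} {l A : List V} (hl : D.NdX j l) (hA : Wk H (D.hd j l) A)
    (hnd : (A ++ [D.hd j l]).Nodup) (hth : ∀ d ∈ A.tail, ¬ Th H d)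
    (hfst : ∀ a, A.getLast? = some a → (l ≠ [] → a ≠ D.hd j l.tail) ∧
      ¬ (Th H (D.hd j l) ∧ a = D.lp j l) ∧ (l = [] → a ∉ D.F j))
    (hlen : l.length + A.length ≤ D.ra j) : D.NdX j (A ++ l) := by
  induction A with
  | nil => exact hl
  | cons c A ih =>
    rw [List.cons_append, List.nodup_cons] at hnd
    have hc1 : c ∉ A := fun h => hnd.1 (List.mem_append.2 (Or.inl h))
    have hc2 : c ≠ D.hd j l := fun h => hnd.1 (List.mem_append.2 (Or.inr (List.mem_singleton.2 h)))
    rw [List.tail_cons] at hth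
    rw [List.length_cons] at hlen
    have hrec : D.NdX j (A ++ l) := by
      refine ih hA.1 hnd.2 (fun d hd => hth d (List.mem_of_mem_tail hd)) (fun a ha => hfst a ?_) (by omega)
      have hne : A ≠ [] := by
        rintro rfl
        simp at ha
      rw [List.getLast?_cons_of_ne_nil hne]
      exact ha
    rw [List.cons_append]
    refine ndx_mk D hrec ?_ ?_ ?_ ?_ ?_
    · rw [hd_app]
      exact hA.2
    · intro hne
      rcases A with _ | ⟨a, A⟩
      · exact (hfst c rfl).1 hne
      · show c ≠ D.hd j (A ++ l)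
        rw [hd_app]
        rcases A with _ | ⟨a', A⟩
        · exact hc2
        · show c ≠ a'
          rintro rfl
          exact hc1 (by simp)
    · rintro ⟨hm, hcl⟩
      rcases A with _ | ⟨a, A⟩
      · exact (hfst c rfl).2.1 ⟨hm.2, hcl⟩
      · exact hth a (by simp) hm.2
    · intro he
      obtain ⟨rfl, rfl⟩ := List.append_eq_nil_iff.1 he
      exact (hfst c rfl).2.2 rfl
    · rw [List.length_append]
      omega

theorem len_nodup [Finite V] {x : V} {A : List V} (h : (A ++ [x]).Nodup) :
    A.length + 1 ≤ Nat.card V := by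
  have := Fintype.ofFinite V
  have h1 := h.length_le_card
  rw [List.length_append, List.length_singleton] at h1
  rw [Nat.card_eq_fintype_card]
  exact h1

end Pool.Agent.LHD
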