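import Pool.Agent.LHD.Defs
import Pool.Agent.LHD.Bg1
import Pool.Agent.LHD.NdB
import Pool.Agent.LHD.NdP

/-!
# The branches exist in the trees

`frm_node`: `ndx_app` for `A` and `B` at `l`. The lengths: `|A| + 1, |B| + 1 ≤ |V|` (`len_nodup`), `ra j = lv j + (|V| + 4)`. `A`: if `A = []` there is nothing to prove (`A ++ l = l`). Otherwise `x` is not thick, the last element `a` of `A` satisfies `a ≠ q = hd j l.tail` if `l ≠ []`; if `l = []` then `lv j = 0`, so `j = inr _` and `F j = ∅` (`D.two`). `B`: the last element is `y`, with `ndx_ne`, `ndx_lp`, and `y ∉ F j` if `l = []` (same argument, or from `NdX (y :: l)`).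
`frm_root`: the tree `inr (x, x)`, `l' = []`: `hd = x`, `lv = 0`, `F = ∅`. `eps = q0 x` since `NB H x x` is false; if `Th H x` then `NB H x (q0 x)` (`D.nq`), but `Bg H x y`, so `y` is not the link port.
`frm_shift`: the tree `inr (y, y)`, `l' = []`. The branch `A ++ [x]`: `Wk H y (A ++ [x])` (`Wk H x A`, `H.Adj y x`), `(A ++ [x] ++ [y]).Nodup` (`dis`, `ndA`, `y ≠ x`), `(A ++ [x]).tail` contains no thick vertices (`nA`, `nx`), the last element is `x`: not the link port of a thick `y` because `Bg H y x`. The branch `B`: `Wk H y B` and the other properties from those of `B ++ [y]`; if `B ≠ []` then `y ∈ (B ++ [y]).tail` is not thick.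
-/

namespace Pool.Agent.LHD

open Pool.Agent.LIH Pool.Agent.LHA
open Pool.Agent.LHC (Rg DeepN De Br CZ Ctr nxt nxG glueS sAdj LN LC LO)

variable {V : Type} [Finite V] {H : SimpleGraph V} (D : DX H)

theorem EBf_lvF {j : JX V} (h : D.lv j ≤ 0) : D.F j = ∅ := by
  rcases j with i | x
  · exfalso
    have h1 := D.two
    have h2 : D.lv (Sum.inl i) = D.R := rfl
    omega
  · rfl

theorem EBf_Wk {x y : V} {A : List V} (h : Wk H x A) (hxy : H.Adj y x) : Wk H y (A ++ [x]) := by
  induction A with
  | nil => exact ⟨trivial, hxy⟩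
  | cons c A ih =>
    refine ⟨ih h.1, ?_⟩
    cases A with
    | nil => exact h.2
    | cons d A => exact h.2

theorem EBf_Wk' {x y : V} {B : List V} (h : Wk H x (B ++ [y])) : Wk H y B := by
  induction B with
  | nil => exact trivial
  | cons c B ih =>
    refine ⟨ih h.1, ?_⟩
    cases B with
    | nil => exact h.2
    | cons d B => exact h.2

theorem EBf_eps {x y : V} (hx : Th H x) (hbg : Bg H x y) : y ≠ D.eps (Sum.inr (x, x)) := by
  have h1 : ¬ NB H x x := fun h => h.1.ne rfl
  have h2 : D.eps (Sum.inr (x, x)) = D.q0 x := by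
    unfold DX.eps
    exact if_neg h1
  rw [h2]
  rintro rfl
  exact (D.nq x hx).2 hbg

theorem frm_node {x y : V} {A B : List V} (hG : GP H x A B) (hB : B.getLast? = some y)
    (hbg : Bg H x y) {j : JX V} {l : List V} (h : D.NdX j (y :: l)) (hx : D.hd j l = x)
    (hl : D.lv j ≤ l.length) (hl' : l.length ≤ D.lv j + 3)
    (hA : A = [] ∨ (¬ Th H x ∧ ∃ a, A.getLast? = some a ∧ a ≠ D.hd j l.tail)) :
    Frm D x A B j l := by
  have hF : l = [] → D.F j = ∅ := by
    intro h0
    apply EBf_lvF D
    rw [h0] at hl
    exact hl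
  have hra : D.ra j = D.lv j + (Nat.card V + 4) := rfl
  refine ⟨hx, hl, ?_, ?_⟩
  · refine ndx_app D h.1 (by rw [hx]; exact hG.wA) (by rw [hx]; exact hG.ndA) hG.nA ?_ ?_
    · intro a ha
      rcases hA with rfl | ⟨h1, a', ha', h2⟩
      · simp at ha
      · rw [ha] at ha'
        have e : a = a' := Option.some.inj ha'
        subst e
        rw [hx]
        exact ⟨fun _ => h2, fun h3 => h1 h3.1, fun h0 => by rw [hF h0]; exact fun h => h⟩
    · have := len_nodup hG.ndA
      omega
  · refine ndx_app D h.1 (by rw [hx]; exact hG.wB) (by rw [hx]; exact hG.ndB) hG.nB ?_ ?_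
    · intro a ha
      rw [hB] at ha
      have e : y = a := Option.some.inj ha
      subst e
      refine ⟨fun h0 => ndx_ne D h h0, fun h3 => ndx_lp D h ⟨⟨hl, h3.1⟩, h3.2⟩, fun h0 => ?_⟩
      rw [hF h0]
      exact fun h => h
    · have := len_nodup hG.ndB
      omega

theorem frm_root {x y : V} {A B : List V} (hG : GP H x A B) (hB : B.getLast? = some y)
    (hbg : Bg H x y) (hA : A = [] ∨ ¬ Th H x) : Frm D x A B (.inr (x, x)) [] := by
  have hx : D.hd (.inr (x, x)) [] = x := rfl
  have hra : D.ra (.inr (x, x)) = 0 + (Nat.card V + 4) := rfl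
  refine ⟨rfl, le_refl 0, ?_, ?_⟩
  · refine ndx_app D (j := .inr (x, x)) (l := []) trivial hG.wA hG.ndA hG.nA ?_ ?_
    · intro a ha
      refine ⟨fun h0 => (h0 rfl).elim, ?_, fun _ => fun h => h⟩
      rintro ⟨h1, -⟩
      rcases hA with rfl | hA
      · simp at ha
      · exact hA h1
    · have := len_nodup hG.ndA
      rw [List.length_nil]
      omega
  · refine ndx_app D (j := .inr (x, x)) (l := []) trivial hG.wB hG.ndB hG.nB ?_ ?_
    · intro a ha
      rw [hB] at ha
      have e : y = a := Option.some.inj ha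
      subst e
      refine ⟨fun h0 => (h0 rfl).elim, ?_, fun _ => fun h => h⟩
      rintro ⟨h1, h2⟩
      exact EBf_eps D h1 hbg h2
    · have := len_nodup hG.ndB
      rw [List.length_nil]
      omega

theorem frm_shift {x y : V} {A B : List V} (hG : GP H x A (B ++ [y])) (hbg : Bg H x y) :
    Frm D y (A ++ [x]) B (.inr (y, y)) [] := by
  have hra : D.ra (.inr (y, y)) = 0 + (Nat.card V + 4) := rfl
  have hadj : H.Adj x y := bg_adj hbg
  have hyA : y ∉ A := fun h => (hG.dis h) (by simp)
  have hndA : ((A ++ [x]) ++ [y]).Nodup := by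
    rw [List.nodup_append]
    refine ⟨hG.ndA, List.nodup_singleton y, ?_⟩
    intro a ha b hb
    rw [List.mem_singleton] at hb
    subst hb
    rw [List.mem_append, List.mem_singleton] at ha
    rcases ha with ha | ha
    · rintro rfl
      exact hyA ha
    · rw [ha]
      exact hadj.ne
  have hndB : (B ++ [y]).Nodup := (List.nodup_append.mp hG.ndB).1
  have hBy : B ≠ [] → ¬ Th H y := by
    intro hB
    obtain ⟨b, B', rfl⟩ := List.exists_cons_of_ne_nil hB
    exact hG.nB y (by simp)
  refine ⟨rfl, le_refl 0, ?_, ?_⟩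
  · refine ndx_app D (j := .inr (y, y)) (l := []) trivial (EBf_Wk hG.wA hadj.symm) hndA ?_ ?_ ?_
    · intro d hd
      cases A with
      | nil => simp at hd
      | cons a A =>
        have hd' : d ∈ A ++ [x] := hd
        rw [List.mem_append, List.mem_singleton] at hd'
        rcases hd' with h | h
        · exact hG.nA d h
        · rw [h]
          exact hG.nx (by simp)
    · intro a ha
      rw [List.getLast?_concat] at ha
      have e : x = a := Option.some.inj ha
      subst e
      refine ⟨fun h0 => (h0 rfl).elim, ?_, fun _ => fun h => h⟩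
      rintro ⟨h1, h2⟩
      exact EBf_eps D h1 (bg_symm hbg) h2
    · have := len_nodup hndA
      rw [List.length_nil]
      omega
  · refine ndx_app D (j := .inr (y, y)) (l := []) trivial (EBf_Wk' hG.wB) hndB ?_ ?_ ?_
    · intro d hd
      apply hG.nB d
      cases B with
      | nil => simp at hd
      | cons b B =>
        have hd' : d ∈ B := hd
        show d ∈ B ++ [y]
        rw [List.mem_append]
        exact Or.inl hd'
    · intro a ha
      refine ⟨fun h0 => (h0 rfl).elim, ?_, fun _ => fun h => h⟩
      rintro ⟨h1, -⟩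
      apply hBy _ h1
      rintro rfl
      simp at ha
    · have := len_nodup hndB
      rw [List.length_nil]
      omega

end Pool.Agent.LHD
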