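import Pool.Agent.LHD.Defs
import Pool.Agent.LHD.Bg1
import Pool.Agent.LHD.NdB
import Pool.Agent.LHD.EBc
import Pool.Agent.LHD.Dsj
import Pool.Agent.LHD.EBf

/-!
# Exactness at bridges

Let `x = hd j l`, `q = hd j l.tail`. `gp_exists` gives `A, B`; `frm_node`, `frm_root`; `eb_cmp` (`j' = inr (x, x)`, `l' = []`, `k' = k0`): `f k j l = f k0 (inr (x, x)) []` and `f k j (y :: l) = f k0 (inr (x, x)) [y]`. `B = B' ++ [y]` (`B.getLast? = some y`); `frm_shift`; `eb_shift` with `(k0, inr (x, x), [])` and `(k0, inr (y, y), [])`: `f k0 (inr (x, x)) [y] = f k0 (inr (y, y)) []`.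
-/

namespace Pool.Agent.LHD

open Pool.Agent.LIH Pool.Agent.LHA
open Pool.Agent.LHC (Rg DeepN De Br CZ Ctr nxt nxG glueS sAdj LN LC LO)

theorem eb_exact {V : Type} [Finite V] {H : SimpleGraph V} (hc : H.Connected)
    (h3 : ∀ v, 3 ≤ (H.neighborSet v).ncard) {D : DX H} {κ : Type} {f : κ → JX V → List V → V}
    {v : κ → JX V → List V → V → V} {Ψ : V → V} (hT : TS D κ f v Ψ) (k0 k : κ) {j : JX V}
    {y : V} {l : List V} (h : D.NdX j (y :: l)) (hl : D.lv j ≤ l.length)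
    (hl' : l.length ≤ D.lv j + 3) (hb : Bg H (D.hd j l) y) :
    f k j l = f k0 (.inr (D.hd j l, D.hd j l)) [] ∧
      f k j (y :: l) = f k0 (.inr (y, y)) [] := by
  obtain ⟨A, B, hG, hB, hA⟩ := gp_exists hc h3 hb (D.hd j l.tail)
  have h1 : Frm D (D.hd j l) A B j l := by
    refine frm_node D hG hB hb h rfl hl hl' ?_
    rcases hA with hA | ⟨h1, a, h2, h3, -⟩
    · exact Or.inl hA.1
    · exact Or.inr ⟨h1, a, h2, h3⟩
  have h2 : Frm D (D.hd j l) A B (.inr (D.hd j l, D.hd j l)) [] := by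
    refine frm_root D hG hB hb ?_
    rcases hA with hA | hA
    · exact Or.inl hA.1
    · exact Or.inr hA.1
  obtain ⟨e1, e2⟩ := eb_cmp hT hG h1 h2 hB hb k k0
  obtain ⟨B', rfl⟩ := List.getLast?_eq_some_iff.1 hB
  have h4 := frm_shift D hG hb
  exact ⟨e1, e2.trans (eb_shift hT hG h2 h4 hb k0 k0)⟩

end Pool.Agent.LHD
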