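import Pool.Agent.LHD.Defs
import Pool.Agent.LHD.Bg1
import Pool.Agent.LHD.Nb2
import Pool.Agent.LHD.NdB
import Pool.Agent.LHD.EB

/-!
# Exact nodes

Write `Ps x = f k0 (inr (x, x)) []`. `ex_thick`: `mrk` at the node and at the root of the tree `inr (x, x)` (`lv = 0`, `hd = x`, so it is marked): both are `Ψ x`. `ex_child`: the child `q :: l` is a node (`ndx_mk`: `l` is not marked because `hd l` is not thick; `l = []` implies `lv j = 0`, `j = inr _`, `F j = ∅`; `|l| ≤ lv + 3 < ra`): `eb_exact`. `ex_deep`: `x = c`: thick: `ex_thick` (marked: `lv ≤ |c :: t|`). Not thick: `exists_bg` gives `q` with `Bg H c q`. `q ≠ hd t`: `ex_child`. `q = hd t`: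
`eb_exact` for `y = c`, `l = t` (`bg_symm`), second part. `ex_root`: thick: `ex_thick`; not thick: `exists_bg`, `ex_child` (no parent).
-/

namespace Pool.Agent.LHD

open Pool.Agent.LIH Pool.Agent.LHA
open Pool.Agent.LHC (Rg DeepN De Br CZ Ctr nxt nxG glueS sAdj LN LC LO)

variable {V : Type} [Finite V] {H : SimpleGraph V} (hc : H.Connected)
  (h3 : ∀ v, 3 ≤ (H.neighborSet v).ncard) {D : DX H} {κ : Type} {f : κ → JX V → List V → V}
  {v : κ → JX V → List V → V → V} {Ψ : V → V} (hT : TS D κ f v Ψ) (k0 k : κ) {j : JX V}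

include hT in
omit [Finite V] in
theorem ex_thick {l : List V} (h : D.NdX j l) (hm : D.mkd j l) :
    f k j l = f k0 (.inr (D.hd j l, D.hd j l)) [] := by
  rw [hT.mrk k j l h hm]
  have h1 : D.mkd (.inr (D.hd j l, D.hd j l)) [] := ⟨Nat.zero_le _, hm.2⟩
  rw [hT.mrk k0 (.inr (D.hd j l, D.hd j l)) [] trivial h1]
  rfl

include hc h3 hT

theorem ex_child {l : List V} (h : D.NdX j l) (hl : D.lv j ≤ l.length)
    (hl' : l.length ≤ D.lv j + 3) (hth : ¬ Th H (D.hd j l)) {q : V} (hq : Bg H (D.hd j l) q)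
    (hp : l ≠ [] → q ≠ D.hd j l.tail) : f k j l = f k0 (.inr (D.hd j l, D.hd j l)) [] := by
  have hra : D.ra j = D.lv j + (Nat.card V + 4) := rfl
  have h1 : D.NdX j (q :: l) := by
    refine ndx_mk D h (bg_adj hq) hp (fun h => hth h.1.2) ?_ (by omega)
    rintro rfl
    cases j with
    | inl i =>
      have h2 : D.R ≤ 0 := hl
      have := D.two
      omega
    | inr x => exact Set.notMem_empty _
  exact (eb_exact hc h3 hT k0 k h1 hl hl' hq).1

theorem ex_deep {c : V} {t : List V} (h : D.NdX j (c :: t)) (hl : D.lv j ≤ t.length)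
    (hl' : t.length ≤ D.lv j + 2) : f k j (c :: t) = f k0 (.inr (c, c)) [] := by
  have hl1 : (c :: t).length = t.length + 1 := rfl
  by_cases hth : Th H c
  · exact ex_thick hT k0 k h ⟨by omega, hth⟩
  · obtain ⟨q, hq⟩ := exists_bg (h3 c) hth
    by_cases hqt : q = D.hd j t
    · have hb : Bg H (D.hd j t) c := hqt ▸ bg_symm hq
      exact (eb_exact hc h3 hT k0 k h hl (by omega) hb).2
    · exact ex_child hc h3 hT k0 k h (by omega) (by omega) hth hq (fun _ => hqt)

theorem ex_root (x ε : V) : f k (.inr (x, ε)) [] = f k0 (.inr (x, x)) [] := by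
  by_cases hth : Th H x
  · exact ex_thick (j := .inr (x, ε)) (l := []) hT k0 k trivial ⟨Nat.zero_le _, hth⟩
  · obtain ⟨q, hq⟩ := exists_bg (h3 x) hth
    exact ex_child (j := .inr (x, ε)) (l := []) hc h3 hT k0 k trivial (Nat.zero_le _) (Nat.zero_le _) hth hq
      (fun h => absurd rfl h)

end Pool.Agent.LHD
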