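import Pool.Agent.LHD.Defs
import Pool.Agent.LHD.Bg1
import Pool.Agent.LHD.Nb2
import Pool.Agent.LHD.NdB
import Pool.Agent.LHD.Exc
import Pool.Agent.LHD.NE

/-!
# The nodes at the level `lv`

`par_exact`: `g = hd l.tail` is adjacent to `x = hd l` (`ndx_par`). Let `y ∈ N(x)`, `y ≠ g`; `c = y :: l` is a node (`hnd`), `f c = Φ y`, `v c` is a bijection `N(y) → N(Φ y)` (`hT.bij`, `lv ≤ |c|`), `v c x = f l` (`hT.par`). For `z ∈ N(y)`, `z ≠ x`, not (`c` marked and `z = lp c`): `z :: c` is a node (`ndx_mk`; `|c| < ra j` by `hlen`), so `v c z = f (z :: c) = Φ z` (`hT.chd`, `hex`). If there is such a `y` which is not thick: `excl1`: `f l = v c x = Φ x`. Otherwise all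
`y ∈ N(x)`, `y ≠ g`, are thick: `D.ee g x` gives `y, y'` with `e g x y ≠ e g x y'`. `lp (y :: l) = e g x y` (by definition, `l ≠ []`). `excl2` for both: `f l = Φ x` or `f l = Φ (e g x y)`, and `f l = Φ x` or `f l = Φ (e g x y')`. As `Φ` is injective `f l = Φ x`.
`exact_lv`: `|l| = lv + 1`: `l = c :: t`, `ex_deep`, `hΦ`. `|l| = lv`: `l = []`: then `lv = 0`, `j = inr (x, ε)` (`D.two`): `ex_root`. `l ≠ []`: `x` thick: `ex_thick` (marked). `x` not thick: `par_exact`: `hnd`: `ndx_mk` (`l` is not marked as `x` is not thick; `l ≠ []`; `|l| < ra`); `hf`: `ex_deep`; `hex`: `ex_deep` (`t = c`, `|c| = lv + 1`).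
-/

namespace Pool.Agent.LHD

open Pool.Agent.LIH Pool.Agent.LHA
open Pool.Agent.LHC (Rg DeepN De Br CZ Ctr nxt nxG glueS sAdj LN LC LO)

variable {V : Type} [Finite V] {H : SimpleGraph V} (h3 : ∀ v, 3 ≤ (H.neighborSet v).ncard)
  {D : DX H} {κ : Type} {f : κ → JX V → List V → V} {v : κ → JX V → List V → V → V}
  {Ψ : V → V} (hT : TS D κ f v Ψ) {Φ : H ≃g H}

include h3 hT

theorem par_exact (k : κ) {j : JX V} {l : List V} (h : D.NdX j l) (hl : D.lv j ≤ l.length + 1)
    (hne : l ≠ []) (hlen : l.length + 1 < D.ra j)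
    (hnd : ∀ y, H.Adj (D.hd j l) y → y ≠ D.hd j l.tail → D.NdX j (y :: l))
    (hf : ∀ y, D.NdX j (y :: l) → f k j (y :: l) = Φ y)
    (hex : ∀ z y, D.NdX j (z :: y :: l) → f k j (z :: y :: l) = Φ z) :
    f k j l = Φ (D.hd j l) := by
  have hxg := ndx_par D h hne
  have key : ∀ y, H.Adj (D.hd j l) y → y ≠ D.hd j l.tail →
      ∀ z, H.Adj y z → z ≠ D.hd j l → ¬ (D.mkd j (y :: l) ∧ z = D.lp j (y :: l)) → v k j (y :: l) z = Φ z := by
    intro y hy hyg z hz hzx hlp
    have hc := hnd y hy hyg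
    have hc' : D.NdX j (z :: y :: l) := by
      refine ndx_mk D hc ?_ ?_ hlp ?_ ?_
      · rw [hd_cons]
        exact hz
      · intro _
        exact hzx
      · intro h1
        exact absurd h1 (by simp)
      · simpa using hlen
    rw [hT.chd k j z (y :: l) hc' (by simpa using hl)]
    exact hex z y hc'
  have hbij : ∀ y, H.Adj (D.hd j l) y → y ≠ D.hd j l.tail →
      Set.BijOn (v k j (y :: l)) (H.neighborSet y) (H.neighborSet (Φ y)) := by
    intro y hy hyg
    have hc := hnd y hy hyg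
    have h1 := hT.bij k j (y :: l) hc (by simpa using hl)
    rw [hd_cons, hf y hc] at h1
    exact h1
  have hpar : ∀ y, H.Adj (D.hd j l) y → y ≠ D.hd j l.tail → v k j (y :: l) (D.hd j l) = f k j l :=
    fun y hy hyg => hT.par k j y l (hnd y hy hyg) hl
  by_cases hA : ∃ y, H.Adj (D.hd j l) y ∧ y ≠ D.hd j l.tail ∧ ¬ Th H y
  · obtain ⟨y, hy, hyg, hyt⟩ := hA
    rw [← hpar y hy hyg]
    refine excl1 (hbij y hy hyg) hy.symm ?_
    intro z hz hzx
    refine key y hy hyg z hz hzx ?_
    rintro ⟨hm, -⟩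
    have hm2 := hm.2
    rw [hd_cons] at hm2
    exact hyt hm2
  · push Not at hA
    have two : ∀ y, H.Adj (D.hd j l) y → y ≠ D.hd j l.tail →
        f k j l = Φ (D.hd j l) ∨ f k j l = Φ (D.e (D.hd j l.tail) (D.hd j l) y) := by
      intro y hy hyg
      rw [← hpar y hy hyg]
      refine excl2 (hbij y hy hyg) hy.symm ?_
      intro z hz hzx hze
      refine key y hy hyg z hz hzx ?_
      rintro ⟨-, h2⟩
      exact hze h2
    obtain ⟨y, y', hy, hy', hyg, hyg', hne'⟩ := D.ee (D.hd j l.tail) (D.hd j l) hxg hA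
    rcases two y hy hyg with h1 | h1
    · exact h1
    · rcases two y' hy' hyg' with h2 | h2
      · exact h2
      · exact absurd (Φ.injective (h1.symm.trans h2)) hne'

theorem exact_lv (hc : H.Connected) (k0 : κ) (hΦ : ∀ x, f k0 (.inr (x, x)) [] = Φ x) (k : κ)
    {j : JX V} {l : List V} (h : D.NdX j l) (h1 : D.lv j ≤ l.length)
    (h2 : l.length ≤ D.lv j + 1) : f k j l = Φ (D.hd j l) := by
  by_cases hl : l = []
  · subst hl
    have h0 : D.lv j = 0 := by simpa using h1
    rcases j with i | ⟨x, ε⟩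
    · exfalso
      have h4 : D.R = 0 := h0
      have h5 := D.two
      omega
    · have h4 := ex_root hc h3 hT k0 k x ε
      rw [h4, hΦ]
      rfl
  · by_cases hth : Th H (D.hd j l)
    · rw [ex_thick hT k0 k h ⟨h1, hth⟩, hΦ]
    · rcases Nat.lt_or_ge (D.lv j) l.length with h4 | h4
      · obtain ⟨c, t, rfl⟩ := List.exists_cons_of_ne_nil hl
        simp only [List.length_cons] at h2 h4
        rw [ex_deep hc h3 hT k0 k h (by omega) (by omega), hΦ]
        rfl
      · have hlen : l.length = D.lv j := le_antisymm h4 h1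
        have hra : D.ra j = D.lv j + (Nat.card V + 4) := rfl
        refine par_exact h3 hT k h (by omega) hl (by omega) ?_ ?_ ?_
        · intro y hy hyg
          refine ndx_mk D h hy (fun _ => hyg) ?_ (fun h5 => absurd h5 hl) (by omega)
          rintro ⟨hm, -⟩
          exact hth hm.2
        · intro y hy
          rw [ex_deep hc h3 hT k0 k hy (by omega) (by omega), hΦ]
        · intro z y hz
          rw [ex_deep hc h3 hT k0 k hz (by simp; omega) (by simp; omega), hΦ]

end Pool.Agent.LHD
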