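import Pool.Agent.LHD.Defs
import Pool.Agent.LHD.Bg1
import Pool.Agent.LHD.NdB
import Pool.Agent.LHD.Exc
import Pool.Agent.LHD.B1

/-!
# The nodes below the level `lv`

Trees `j = inl i`, `lv = R ≥ 2`. Downward induction on `|l|`. `R ≤ |l| ≤ R + 1`: `exact_lv`. `|l| = R - 1` (so `l ≠ []`): `par_exact`: `hnd`: `ndx_mk` (`l` is not marked, `|l| < R`); `hf`, `hex`: the lengths are `R`, `R + 1`: `exact_lv`. `|l| ≤ R - 2`: the node `l` has a child `c = y :: l`: if `l ≠ []` choose `y ∈ N(hd l)` different from `hd l.tail` (degree at least 3; `l` is not marked); if `l = []` choose `y ∈ N(a) \ F` (`hF`). `f c = Φ y` (induction hypothesis). For `z ∈ N(y)`, `z ≠ x = hd l`: `z :: c` is a node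
(`c` is not marked, `|c| < R`), `f (z :: c) = Φ z` (induction hypothesis), and `f l ≠ f (z :: c)` (`hT.inj'`). `f l` is adjacent to `f c = Φ y` (`hT.adj`): `excl3` with `u = f l`.
-/

namespace Pool.Agent.LHD

open Pool.Agent.LIH Pool.Agent.LHA
open Pool.Agent.LHC (Rg DeepN De Br CZ Ctr nxt nxG glueS sAdj LN LC LO)

theorem exact_low {V : Type} [Finite V] {H : SimpleGraph V} (hc : H.Connected)
    (h3 : ∀ v, 3 ≤ (H.neighborSet v).ncard) {D : DX H}
    (hF : ∀ i, D.F4 i ⊂ H.neighborSet (D.a4 i)) {κ : Type} {f : κ → JX V → List V → V}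
    {v : κ → JX V → List V → V → V} {Ψ : V → V} (hT : TS D κ f v Ψ) {Φ : H ≃g H} (k0 : κ)
    (hΦ : ∀ x, f k0 (.inr (x, x)) [] = Φ x) (k : κ) (i : Fin 4) {l : List V}
    (h : D.NdX (.inl i) l) (hl : l.length ≤ D.R + 1) :
    f k (.inl i) l = Φ (D.hd (.inl i) l) := by
  have hlv : D.lv (.inl i) = D.R := rfl
  have hra : D.ra (.inl i) = D.R + (Nat.card V + 4) := rfl
  have h2 := D.two
  have hex : ∀ l : List V, D.NdX (.inl i) l → D.R ≤ l.length → l.length ≤ D.R + 1 →
      f k (.inl i) l = Φ (D.hd (.inl i) l) := fun l hn h1 h2 =>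
    exact_lv h3 hT hc k0 hΦ k hn (by rw [hlv]; exact h1) (by rw [hlv]; exact h2)
  have key : ∀ m : ℕ, ∀ l : List V, D.NdX (.inl i) l → l.length ≤ D.R + 1 → D.R + 1 - l.length = m →
      f k (.inl i) l = Φ (D.hd (.inl i) l) := by
    intro m
    induction m using Nat.strong_induction_on with
    | _ m ih =>
      intro l hn hl hm
      have hmk : ∀ l' : List V, l'.length < D.R → ¬ D.mkd (.inl i) l' := by
        rintro l' hl' ⟨h1, _⟩
        rw [hlv] at h1
        omega
      rcases Nat.lt_or_ge l.length D.R with hlt | hge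
      · rcases Nat.lt_or_ge (l.length + 1) D.R with hlt2 | hge2
        · -- far below the level
          obtain ⟨y, hy, hyp, hyF⟩ : ∃ y, H.Adj (D.hd (.inl i) l) y ∧
              (l ≠ [] → y ≠ D.hd (.inl i) l.tail) ∧ (l = [] → y ∉ D.F (.inl i)) := by
            by_cases h0 : l = []
            · subst h0
              obtain ⟨y, hy, hyF⟩ := Set.exists_of_ssubset (hF i)
              exact ⟨y, hy, fun h => absurd rfl h, fun _ => hyF⟩
            · obtain ⟨y, hy, hyn⟩ := Set.exists_ne_of_one_lt_ncard
                (show 1 < (H.neighborSet (D.hd (.inl i) l)).ncard by have := h3 (D.hd (.inl i) l); omega)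
                (D.hd (.inl i) l.tail)
              exact ⟨y, hy, fun _ => hyn, fun h => absurd h h0⟩
          have hc1 : D.NdX (.inl i) (y :: l) := ndx_mk D hn hy hyp (fun h => hmk l hlt h.1) hyF
            (by rw [hra]; omega)
          have hl1 : (y :: l).length = l.length + 1 := rfl
          have hfc : f k (.inl i) (y :: l) = Φ y :=
            ih (D.R + 1 - (y :: l).length) (by omega) (y :: l) hc1 (by omega) rfl
          have hadj := hT.adj k (.inl i) y l hc1
          rw [hfc] at hadj
          refine excl3 (Φ := Φ) (y := y) hadj.symm ?_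
          intro z hz hzx heq
          have hc2 : D.NdX (.inl i) (z :: y :: l) := ndx_mk D hc1 hz (fun _ => hzx)
            (fun h => hmk (y :: l) (by omega) h.1) (fun h => by simp at h) (by rw [hra]; omega)
          have hl2 : (z :: y :: l).length = l.length + 2 := rfl
          have hfz : f k (.inl i) (z :: y :: l) = Φ z :=
            ih (D.R + 1 - (z :: y :: l).length) (by omega) (z :: y :: l) hc2 (by omega) rfl
          have := hT.inj' k (.inl i) y z l hc2
          rw [hfz] at this
          exact this heq.symm
        · have hne : l ≠ [] := by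
            rintro rfl
            simp only [List.length_nil] at hge2
            omega
          refine par_exact h3 hT k hn (by rw [hlv]; omega) hne (by rw [hra]; omega) ?_ ?_ ?_
          · intro y hy hyp
            exact ndx_mk D hn hy (fun _ => hyp) (fun h => hmk l hlt h.1) (fun h => absurd h hne)
              (by rw [hra]; omega)
          · intro y hy
            have hl1 : (y :: l).length = l.length + 1 := rfl
            exact hex (y :: l) hy (by omega) (by omega)
          · intro z y hz
            have hl1 : (z :: y :: l).length = l.length + 2 := rfl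
            exact hex (z :: y :: l) hz (by omega) (by omega)
      · exact hex l hn hge hl
  exact key _ l h hl rfl

end Pool.Agent.LHD
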