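import Pool.Agent.LHD.Defs
import Pool.Agent.LHD.Fc

/-!
# Lobes with the same number of elements

`four_corners`. `S ∩ T = ∅` is excluded; `S ⊆ T` or `T ⊆ S` implies `S = T` (`Set.eq_of_subset_of_ncard_le`); `S ∪ T = univ`: `|V| = |S ∪ T| = |S| + |T| - |S ∩ T| ≤ 2 |S| - 1 < |V|`.
-/

namespace Pool.Agent.LHD

open Pool.Agent.LIH Pool.Agent.LHA
open Pool.Agent.LHC (Rg DeepN De Br CZ Ctr nxt nxG glueS sAdj LN LC LO)

theorem lobe_unique {V : Type} [Finite V] {H : SimpleGraph V} (hc : H.Connected) {S T : Set V}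
    {q p q' p' : V} (hS : Lb H S q p) (hT : Lb H T q' p') (he : S.ncard = T.ncard)
    (h2 : 2 * S.ncard ≤ Nat.card V) (hn : (S ∩ T).Nonempty) : S = T := by
  rcases four_corners hc hS hT with h | h | h | h
  · rw [h] at hn
    exact absurd hn Set.not_nonempty_empty
  · exact Set.eq_of_subset_of_ncard_le h he.ge (Set.toFinite _)
  · exact (Set.eq_of_subset_of_ncard_le h he.le (Set.toFinite _)).symm
  · exfalso
    have h1 := Set.ncard_union_add_ncard_inter S T (Set.toFinite _) (Set.toFinite _)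
    have h3 : 0 < (S ∩ T).ncard := (Set.ncard_pos (Set.toFinite _)).2 hn
    rw [h, Set.ncard_univ] at h1
    omega

end Pool.Agent.LHD
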