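import Pool.Agent.LHD.Defs
import Pool.Agent.LHD.Bg1
import Pool.Agent.LHD.Nb2
import Pool.Agent.LHD.Cnt

/-!
# Level sets

`tl_val`: `brs_count` with `n v < n u`: `mx u v ≥ 1`, `mx_pos`. `lvl_sum` (`n = nS S g`): `∑ c ∈ C, |TL c| = ∑_{(u, v)} #{c ∈ C | (u, v) ∈ TL c}` (double counting, `Finset.sum_comm`), and for `H.Adj u v`, `n v < n u` the number of `c ∈ C` with `n v < c ≤ n u` is at most `n u - n v ≤ mx u v` (`brs_count`); it is `0` for all other pairs. So the sum is at most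
`∑_{(u, v) : n v < n u} mx u v`, which is the number of the exits `d` with `n (β d.1 d.2) < n (g d.1)` (`mx_sum` for the finset of the pairs with `n v < n u`).
`tl_pos`: `cut_one` for `U = {u | c ≤ n u}`. `tl_two`: `cut_two`; two different elements. `tl_lb`: the elements of `TL H n c` are exactly the darts which leave `{w | c ≤ n w}`.
-/

namespace Pool.Agent.LHD

open Pool.Agent.LIH Pool.Agent.LHA
open Pool.Agent.LHC (Rg DeepN De Br CZ Ctr nxt nxG glueS sAdj LN LC LO)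

variable {V : Type} {H : SimpleGraph V} {S : Set V} {D : V → V → Prop} {g : V → V}
  {β : V → V → V}

theorem tl_val [Finite V] (hD : ∀ x y, D x y → D y x) (h : BrS H S D g β) {c : ℕ} {d : V × V}
    (hd : d ∈ TL H (nS S g) c) : ∃ x y, Xd H S D x y ∧ g x = d.1 ∧ β x y = d.2 := by
  obtain ⟨h1, h2, h3⟩ := hd
  have h4 := brs_count hD h h1
  apply mx_pos
  omega

theorem lvl_sum [Finite V] (hD : ∀ x y, D x y → D y x) (h : BrS H S D g β) (C : Finset ℕ) :
    ∑ c ∈ C, (TL H (nS S g) c).ncard ≤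
      {d : V × V | Xd H S D d.1 d.2 ∧ nS S g (β d.1 d.2) < nS S g (g d.1)}.ncard := by
  classical
  haveI := Fintype.ofFinite V
  have h1 := mx_sum (H := H) (S := S) (D := D) (g := g) (β := β)
    (Finset.univ.filter fun e : V × V => nS S g e.2 < nS S g e.1)
  have h2 : {d : V × V | Xd H S D d.1 d.2 ∧ (g d.1, β d.1 d.2) ∈
      Finset.univ.filter fun e : V × V => nS S g e.2 < nS S g e.1} =
      {d : V × V | Xd H S D d.1 d.2 ∧ nS S g (β d.1 d.2) < nS S g (g d.1)} := by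
    ext d
    simp only [Set.mem_setOf_eq, Finset.mem_filter, Finset.mem_univ, true_and]
  rw [← h2, ← h1]
  have h3 : ∀ c ∈ C, (TL H (nS S g) c).ncard =
      ∑ e : V × V, if e ∈ TL H (nS S g) c then 1 else 0 := by
    intro c _
    rw [Finset.sum_boole, Set.ncard_eq_toFinset_card']
    simp only [Nat.cast_id]
    congr 1
    ext e
    simp
  rw [Finset.sum_congr rfl h3, Finset.sum_comm, ← Finset.sum_filter_add_sum_filter_not Finset.univ
    (fun e : V × V => nS S g e.2 < nS S g e.1)]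
  have h4 : ∑ e ∈ Finset.univ.filter (fun e : V × V => ¬ nS S g e.2 < nS S g e.1),
      ∑ c ∈ C, (if e ∈ TL H (nS S g) c then 1 else 0) = 0 := by
    apply Finset.sum_eq_zero
    intro e he
    apply Finset.sum_eq_zero
    intro c _
    rw [if_neg]
    rintro ⟨_, h5, h6⟩
    rw [Finset.mem_filter] at he
    omega
  rw [h4, add_zero]
  apply Finset.sum_le_sum
  intro e he
  rw [Finset.sum_boole]
  simp only [Nat.cast_id]
  by_cases ha : H.Adj e.1 e.2
  · have h5 := brs_count hD h ha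
    have h6 : (C.filter fun c => e ∈ TL H (nS S g) c) ⊆ Finset.Ioc (nS S g e.2) (nS S g e.1) := by
      intro c hc
      rw [Finset.mem_filter] at hc
      obtain ⟨_, _, h7, h8⟩ := hc
      rw [Finset.mem_Ioc]
      exact ⟨h7, h8⟩
    have h7 := Finset.card_le_card h6
    rw [Nat.card_Ioc] at h7
    omega
  · have h6 : (C.filter fun c => e ∈ TL H (nS S g) c) = ∅ := by
      apply Finset.filter_eq_empty_iff.2
      rintro c _ ⟨h7, _⟩
      exact ha h7
    rw [h6]
    simp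

theorem tl_pos [Finite V] (hc : H.Connected) {n : V → ℕ} {c : ℕ} (h1 : ∃ u, c ≤ n u)
    (h2 : ∃ u, n u < c) : 1 ≤ (TL H n c).ncard := by
  obtain ⟨a, ha⟩ := h1
  obtain ⟨b, hb⟩ := h2
  obtain ⟨x, y, hx, hy, hxy⟩ := cut_one hc (U := {u | c ≤ n u}) ⟨a, ha⟩ ⟨b, by
    rw [Set.mem_compl_iff, Set.mem_setOf_eq]; omega⟩
  rw [Set.mem_setOf_eq] at hx hy
  have h3 : (x, y) ∈ TL H n c := ⟨hxy, by change n y < c; omega, hx⟩
  exact (Set.ncard_pos (Set.toFinite _)).2 ⟨_, h3⟩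

theorem tl_two [Finite V] (hc : H.Connected) {n : V → ℕ} {c : ℕ} (h1 : ∃ u, c ≤ n u)
    (h2 : ∃ u, n u < c) (h : ∀ d ∈ TL H n c, NB H d.1 d.2) : 2 ≤ (TL H n c).ncard := by
  obtain ⟨a, ha⟩ := h1
  obtain ⟨b, hb⟩ := h2
  obtain ⟨x, y, x', y', hx, hy, hxy, hx', hy', hxy', hne⟩ := cut_two hc (U := {u | c ≤ n u}) ⟨a, ha⟩ ⟨b, by
    rw [Set.mem_compl_iff, Set.mem_setOf_eq]; omega⟩ (by
      intro x y hx hy hxy
      rw [Set.mem_setOf_eq] at hx hy
      exact h (x, y) ⟨hxy, by change n y < c; omega, hx⟩)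
  rw [Set.mem_setOf_eq] at hx hy hx' hy'
  have h3 : (x, y) ∈ TL H n c := ⟨hxy, by change n y < c; omega, hx⟩
  have h4 : (x', y') ∈ TL H n c := ⟨hxy', by change n y' < c; omega, hx'⟩
  have h5 : (1 : ℕ) < (TL H n c).ncard := by
    rw [Set.one_lt_ncard_iff (Set.toFinite _)]
    refine ⟨_, _, h3, h4, ?_⟩
    intro h6
    rw [Prod.mk.injEq] at h6
    exact hne h6
  exact h5

theorem tl_lb [Finite V] {n : V → ℕ} {c : ℕ} (h1 : (TL H n c).ncard = 1) {u v : V}
    (h : (u, v) ∈ TL H n c) : Lb H {w | c ≤ n w} u v := by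
  obtain ⟨d, hd⟩ := Set.ncard_eq_one.1 h1
  have h2 : (u, v) = d := by
    rw [hd] at h
    exact h
  obtain ⟨h3, h4, h5⟩ := h
  refine ⟨h5, by change ¬ (c ≤ n v); change n v < c at h4; omega, h3, ?_⟩
  intro x y hx hy hxy
  rw [Set.mem_setOf_eq] at hx hy
  have h6 : (x, y) ∈ TL H n c := ⟨hxy, by change n y < c; omega, hx⟩
  rw [hd] at h6
  have h7 : (x, y) = d := h6
  rw [← h2, Prod.mk.injEq] at h7
  exact h7

end Pool.Agent.LHD
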