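import Pool.Agent.LHD.Defs
import Pool.Agent.LHD.Bg1
import Pool.Agent.LHD.Cnt
import Pool.Agent.LHD.NSb
import Pool.Agent.LHD.Lvl

/-!
# Parts which are lobes

`D` is `False`, the only exit is `(q, p)`. `n = nS S g`. `lvl_sum` with `C = {1, 2}`: `|TL 1| + |TL 2| ≤ 1`. `n (g q) ≥ 1` (`nS_pos`), there is `u` with `n u = 0` (`nS_zero`, `p ∉ S`), so `|TL 1| ≥ 1` (`tl_pos`), `|TL 1| = 1`, `|TL 2| = 0`; if some `n u ≥ 2` then `|TL 2| ≥ 1` (`tl_pos`). So `n ≤ 1`: injective on `S` (`nS_le_one`). The element of `TL 1` is the value of the exit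
(`tl_val`): `(g q, β q p)`. `tl_lb`, and `{w | 1 ≤ n w} = g '' S` (`nS_pos`).
-/

namespace Pool.Agent.LHD

open Pool.Agent.LIH Pool.Agent.LHA
open Pool.Agent.LHC (Rg DeepN De Br CZ Ctr nxt nxG glueS sAdj LN LC LO)

theorem half_lb {V : Type} [Finite V] {H : SimpleGraph V} (hc : H.Connected) {S : Set V}
    {q p : V} (hS : Lb H S q p) {g : V → V} {β : V → V → V}
    (h : BrS H S (fun _ _ => False) g β) :
    Set.InjOn g S ∧ Lb H (g '' S) (g q) (β q p) := by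
  have hex : ∀ x y, Xd H S (fun _ _ => False) x y → x = q ∧ y = p := by
    rintro x y ⟨hx, hxy, hy | hy⟩
    · exact hS.2.2.2 x y hx hy hxy
    · exact hy.elim
  have hD : ∀ x y : V, (fun _ _ : V => False) x y → (fun _ _ : V => False) y x := fun _ _ h => h
  have h1 : ({d : V × V | Xd H S (fun _ _ => False) d.1 d.2 ∧ nS S g (β d.1 d.2) < nS S g (g d.1)}).ncard ≤ 1 := by
    have hsub : {d : V × V | Xd H S (fun _ _ => False) d.1 d.2 ∧ nS S g (β d.1 d.2) < nS S g (g d.1)} ⊆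
        {(q, p)} := by
      rintro ⟨x, y⟩ ⟨hd, _⟩
      obtain ⟨rfl, rfl⟩ := hex x y hd
      rfl
    calc _ ≤ ({(q, p)} : Set (V × V)).ncard := Set.ncard_le_ncard hsub
      _ = 1 := Set.ncard_singleton _
  have h2 := lvl_sum hD h ({1, 2} : Finset ℕ)
  rw [Finset.sum_pair (by norm_num)] at h2
  have hq1 : 1 ≤ nS S g (g q) := nS_pos.2 ⟨q, hS.1, rfl⟩
  have hne : S ≠ Set.univ := fun h => hS.2.1 (h ▸ Set.mem_univ p)
  obtain ⟨u0, hu0⟩ := nS_zero (g := g) hne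
  have h3 : 1 ≤ (TL H (nS S g) 1).ncard := tl_pos hc ⟨g q, hq1⟩ ⟨u0, by omega⟩
  have h4 : (TL H (nS S g) 1).ncard = 1 := by omega
  have h5 : ∀ u, nS S g u ≤ 1 := by
    intro u
    by_contra hu
    have h6 : 1 ≤ (TL H (nS S g) 2).ncard := tl_pos hc ⟨u, by omega⟩ ⟨u0, by omega⟩
    omega
  refine ⟨nS_le_one.1 h5, ?_⟩
  obtain ⟨⟨u, v⟩, he⟩ := Set.ncard_eq_one.1 h4
  have hmem : (u, v) ∈ TL H (nS S g) 1 := by
    rw [he]
    rfl
  obtain ⟨x, y, hx, hgx, hbx⟩ := tl_val hD h hmem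
  obtain ⟨rfl, rfl⟩ := hex x y hx
  have h7 := tl_lb h4 hmem
  have h8 : {w | 1 ≤ nS S g w} = g '' S := by
    ext w
    exact nS_pos
  rw [h8] at h7
  simp only at hgx hbx
  rw [hgx, hbx]
  exact h7

end Pool.Agent.LHD
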