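import Pool.Agent.LHD.Defs
import Pool.Agent.LHD.Bg1
import Pool.Agent.LHD.Cnt
import Pool.Agent.LHD.NSb
import Pool.Agent.LHD.Lvl

/-!
# One broken edge: the level sets

`S = univ`, `D = De a b`: the exits are the darts `(a, b)`, `(b, a)`: at most two. `n = nS univ g`. `g` is not bijective, so (`V` finite) it is not surjective and not injective: there are `u` with `n u = 0` (`nS_pos`) and `u'` with `n u' ≥ 2` (`nS_le_one`). `lvl_sum` with `C = {1, 2, 3}`: `|TL 1| + |TL 2| + |TL 3| ≤ 2`, and `|TL 1|, |TL 2| ≥ 1` (`tl_pos`). So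
`|TL 1| = |TL 2| = 1`, `|TL 3| = 0`, so `n ≤ 2` (`tl_pos`). `tl_lb` for both (take the elements of `TL 1`, `TL 2`). The element of `TL 2` is the value of an exit (`tl_val`). Cardinalities: `|V| = ∑ u, n u` (`nS_sum`) `= |{1 ≤ n}| + |{2 ≤ n}|` since `n ≤ 2`, and `|{1 ≤ n}| + |{1 ≤ n}ᶜ| = |V|`.
-/

namespace Pool.Agent.LHD

open Pool.Agent.LIH Pool.Agent.LHA
open Pool.Agent.LHC (Rg DeepN De Br CZ Ctr nxt nxG glueS sAdj LN LC LO)

theorem levels {V : Type} [Finite V] {H : SimpleGraph V} (hc : H.Connected) {a b : V}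
    (hab : H.Adj a b) {g : V → V} {β : V → V → V} (h : BrS H Set.univ (De a b) g β)
    (hg : ¬ Function.Bijective g) : ∃ x1 y1 x2 y2,
      Lb H {u | 1 ≤ nS Set.univ g u} x1 y1 ∧ Lb H {u | 2 ≤ nS Set.univ g u} x2 y2 ∧
      (∀ u, nS Set.univ g u ≤ 2) ∧
      {u | 1 ≤ nS Set.univ g u}ᶜ.ncard = {u | 2 ≤ nS Set.univ g u}.ncard ∧
      ∃ x y, De a b x y ∧ g x = x2 ∧ β x y = y2 := by
  have := Fintype.ofFinite V
  have hD : ∀ x y, De a b x y → De a b y x := by
    rintro x y (⟨h1, h2⟩ | ⟨h1, h2⟩)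
    · exact Or.inr ⟨h2, h1⟩
    · exact Or.inl ⟨h2, h1⟩
  have hX : {d : V × V | Xd H Set.univ (De a b) d.1 d.2 ∧
      nS Set.univ g (β d.1 d.2) < nS Set.univ g (g d.1)} ⊆ ({(a, b), (b, a)} : Set (V × V)) := by
    rintro ⟨x, y⟩ ⟨⟨-, -, h3⟩, -⟩
    rcases h3 with h3 | h3
    · exact absurd (Set.mem_univ y) h3
    · rcases h3 with ⟨h1, h2⟩ | ⟨h1, h2⟩
      · left
        exact Prod.ext h1 h2
      · right
        exact Prod.ext h1 h2
  have hX2 : {d : V × V | Xd H Set.univ (De a b) d.1 d.2 ∧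
      nS Set.univ g (β d.1 d.2) < nS Set.univ g (g d.1)}.ncard ≤ 2 := by
    refine (Set.ncard_le_ncard hX (Set.toFinite _)).trans ?_
    rw [Set.ncard_pair]
    intro he
    exact hab.ne (Prod.ext_iff.1 he).1
  have hs := (lvl_sum hD h ({1, 2, 3} : Finset ℕ)).trans hX2
  rw [Finset.sum_insert (by decide), Finset.sum_insert (by decide), Finset.sum_singleton] at hs
  have hu0 : ∃ u, nS Set.univ g u < 1 := by
    have h1 : ¬ Function.Surjective g := fun h1 => hg (Finite.surjective_iff_bijective.1 h1)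
    unfold Function.Surjective at h1
    push Not at h1
    obtain ⟨u, hu⟩ := h1
    refine ⟨u, ?_⟩
    by_contra h2
    rw [not_lt, nS_pos] at h2
    obtain ⟨x, -, hx⟩ := h2
    exact hu x hx
  have hu2 : ∃ u, 2 ≤ nS Set.univ g u := by
    by_contra h1
    push Not at h1
    have h2 : Set.InjOn g Set.univ := nS_le_one.1 fun u => Nat.lt_succ_iff.1 (h1 u)
    exact hg (Finite.injective_iff_bijective.1 (Set.injOn_univ.1 h2))
  obtain ⟨u0, hu0⟩ := hu0
  obtain ⟨u2, hu2⟩ := hu2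
  have t1 : 1 ≤ (TL H (nS Set.univ g) 1).ncard := tl_pos hc ⟨u2, by omega⟩ ⟨u0, hu0⟩
  have t2 : 1 ≤ (TL H (nS Set.univ g) 2).ncard := tl_pos hc ⟨u2, hu2⟩ ⟨u0, by omega⟩
  have hn : ∀ u, nS Set.univ g u ≤ 2 := by
    intro u
    by_contra h1
    have t3 : 1 ≤ (TL H (nS Set.univ g) 3).ncard := tl_pos hc ⟨u, by omega⟩ ⟨u0, by omega⟩
    omega
  have e1 : (TL H (nS Set.univ g) 1).ncard = 1 := by omega
  have e2 : (TL H (nS Set.univ g) 2).ncard = 1 := by omega
  obtain ⟨⟨x1, y1⟩, hd1⟩ := Set.ncard_eq_one.1 e1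
  obtain ⟨⟨x2, y2⟩, hd2⟩ := Set.ncard_eq_one.1 e2
  have m1 : (x1, y1) ∈ TL H (nS Set.univ g) 1 := by
    rw [hd1]
    exact Set.mem_singleton _
  have m2 : (x2, y2) ∈ TL H (nS Set.univ g) 2 := by
    rw [hd2]
    exact Set.mem_singleton _
  refine ⟨x1, y1, x2, y2, tl_lb e1 m1, tl_lb e2 m2, hn, ?_, ?_⟩
  · have k1 : ∑ u, nS Set.univ g u = (Set.univ : Set V).ncard := nS_sum Set.univ g
    have k2 : ∑ u, nS Set.univ g u = {u | 1 ≤ nS Set.univ g u}.ncard +
        {u | 2 ≤ nS Set.univ g u}.ncard := by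
      classical
      rw [Set.ncard_eq_toFinset_card', Set.ncard_eq_toFinset_card', Set.toFinset_setOf,
        Set.toFinset_setOf, Finset.card_filter, Finset.card_filter, ← Finset.sum_add_distrib]
      refine Finset.sum_congr rfl fun u _ => ?_
      have := hn u
      interval_cases nS Set.univ g u <;> rfl
    have k3 := Set.ncard_add_ncard_compl {u | 1 ≤ nS Set.univ g u}
    rw [Set.ncard_univ] at k1
    omega
  · obtain ⟨x, y, hx, hy1, hy2⟩ := tl_val hD h m2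
    refine ⟨x, y, ?_, hy1, hy2⟩
    rcases hx.2.2 with h3 | h3
    · exact absurd (Set.mem_univ y) h3
    · exact h3

end Pool.Agent.LHD
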