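import Pool.Agent.LHD.Defs
import Pool.Agent.LHD.Bg1
import Pool.Agent.LHD.Nb2
import Pool.Agent.LHD.Hs
import Pool.Agent.LHD.Lev
import Pool.Agent.LHD.NSb

/-!
# One broken edge: the images of lobes

`b ∉ S`: otherwise `(b, a)` leaves `S`, so `Lb H S b a` and `Bg H b a`. So `De a b x y` is false for `x ∈ S`, and `BrS H S (fun _ _ => False) g β`: `half_lb` gives the first two claims.
Suppose `g '' S = A2 := {u | 2 ≤ n u}`, `n = nS univ g`. Let `x1, y1, x2, y2` be as in `levels`. By uniqueness of the exit (`lb_uniq`) `g q = x2`, `β q p = y2`. `(q, p)` is not broken (`q ≠ a, b`), so `g p = β q p = y2 ∉ A2`. Let `S' = {x | x ∉ S ∧ g x ∈ A2}`, `p ∉ S'`. Every `u ∈ A2` has exactly two preimages (`n u = 2`), exactly one in `S` (`g` is injective on `S`,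
`g '' S = A2`), so exactly one in `S'`; in particular `S'` is not empty. Claim: there are `x ∈ S'`, `y ∉ S'` with `H.Adj x y`, `y ∉ S`, `¬ De a b x y`. Otherwise every dart `(x, y)` which leaves `S'` has `y ∈ S` or `De a b x y`; if `y ∈ S` then `(y, x)` leaves `S`, so `x = p ∉ S'`. So `De a b x y`; at most one of the darts `(a, b)`, `(b, a)` leaves `S'`, and at least one dart leaves `S'` (`cut_one`; `p ∉ S'`).
So `Lb H S' a b` or `Lb H S' b a`: contradiction to `NB H a b` (`bg_symm`).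
For this `(x, y)`: `β x y = g y`; `g x ∈ A2`, `g y ∉ A2` (`y ∉ S`, `y ∉ S'`), and they are adjacent (`bij`), so `g x = x2`, `g y = y2` (the only exit of `A2`). The preimages of `x2` are `q ∈ S` and `x ∉ S` (`n x2 = 2`). Let `(x0, y0)` be the broken dart of `levels`: `g x0 = x2`, `β x0 y0 = y2`. `x0 ∈ {a, b}` is not in `S`, so `x0 = x`; `β x y0 = y2 = β x y`, so `y0 = y` (`BijOn`, injectivity on `N(x)`),
but `(x, y)` is not broken: contradiction.
-/

namespace Pool.Agent.LHD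

open Pool.Agent.LIH Pool.Agent.LHA
open Pool.Agent.LHC (Rg DeepN De Br CZ Ctr nxt nxG glueS sAdj LN LC LO)

theorem lobe_img {V : Type} [Finite V] {H : SimpleGraph V} (hc : H.Connected) {a b : V}
    (hab : NB H a b) {g : V → V} {β : V → V → V} (h : BrS H Set.univ (De a b) g β)
    (hg : ¬ Function.Bijective g) {S : Set V} {q p : V} (hS : Lb H S q p) (ha : a ∉ S) :
    Set.InjOn g S ∧ Lb H (g '' S) (g q) (β q p) ∧ g '' S ≠ {u | 2 ≤ nS Set.univ g u} := by
  classical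
  obtain ⟨hq, hp, hadj, huniq⟩ := id hS
  have hnab : ¬ Bg H a b := nb_not_bg hab
  have hb : b ∉ S := by
    intro hb
    obtain ⟨h1, h2⟩ := huniq b a hb ha hab.1.symm
    subst h1; subst h2
    exact hnab (bg_symm ⟨S, hS⟩)
  have hDeS : ∀ x y, x ∈ S → ¬ De a b x y := by
    rintro x y hx (⟨rfl, -⟩ | ⟨rfl, -⟩)
    · exact ha hx
    · exact hb hx
  have hB : BrS H S (fun _ _ => False) g β :=
    ⟨fun x _ => h.bij x trivial, fun x hx y _ hxy _ => h.eq x trivial y trivial hxy (hDeS x y hx)⟩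
  obtain ⟨hinj, hlb⟩ := half_lb hc hS hB
  refine ⟨hinj, hlb, ?_⟩
  intro hA
  obtain ⟨x1, y1, x2, y2, -, L2, hle, -, x0, y0, hDe0, hg0, hβ0⟩ := levels hc hab.1 h hg
  rw [hA] at hlb
  obtain ⟨e1, e2⟩ := lb_uniq L2 hlb
  have hgp : g p = y2 := by
    rw [← e2]
    exact (h.eq q trivial p trivial hadj (hDeS q p hq)).symm
  have hy2 : y2 ∉ {u | 2 ≤ nS Set.univ g u} := L2.2.1
  have hfib : ∀ u, {x | x ∈ (Set.univ : Set V) ∧ g x = u}.ncard ≤ 2 := hle
  set S' : Set V := {x | x ∉ S ∧ g x ∈ {u | 2 ≤ nS Set.univ g u}} with hS'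
  have hpS' : p ∉ S' := by
    rintro ⟨-, h1⟩
    rw [hgp] at h1
    exact hy2 h1
  have hne : S'.Nonempty := by
    have h1 : 2 ≤ {x | x ∈ (Set.univ : Set V) ∧ g x = x2}.ncard := L2.1
    obtain ⟨u, hu, v, hv, huv⟩ := (Set.one_lt_ncard (Set.toFinite _)).1 (show 1 < _ from h1)
    by_cases huS : u ∈ S
    · by_cases hvS : v ∈ S
      · exact absurd (hinj huS hvS (hu.2.trans hv.2.symm)) huv
      · refine ⟨v, hvS, ?_⟩
        rw [hv.2]; exact L2.1
    · refine ⟨u, huS, ?_⟩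
      rw [hu.2]; exact L2.1
  have claim : ∃ x y, x ∈ S' ∧ y ∉ S' ∧ H.Adj x y ∧ y ∉ S ∧ ¬ De a b x y := by
    by_contra hcon
    have hDe : ∀ x y, x ∈ S' → y ∉ S' → H.Adj x y → De a b x y := by
      intro x y hx hy hxy
      by_contra hd
      by_cases hyS : y ∈ S
      · obtain ⟨-, h2⟩ := huniq y x hyS hx.1 hxy.symm
        rw [h2] at hx
        exact hpS' hx
      · exact hcon ⟨x, y, hx, hy, hxy, hyS, hd⟩
    obtain ⟨x, y, hx, hy, hxy⟩ := cut_one hc hne ⟨p, hpS'⟩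
    rcases hDe x y hx hy hxy with ⟨rfl, rfl⟩ | ⟨rfl, rfl⟩
    · refine hnab ⟨S', hx, hy, hxy, ?_⟩
      intro x' y' hx' hy' hxy'
      rcases hDe x' y' hx' hy' hxy' with h1 | ⟨h1, -⟩
      · exact h1
      · rw [h1] at hx'; exact absurd hx' hy
    · refine hnab (bg_symm ⟨S', hx, hy, hxy, ?_⟩)
      intro x' y' hx' hy' hxy'
      rcases hDe x' y' hx' hy' hxy' with ⟨h1, -⟩ | h1
      · rw [h1] at hx'; exact absurd hx' hy
      · exact h1
  obtain ⟨x, y, hx, hy, hxy, hyS, hd⟩ := claim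
  have hβ : β x y = g y := h.eq x trivial y trivial hxy hd
  have hgxy : H.Adj (g x) (g y) := by
    rw [← hβ]
    exact (h.bij x trivial).mapsTo hxy
  have hgy : g y ∉ {u | 2 ≤ nS Set.univ g u} := fun h1 => hy ⟨hyS, h1⟩
  obtain ⟨e3, e4⟩ := L2.2.2.2 (g x) (g y) hx.2 hgy hgxy
  have hx0S : x0 ∉ S := by
    rcases hDe0 with ⟨h1, -⟩ | ⟨h1, -⟩
    · rw [h1]; exact ha
    · rw [h1]; exact hb
  have hx0 : x0 = x := by
    by_contra hne0
    have h1 : ({q, x, x0} : Set V) ⊆ {z | z ∈ (Set.univ : Set V) ∧ g z = x2} := by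
      rintro z (rfl | rfl | rfl)
      · exact ⟨trivial, e1⟩
      · exact ⟨trivial, e3⟩
      · exact ⟨trivial, hg0⟩
    have h2 := Set.ncard_le_ncard h1 (Set.toFinite _)
    have h3 : ({q, x, x0} : Set V).ncard = 3 := by
      rw [Set.ncard_eq_three]
      refine ⟨q, x, x0, ?_, ?_, ?_, rfl⟩
      · rintro rfl; exact hx.1 hq
      · rintro rfl; exact hx0S hq
      · exact fun h4 => hne0 h4.symm
    have h4 := hfib x2
    omega
  have hadj0 : H.Adj x0 y0 := by
    rcases hDe0 with ⟨h1, h2⟩ | ⟨h1, h2⟩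
    · rw [h1, h2]; exact hab.1
    · rw [h1, h2]; exact hab.1.symm
  have hy0 : y0 = y := by
    subst hx0
    refine (h.bij x0 trivial).injOn hadj0 hxy ?_
    rw [hβ0, hβ, e4]
  rw [hx0, hy0] at hDe0
  exact hd hDe0

end Pool.Agent.LHD
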