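import Pool.Agent.LHD.Defs
import Pool.Agent.LHD.Bg1
import Pool.Agent.LHD.NSb
import Pool.Agent.LHD.Hs
import Pool.Agent.LHD.Lev
import Pool.Agent.LHD.BrOa
import Pool.Agent.LHD.BrOb

/-!
# One broken edge: `g` is bijective

Suppose not. `levels`: `A1 = {u | 1 ≤ n u}`, `A2 = {u | 2 ≤ n u}`, `s = |A2| = |A1ᶜ|`. `A2` and `A1ᶜ` are disjoint (`A2 ⊆ A1`), so `2 s ≤ |V|`; both are lobes (`lb_compl`), nonempty, so `A2 ≠ A1ᶜ`. Let `B` be the (finite) set of all lobes `S : Set V` (`∃ q p, Lb H S q p`) with `|S| = s`; `A2, A1ᶜ ∈ B`. Let `Ba = {S ∈ B | a ∈ S}`: at most one element (`lobe_unique`). The map `S ↦ g '' S` maps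
`B \ Ba` to `B \ {A2, A1ᶜ}`: `lobe_img` (`Set.ncard_image_of_injOn`), and `g '' S ≠ A1ᶜ` because `g '' S ⊆ A1` (`nS_pos`) is not empty. It is injective: let `S ≠ T` in `B \ Ba`, `g '' S = g '' T`. `S ∩ T = ∅` by `lobe_unique`. Every `u ∈ g '' S` has a preimage in `S` and one in `T`, so `n u ≥ 2`: `g '' S ⊆ A2`, and `|g '' S| = s = |A2|`, so `g '' S = A2`: contradiction to `lobe_img`.
So `|B| - 1 ≤ |B \ Ba| ≤ |B \ {A2, A1ᶜ}| = |B| - 2`, `|B| ≥ 2`: contradiction.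
-/

namespace Pool.Agent.LHD

open Pool.Agent.LIH Pool.Agent.LHA
open Pool.Agent.LHC (Rg DeepN De Br CZ Ctr nxt nxG glueS sAdj LN LC LO)

theorem br_one_bij {V : Type} [Finite V] {H : SimpleGraph V} (hc : H.Connected) {a b : V}
    (hab : NB H a b) {g : V → V} {β : V → V → V} (h : BrS H Set.univ (De a b) g β) :
    Function.Bijective g := by
  by_contra hg
  obtain ⟨x1, y1, x2, y2, hA1, hA2, -, hcard, -⟩ := levels hc hab.1 h hg
  set A1 : Set V := {u | 1 ≤ nS Set.univ g u} with hA1d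
  set A2 : Set V := {u | 2 ≤ nS Set.univ g u} with hA2d
  have hA1c := lb_compl hA1
  have hsub : A2 ⊆ A1 := by
    intro u hu
    have hu' : 2 ≤ nS Set.univ g u := hu
    change 1 ≤ nS Set.univ g u
    omega
  have hdis : Disjoint A2 A1ᶜ := Set.disjoint_left.2 fun u hu hu' => hu' (hsub hu)
  have h2 : 2 * A2.ncard ≤ Nat.card V := by
    have e1 := Set.ncard_union_eq hdis (Set.toFinite _) (Set.toFinite _)
    have e2 : (A2 ∪ A1ᶜ).ncard ≤ (Set.univ : Set V).ncard := Set.ncard_le_ncard (Set.subset_univ _) (Set.toFinite _)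
    rw [Set.ncard_univ] at e2
    omega
  have hx2 : x2 ∈ A2 := hA2.1
  have hne : A2 ≠ A1ᶜ := by
    intro e
    have h3 : x2 ∈ A1ᶜ := e ▸ hx2
    exact h3 (hsub hx2)
  set B : Set (Set V) := {S | (∃ q p, Lb H S q p) ∧ S.ncard = A2.ncard} with hB
  set Ba : Set (Set V) := {S | S ∈ B ∧ a ∈ S} with hBa
  have hBf : B.Finite := Set.toFinite _
  have uniq : ∀ S ∈ B, ∀ T ∈ B, (S ∩ T).Nonempty → S = T := by
    rintro S ⟨⟨q, p, hS⟩, hSc⟩ T ⟨⟨q', p', hT⟩, hTc⟩ hn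
    exact lobe_unique hc hS hT (hSc.trans hTc.symm) (by rw [hSc]; exact h2) hn
  have hBa1 : Ba.ncard ≤ 1 := by
    rw [Set.ncard_le_one (Set.toFinite _)]
    intro S hS T hT
    exact uniq S hS.1 T hT.1 ⟨a, hS.2, hT.2⟩
  have hA2B : A2 ∈ B := ⟨⟨_, _, hA2⟩, rfl⟩
  have hA1B : A1ᶜ ∈ B := ⟨⟨_, _, hA1c⟩, hcard⟩
  have maps : ∀ S ∈ B \ Ba, g '' S ∈ B \ {A2, A1ᶜ} := by
    rintro S ⟨⟨⟨q, p, hS⟩, hSc⟩, hSa⟩
    have ha : a ∉ S := fun ha => hSa ⟨⟨⟨q, p, hS⟩, hSc⟩, ha⟩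
    obtain ⟨i1, i2, i3⟩ := lobe_img hc hab h hg hS ha
    refine ⟨⟨⟨_, _, i2⟩, ?_⟩, ?_⟩
    · rw [Set.InjOn.ncard_image i1]
      exact hSc
    · rintro (e | e)
      · exact i3 e
      · have h3 : g q ∈ A1ᶜ := by
          rw [← show g '' S = A1ᶜ from e]
          exact ⟨q, hS.1, rfl⟩
        exact h3 (nS_pos.2 ⟨q, Set.mem_univ _, rfl⟩)
  have inj : Set.InjOn (fun S : Set V => g '' S) (B \ Ba) := by
    intro S hS T hT hST
    have hST' : g '' S = g '' T := hST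
    by_contra hne'
    have hd : ¬ (S ∩ T).Nonempty := fun hn => hne' (uniq S hS.1 T hT.1 hn)
    obtain ⟨⟨⟨q, p, hSl⟩, hSc⟩, hSa⟩ := hS
    have ha : a ∉ S := fun ha => hSa ⟨⟨⟨q, p, hSl⟩, hSc⟩, ha⟩
    obtain ⟨i1, i2, i3⟩ := lobe_img hc hab h hg hSl ha
    have h3 : g '' S ⊆ A2 := by
      rintro u ⟨x, hx, rfl⟩
      obtain ⟨y, hy, hyx⟩ : g x ∈ g '' T := hST' ▸ ⟨x, hx, rfl⟩
      have hxy : x ≠ y := by
        rintro rfl
        exact hd ⟨x, hx, hy⟩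
      change 2 ≤ {z | z ∈ Set.univ ∧ g z = g x}.ncard
      rw [← Set.ncard_pair hxy]
      apply Set.ncard_le_ncard _ (Set.toFinite _)
      rintro z (rfl | rfl)
      · exact ⟨Set.mem_univ _, rfl⟩
      · exact ⟨Set.mem_univ _, hyx⟩
    refine i3 (Set.eq_of_subset_of_ncard_le h3 ?_ (Set.toFinite _))
    rw [Set.InjOn.ncard_image i1, hSc]
  have c1 : (B \ Ba).ncard ≤ (B \ {A2, A1ᶜ}).ncard := Set.ncard_le_ncard_of_injOn _ maps inj (Set.toFinite _)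
  have c2 := Set.ncard_sdiff_add_ncard_of_subset (s := Ba) (t := B) (fun S hS => hS.1) (Set.toFinite _)
  have c3 := Set.ncard_sdiff_add_ncard_of_subset (s := {A2, A1ᶜ}) (t := B)
    (by rintro S (rfl | rfl); exacts [hA2B, hA1B]) (Set.toFinite _)
  rw [Set.ncard_pair hne] at c3
  omega

end Pool.Agent.LHD
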