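import Pool.Agent.LHD.Defs
import Pool.Agent.LHD.NSb
import Pool.Agent.LHD.Cnt
import Pool.Agent.LHD.BrOc
import Pool.Agent.LHC.BrA

/-!
# One broken edge which is not a bridge

`g` is bijective (`br_one_bij`), so `nS univ g = 1` (`nS_bij`) and by `brs_count` `mx u v = mx v u` for `H.Adj u v`. The exit `(a, b)` has the value `(g a, β a b)`, an edge (`bij`). So `mx (g a) (β a b) ≥ 1`, so `mx (β a b) (g a) ≥ 1`, and by `mx_pos` there is an exit `(x, y)` with `g x = β a b`, `β x y = g a`; it is `(a, b)` or `(b, a)`. `(a, b)` is impossible (`g a = β a b`, but they are adjacent). So `g b = β a b`,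
`β b a = g a`. So `β x y = g y` for all adjacent `x, y` and `H.Adj (g x) (g y)` (`bij`): `LHC.auto_of_hom` (`Pool.Agent.LHC.auto_of_hom`).
-/

namespace Pool.Agent.LHD

open Pool.Agent.LIH Pool.Agent.LHA
open Pool.Agent.LHC (Rg DeepN De Br CZ Ctr nxt nxG glueS sAdj LN LC LO)

theorem br_one {V : Type} [Finite V] {H : SimpleGraph V} (hc : H.Connected) {a b : V}
    (hab : NB H a b) {g : V → V} {β : V → V → V} (h : BrS H Set.univ (De a b) g β) :
    ∃ φ : H ≃g H, (∀ x, g x = φ x) ∧ ∀ x y, H.Adj x y → β x y = φ y := by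
  have hb := br_one_bij hc hab h
  have h1 := nS_bij.2 hb
  have hD : ∀ x y, De a b x y → De a b y x := by
    rintro x y (⟨rfl, rfl⟩ | ⟨rfl, rfl⟩)
    · exact Or.inr ⟨rfl, rfl⟩
    · exact Or.inl ⟨rfl, rfl⟩
  have hadj : ∀ x y, H.Adj x y → H.Adj (g x) (β x y) := fun x y hxy =>
    (h.bij x (Set.mem_univ _)).mapsTo hxy
  have h2 := brs_count hD h (hadj a b hab.1)
  rw [h1, h1] at h2
  have h3 : 1 ≤ mx H Set.univ (De a b) g β (g a) (β a b) := by
    unfold mx
    refine Nat.succ_le_of_lt ((Set.ncard_pos (Set.toFinite _)).2 ⟨(a, b), ?_⟩)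
    exact ⟨⟨Set.mem_univ _, hab.1, Or.inr (Or.inl ⟨rfl, rfl⟩)⟩, rfl, rfl⟩
  obtain ⟨x, y, hx, hx1, hx2⟩ := mx_pos (show 1 ≤ mx H Set.univ (De a b) g β (β a b) (g a) by omega)
  have h4 : g b = β a b ∧ β b a = g a := by
    rcases hx.2.2 with h5 | h5
    · exact absurd (Set.mem_univ _) h5
    · rcases h5 with ⟨rfl, rfl⟩ | ⟨rfl, rfl⟩
      · exact absurd (hx1 ▸ hadj _ _ hab.1) (H.loopless.irrefl _)
      · exact ⟨hx1, hx2⟩
  have h5 : ∀ x y, H.Adj x y → β x y = g y := by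
    intro x y hxy
    by_cases hd : De a b x y
    · rcases hd with ⟨rfl, rfl⟩ | ⟨rfl, rfl⟩
      · exact h4.1.symm
      · exact h4.2
    · exact h.eq x (Set.mem_univ _) y (Set.mem_univ _) hxy hd
  obtain ⟨φ, hφ⟩ := Pool.Agent.LHC.auto_of_hom hb fun x y hxy => h5 x y hxy ▸ hadj x y hxy
  exact ⟨φ, hφ, fun x y hxy => (h5 x y hxy).trans (hφ y)⟩

end Pool.Agent.LHD
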