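import Pool.Agent.LHD.Defs
import Pool.Agent.LHD.Bg1
import Pool.Agent.LHD.Av1
import Pool.Agent.LHD.Nb2
import Pool.Agent.LHD.Cnt
import Pool.Agent.LHD.NSb
import Pool.Agent.LHD.Lvl

/-!
# Two broken edges at one vertex: `g` is bijective

`D = D2 z c c'` is symmetric; the exits are the four darts `(z, c), (c, z), (z, c'), (c', z)`. `n = nS univ g`. The elements of `TL H n c0` are values of exits (`tl_val`), so they are typed and not bridges (`ht`, `nb_typ`, `nb_symm`). Suppose that `g` is not bijective: there are `u` with `n u = 0` and `u'` with `n u' ≥ 2` (`nS_pos`, `nS_le_one`). So `|TL 1|, |TL 2| ≥ 2` (`tl_two`). `lvl_sum` with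
`C = {1, 2, 3}`: `|TL 1| + |TL 2| + |TL 3| ≤` number of the exits `(x, y)` with `n (β x y) < n (g x)`, at most 4. So equality: `|TL 1| = |TL 2| = 2`, `|TL 3| = 0` (so `n ≤ 2`, otherwise `tl_pos`), and all four exits `(x, y)` satisfy `n (β x y) < n (g x)`. Let `w = g z`, `y1 = β z c`, `y2 = β z c'`: different neighbours of `w` (`bij`), `n y1, n y2 < n w =: c0 ∈ {1, 2}`. So `(w, y1), (w, y2) ∈ TL c0`, and these are all
elements. Claim: `Ex H w y1 ⊆ {y1, y2}`: by induction on a walk from `y1` which avoids `w` all its vertices `x` satisfy `n x < c0`: if `H.Adj x x'`, `n x < c0 ≤ n x'` then `(x', x) ∈ TL c0`, so `x' = w`. So for `t ∈ Ex H w y1`: `n t < c0 ≤ n w`, `(w, t) ∈ TL c0`, `t ∈ {y1, y2}`. So `|Ex H w y1| ≤ 2`. But `ht` for `(z, c)` gives `φ z = w`, `φ c = y1`, so `|Ex H w y1| = |Ex H z c| ≥ 3` (`ex_card`): contradiction.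
-/

namespace Pool.Agent.LHD

open Pool.Agent.LIH Pool.Agent.LHA
open Pool.Agent.LHC (Rg DeepN De Br CZ Ctr nxt nxG glueS sAdj LN LC LO)

private theorem brta_symm {V : Type} {z c c' x y : V} (h : D2 z c c' x y) : D2 z c c' y x := by
  unfold D2 De at *
  tauto

private theorem brta_mem {V : Type} [DecidableEq V] {z c c' x y : V} (h : D2 z c c' x y) :
    (x, y) ∈ ({(z, c), (c, z), (z, c'), (c', z)} : Finset (V × V)) := by
  unfold D2 De at h
  simp only [Finset.mem_insert, Finset.mem_singleton, Prod.mk.injEq]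
  tauto

theorem tr_bij {V : Type} [Finite V] {H : SimpleGraph V} (hc : H.Connected) {z c c' : V}
    (h3 : 3 ≤ (Ex H z c).ncard) (h1 : NB H z c) (h2 : NB H z c') (hne : c ≠ c') {g : V → V}
    {β : V → V → V} (h : BrS H Set.univ (D2 z c c') g β)
    (ht : ∀ x y, D2 z c c' x y → ∃ φ : H ≃g H, φ x = g x ∧ φ y = β x y) :
    Function.Bijective g := by
  classical
  by_contra hbij
  have hsy : ∀ x y, D2 z c c' x y → D2 z c c' y x := fun x y => brta_symm
  set n : V → ℕ := nS Set.univ g with hn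
  -- a value which is not taken, a value which is taken twice
  obtain ⟨u0, hu0⟩ : ∃ u, n u < 1 := by
    by_contra hcon
    push Not at hcon
    apply hbij
    rw [← Finite.surjective_iff_bijective]
    intro u
    obtain ⟨x, -, hx⟩ := nS_pos.1 (hcon u)
    exact ⟨x, hx⟩
  obtain ⟨u2, hu2⟩ : ∃ u, 2 ≤ n u := by
    by_contra hcon
    push Not at hcon
    apply hbij
    rw [← Finite.injective_iff_bijective]
    have := nS_le_one.1 fun u => Nat.lt_succ_iff.1 (hcon u)
    exact fun x y hxy => this (Set.mem_univ x) (Set.mem_univ y) hxy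
  have hnb : ∀ x y, D2 z c c' x y → NB H x y := by
    intro x y hxy
    rcases hxy with (⟨rfl, rfl⟩ | ⟨rfl, rfl⟩) | ⟨rfl, rfl⟩ | ⟨rfl, rfl⟩
    · exact h1
    · exact nb_symm h1
    · exact h2
    · exact nb_symm h2
  have hTL : ∀ k, ∀ d ∈ TL H n k, NB H d.1 d.2 := by
    intro k d hd
    obtain ⟨x, y, ⟨-, -, hxy⟩, e1, e2⟩ := tl_val hsy h hd
    have hxy' : D2 z c c' x y := hxy.resolve_left fun hh => hh (Set.mem_univ y)
    obtain ⟨φ, p1, p2⟩ := ht x y hxy'
    exact nb_typ ⟨φ, p1.trans e1, p2.trans e2⟩ (hnb x y hxy')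
  have t1 : 2 ≤ (TL H n 1).ncard := tl_two hc ⟨u2, by omega⟩ ⟨u0, hu0⟩ (hTL 1)
  have t2 : 2 ≤ (TL H n 2).ncard := tl_two hc ⟨u2, hu2⟩ ⟨u0, by omega⟩ (hTL 2)
  -- the exits
  set X : Set (V × V) := {d | Xd H Set.univ (D2 z c c') d.1 d.2 ∧ n (β d.1 d.2) < n (g d.1)} with hX
  set E : Finset (V × V) := {(z, c), (c, z), (z, c'), (c', z)} with hE
  have hXE : X ⊆ (E : Set (V × V)) := by
    rintro ⟨x, y⟩ ⟨⟨-, -, hxy⟩, -⟩
    exact Finset.mem_coe.2 (brta_mem (hxy.resolve_left fun hh => hh (Set.mem_univ y)))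
  have hEc : (E : Set (V × V)).ncard ≤ 4 := by
    rw [Set.ncard_coe_finset]
    exact Finset.card_le_four
  have hsum := lvl_sum hsy h {1, 2, 3}
  have hs3 : ∑ k ∈ ({1, 2, 3} : Finset ℕ), (TL H (nS Set.univ g) k).ncard =
      (TL H n 1).ncard + ((TL H n 2).ncard + (TL H n 3).ncard) := by
    rw [Finset.sum_insert (by simp), Finset.sum_insert (by simp), Finset.sum_singleton]
  rw [hs3] at hsum
  have hXle : X.ncard ≤ (E : Set (V × V)).ncard := Set.ncard_le_ncard hXE (Set.toFinite _)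
  have hsum' : (TL H n 1).ncard + ((TL H n 2).ncard + (TL H n 3).ncard) ≤ X.ncard := hsum
  have hXeq : X = (E : Set (V × V)) :=
    Set.eq_of_subset_of_ncard_le hXE (by omega) (Set.toFinite _)
  have m1 : n (β z c) < n (g z) := by
    have : (z, c) ∈ X := by
      rw [hXeq, Finset.mem_coe, hE]
      simp
    exact this.2
  have m2 : n (β z c') < n (g z) := by
    have : (z, c') ∈ X := by
      rw [hXeq, Finset.mem_coe, hE]
      simp
    exact this.2
  have hw2 : n (g z) ≤ 2 := by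
    by_contra hcon
    have := tl_pos (n := n) (c := 3) hc ⟨g z, by omega⟩ ⟨u0, by omega⟩
    omega
  have hbz := h.bij z (Set.mem_univ z)
  have a1 : H.Adj (g z) (β z c) := hbz.mapsTo (h1.1 : c ∈ H.neighborSet z)
  have a2 : H.Adj (g z) (β z c') := hbz.mapsTo (h2.1 : c' ∈ H.neighborSet z)
  have hyne : β z c ≠ β z c' := fun e => hne (hbz.injOn (h1.1 : c ∈ H.neighborSet z) h2.1 e)
  have hTc : (TL H n (n (g z))).ncard ≤ 2 := by
    have : n (g z) = 1 ∨ n (g z) = 2 := by omega
    rcases this with e | e <;> rw [e] <;> omega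
  have hsub : ({(g z, β z c), (g z, β z c')} : Set (V × V)) ⊆ TL H n (n (g z)) := by
    rintro d (rfl | rfl)
    · exact ⟨a1, m1, le_rfl⟩
    · exact ⟨a2, m2, le_rfl⟩
  have hpair : ({(g z, β z c), (g z, β z c')} : Set (V × V)).ncard = 2 :=
    Set.ncard_pair fun e => hyne (Prod.mk.inj e).2
  have hTeq : ({(g z, β z c), (g z, β z c')} : Set (V × V)) = TL H n (n (g z)) :=
    Set.eq_of_subset_of_ncard_le hsub (by omega) (Set.toFinite _)
  have key : ∀ t, Av H (g z) (β z c) t → n t < n (g z) := by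
    intro t hav
    induction hav with
    | refl => exact m1
    | tail _ hs ih =>
      by_contra hcon
      push Not at hcon
      have hm : (_, _) ∈ TL H n (n (g z)) := ⟨hs.1.symm, ih, hcon⟩
      rw [← hTeq] at hm
      rcases hm with hm | hm
      · exact hs.2 (Prod.mk.inj hm).1
      · exact hs.2 (Prod.mk.inj hm).1
  have hEx : Ex H (g z) (β z c) ⊆ {β z c, β z c'} := by
    rintro t ⟨hadj, hav⟩
    have hm : (g z, t) ∈ TL H n (n (g z)) := ⟨hadj, key t hav, le_rfl⟩
    rw [← hTeq] at hm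
    rcases hm with hm | hm
    · exact Or.inl (Prod.mk.inj hm).2
    · exact Or.inr (Prod.mk.inj hm).2
  have hExc : (Ex H (g z) (β z c)).ncard ≤ 2 :=
    (Set.ncard_le_ncard hEx (Set.toFinite _)).trans (Set.ncard_pair hyne).le
  obtain ⟨φ, p1, p2⟩ := ht z c (Or.inl (Or.inl ⟨rfl, rfl⟩))
  have := ex_card φ z c
  rw [p1, p2] at this
  omega

end Pool.Agent.LHD
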