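import Pool.Agent.LHD.Defs
import Pool.Agent.LHD.NSb
import Pool.Agent.LHD.Cnt
import Pool.Agent.LHD.BrTa

/-!
# Two broken edges at one vertex, first case

`g` is bijective (`tr_bij`), `nS univ g = 1` (`nS_bij`), so by `brs_count` `mx u v = mx v u` for adjacent `u, v`: for every exit `(x, y)` there is an exit `(x', y')` with `g x' = β x y`, `β x' y' = g x` (`mx_pos`; the value of an exit is an edge by `bij`). The exits are `(z, c), (c, z), (z, c'), (c', z)`. For `(c, z)`: `(x', y') = (z, c)` or `(z, c')`: `g z = β c z`, the claim. `(c, z)`: impossible, `g c` and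
`β c z` are adjacent. `(c', z)`: `g c' = β c z`, `β c' z = g c`. Then consider the exit `(z, c)`, with `(x'', y'')`: `g x'' = β z c`, `β x'' y'' = g z`. `x'' = z`: impossible. `(c, z)`: `β c z = g z`, but `β c z = g c'`, so `z = c'`: contradiction. `(c', z)`: `β c' z = g z`, but `β c' z = g c`, so `c = z`: contradiction. So `β c z = g z`; the claim for `c'` is the same with `c, c'` exchanged.
-/

namespace Pool.Agent.LHD

open Pool.Agent.LIH Pool.Agent.LHA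
open Pool.Agent.LHC (Rg DeepN De Br CZ Ctr nxt nxG glueS sAdj LN LC LO)

theorem brT_ex {V : Type} [Finite V] {H : SimpleGraph V} {z c c' : V}
    (h1 : H.Adj z c) (h2 : H.Adj z c') {g : V → V}
    {β : V → V → V} (h : BrS H Set.univ (D2 z c c') g β) (hg : Function.Bijective g) {x y : V}
    (hxy : D2 z c c' x y) :
    H.Adj (g x) (β x y) ∧ ∃ x' y', D2 z c c' x' y' ∧ g x' = β x y ∧ β x' y' = g x := by
  have hadj : H.Adj x y := by
    rcases hxy with (⟨rfl, rfl⟩ | ⟨rfl, rfl⟩) | (⟨rfl, rfl⟩ | ⟨rfl, rfl⟩)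
    · exact h1
    · exact h1.symm
    · exact h2
    · exact h2.symm
  have hv : H.Adj (g x) (β x y) := (h.bij x (Set.mem_univ _)).mapsTo hadj
  refine ⟨hv, ?_⟩
  have hD : ∀ x y, D2 z c c' x y → D2 z c c' y x := by
    intro x y hxy
    rcases hxy with (⟨rfl, rfl⟩ | ⟨rfl, rfl⟩) | (⟨rfl, rfl⟩ | ⟨rfl, rfl⟩)
    · exact Or.inl (Or.inr ⟨rfl, rfl⟩)
    · exact Or.inl (Or.inl ⟨rfl, rfl⟩)
    · exact Or.inr (Or.inr ⟨rfl, rfl⟩)
    · exact Or.inr (Or.inl ⟨rfl, rfl⟩)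
  have hcnt := brs_count hD h hv
  have hn := nS_bij.2 hg
  rw [hn, hn] at hcnt
  have hpos : 1 ≤ mx H Set.univ (D2 z c c') g β (g x) (β x y) := by
    unfold mx
    rw [Nat.one_le_iff_ne_zero, Ne, Set.ncard_eq_zero (Set.toFinite _)]
    intro h0
    have : (x, y) ∈ {d : V × V | Xd H Set.univ (D2 z c c') d.1 d.2 ∧ g d.1 = g x ∧
        β d.1 d.2 = β x y} := ⟨⟨Set.mem_univ _, hadj, Or.inr hxy⟩, rfl, rfl⟩
    rw [h0] at this
    exact this
  have hpos' : 1 ≤ mx H Set.univ (D2 z c c') g β (β x y) (g x) := by omega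
  obtain ⟨x', y', hx, hg1, hb1⟩ := mx_pos hpos'
  refine ⟨x', y', ?_, hg1, hb1⟩
  rcases hx.2.2 with h5 | h5
  · exact absurd (Set.mem_univ _) h5
  · exact h5

theorem brT_one {V : Type} {H : SimpleGraph V} {z c c' : V}
    (h1 : H.Adj z c) (h2 : H.Adj z c') {g : V → V} {β : V → V → V}
    (hi : Function.Injective g)
    (hex : ∀ x y, D2 z c c' x y → H.Adj (g x) (β x y) ∧
      ∃ x' y', D2 z c c' x' y' ∧ g x' = β x y ∧ β x' y' = g x) : β c z = g z := by
  have hcz : D2 z c c' c z := Or.inl (Or.inr ⟨rfl, rfl⟩)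
  have hzc : D2 z c c' z c := Or.inl (Or.inl ⟨rfl, rfl⟩)
  obtain ⟨ha, x', y', hd, he1, he2⟩ := hex c z hcz
  obtain ⟨hb, x'', y'', hd', hf1, hf2⟩ := hex z c hzc
  rcases hd with (⟨hx, hy⟩ | ⟨hx, hy⟩) | (⟨hx, hy⟩ | ⟨hx, hy⟩)
  · rw [← he1, hx]
  · rw [hx] at he1
    rw [he1] at ha
    exact absurd ha (H.irrefl)
  · rw [← he1, hx]
  · rw [hx] at he1
    rw [hx, hy] at he2
    rcases hd' with (⟨hx', hy'⟩ | ⟨hx', hy'⟩) | (⟨hx', hy'⟩ | ⟨hx', hy'⟩)
    · rw [hx'] at hf1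
      rw [hf1] at hb
      exact absurd hb (H.irrefl)
    · rw [hx', hy', ← he1] at hf2
      exact absurd (hi hf2) h2.ne'
    · rw [hx'] at hf1
      rw [hf1] at hb
      exact absurd hb (H.irrefl)
    · rw [hx', hy', he2] at hf2
      exact absurd (hi hf2) h1.ne'

theorem tr_three {V : Type} [Finite V] {H : SimpleGraph V} (hc : H.Connected) {z c c' : V}
    (h3 : 3 ≤ (Ex H z c).ncard) (h1 : NB H z c) (h2 : NB H z c') (hne : c ≠ c') {g : V → V}
    {β : V → V → V} (h : BrS H Set.univ (D2 z c c') g β)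
    (ht : ∀ x y, D2 z c c' x y → ∃ φ : H ≃g H, φ x = g x ∧ φ y = β x y) :
    β c z = g z ∧ β c' z = g z := by
  have hg := tr_bij hc h3 h1 h2 hne h ht
  have hex : ∀ x y, D2 z c c' x y → H.Adj (g x) (β x y) ∧
      ∃ x' y', D2 z c c' x' y' ∧ g x' = β x y ∧ β x' y' = g x := fun x y hxy =>
    brT_ex h1.1 h2.1 h hg hxy
  have hsw : ∀ x y, D2 z c' c x y ↔ D2 z c c' x y := fun x y => or_comm
  refine ⟨brT_one h1.1 h2.1 hg.1 hex, brT_one h2.1 h1.1 hg.1 fun x y hxy => ?_⟩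
  obtain ⟨ha, x', y', hd, he⟩ := hex x y ((hsw x y).1 hxy)
  exact ⟨ha, x', y', (hsw x' y').2 hd, he⟩

end Pool.Agent.LHD
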