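import Pool.Agent.LHD.Defs
import Pool.Agent.LHD.Bg1
import Pool.Agent.LHD.Av1
import Pool.Agent.LHD.Nb2
import Pool.Agent.LHD.Cnt
import Pool.Agent.LHD.NSb
import Pool.Agent.LHD.Lvl

/-!
# Two broken edges at one vertex, second case

Let `K = {w | Av H z c w}` (the component of `c` in `H - z`), `z ∉ K` (`av_ne`), `c, c' ∈ K`. A dart which leaves `K` ends at `z` (`av_ext`) and starts in `Ex H z c = {c, c'}`. `BrS H K (fun _ _ => False) g β` (inside `K` no edge is broken since `z ∉ K`), the exits are `(c, z)`, `(c', z)`, with the values `(u1, v1) = (g c, β c z)`, `(u2, v2) = (g c', β c' z)`, which are typed and not bridges (`ht`, `nb_typ`). `n = nS K g`.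
`n u1 ≥ 1`, there is `u` with `n u = 0` (`nS_zero`). The elements of `TL 1` are values of exits (`tl_val`), so `|TL 1| ≥ 2` (`tl_two`), and by `lvl_sum` with `C = {1, 2}` `|TL 1| + |TL 2| ≤ 2`. So `|TL 2| = 0`, `n ≤ 1` (`tl_pos`), `g` is injective on `K` (`nS_le_one`), `A = {u | 1 ≤ n u} = g '' K` has `|K|` elements, and the darts which leave `A` are exactly `(u1, v1)`, `(u2, v2)`, which are different.
Let `φ` be an automorphism with `φ c = u1`, `φ z = v1` (`ht`), `K1 = {w | Av H v1 u1 w} = φ '' K` (`av_map`), so `|K1| = |K|`. `v1 ∉ A`, `v1 ∉ K1`; a dart which leaves `K1` ends at `v1`. Consider `A ∩ K1 ∋ u1`: a dart which leaves it leaves `A` (if it stays in `A` it leaves `K1`, so it ends at `v1 ∉ A`); so it is `(u1, v1)` or `(u2, v2)`, not a bridge; by `cut_two` there are two of them, so `u2 ∈ K1`. `A \ K1`: suppose it is not empty;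
a dart `(x, y)` leaves it (`cut_one`; `v1` is outside): `y ∉ A`: then `x ∈ {u1, u2} ⊆ K1`: contradiction; `y ∈ A ∩ K1`: then `(y, x)` leaves `K1`, so `x = v1 ∉ A`: contradiction. So `A ⊆ K1`, `A = K1` (cardinality). `(u2, v2)` leaves `A = K1`, so `v2 = v1`.
-/

namespace Pool.Agent.LHD

open Pool.Agent.LIH Pool.Agent.LHA
open Pool.Agent.LHC (Rg DeepN De Br CZ Ctr nxt nxG glueS sAdj LN LC LO)

theorem tr_pair {V : Type} [Finite V] {H : SimpleGraph V} (hc : H.Connected) {z c c' : V}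
    (h1 : NB H z c) (hm : c' ∈ Ex H z c) (h2 : (Ex H z c).ncard = 2) (hne : c ≠ c') {g : V → V}
    {β : V → V → V} (h : BrS H Set.univ (D2 z c c') g β)
    (ht : ∀ x y, D2 z c c' x y → ∃ φ : H ≃g H, φ x = g x ∧ φ y = β x y) :
    β c z = β c' z := by
  classical
  have : Fintype V := Fintype.ofFinite V
  have hzc : H.Adj z c := h1.1
  have hzc' : H.Adj z c' := hm.1
  have hcz : c ≠ z := hzc.ne'
  have hnb' : NB H z c' := ex_nb h1 hm
  set K : Set V := {w | Av H z c w} with hK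
  have hzK : z ∉ K := fun h3 => av_ne h3 hcz rfl
  have hcK : c ∈ K := Relation.ReflTransGen.refl
  have hcK' : c' ∈ K := hm.2
  have hEx : Ex H z c = {c, c'} := by
    symm
    apply Set.eq_of_subset_of_ncard_le
    · intro x hx
      rcases hx with rfl | rfl
      · exact ex_self hzc
      · exact hm
    · rw [h2, Set.ncard_pair hne]
    · exact Set.toFinite _
  -- darts which leave `K`
  have hleave : ∀ x y, x ∈ K → y ∉ K → H.Adj x y → (x = c ∨ x = c') ∧ y = z := by
    intro x y hx hy hxy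
    have h3 : y = z := by
      by_contra h4
      exact hy (av_ext hx hxy h4)
    refine ⟨?_, h3⟩
    have h4 : x ∈ Ex H z c := ⟨by rw [← h3]; exact hxy.symm, hx⟩
    rw [hEx] at h4
    exact h4
  have hBK : BrS H K (fun _ _ => False) g β := by
    refine ⟨fun x _ => h.bij x (Set.mem_univ _), ?_⟩
    intro x hx y hy hxy _
    refine h.eq x (Set.mem_univ _) y (Set.mem_univ _) hxy ?_
    rintro ((⟨rfl, rfl⟩ | ⟨rfl, rfl⟩) | (⟨rfl, rfl⟩ | ⟨rfl, rfl⟩))
    · exact hzK hx
    · exact hzK hy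
    · exact hzK hx
    · exact hzK hy
  have hXd : ∀ x y, Xd H K (fun _ _ => False) x y → (x = c ∨ x = c') ∧ y = z := by
    rintro x y ⟨hx, hxy, h3 | h3⟩
    · exact hleave x y hx h3 hxy
    · exact h3.elim
  have ht1 : ∃ φ : H ≃g H, φ c = g c ∧ φ z = β c z := ht c z (Or.inl (Or.inr ⟨rfl, rfl⟩))
  have ht2 : ∃ φ : H ≃g H, φ c' = g c' ∧ φ z = β c' z := ht c' z (Or.inr (Or.inr ⟨rfl, rfl⟩))
  have hN1 : NB H (g c) (β c z) := nb_typ ht1 (nb_symm h1)
  have hN2 : NB H (g c') (β c' z) := nb_typ ht2 (nb_symm hnb')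
  have hKu : K ≠ Set.univ := fun h3 => hzK (h3 ▸ Set.mem_univ z)
  obtain ⟨u0, hu0⟩ := nS_zero (S := K) (g := g) hKu
  have hu1 : 1 ≤ nS K g (g c) := nS_pos.mpr ⟨c, hcK, rfl⟩
  have hDs : ∀ x y : V, (fun _ _ => False : V → V → Prop) x y → (fun _ _ => False : V → V → Prop) y x :=
    fun _ _ h => h
  have htl : ∀ k, ∀ d ∈ TL H (nS K g) k, d = (g c, β c z) ∨ d = (g c', β c' z) := by
    intro k d hd
    obtain ⟨x, y, h3, h4, h5⟩ := tl_val hDs hBK hd
    obtain ⟨h6 | h6, h7⟩ := hXd x y h3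
    · left
      rw [h6, h7] at h5
      rw [h6] at h4
      exact Prod.ext h4.symm h5.symm
    · right
      rw [h6, h7] at h5
      rw [h6] at h4
      exact Prod.ext h4.symm h5.symm
  have htlN : ∀ k, ∀ d ∈ TL H (nS K g) k, NB H d.1 d.2 := by
    intro k d hd
    rcases htl k d hd with h3 | h3
    · rw [h3]; exact hN1
    · rw [h3]; exact hN2
  have hT1 : 2 ≤ (TL H (nS K g) 1).ncard := tl_two hc ⟨_, hu1⟩ ⟨u0, by omega⟩ (htlN 1)
  have hsum := lvl_sum hDs hBK ({1, 2} : Finset ℕ)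
  rw [Finset.sum_pair (by norm_num)] at hsum
  have hex2 : {d : V × V | Xd H K (fun _ _ => False) d.1 d.2 ∧ nS K g (β d.1 d.2) < nS K g (g d.1)}.ncard ≤ 2 := by
    refine (Set.ncard_le_ncard (t := {(c, z), (c', z)}) ?_ (Set.toFinite _)).trans ?_
    · rintro ⟨x, y⟩ ⟨h3, _⟩
      obtain ⟨h6 | h6, h7⟩ := hXd x y h3
      · left
        rw [h6, h7]
      · right
        rw [h6, h7]
        rfl
    · refine (Set.ncard_insert_le _ _).trans ?_
      rw [Set.ncard_singleton]
  have hT2 : (TL H (nS K g) 2).ncard = 0 := by omega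
  have hn1 : ∀ u, nS K g u ≤ 1 := by
    intro u
    by_contra h3
    push Not at h3
    have h4 := tl_pos (H := H) hc (n := nS K g) (c := 2) ⟨u, by omega⟩ ⟨u0, by omega⟩
    omega
  have hinj : Set.InjOn g K := nS_le_one.mp hn1
  set A : Set V := {u | 1 ≤ nS K g u} with hA
  have hAim : A = g '' K := by
    ext u
    exact nS_pos
  have hAcard : A.ncard = K.ncard := by rw [hAim, Set.ncard_image_of_injOn hinj]
  have hmemTL : ∀ x y, x ∈ A → y ∉ A → H.Adj x y → (x, y) ∈ TL H (nS K g) 1 := by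
    intro x y hx hy hxy
    refine ⟨hxy, ?_, hx⟩
    have h3 : ¬ 1 ≤ nS K g y := hy
    show nS K g y < 1
    omega
  have hTLeq : TL H (nS K g) 1 = {(g c, β c z), (g c', β c' z)} := by
    apply Set.eq_of_subset_of_ncard_le
    · intro d hd
      exact htl 1 d hd
    · refine le_trans ?_ hT1
      refine (Set.ncard_insert_le _ _).trans ?_
      rw [Set.ncard_singleton]
    · exact Set.toFinite _
  have hm1 : (g c, β c z) ∈ TL H (nS K g) 1 := by rw [hTLeq]; exact Or.inl rfl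
  have hm2 : (g c', β c' z) ∈ TL H (nS K g) 1 := by rw [hTLeq]; exact Or.inr rfl
  obtain ⟨φ, hφ1, hφ2⟩ := ht1
  set u1 := g c with hu1d
  set v1 := β c z with hv1d
  set u2 := g c' with hu2d
  set v2 := β c' z with hv2d
  have hadj1 : H.Adj u1 v1 := hN1.1
  have huv1 : u1 ≠ v1 := hadj1.ne
  have hv1A : v1 ∉ A := by
    intro h3
    have h4 : 1 ≤ nS K g v1 := h3
    have h5 : nS K g v1 < 1 := hm1.2.1
    omega
  set K1 : Set V := {w | Av H v1 u1 w} with hK1
  have hK1im : K1 = φ '' K := by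
    ext w
    constructor
    · intro hw
      refine ⟨φ.symm w, ?_, φ.apply_symm_apply w⟩
      show Av H z c (φ.symm w)
      rw [← av_map φ, hφ1, hφ2, φ.apply_symm_apply]
      exact hw
    · rintro ⟨x, hx, rfl⟩
      show Av H v1 u1 (φ x)
      rw [← hφ1, ← hφ2, av_map]
      exact hx
  have hK1card : K1.ncard = K.ncard := by rw [hK1im, Set.ncard_image_of_injective _ φ.injective]
  have hv1K1 : v1 ∉ K1 := fun h3 => av_ne h3 huv1 rfl
  have hu1K1 : u1 ∈ K1 := Relation.ReflTransGen.refl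
  have hu1A : u1 ∈ A := hu1
  have hleave1 : ∀ x y, x ∈ K1 → y ∉ K1 → H.Adj x y → y = v1 := by
    intro x y hx hy hxy
    by_contra h4
    exact hy (av_ext hx hxy h4)
  -- darts which leave `A ∩ K1`
  have hcut : ∀ x y, x ∈ A ∩ K1 → y ∉ A ∩ K1 → H.Adj x y → (x, y) ∈ TL H (nS K g) 1 := by
    intro x y hx hy hxy
    refine hmemTL x y hx.1 ?_ hxy
    intro hyA
    have h3 := hleave1 x y hx.2 (fun h4 => hy ⟨hyA, h4⟩) hxy
    rw [h3] at hyA
    exact hv1A hyA
  have hu2K1 : u2 ∈ K1 := by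
    obtain ⟨x, y, x', y', hx, hy, hxy, hx', hy', hxy', hd⟩ := cut_two hc (U := A ∩ K1) ⟨u1, hu1A, hu1K1⟩
      ⟨v1, fun h3 => hv1A h3.1⟩ (fun x y hx hy hxy => htlN 1 _ (hcut x y hx hy hxy))
    have h3 := hcut x y hx hy hxy
    have h4 := hcut x' y' hx' hy' hxy'
    rw [hTLeq] at h3 h4
    rcases h3 with h3 | h3
    · rcases h4 with h4 | h4
      · exfalso
        apply hd
        have h5 := h3.trans h4.symm
        exact ⟨congrArg Prod.fst h5, congrArg Prod.snd h5⟩
      · have h5 : x' = u2 := congrArg Prod.fst h4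
        rw [← h5]
        exact hx'.2
    · have h5 : x = u2 := congrArg Prod.fst h3
      rw [← h5]
      exact hx.2
  have hAK : A ⊆ K1 := by
    by_contra h3
    rw [Set.not_subset] at h3
    obtain ⟨a, ha, haK⟩ := h3
    obtain ⟨x, y, hx, hy, hxy⟩ := cut_one hc (U := A \ K1) ⟨a, ha, haK⟩ ⟨v1, fun h4 => hv1A h4.1⟩
    by_cases hyA : y ∈ A
    · have hyK : y ∈ K1 := by
        by_contra h4
        exact hy ⟨hyA, h4⟩
      have h5 := hleave1 y x hyK hx.2 hxy.symm
      rw [h5] at hx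
      exact hv1A hx.1
    · have h4 := hmemTL x y hx.1 hyA hxy
      rw [hTLeq] at h4
      rcases h4 with h4 | h4
      · have h5 : x = u1 := congrArg Prod.fst h4
        rw [h5] at hx
        exact hx.2 hu1K1
      · have h5 : x = u2 := congrArg Prod.fst h4
        rw [h5] at hx
        exact hx.2 hu2K1
  have hAeq : A = K1 := Set.eq_of_subset_of_ncard_le hAK (by rw [hAcard, hK1card]) (Set.toFinite _)
  have hv2 : v2 ∉ K1 := by
    rw [← hAeq]
    intro h3
    have h4 : 1 ≤ nS K g v2 := h3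
    have h5 : nS K g v2 < 1 := hm2.2.1
    omega
  exact (hleave1 u2 v2 hu2K1 hv2 hN2.1).symm

end Pool.Agent.LHD
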