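import Pool.Agent.LHD.Defs
import Pool.Agent.LHD.BrT
import Pool.Agent.LHD.BrU

/-!
# The transmission lemma

The three cases of `Tr`: `tr_three`; `tr_three` with `c, c'` exchanged (`D2 z c' c x y ↔ D2 z c c' x y`, so the hypotheses hold for `D2 z c' c`); `tr_pair`.
-/

namespace Pool.Agent.LHD

open Pool.Agent.LIH Pool.Agent.LHA
open Pool.Agent.LHC (Rg DeepN De Br CZ Ctr nxt nxG glueS sAdj LN LC LO)

theorem br_tr {V : Type} [Finite V] {H : SimpleGraph V} (hc : H.Connected) {z c c' : V}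
    (hT : Tr H z c c') {g : V → V} {β : V → V → V} (h : BrS H Set.univ (D2 z c c') g β)
    (ht : ∀ x y, D2 z c c' x y → ∃ φ : H ≃g H, φ x = g x ∧ φ y = β x y) :
    β c z = β c' z := by
  obtain ⟨h1, h2, hne, h3 | h3 | ⟨h3, h4⟩⟩ := hT
  · obtain ⟨e1, e2⟩ := tr_three hc h3 h1 h2 hne h ht
    rw [e1, e2]
  · have hsw : ∀ x y, D2 z c' c x y ↔ D2 z c c' x y := fun x y => or_comm
    have h' : BrS H Set.univ (D2 z c' c) g β :=
      ⟨h.bij, fun x hx y hy hxy hd => h.eq x hx y hy hxy (fun hd' => hd ((hsw x y).2 hd'))⟩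
    obtain ⟨e1, e2⟩ := tr_three hc h3 h2 h1 hne.symm h' (fun x y hd => ht x y ((hsw x y).1 hd))
    rw [e1, e2]
  · exact tr_pair hc h1 h3 h4 hne h ht

end Pool.Agent.LHD
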