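import Pool.Agent.LHD.Defs

/-!
# The graph with lines: the neighbours

Unfold `Cv.clt`; the conditions of the `if`s: at the vertex `(z, y, i, x)` at the port `y'`: (A) `ln (k, z) y ∧ x = P.p (k, z) ∧ y' = y`; (B) `ln (k, z) y ∧ x = y ∧ y' = P.p (k, z)`; (A) and (B) exclude each other if `P.p (k, z) ≠ y`. Last lemma: neither (A) nor (B) (`De (P.p (k, z)) y x y'` is the disjunction of their second parts).
-/

namespace Pool.Agent.LHD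

open Pool.Agent.LIH Pool.Agent.LHA
open Pool.Agent.LHC (Rg DeepN De Br CZ Ctr nxt nxG glueS sAdj LN LC LO)

variable {V κ Z : Type} {H : SimpleGraph V} {P : Cv V (κ × Z)} {ln : κ × Z → V → Prop} {r : ℕ}
  {k : κ} {z : Z} {y : V}

theorem clt_p_inl : (P.clt ln r).p (k, .inl z) = P.p (k, z) := rfl

theorem clt_p_inr {i : Fin (r + 1)} {x : V} : (P.clt ln r).p (k, .inr (z, y, i, x)) = x := rfl

theorem ctN_A0 {i : Fin (r + 1)} {x y' : V}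
    (h : ln (k, z) y ∧ x = P.p (k, z) ∧ y' = y) (hi : i.1 = 0) :
    (P.clt ln r).nb (k, .inr (z, y, i, x)) y' =
      (P.nb (k, z) y).map (fun w => (w.1, .inr (w.2, P.p (k, z), 0, y))) := by
  simp only [Cv.clt, if_pos h, if_pos hi]

theorem ctN_A {i : Fin (r + 1)} {x y' : V}
    (h : ln (k, z) y ∧ x = P.p (k, z) ∧ y' = y) (hi : i.1 ≠ 0) :
    (P.clt ln r).nb (k, .inr (z, y, i, x)) y' =
      some (k, .inr (z, y, ⟨i.1 - 1, lt_of_le_of_lt (Nat.sub_le _ _) i.2⟩, y)) := by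
  simp only [Cv.clt, if_pos h, if_neg hi]

theorem ctN_B {i : Fin (r + 1)} {x y' : V}
    (h1 : ¬ (ln (k, z) y ∧ x = P.p (k, z) ∧ y' = y))
    (h : ln (k, z) y ∧ x = y ∧ y' = P.p (k, z)) (hi : i.1 + 1 < r + 1) :
    (P.clt ln r).nb (k, .inr (z, y, i, x)) y' =
      some (k, .inr (z, y, ⟨i.1 + 1, hi⟩, P.p (k, z))) := by
  simp only [Cv.clt, if_neg h1, if_pos h, dif_pos hi]

theorem ctN_B' {i : Fin (r + 1)} {x y' : V}
    (h1 : ¬ (ln (k, z) y ∧ x = P.p (k, z) ∧ y' = y))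
    (h : ln (k, z) y ∧ x = y ∧ y' = P.p (k, z)) (hi : ¬ i.1 + 1 < r + 1) :
    (P.clt ln r).nb (k, .inr (z, y, i, x)) y' = some (k, .inl z) := by
  simp only [Cv.clt, if_neg h1, if_pos h, dif_neg hi]

theorem ctN_C {i : Fin (r + 1)} {x y' : V}
    (h1 : ¬ (ln (k, z) y ∧ x = P.p (k, z) ∧ y' = y))
    (h2 : ¬ (ln (k, z) y ∧ x = y ∧ y' = P.p (k, z))) :
    (P.clt ln r).nb (k, .inr (z, y, i, x)) y' = some (k, .inr (z, y, i, y')) := by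
  simp only [Cv.clt, if_neg h1, if_neg h2]

theorem clt_nb_ln (h : ln (k, z) y) :
    (P.clt ln r).nb (k, .inl z) y = some (k, .inr (z, y, Fin.last r, y)) := by
  simp only [Cv.clt, if_pos h]

theorem clt_nb_not (h : ¬ ln (k, z) y) :
    (P.clt ln r).nb (k, .inl z) y = (P.nb (k, z) y).map (fun w => (w.1, .inl w.2)) := by
  simp only [Cv.clt, if_neg h]

theorem clt_nb_dn (h : ln (k, z) y) (i : ℕ) (hi : i + 1 < r + 1) :
    (P.clt ln r).nb (k, .inr (z, y, ⟨i + 1, hi⟩, P.p (k, z))) y =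
      some (k, .inr (z, y, ⟨i, Nat.lt_of_succ_lt hi⟩, y)) :=
  ctN_A (i := ⟨i + 1, hi⟩) ⟨h, rfl, rfl⟩ (Nat.succ_ne_zero i)

theorem clt_nb_far (h : ln (k, z) y) : (P.clt ln r).nb (k, .inr (z, y, 0, P.p (k, z))) y =
    (P.nb (k, z) y).map (fun w => (w.1, .inr (w.2, P.p (k, z), 0, y))) :=
  ctN_A0 (i := 0) ⟨h, rfl, rfl⟩ rfl

theorem clt_nb_up (h : ln (k, z) y) (hne : P.p (k, z) ≠ y) (i : ℕ) (hi : i + 1 < r + 1) :
    (P.clt ln r).nb (k, .inr (z, y, ⟨i, Nat.lt_of_succ_lt hi⟩, y)) (P.p (k, z)) =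
      some (k, .inr (z, y, ⟨i + 1, hi⟩, P.p (k, z))) :=
  ctN_B (i := ⟨i, Nat.lt_of_succ_lt hi⟩) (fun h' => hne h'.2.1.symm) ⟨h, rfl, rfl⟩ hi

theorem clt_nb_top (h : ln (k, z) y) (hne : P.p (k, z) ≠ y) :
    (P.clt ln r).nb (k, .inr (z, y, Fin.last r, y)) (P.p (k, z)) = some (k, .inl z) :=
  ctN_B' (i := Fin.last r) (fun h' => hne h'.2.1.symm) ⟨h, rfl, rfl⟩ (by simp)

theorem clt_nb_in {i : Fin (r + 1)} {x y' : V}
    (h : ¬ (ln (k, z) y ∧ De (P.p (k, z)) y x y')) :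
    (P.clt ln r).nb (k, .inr (z, y, i, x)) y' = some (k, .inr (z, y, i, y')) :=
  ctN_C (fun h' => h ⟨h'.1, Or.inl h'.2⟩) (fun h' => h ⟨h'.1, Or.inr h'.2⟩)

/-- all cases at a vertex of a line -/
theorem clt_cases (hne : ln (k, z) y → P.p (k, z) ≠ y) (i : Fin (r + 1)) (x y' : V) :
    (ln (k, z) y ∧ x = P.p (k, z) ∧ y' = y ∧ i = 0 ∧
      (P.clt ln r).nb (k, .inr (z, y, i, x)) y' =
        (P.nb (k, z) y).map (fun w => (w.1, .inr (w.2, P.p (k, z), 0, y)))) ∨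
    (ln (k, z) y ∧ x = P.p (k, z) ∧ y' = y ∧ ∃ (i' : ℕ) (h : i' + 1 < r + 1), i = ⟨i' + 1, h⟩ ∧
      (P.clt ln r).nb (k, .inr (z, y, i, x)) y' =
        some (k, .inr (z, y, ⟨i', Nat.lt_of_succ_lt h⟩, y))) ∨
    (ln (k, z) y ∧ x = y ∧ y' = P.p (k, z) ∧ ∃ h : i.1 + 1 < r + 1,
      (P.clt ln r).nb (k, .inr (z, y, i, x)) y' =
        some (k, .inr (z, y, ⟨i.1 + 1, h⟩, P.p (k, z)))) ∨
    (ln (k, z) y ∧ x = y ∧ y' = P.p (k, z) ∧ i = Fin.last r ∧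
      (P.clt ln r).nb (k, .inr (z, y, i, x)) y' = some (k, .inl z)) ∨
    (¬ (ln (k, z) y ∧ De (P.p (k, z)) y x y') ∧
      (P.clt ln r).nb (k, .inr (z, y, i, x)) y' = some (k, .inr (z, y, i, y'))) := by
  by_cases hA : ln (k, z) y ∧ x = P.p (k, z) ∧ y' = y
  · by_cases hi : i.1 = 0
    · exact Or.inl ⟨hA.1, hA.2.1, hA.2.2, Fin.ext hi, ctN_A0 hA hi⟩
    · have hlt : i.1 - 1 + 1 < r + 1 := by
        have := i.2
        omega
      refine Or.inr (Or.inl ⟨hA.1, hA.2.1, hA.2.2, i.1 - 1, hlt, ?_, ctN_A hA hi⟩)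
      apply Fin.ext
      change i.1 = i.1 - 1 + 1
      omega
  · by_cases hB : ln (k, z) y ∧ x = y ∧ y' = P.p (k, z)
    · by_cases hi : i.1 + 1 < r + 1
      · exact Or.inr (Or.inr (Or.inl ⟨hB.1, hB.2.1, hB.2.2, hi, ctN_B hA hB hi⟩))
      · refine Or.inr (Or.inr (Or.inr (Or.inl ⟨hB.1, hB.2.1, hB.2.2, ?_, ctN_B' hA hB hi⟩)))
        apply Fin.ext
        have := i.2
        rw [Fin.val_last]
        omega
    · refine Or.inr (Or.inr (Or.inr (Or.inr ⟨?_, ctN_C hA hB⟩)))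
      rintro ⟨h1, h2 | h2⟩
      · exact hA ⟨h1, h2⟩
      · exact hB ⟨h1, h2⟩

end Pool.Agent.LHD
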