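import Pool.Agent.LHD.Defs
import Pool.Agent.LHC.RgB

/-!
# Partial covers: basic facts

`P.rg` has `rp u y = P.p u`. `ok_rg`: `ax`: `Cv.Ok`, `φ` = identity. `inj`: the projection of the neighbour at the port `y` is `y`. `irr`: `P.p u ≠ y`. The others: `Pool.Agent.LHC.Rg.adj_iff`, `Rg.fv_some`, `Rg.locinj_iff` for `P.rg` (`P.G H = P.rg.G H`, `P.vl = P.rg.fv`, `P.Bj = P.rg.Bij` by definition). `adj_p`: `y = P.p v`.
`p_locinj`: `locinj_iff`: `P.p v = y`. `brs`: `Bj` gives `Set.BijOn (P.vl f (σ x)) (N (P.p (σ x))) (N (f (σ x)))`, `P.p (σ x) = x`; `hnb` and `vl_some`.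
-/

namespace Pool.Agent.LHD

open Pool.Agent.LIH Pool.Agent.LHA
open Pool.Agent.LHC (Rg DeepN De Br CZ Ctr nxt nxG glueS sAdj LN LC LO)

variable {V W : Type} {H : SimpleGraph V} {P : Cv V W}

theorem Cv.ok_rg (hP : P.Ok H) : P.rg.Ok H := by
  refine ⟨?_, ?_, ?_⟩
  · intro u y v h1 h2
    obtain ⟨h3, h4⟩ := hP u y v h1 h2
    exact ⟨h4, SimpleGraph.Iso.refl, rfl, h3.symm⟩
  · intro u y y' v h1 h1' h2 h2'
    exact (hP u y v h1 h2).1.symm.trans (hP u y' v h1' h2').1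
  · intro u y h1 h2
    have h3 := (hP u y u h1 h2).1
    have h4 : H.Adj (P.p u) y := h1
    rw [← h3] at h4
    exact H.irrefl h4

theorem Cv.vl_some {f : W → V} {u v : W} {y : V} (h : P.nb u y = some v) : P.vl f u y = f v :=
  Rg.fv_some (P := P.rg) h

theorem Cv.adj_iff (hP : P.Ok H) (u v : W) :
    (P.G H).Adj u v ↔ ∃ y, H.Adj (P.p u) y ∧ P.nb u y = some v :=
  Rg.adj_iff (Cv.ok_rg hP) u v

theorem Cv.adj_p (hP : P.Ok H) (u v : W) :
    (P.G H).Adj u v ↔ H.Adj (P.p u) (P.p v) ∧ P.nb u (P.p v) = some v := by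
  rw [Cv.adj_iff hP]
  constructor
  · rintro ⟨y, h1, h2⟩
    obtain ⟨h3, -⟩ := hP u y v h1 h2
    rw [h3]
    exact ⟨h1, h2⟩
  · rintro ⟨h1, h2⟩
    exact ⟨P.p v, h1, h2⟩

theorem Cv.locinj_iff (hP : P.Ok H) (f : W → V) : LocInj (P.G H) H f ↔
    (∀ u y v, H.Adj (P.p u) y → P.nb u y = some v → H.Adj (f u) (f v)) ∧
    ∀ u y y' v v', H.Adj (P.p u) y → H.Adj (P.p u) y' → P.nb u y = some v →
      P.nb u y' = some v' → f v = f v' → y = y' :=
  Rg.locinj_iff (Cv.ok_rg hP) f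

theorem Cv.p_locinj (hP : P.Ok H) : LocInj (P.G H) H P.p := by
  rw [Cv.locinj_iff hP]
  refine ⟨?_, ?_⟩
  · intro u y v h1 h2
    rw [(hP u y v h1 h2).1]
    exact h1
  · intro u y y' v v' h1 h1' h2 h2' he
    rw [← (hP u y v h1 h2).1, ← (hP u y' v' h1' h2').1]
    exact he

theorem Cv.bj_on {f : W → V} {u : W} (h : P.Bj H f u) :
    Set.BijOn (P.vl f u) (H.neighborSet (P.p u)) (H.neighborSet (f u)) := h.2

theorem Cv.brs {σ : V → W} {f : W → V} {S : Set V} {D : V → V → Prop}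
    (hp : ∀ x ∈ S, P.p (σ x) = x)
    (hnb : ∀ x ∈ S, ∀ y ∈ S, H.Adj x y → ¬ D x y → P.nb (σ x) y = some (σ y))
    (hb : ∀ x ∈ S, P.Bj H f (σ x)) :
    BrS H S D (fun x => f (σ x)) (fun x y => P.vl f (σ x) y) := by
  refine ⟨?_, ?_⟩
  · intro x hx
    have h1 := Cv.bj_on (hb x hx)
    rw [hp x hx] at h1
    exact h1
  · intro x hx y hy hxy hD
    exact Cv.vl_some (hnb x hx y hy hxy hD)

end Pool.Agent.LHD
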