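import Pool.Agent.LHD.Defs
import Pool.Agent.LHD.CvB
import Pool.Agent.LHD.CtN

/-!
# The graph with lines is a partial cover

Write `C = P.clt ln r`, `q = P.p (k, z)`. If `ln (k, z) y` then `H.Adj q y` (`hL.adj`), so `q ≠ y`. Use `clt_nb_..`, `clt_cases`. At `(k, inl z)` at the port `y`: `ln (k, z) y`: the neighbour `(k, inr (z, y, last, y))` has the projection `y`, and at the port `q` it has `(k, inl z)` (`clt_nb_top`). `¬ ln (k, z) y`: `P.nb (k, z) y = some w`, the neighbour `(w.1, inl w.2)` has the projection `P.p w = y`, and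
`P.nb w q = some (k, z)` (`hP`); `¬ ln w q` (otherwise `hL.sym` gives `ln (k, z) (P.p w) = ln (k, z) y`), so `clt_nb_not`.
At `(k, inr (z, y, i, x))` at the port `y'` (`clt_cases`): (1) `i = 0`, `x = q`, `y' = y`, `P.nb (k, z) y = some w`: the neighbour is `(w.1, inr (w.2, q, 0, y))`, its projection is `y`. `ln w q` (`hL.sym`), `P.p w = y`, `P.nb w q = some (k, z)`: `clt_nb_far` at `w` gives `(k, inr (z, P.p w, 0, q)) = (k, inr (z, y, 0, q))`. (2) `(i' + 1, q)` at `y` → `(i', y)`: `clt_nb_up`. (3) `(i, y)` at `q` → `(i + 1, q)`: `clt_nb_dn`.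
(4) `(last, y)` at `q` → `(k, inl z)`: `clt_nb_ln`. (5) → `(i, y')`, at the port `x`: `clt_nb_in` (`De q y` is symmetric).
-/

namespace Pool.Agent.LHD

open Pool.Agent.LIH Pool.Agent.LHA
open Pool.Agent.LHC (Rg DeepN De Br CZ Ctr nxt nxG glueS sAdj LN LC LO)

theorem clt_ok {V κ Z : Type} {H : SimpleGraph V} {P : Cv V (κ × Z)} {ln : κ × Z → V → Prop}
    (r : ℕ) (hP : P.Ok H) (hL : LnOk H P ln) : (P.clt ln r).Ok H := by
  have hne : ∀ {k : κ} {z : Z} {y : V}, ln (k, z) y → P.p (k, z) ≠ y :=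
    fun h => (hL.adj _ _ h).ne
  rintro ⟨k, z | ⟨z, y0, i, x⟩⟩ y v hy hnb
  · change H.Adj (P.p (k, z)) y at hy
    change (P.clt ln r).p v = y ∧ (P.clt ln r).nb v (P.p (k, z)) = some (k, .inl z)
    by_cases h : ln (k, z) y
    · rw [clt_nb_ln h] at hnb
      have hv := Option.some.inj hnb
      subst hv
      exact ⟨rfl, clt_nb_top h (hne h)⟩
    · rw [clt_nb_not h] at hnb
      obtain ⟨w, hw, hv⟩ := Option.map_eq_some_iff.1 hnb
      subst hv
      obtain ⟨h1, h2⟩ := hP _ _ _ hy hw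
      refine ⟨h1, ?_⟩
      have h3 : ¬ ln (w.1, w.2) (P.p (k, z)) := by
        intro h4
        have h5 := hL.sym _ _ _ h4 h2
        change ln (k, z) (P.p w) at h5
        rw [h1] at h5
        exact h h5
      rw [clt_nb_not h3]
      change Option.map _ (P.nb w (P.p (k, z))) = _
      rw [h2]
      rfl
  · change H.Adj x y at hy
    change (P.clt ln r).p v = y ∧ (P.clt ln r).nb v x = some (k, .inr (z, y0, i, x))
    rcases clt_cases (P := P) (ln := ln) (r := r) (k := k) (z := z) (y := y0) hne i x y with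
      ⟨h, hx, hyy, hi, hn⟩ | ⟨h, hx, hyy, i', hi', hi, hn⟩ | ⟨h, hx, hyy, hi, hn⟩ | ⟨h, hx, hyy, hi, hn⟩ | ⟨h, hn⟩
    · rw [hn] at hnb
      obtain ⟨w, hw, hv⟩ := Option.map_eq_some_iff.1 hnb
      subst hv
      subst hx
      subst hyy
      subst hi
      obtain ⟨h1, h2⟩ := hP _ _ _ hy hw
      refine ⟨rfl, ?_⟩
      have h3 : ln (w.1, w.2) (P.p (k, z)) := hL.sym _ _ _ h hw
      have h4 := clt_nb_far (P := P) (r := r) h3
      have h5 : P.p (w.1, w.2) = y := h1
      rw [h5] at h4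
      rw [h4]
      change Option.map _ (P.nb w (P.p (k, z))) = _
      rw [h2]
      rfl
    · rw [hn] at hnb
      have hv := Option.some.inj hnb
      subst hv
      subst hx
      subst hyy
      subst hi
      exact ⟨rfl, clt_nb_up h (hne h) i' hi'⟩
    · rw [hn] at hnb
      have hv := Option.some.inj hnb
      subst hv
      subst hx
      subst hyy
      exact ⟨rfl, clt_nb_dn h i.1 hi⟩
    · rw [hn] at hnb
      have hv := Option.some.inj hnb
      subst hv
      subst hx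
      subst hyy
      subst hi
      exact ⟨rfl, clt_nb_ln h⟩
    · rw [hn] at hnb
      have hv := Option.some.inj hnb
      subst hv
      refine ⟨rfl, clt_nb_in ?_⟩
      rintro ⟨h1, h2⟩
      refine h ⟨h1, ?_⟩
      rcases h2 with ⟨h3, h4⟩ | ⟨h3, h4⟩
      · exact Or.inr ⟨h4, h3⟩
      · exact Or.inl ⟨h4, h3⟩

end Pool.Agent.LHD
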