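import Pool.Agent.LHD.Defs
import Pool.Agent.LHD.CvB
import Pool.Agent.LHD.CtN
import Pool.Agent.LHD.CtO

/-!
# The adjacency relation of the graph with lines

`C = P.clt ln r`, `Cv.adj_iff` for `C` (`clt_ok`): `(k, a)` and `(l, b)` are adjacent iff `C.nb (k, a) y' = some (l, b)` for some port `y'` (`H.Adj (C.p (k, a)) y'`).
(→) `a = inl z`, `ln (k, z) y'`: `LO π z y' a b` (first case of `LO`). `a = inl z`, `¬ ln (k, z) y'`: `P.nb (k, z) y' = some (l, z')`, `b = inl z'`, `y' = P.p (l, z') = π z'`: first case. `a = inr (z, y, i, x)`: `clt_cases`: (1) `P.nb (k, z) y = some (l, z')`, `y = π z'`: second case (`a = inr (z, π z', 0, π z)`, `b = inr (z', π z, 0, π z')`). (2), (3), (4): `LO`. (5): `b = inr (z, y, i, y')`: `LN` if `¬ De (π z) y x y'`, otherwise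
`¬ ln (k, z) y` and `LC`.
(←) the edges are given by the ports (`clt_nb_..`); by the symmetry of the graph it is enough to find a port at one end. First two cases: `Cv.adj_p`: `P.nb (k, z) (π z') = some (l, z')`.
-/

namespace Pool.Agent.LHD

open Pool.Agent.LIH Pool.Agent.LHA
open Pool.Agent.LHC (Rg DeepN De Br CZ Ctr nxt nxG glueS sAdj LN LC LO)

theorem clt_adj {V κ Z : Type} {H : SimpleGraph V} {P : Cv V (κ × Z)} {ln : κ × Z → V → Prop}
    {r : ℕ} (hP : P.Ok H) (hL : LnOk H P ln) {π : Z → V} (hπ : ∀ k z, P.p (k, z) = π z)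
    (k l : κ) (a b : CZ Z V r) : ((P.clt ln r).G H).Adj (k, a) (l, b) ↔
      (∃ z z', a = .inl z ∧ b = .inl z' ∧ ¬ ln (k, z) (π z') ∧ (P.G H).Adj (k, z) (l, z')) ∨
      (∃ z z', a = .inr (z, π z', 0, π z) ∧ b = .inr (z', π z, 0, π z') ∧
        ln (k, z) (π z') ∧ (P.G H).Adj (k, z) (l, z')) ∨
      (k = l ∧ ∃ z y, LN H π z y a b ∨ (ln (k, z) y ∧ LO π z y a b) ∨
        (¬ ln (k, z) y ∧ LC H π z y a b)) := by
  rw [Cv.adj_iff (clt_ok r hP hL)]
  constructor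
  · rintro ⟨y', hy', hn⟩
    rcases a with z | ⟨z, y, i, x⟩
    · rw [clt_p_inl] at hy'
      by_cases ho : ln (k, z) y'
      · rw [clt_nb_ln ho] at hn
        have h1 := Option.some.inj hn
        rw [Prod.mk.injEq] at h1
        obtain ⟨rfl, rfl⟩ := h1
        exact Or.inr (Or.inr ⟨rfl, z, y', Or.inr (Or.inl ⟨ho, Or.inl ⟨rfl, rfl⟩⟩)⟩)
      · rw [clt_nb_not ho, Option.map_eq_some_iff] at hn
        obtain ⟨⟨w1, w2⟩, hw, hw'⟩ := hn
        rw [Prod.mk.injEq] at hw'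
        obtain ⟨rfl, rfl⟩ := hw'
        have h2 := (hP _ _ _ hy' hw).1
        refine Or.inl ⟨z, w2, rfl, rfl, ?_, (Cv.adj_iff hP _ _).2 ⟨y', hy', hw⟩⟩
        rw [← hπ w1 w2, h2]
        exact ho
    · rw [clt_p_inr] at hy'
      rcases clt_cases (P := P) (ln := ln) (r := r) (k := k) (z := z) (y := y)
        (fun h => (hL.adj _ _ h).ne) i x y' with ⟨hl, hx, hy, hi, h⟩ | ⟨hl, hx, hy, i', hi', hi, h⟩ |
        ⟨hl, hx, hy, hi, h⟩ | ⟨hl, hx, hy, hi, h⟩ | ⟨hD, h⟩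
      · rw [h, Option.map_eq_some_iff] at hn
        obtain ⟨⟨w1, w2⟩, hw, hw'⟩ := hn
        rw [Prod.mk.injEq] at hw'
        obtain ⟨h3, h4⟩ := hw'
        have h5 : P.p (w1, w2) = y := (hP _ _ _ (hL.adj _ _ hl) hw).1
        subst h3 hx hi
        rw [hπ] at h5
        subst h5
        refine Or.inr (Or.inl ⟨z, w2, ?_, ?_, hl, (Cv.adj_iff hP _ _).2 ⟨_, hL.adj _ _ hl, hw⟩⟩)
        · rw [hπ]
        · rw [← h4, hπ]
      · rw [h] at hn
        have h1 := Option.some.inj hn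
        rw [Prod.mk.injEq] at h1
        obtain ⟨rfl, rfl⟩ := h1
        refine Or.inr (Or.inr ⟨rfl, z, y, Or.inr (Or.inl ⟨hl, Or.inr (Or.inr ⟨i', hi', Or.inl ⟨?_, rfl⟩⟩)⟩)⟩)
        rw [hi, hx, hπ]
      · rw [h] at hn
        have h1 := Option.some.inj hn
        rw [Prod.mk.injEq] at h1
        obtain ⟨rfl, rfl⟩ := h1
        refine Or.inr (Or.inr ⟨rfl, z, y, Or.inr (Or.inl ⟨hl, Or.inr (Or.inr ⟨i.1, hi, Or.inr ⟨?_, ?_⟩⟩)⟩)⟩)
        · rw [hπ]
        · rw [hx]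
      · rw [h] at hn
        have h1 := Option.some.inj hn
        rw [Prod.mk.injEq] at h1
        obtain ⟨rfl, rfl⟩ := h1
        refine Or.inr (Or.inr ⟨rfl, z, y, Or.inr (Or.inl ⟨hl, Or.inr (Or.inl ⟨rfl, ?_⟩)⟩)⟩)
        rw [hi, hx]
      · rw [h] at hn
        have h1 := Option.some.inj hn
        rw [Prod.mk.injEq] at h1
        obtain ⟨rfl, rfl⟩ := h1
        rw [hπ] at hD
        by_cases hE : De (π z) y x y'
        · exact Or.inr (Or.inr ⟨rfl, z, y, Or.inr (Or.inr ⟨fun h => hD ⟨h, hE⟩, i, x, y', rfl, rfl, hy', hE⟩)⟩)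
        · exact Or.inr (Or.inr ⟨rfl, z, y, Or.inl ⟨i, x, y', rfl, rfl, hy', hE⟩⟩)
  · rintro (⟨z, z', rfl, rfl, hl, h⟩ | ⟨z, z', rfl, rfl, hl, h⟩ | ⟨rfl, z, y,
      ⟨i, x, x', rfl, rfl, hxx, hD⟩ | ⟨hl, h⟩ | ⟨hl, i, x, x', rfl, rfl, hxx, hD⟩⟩)
    · obtain ⟨h1, h2⟩ := (Cv.adj_p hP _ _).1 h
      refine ⟨P.p (l, z'), ?_, ?_⟩
      · rw [clt_p_inl]
        exact h1
      · rw [clt_nb_not (by rw [hπ]; exact hl), h2]
        rfl
    · obtain ⟨h1, h2⟩ := (Cv.adj_p hP _ _).1 h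
      rw [hπ, hπ] at h1
      rw [hπ] at h2
      refine ⟨π z', ?_, ?_⟩
      · rw [clt_p_inr]
        exact h1
      · have h3 := clt_nb_far (P := P) (r := r) hl
        rw [h2, hπ] at h3
        exact h3
    · refine ⟨x', ?_, ?_⟩
      · rw [clt_p_inr]
        exact hxx
      · exact clt_nb_in (fun h => hD (by rw [← hπ k]; exact h.2))
    · have hq := hL.adj _ _ hl
      rcases h with ⟨rfl, rfl⟩ | ⟨rfl, rfl⟩ | ⟨i, hi, ⟨rfl, rfl⟩ | ⟨rfl, rfl⟩⟩
      · refine ⟨y, ?_, clt_nb_ln hl⟩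
        rw [clt_p_inl]
        exact hq
      · refine ⟨P.p (k, z), ?_, clt_nb_top hl hq.ne⟩
        rw [clt_p_inr]
        exact hq.symm
      · refine ⟨y, ?_, ?_⟩
        · rw [clt_p_inr, ← hπ k]
          exact hq
        · have h3 := clt_nb_dn (P := P) hl i hi
          rw [hπ] at h3
          exact h3
      · refine ⟨P.p (k, z), ?_, ?_⟩
        · rw [clt_p_inr]
          exact hq.symm
        · have h3 := clt_nb_up (P := P) hl hq.ne i hi
          rw [h3, hπ]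
    · refine ⟨x', ?_, ?_⟩
      · rw [clt_p_inr]
        exact hxx
      · exact clt_nb_in (fun h => hl h.1)

end Pool.Agent.LHD
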