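import Pool.Agent.LHD.Defs
import Pool.Agent.LHD.CvB
import Pool.Agent.LHD.CtN

/-!
# Depth in the graph with lines

`P.rg.Dep` for `C = P.clt ln r` and `δ' = cdl P δ`. `full`: `(k, inl z)`: `ln (k, z) y`: `clt_nb_ln`; otherwise `P.nb (k, z) y ≠ none` by `hf`, `clt_nb_not`. `(k, inr (z, y, i, x))`, `2 ≤ δ'`: by `clt_cases` the neighbour is `none` only if `i = 0` and `P.nb (k, z) y = none`; then `δ' = min 1 _ ≤ 1`.
`lip`: `(k, inl z)` at a port with `ln`: `δ' (last copy) = min (r + 1) (δ + 1)` or `δ`; `δ ≤ min (r + 1) (δ + 1) + 1` by `hr`. Without `ln`: `hl`. `(k, inr (z, y, i, x))`: the neighbour is in the same copy (same `δ'`); or `(i ± 1)`: `min (i + 1) (δ + 1) ≤ min i (δ + 1) + 1` etc., or the same `δ`; or `(k, inl z)`: `δ' ≤ δ + 1`; or (case 1, `P.nb (k, z) y = some w`) the copy `0` of the line of `w` at the port `q = P.p (k, z)`: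
`P.nb w q = some (k, z) ≠ none`, so the depths are `δ (k, z)` and `δ w`: `hl`.
-/

namespace Pool.Agent.LHD

open Pool.Agent.LIH Pool.Agent.LHA
open Pool.Agent.LHC (Rg DeepN De Br CZ Ctr nxt nxG glueS sAdj LN LC LO)

theorem ctd_inl {V κ Z : Type} {r : ℕ} (P : Cv V (κ × Z)) (δ : κ × Z → ℕ) (k : κ) (z : Z) :
    cdl (r := r) P δ (k, .inl z) = δ (k, z) := rfl

theorem ctd_none {V κ Z : Type} {r : ℕ} (P : Cv V (κ × Z)) (δ : κ × Z → ℕ) (k : κ) (z : Z) (y : V)
    (i : Fin (r + 1)) (x : V) (h : P.nb (k, z) y = none) :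
    cdl P δ (k, .inr (z, y, i, x)) = min (i.1 + 1) (δ (k, z) + 1) := by
  show (if P.nb (k, z) y = none then min (i.1 + 1) (δ (k, z) + 1) else δ (k, z)) = _
  rw [if_pos h]

theorem ctd_some {V κ Z : Type} {r : ℕ} (P : Cv V (κ × Z)) (δ : κ × Z → ℕ) (k : κ) (z : Z) (y : V)
    (i : Fin (r + 1)) (x : V) (h : P.nb (k, z) y ≠ none) :
    cdl P δ (k, .inr (z, y, i, x)) = δ (k, z) := by
  show (if P.nb (k, z) y = none then min (i.1 + 1) (δ (k, z) + 1) else δ (k, z)) = _
  rw [if_neg h]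

theorem clt_dep {V κ Z : Type} {H : SimpleGraph V} {P : Cv V (κ × Z)} {ln : κ × Z → V → Prop}
    {r : ℕ} {δ : κ × Z → ℕ} (hP : P.Ok H) (hL : LnOk H P ln)
    (hf : ∀ u, 2 ≤ δ u → ∀ y, H.Adj (P.p u) y → P.nb u y = none → ln u y)
    (hl : ∀ u y v, H.Adj (P.p u) y → P.nb u y = some v → δ u ≤ δ v + 1)
    (hr : ∀ u, δ u ≤ r + 2) : (P.clt ln r).rg.Dep H (cdl P δ) := by
  have hne : ∀ (k : κ) (z : Z) (y : V), ln (k, z) y → P.p (k, z) ≠ y := fun k z y h => (hL.adj _ _ h).ne
  constructor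
  · rintro ⟨k, z | ⟨z, y, i, x⟩⟩ h2 y' hadj
    · rw [ctd_inl] at h2
      change H.Adj (P.p (k, z)) y' at hadj
      show ∃ v, (P.clt ln r).nb (k, .inl z) y' = some v
      by_cases hln : ln (k, z) y'
      · exact ⟨_, clt_nb_ln hln⟩
      · rcases hw : P.nb (k, z) y' with _ | w
        · exact absurd (hf _ h2 _ hadj hw) hln
        · refine ⟨(w.1, .inl w.2), ?_⟩
          rw [clt_nb_not hln, hw]
          rfl
    · show ∃ v, (P.clt ln r).nb (k, .inr (z, y, i, x)) y' = some v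
      rcases clt_cases (r := r) (P := P) (ln := ln) (hne k z y) i x y' with
        ⟨-, -, -, hi, e⟩ | ⟨-, -, -, i', h, -, e⟩ | ⟨-, -, -, h, e⟩ | ⟨-, -, -, -, e⟩ | ⟨-, e⟩
      · rcases hw : P.nb (k, z) y with _ | w
        · rw [ctd_none _ _ _ _ _ _ _ hw, hi] at h2
          have : min (((0 : Fin (r + 1)) : ℕ) + 1) (δ (k, z) + 1) ≤ 1 := by
            rw [Fin.val_zero]
            exact min_le_left _ _
          omega
        · rw [hw] at e
          exact ⟨_, e⟩
      · exact ⟨_, e⟩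
      · exact ⟨_, e⟩
      · exact ⟨_, e⟩
      · exact ⟨_, e⟩
  · rintro ⟨k, z | ⟨z, y, i, x⟩⟩ y' v hadj hv
    · rw [ctd_inl]
      change H.Adj (P.p (k, z)) y' at hadj
      change (P.clt ln r).nb (k, .inl z) y' = some v at hv
      by_cases hln : ln (k, z) y'
      · rw [clt_nb_ln hln] at hv
        obtain rfl := Option.some.inj hv
        have h3 := hr (k, z)
        by_cases hw : P.nb (k, z) y' = none
        · rw [ctd_none _ _ _ _ _ _ _ hw, Fin.val_last]
          omega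
        · rw [ctd_some _ _ _ _ _ _ _ hw]
          omega
      · rw [clt_nb_not hln] at hv
        obtain ⟨w, hw, rfl⟩ := Option.map_eq_some_iff.1 hv
        rw [ctd_inl]
        exact hl _ _ _ hadj hw
    · change (P.clt ln r).nb (k, .inr (z, y, i, x)) y' = some v at hv
      rcases clt_cases (r := r) (P := P) (ln := ln) (hne k z y) i x y' with
        ⟨hln, hx, hy, hi, e⟩ | ⟨-, -, -, i', h, hi, e⟩ | ⟨-, -, -, h, e⟩ | ⟨-, -, -, hi, e⟩ | ⟨-, e⟩
      · rw [e] at hv
        obtain ⟨w, hw, rfl⟩ := Option.map_eq_some_iff.1 hv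
        have hA := hL.adj _ _ hln
        obtain ⟨h1, h2⟩ := hP _ _ _ hA hw
        rw [ctd_some _ _ _ _ _ _ _ (by rw [hw]; simp), ctd_some _ _ _ _ _ _ _ (by
          show P.nb w (P.p (k, z)) ≠ none
          rw [h2]; simp)]
        exact hl _ _ _ hA hw
      · rw [e] at hv
        obtain rfl := Option.some.inj hv
        by_cases hw : P.nb (k, z) y = none
        · rw [ctd_none _ _ _ _ _ _ _ hw, ctd_none _ _ _ _ _ _ _ hw, hi]
          simp only
          omega
        · rw [ctd_some _ _ _ _ _ _ _ hw, ctd_some _ _ _ _ _ _ _ hw]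
          omega
      · rw [e] at hv
        obtain rfl := Option.some.inj hv
        by_cases hw : P.nb (k, z) y = none
        · rw [ctd_none _ _ _ _ _ _ _ hw, ctd_none _ _ _ _ _ _ _ hw]
          simp only
          omega
        · rw [ctd_some _ _ _ _ _ _ _ hw, ctd_some _ _ _ _ _ _ _ hw]
          omega
      · rw [e] at hv
        obtain rfl := Option.some.inj hv
        rw [ctd_inl]
        by_cases hw : P.nb (k, z) y = none
        · rw [ctd_none _ _ _ _ _ _ _ hw]
          omega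
        · rw [ctd_some _ _ _ _ _ _ _ hw]
          omega
      · rw [e] at hv
        obtain rfl := Option.some.inj hv
        by_cases hw : P.nb (k, z) y = none
        · rw [ctd_none _ _ _ _ _ _ _ hw, ctd_none _ _ _ _ _ _ _ hw]
          omega
        · rw [ctd_some _ _ _ _ _ _ _ hw, ctd_some _ _ _ _ _ _ _ hw]
          omega

end Pool.Agent.LHD
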