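import Pool.Agent.LHD.Defs
import Pool.Agent.LHD.CvB
import Pool.Agent.LHD.CtN
import Pool.Agent.LHD.Bg1
import Pool.Agent.LHD.Hs

/-!
# Lines at ports which are bridges

`C = P.clt ln r`, `q = P.p (k, z)`, `σ x = (k, inr (z, y, last, x))`. Let `U` be the lobe with the exit `(y, q)`: `y ∈ U`, `q ∉ U` (`bg_symm`). The darts inside `U` are not darts of the edge `{q, y}`, so `Cv.brs` with `S = U`, `D = False` (`clt_nb_in`), and `half_lb` gives `Bg H (f (σ y)) (C.vl f (σ y) q)`. `C.vl f (σ y) q = f (k, inl z)` (`clt_nb_top`, `q ≠ y` by `bg_adj`) and `f (σ y) = C.vl f (k, inl z) y` (`clt_nb_ln`). `bg_symm`.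
-/

namespace Pool.Agent.LHD

open Pool.Agent.LIH Pool.Agent.LHA
open Pool.Agent.LHC (Rg DeepN De Br CZ Ctr nxt nxG glueS sAdj LN LC LO)

theorem line_bg {V κ Z : Type} [Finite V] {H : SimpleGraph V} (hc : H.Connected)
    {P : Cv V (κ × Z)} {ln : κ × Z → V → Prop} {r : ℕ} {f : κ × CZ Z V r → V} {k : κ} {z : Z}
    {y : V} (hln : ln (k, z) y) (hbg : Bg H (P.p (k, z)) y)
    (hb : ∀ x, (P.clt ln r).Bj H f (k, .inr (z, y, Fin.last r, x))) :
    Bg H (f (k, .inl z)) ((P.clt ln r).vl f (k, .inl z) y) := by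
  obtain ⟨U, hU⟩ := bg_symm hbg
  have hne : P.p (k, z) ≠ y := (bg_adj hbg).ne
  have hbrs : BrS H U (fun _ _ => False)
      (fun x => f (k, .inr (z, y, Fin.last r, x)))
      (fun x y' => (P.clt ln r).vl f (k, .inr (z, y, Fin.last r, x)) y') := by
    refine Cv.brs (P := P.clt ln r) (σ := fun x => (k, .inr (z, y, Fin.last r, x))) (f := f)
      (S := U) (D := fun _ _ => False) (fun x _ => clt_p_inr) ?_ (fun x _ => hb x)
    intro x hx y' hy' _ _
    apply clt_nb_in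
    rintro ⟨_, h | h⟩
    · exact hU.2.1 (h.1 ▸ hx)
    · exact hU.2.1 (h.2 ▸ hy')
  have h1 := (half_lb hc hU hbrs).2
  have h2 : (P.clt ln r).vl f (k, .inr (z, y, Fin.last r, y)) (P.p (k, z)) = f (k, .inl z) :=
    Cv.vl_some (clt_nb_top hln hne)
  have h3 : (P.clt ln r).vl f (k, .inl z) y = f (k, .inr (z, y, Fin.last r, y)) :=
    Cv.vl_some (clt_nb_ln hln)
  rw [h3]
  apply bg_symm
  have h4 : Lb H ((fun x => f (k, .inr (z, y, Fin.last r, x))) '' U)
      (f (k, .inr (z, y, Fin.last r, y)))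
      ((P.clt ln r).vl f (k, .inr (z, y, Fin.last r, y)) (P.p (k, z))) := h1
  rw [h2] at h4
  exact ⟨_, h4⟩

end Pool.Agent.LHD
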