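import Pool.Agent.LHD.Defs
import Pool.Agent.LHD.CvB
import Pool.Agent.LHD.CtN
import Pool.Agent.LHD.CtO
import Pool.Agent.LHD.BrO

/-!
# Lines at ports which are not bridges

`C = P.clt ln r`, `q = P.p (k, z)`, `H.Adj q y` (`hL.adj`). `copy_typ`: the vertices `σ x = (k, inr (z, y, i, x))` of the copy `i` form a copy of `H` with the broken edge `{q, y}`: `Cv.brs` with `S = univ`, `D = De q y` (`clt_nb_in`), `br_one`.
`line_typ`: `copy_typ` for `i = last` gives `φ`: `f (k, inr (z, y, last, x)) = φ x`, and `C.vl f (σ y) q = φ q`; the neighbour of `σ y` at `q` is `(k, inl z)` (`clt_nb_top`), so `f (k, inl z) = φ q`; `C.vl f (k, inl z) y = f (σ y) = φ y` (`clt_nb_ln`).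
`line_con`: let `w = P.nb (k, z) y`, `P.p w = y`, `P.nb w q = some (k, z)`, `ln w q` (`hL.sym`), `NB H (P.p w) q`. For the copies `i` of the line of `(k, z)` at `y` let `φ i` be the automorphisms (`copy_typ`), for those of the line of `w` at `q` let `ψ i`. `C.vl f (i + 1, q) y = f (i, y)` (`clt_nb_dn`), so `φ (i + 1) y = φ i y`: all `φ i y` are equal, and `φ last y = C.vl f (k, inl z) y` as before. `clt_nb_far`: the neighbour of
`(0, q)` at `y` is the vertex `y` of the copy `0` of the line of `w`: `φ 0 y = ψ 0 y`. In the line of `w` (`y = P.p w` plays the role of `q`): `C.vl f (i, q) y = f (i + 1, y)` (`clt_nb_up`), so `ψ i y = ψ (i + 1) y`, and `ψ last y = f (w.1, inl w.2)` (`clt_nb_top`). So `C.vl f (k, inl z) y = f (w.1, inl w.2)`.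
-/

namespace Pool.Agent.LHD

open Pool.Agent.LIH Pool.Agent.LHA
open Pool.Agent.LHC (Rg DeepN De Br CZ Ctr nxt nxG glueS sAdj LN LC LO)

variable {V κ Z : Type} [Finite V] {H : SimpleGraph V} {P : Cv V (κ × Z)}
  {ln : κ × Z → V → Prop} {r : ℕ} {f : κ × CZ Z V r → V} {k : κ} {z : Z} {y : V}

theorem copy_typ (hc : H.Connected) (hnb : NB H (P.p (k, z)) y) (i : Fin (r + 1))
    (hb : ∀ x, (P.clt ln r).Bj H f (k, .inr (z, y, i, x))) :
    ∃ φ : H ≃g H, (∀ x, f (k, .inr (z, y, i, x)) = φ x) ∧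
      ∀ x y', H.Adj x y' → (P.clt ln r).vl f (k, .inr (z, y, i, x)) y' = φ y' := by
  have h : BrS H Set.univ (De (P.p (k, z)) y)
      (fun x => f ((fun x => (k, Sum.inr (z, y, i, x)) : V → κ × CZ Z V r) x))
      (fun x y' => (P.clt ln r).vl f
        ((fun x => (k, Sum.inr (z, y, i, x)) : V → κ × CZ Z V r) x) y') := by
    apply Cv.brs
    · intro x _
      exact clt_p_inr
    · intro x _ y' _ _ hD
      exact clt_nb_in (fun hh => hD hh.2)
    · intro x _
      exact hb x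
  exact br_one hc hnb h

theorem line_typ (hc : H.Connected) (hln : ln (k, z) y) (hnb : NB H (P.p (k, z)) y)
    (hb : ∀ x, (P.clt ln r).Bj H f (k, .inr (z, y, Fin.last r, x))) :
    ∃ φ : H ≃g H, φ (P.p (k, z)) = f (k, .inl z) ∧ φ y = (P.clt ln r).vl f (k, .inl z) y := by
  obtain ⟨φ, h1, h2⟩ := copy_typ hc hnb (Fin.last r) hb
  refine ⟨φ, ?_, ?_⟩
  · rw [← h2 y (P.p (k, z)) hnb.1.symm]
    exact Cv.vl_some (clt_nb_top hln hnb.1.ne)
  · rw [← h1 y]
    exact (Cv.vl_some (clt_nb_ln hln)).symm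

omit [Finite V] in
theorem CtL_nb_symm {a b : V} (h : NB H a b) : NB H b a := by
  refine ⟨h.1.symm, ?_⟩
  rintro ⟨U, h1, h2, h3, h4⟩
  apply h.2
  refine ⟨Uᶜ, h2, ?_, h.1, ?_⟩
  · intro hh
    exact hh h1
  · intro x y' hx hy' hadj
    have hy2 : y' ∈ U := by
      by_contra hcon
      exact hy' hcon
    have := h4 y' x hy2 hx hadj.symm
    exact ⟨this.2, this.1⟩

theorem line_con (hc : H.Connected) (hP : P.Ok H) (hL : LnOk H P ln) (hln : ln (k, z) y)
    (hnb : NB H (P.p (k, z)) y) {w : κ × Z} (hw : P.nb (k, z) y = some w)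
    (hb : ∀ i x, (P.clt ln r).Bj H f (k, .inr (z, y, i, x)))
    (hb' : ∀ i x, (P.clt ln r).Bj H f (w.1, .inr (w.2, P.p (k, z), i, x))) :
    (P.clt ln r).vl f (k, .inl z) y = f (w.1, .inl w.2) := by
  obtain ⟨hpw, hnw⟩ := hP (k, z) y w hnb.1 hw
  have hlw : ln w (P.p (k, z)) := hL.sym (k, z) y w hln hw
  choose φ h1 h2 using fun i => copy_typ (ln := ln) (f := f) hc hnb i (hb i)
  have hstep : ∀ (i : ℕ) (hi : i + 1 < r + 1),
      f (k, .inr (z, y, ⟨i, Nat.lt_of_succ_lt hi⟩, y)) = f (k, .inr (z, y, ⟨i + 1, hi⟩, y)) := by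
    intro i hi
    have e1 := h2 ⟨i + 1, hi⟩ (P.p (k, z)) y hnb.1
    have e2 : (P.clt ln r).vl f (k, .inr (z, y, ⟨i + 1, hi⟩, P.p (k, z))) y = _ :=
      Cv.vl_some (clt_nb_dn hln i hi)
    rw [e2] at e1
    rw [e1, h1]
  have hall : ∀ (i : ℕ) (hi : i < r + 1),
      f (k, .inr (z, y, 0, y)) = f (k, .inr (z, y, ⟨i, hi⟩, y)) := by
    intro i
    induction i with
    | zero => intro hi; rfl
    | succ i ih =>
      intro hi
      rw [ih (Nat.lt_of_succ_lt hi)]
      exact hstep i hi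
  have hA : (P.clt ln r).vl f (k, .inl z) y = f (k, .inr (z, y, 0, y)) := by
    rw [Cv.vl_some (clt_nb_ln hln)]
    exact (hall r (Nat.lt_succ_self r)).symm
  -- the other line
  obtain ⟨k', z'⟩ := w
  have hpw' : P.p (k', z') = y := hpw
  have hnb' : NB H (P.p (k', z')) (P.p (k, z)) := by
    rw [hpw']
    exact CtL_nb_symm hnb
  have hlw' : ln (k', z') (P.p (k, z)) := hlw
  have hb'' : ∀ i x, (P.clt ln r).Bj H f (k', .inr (z', P.p (k, z), i, x)) := hb'
  choose ψ g1 g2 using fun i => copy_typ (ln := ln) (f := f) hc hnb' i (hb'' i)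
  have gstep : ∀ (i : ℕ) (hi : i + 1 < r + 1),
      f (k', .inr (z', P.p (k, z), ⟨i, Nat.lt_of_succ_lt hi⟩, y)) =
        f (k', .inr (z', P.p (k, z), ⟨i + 1, hi⟩, y)) := by
    intro i hi
    have hadj : H.Adj (P.p (k, z)) (P.p (k', z')) := hnb'.1.symm
    have e1 := g2 ⟨i, Nat.lt_of_succ_lt hi⟩ (P.p (k, z)) (P.p (k', z')) hadj
    have e2 : (P.clt ln r).vl f (k', .inr (z', P.p (k, z), ⟨i, Nat.lt_of_succ_lt hi⟩,
        P.p (k, z))) (P.p (k', z')) = _ :=
      Cv.vl_some (clt_nb_up hlw' hnb'.1.ne i hi)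
    rw [e2] at e1
    rw [hpw'] at e1
    rw [e1, g1]
  have gall : ∀ (i : ℕ) (hi : i < r + 1),
      f (k', .inr (z', P.p (k, z), 0, y)) = f (k', .inr (z', P.p (k, z), ⟨i, hi⟩, y)) := by
    intro i
    induction i with
    | zero => intro hi; rfl
    | succ i ih =>
      intro hi
      rw [ih (Nat.lt_of_succ_lt hi)]
      exact gstep i hi
  have hB : f (k', .inl z') = f (k', .inr (z', P.p (k, z), 0, y)) := by
    have hadj : H.Adj (P.p (k, z)) (P.p (k', z')) := hnb'.1.symm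
    have e1 := g2 (Fin.last r) (P.p (k, z)) (P.p (k', z')) hadj
    have e2 : (P.clt ln r).vl f (k', .inr (z', P.p (k, z), Fin.last r,
        P.p (k, z))) (P.p (k', z')) = _ :=
      Cv.vl_some (clt_nb_top hlw' hnb'.1.ne)
    rw [e2, hpw'] at e1
    have e3 := gall r (Nat.lt_succ_self r)
    rw [e1, e3]
    exact (g1 (Fin.last r) y).symm
  -- the edge between the two lines
  have hC : f (k, .inr (z, y, 0, y)) = f (k', .inr (z', P.p (k, z), 0, y)) := by
    have e1 := h2 0 (P.p (k, z)) y hnb.1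
    have e0 : (P.clt ln r).nb (k, .inr (z, y, 0, P.p (k, z))) y =
        some (k', .inr (z', P.p (k, z), 0, y)) := by
      rw [clt_nb_far hln, hw]
      rfl
    have e2 : (P.clt ln r).vl f (k, .inr (z, y, 0, P.p (k, z))) y = _ := Cv.vl_some e0
    rw [e2] at e1
    rw [e1, h1]
  rw [hA, hC]
  exact hB.symm

end Pool.Agent.LHD
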