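import Pool.Agent.LHD.Defs
import Pool.Agent.LHD.CvB
import Pool.Agent.LHD.CtN
import Pool.Agent.LHD.CtO
import Pool.Agent.LHD.CtD
import Pool.Agent.LHD.CtL
import Pool.Agent.LHD.CtH

/-!
# What a locally injective homomorphism gives

`C = P.clt ln r`, `f u = F (u.1, inl u.2)`, `v u y = C.vl F (u.1, inl u.2) y`. `DeepN` for `C.rg` (`Cv.ok_rg (clt_ok ..)`, `clt_dep`; the type is finite): `F` is `C.Bj` at all vertices with `N ≤ cdl P δ`. `cdl` at `(k, inl z)` is `δ (k, z)`. If `ln (k, z) y` then `N ≤ δ (k, z)` (`h1`); all vertices of the line of a port with `P.nb (k, z) y ≠ none` have the depth `δ (k, z) ≥ N`, and the last copy of a line with `P.nb (k, z) y = none` has the depth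
`min (r + 1) (δ + 1) ≥ N` (`hNr`).
`bij`: `Cv.bj_on`. `con`: `¬ ln u y`: `clt_nb_not`, `Cv.vl_some`. `ln u y`: `line_con` (`h2`; `ln w (P.p u)` by `hL.sym`, so `N ≤ δ w` by `h1`; `P.nb w (P.p u) = some u ≠ none` by `hP`). `typ`: `line_typ`. `brg`: `line_bg`. `adj`: `¬ ln u y`: `Cv.locinj_iff` for `C`. `ln u y`: `v u y = f w` (`con`, `h1`) and `bij` (`MapsTo`). `inj`: if `N ≤ δ u`: `con` and `bij` (`InjOn`). Otherwise `¬ ln u y`, `¬ ln u y'` (`h1`):
`Cv.locinj_iff` for `C` with the ports `y, y'` of `(u.1, inl u.2)`.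
-/

namespace Pool.Agent.LHD

open Pool.Agent.LIH Pool.Agent.LHA
open Pool.Agent.LHC (Rg DeepN De Br CZ Ctr nxt nxG glueS sAdj LN LC LO)

theorem clt_sl {V κ Z : Type} [Finite V] [Finite κ] [Finite Z] {H : SimpleGraph V}
    (hc : H.Connected) {P : Cv V (κ × Z)} {ln : κ × Z → V → Prop} {r N : ℕ} {δ : κ × Z → ℕ}
    (hN : DeepN H N) (hP : P.Ok H) (hL : LnOk H P ln)
    (hf : ∀ u, 2 ≤ δ u → ∀ y, H.Adj (P.p u) y → P.nb u y = none → ln u y)
    (hl : ∀ u y v, H.Adj (P.p u) y → P.nb u y = some v → δ u ≤ δ v + 1)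
    (hr : ∀ u, δ u ≤ r + 2) (hNr : N ≤ r + 1) (h1 : ∀ u y, ln u y → N ≤ δ u)
    (h2 : ∀ u y w, ln u y → P.nb u y = some w → NB H (P.p u) y)
    {F : κ × CZ Z V r → V} (hF : LocInj ((P.clt ln r).G H) H F) :
    Sl H P ln (fun u => N ≤ δ u) (fun u => F (u.1, .inl u.2))
      (fun u y => (P.clt ln r).vl F (u.1, .inl u.2) y) := by
  have hCok : (P.clt ln r).Ok H := clt_ok r hP hL
  have hDep : (P.clt ln r).rg.Dep H (cdl P δ) := clt_dep hP hL hf hl hr
  have hBj : ∀ u, N ≤ cdl P δ u → (P.clt ln r).Bj H F u := fun u hu =>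
    hN.2 (κ × CZ Z V r) inferInstance (P.clt ln r).rg (cdl P δ) (Cv.ok_rg hCok) hDep F hF u hu
  have hB1 : ∀ u : κ × Z, N ≤ δ u → (P.clt ln r).Bj H F (u.1, .inl u.2) :=
    fun u hu => hBj (u.1, .inl u.2) hu
  have hB2 : ∀ (u : κ × Z) (y : V), ln u y → P.nb u y ≠ none → ∀ i x,
      (P.clt ln r).Bj H F (u.1, .inr (u.2, y, i, x)) := by
    intro u y hln hnn i x
    apply hBj
    have e : cdl P δ (r := r) (u.1, .inr (u.2, y, i, x)) = δ u := by
      show (if P.nb (u.1, u.2) y = none then min (i.1 + 1) (δ (u.1, u.2) + 1)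
        else δ (u.1, u.2)) = δ u
      rw [if_neg hnn]
    rw [e]
    exact h1 u y hln
  have hB3 : ∀ (u : κ × Z) (y : V), ln u y → ∀ x,
      (P.clt ln r).Bj H F (u.1, .inr (u.2, y, Fin.last r, x)) := by
    intro u y hln x
    apply hBj
    show N ≤ (if P.nb (u.1, u.2) y = none then min ((Fin.last r).1 + 1) (δ (u.1, u.2) + 1)
        else δ (u.1, u.2))
    have h4 : N ≤ δ (u.1, u.2) := h1 u y hln
    have h5 : (Fin.last r).1 = r := rfl
    split_ifs
    · rw [h5]
      omega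
    · exact h4
  have hbij : ∀ u, N ≤ δ u → Set.BijOn ((P.clt ln r).vl F (u.1, .inl u.2))
      (H.neighborSet (P.p u)) (H.neighborSet (F (u.1, .inl u.2))) :=
    fun u hu => Cv.bj_on (hB1 u hu)
  have hnot : ∀ (u : κ × Z) (y : V) (w : κ × Z), ¬ ln u y → P.nb u y = some w →
      (P.clt ln r).nb (u.1, .inl u.2) y = some (w.1, .inl w.2) := by
    intro u y w hn hw
    have h4 : (P.clt ln r).nb (u.1, .inl u.2) y =
        (P.nb (u.1, u.2) y).map (fun w => (w.1, .inl w.2)) := clt_nb_not hn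
    have h5 : P.nb (u.1, u.2) y = some w := hw
    rw [h4, h5]
    rfl
  have hcon : ∀ u y w, N ≤ δ u → H.Adj (P.p u) y → P.nb u y = some w →
      (P.clt ln r).vl F (u.1, .inl u.2) y = F (w.1, .inl w.2) := by
    intro u y w hu ha hw
    by_cases hln : ln u y
    · obtain ⟨hpw, hback⟩ := hP u y w ha hw
      have hlw := hL.sym u y w hln hw
      have h6 : NB H (P.p (u.1, u.2)) y := h2 u y w hln hw
      refine line_con (k := u.1) (z := u.2) hc hP hL hln h6 (w := w) hw ?_ ?_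
      · exact hB2 u y hln (by rw [hw]; simp)
      · exact hB2 w (P.p u) hlw (by rw [hback]; simp)
    · exact Cv.vl_some (hnot u y w hln hw)
  have hloc := (Cv.locinj_iff hCok F).1 hF
  refine ⟨hbij, hcon, ?_, ?_, ?_, ?_⟩
  · intro u y hln hnb
    exact line_typ (k := u.1) (z := u.2) hc hln hnb (hB3 u y hln)
  · intro u y hln _ hbg
    exact line_bg (k := u.1) (z := u.2) hc hln hbg (hB3 u y hln)
  · intro u y w ha hw
    by_cases hln : ln u y
    · have hu := h1 u y hln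
      have h4 := (hbij u hu).mapsTo (show y ∈ H.neighborSet (P.p u) from ha)
      have h5 := hcon u y w hu ha hw
      rw [h5] at h4
      exact h4
    · exact hloc.1 (u.1, .inl u.2) y (w.1, .inl w.2) ha (hnot u y w hln hw)
  · intro u y y' w w' ha ha' hw hw' he
    by_cases hu : N ≤ δ u
    · have h4 := hcon u y w hu ha hw
      have h5 := hcon u y' w' hu ha' hw'
      refine (hbij u hu).injOn (show y ∈ H.neighborSet (P.p u) from ha)
        (show y' ∈ H.neighborSet (P.p u) from ha') ?_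
      rw [h4, h5]
      exact he
    · exact hloc.2 (u.1, .inl u.2) y y' (w.1, .inl w.2) (w'.1, .inl w'.2) ha ha'
        (hnot u y w (fun h => hu (h1 u y h)) hw) (hnot u y' w' (fun h => hu (h1 u y' h)) hw') he

end Pool.Agent.LHD
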