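import Mathlib
import Pool.Agent.LHA.Defs
import Pool.Agent.LHA.TreeBall
import Pool.Agent.LHC.Defs
import Pool.Agent.LIH.Dfn

/-!
# `H`-LIHOM for connected graphs of minimum degree 3: definitions
-/

namespace Pool.Agent.LHD

open Pool.Agent.LIH Pool.Agent.LHA
open Pool.Agent.LHC (Rg DeepN De Br CZ Ctr nxt nxG glueS sAdj LN LC LO)

/-! ## Bridges and thick vertices -/

/-- a lobe: `(q, p)` is the only dart which leaves `S` -/
def Lb {V : Type} (H : SimpleGraph V) (S : Set V) (q p : V) : Prop :=
  q ∈ S ∧ p ∉ S ∧ H.Adj q p ∧ ∀ x y, x ∈ S → y ∉ S → H.Adj x y → x = q ∧ y = p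

/-- `{a, b}` is a bridge -/
def Bg {V : Type} (H : SimpleGraph V) (a b : V) : Prop := ∃ U : Set V, Lb H U a b

/-- `{a, b}` is an edge which is not a bridge -/
def NB {V : Type} (H : SimpleGraph V) (a b : V) : Prop := H.Adj a b ∧ ¬ Bg H a b

/-- thick vertices: at least three edges which are not bridges -/
def Th {V : Type} (H : SimpleGraph V) (z : V) : Prop := 3 ≤ {y | NB H z y}.ncard

/-- there is a walk from the first vertex to the second one which does not enter `z` -/
def Av {V : Type} (H : SimpleGraph V) (z : V) : V → V → Prop :=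
  Relation.ReflTransGen (fun u v => H.Adj u v ∧ v ≠ z)

/-- the neighbours of `z` in the component of `c` in `H - z` -/
def Ex {V : Type} (H : SimpleGraph V) (z c : V) : Set V := {w | H.Adj z w ∧ Av H z c w}

/-- the pair `c, c'` of neighbours transmits the value of `z` -/
def Tr {V : Type} (H : SimpleGraph V) (z c c' : V) : Prop :=
  NB H z c ∧ NB H z c' ∧ c ≠ c' ∧
    (3 ≤ (Ex H z c).ncard ∨ 3 ≤ (Ex H z c').ncard ∨ (c' ∈ Ex H z c ∧ (Ex H z c).ncard = 2))

/-! ## Parts of broken copies of `H` -/

/-- A part `S` of a broken copy of `H`: `g x` is the value of the vertex `x`, `β x y` the value of the neighbour of `x`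
over `y`. The darts in `D` are broken, the other edges inside `S` are edges of the copy. -/
structure BrS {V : Type} (H : SimpleGraph V) (S : Set V) (D : V → V → Prop) (g : V → V)
    (β : V → V → V) : Prop where
  bij : ∀ x ∈ S, Set.BijOn (β x) (H.neighborSet x) (H.neighborSet (g x))
  eq : ∀ x ∈ S, ∀ y ∈ S, H.Adj x y → ¬ D x y → β x y = g y

/-- the exits: darts which leave `S` or are broken -/
def Xd {V : Type} (H : SimpleGraph V) (S : Set V) (D : V → V → Prop) (x y : V) : Prop :=
  x ∈ S ∧ H.Adj x y ∧ (y ∉ S ∨ D x y)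

/-- number of exits with the value `(u, v)` -/
noncomputable def mx {V : Type} (H : SimpleGraph V) (S : Set V) (D : V → V → Prop) (g : V → V)
    (β : V → V → V) (u v : V) : ℕ :=
  {d : V × V | Xd H S D d.1 d.2 ∧ g d.1 = u ∧ β d.1 d.2 = v}.ncard

/-- number of vertices of `S` with the value `u` -/
noncomputable def nS {V : Type} (S : Set V) (g : V → V) (u : V) : ℕ := {x | x ∈ S ∧ g x = u}.ncard

/-- the darts which leave the level set `{c ≤ n}` -/
def TL {V : Type} (H : SimpleGraph V) (n : V → ℕ) (c : ℕ) : Set (V × V) :=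
  {d | H.Adj d.1 d.2 ∧ n d.2 < c ∧ c ≤ n d.1}

/-- the darts of the edges `{z, c}`, `{z, c'}` -/
def D2 {V : Type} (z c c' x y : V) : Prop := De z c x y ∨ De z c' x y

/-! ## Images of paths -/

/-- `w` is an image of the path `v` of length `ℓ` -/
structure Im {V : Type} (H : SimpleGraph V) (ℓ : ℕ) (v w : ℕ → V) : Prop where
  adj : ∀ i < ℓ, H.Adj (w i) (w (i + 1))
  nbt : ∀ i, i + 2 ≤ ℓ → w i ≠ w (i + 2)
  typ : ∀ i < ℓ, NB H (v i) (v (i + 1)) → ∃ φ : H ≃g H, φ (v i) = w i ∧ φ (v (i + 1)) = w (i + 1)
  brg : ∀ i < ℓ, Bg H (v i) (v (i + 1)) → Bg H (w i) (w (i + 1))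

/-- a walk which starts at `x`, given by the list of the vertices after `x`, the last one first -/
def Wk {V : Type} (H : SimpleGraph V) (x : V) : List V → Prop
  | [] => True
  | c :: A => Wk H x A ∧ H.Adj (TreeBall_hd x A) c

/-- a path from `x` to a thick vertex with no thick vertex between -/
structure PtK {V : Type} (H : SimpleGraph V) (x y : V) (A : List V) : Prop where
  wk : Wk H x A
  nd : (A ++ [x]).Nodup
  last : A.getLast? = some y
  th : Th H (TreeBall_hd x A)
  nth : ∀ d ∈ A.tail, ¬ Th H d

/-! ## Partial covers -/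

/-- A partial cover of `H`: the vertex `u` lies over `p u`, and `nb u y` is its neighbour over `y`
(used only if `H.Adj (p u) y`). -/
structure Cv (V W : Type) where
  p : W → V
  nb : W → V → Option W

/-- as a graph with ports -/
def Cv.rg {V W : Type} (P : Cv V W) : Rg V W := ⟨P.p, P.nb, fun u _ => P.p u⟩

/-- the neighbours are consistent -/
def Cv.Ok {V W : Type} (H : SimpleGraph V) (P : Cv V W) : Prop :=
  ∀ u y v, H.Adj (P.p u) y → P.nb u y = some v → P.p v = y ∧ P.nb v (P.p u) = some u

/-- the graph -/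
def Cv.G {V W : Type} (H : SimpleGraph V) (P : Cv V W) : SimpleGraph W := P.rg.G H

/-- the value of the neighbour over `y` -/
def Cv.vl {V W : Type} (P : Cv V W) (f : W → V) (u : W) (y : V) : V := P.rg.fv f u y

/-- `f` is locally bijective at `u`, and `u` has all neighbours -/
def Cv.Bj {V W : Type} (H : SimpleGraph V) (P : Cv V W) (f : W → V) (u : W) : Prop :=
  P.rg.Bij H f u

/-- the ports in `ln` are symmetric -/
structure LnOk {V W : Type} (H : SimpleGraph V) (P : Cv V W) (ln : W → V → Prop) : Prop where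
  adj : ∀ u y, ln u y → H.Adj (P.p u) y
  sym : ∀ u y w, ln u y → P.nb u y = some w → ln w (P.p u)

open Classical in
/-- At the ports `ln` we insert a line of `r + 1` copies of `H`. The last copy `r` is attached to the port; the copy
`0` is attached to the copy `0` of the line of the neighbour, if there is a neighbour. -/
noncomputable def Cv.clt {V κ Z : Type} (P : Cv V (κ × Z)) (ln : κ × Z → V → Prop) (r : ℕ) :
    Cv V (κ × CZ Z V r) where
  p
    | (k, .inl z) => P.p (k, z)
    | (_, .inr (_, _, _, x)) => x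
  nb
    | (k, .inl z), y => if ln (k, z) y then some (k, .inr (z, y, Fin.last r, y))
        else (P.nb (k, z) y).map (fun w => (w.1, .inl w.2))
    | (k, .inr (z, y, i, x)), y' =>
        if ln (k, z) y ∧ x = P.p (k, z) ∧ y' = y then
          (if i.1 = 0 then
              (P.nb (k, z) y).map (fun w => (w.1, .inr (w.2, P.p (k, z), 0, y)))
            else some (k, .inr (z, y, ⟨i.1 - 1, lt_of_le_of_lt (Nat.sub_le _ _) i.2⟩, y)))
        else if ln (k, z) y ∧ x = y ∧ y' = P.p (k, z) then
          (if h : i.1 + 1 < r + 1 then some (k, .inr (z, y, ⟨i.1 + 1, h⟩, P.p (k, z)))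
            else some (k, .inl z))
        else some (k, .inr (z, y, i, y'))

open Classical in
/-- the depth in the graph with lines -/
noncomputable def cdl {V κ Z : Type} {r : ℕ} (P : Cv V (κ × Z)) (δ : κ × Z → ℕ) :
    κ × CZ Z V r → ℕ
  | (k, .inl z) => δ (k, z)
  | (k, .inr (z, y, i, _)) =>
      if P.nb (k, z) y = none then min (i.1 + 1) (δ (k, z) + 1) else δ (k, z)

/-- What a locally injective homomorphism of the graph with lines gives: `f u` is the value of `u`, `v u y` the value of
the neighbour of `u` over `y`; `dp` the deep vertices. -/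
structure Sl {V W : Type} (H : SimpleGraph V) (P : Cv V W) (ln : W → V → Prop) (dp : W → Prop)
    (f : W → V) (v : W → V → V) : Prop where
  bij : ∀ u, dp u → Set.BijOn (v u) (H.neighborSet (P.p u)) (H.neighborSet (f u))
  con : ∀ u y w, dp u → H.Adj (P.p u) y → P.nb u y = some w → v u y = f w
  typ : ∀ u y, ln u y → NB H (P.p u) y → ∃ φ : H ≃g H, φ (P.p u) = f u ∧ φ y = v u y
  brg : ∀ u y, ln u y → P.nb u y = none → Bg H (P.p u) y → Bg H (f u) (v u y)
  adj : ∀ u y w, H.Adj (P.p u) y → P.nb u y = some w → H.Adj (f u) (f w)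
  inj : ∀ u y y' w w', H.Adj (P.p u) y → H.Adj (P.p u) y' → P.nb u y = some w →
    P.nb u y' = some w' → f w = f w' → y = y'

/-! ## The data of the construction -/

/-- the thick vertices -/
abbrev TK {V : Type} (H : SimpleGraph V) : Type := {z : V // Th H z}

/-- The ports of the units. The spine of the thick vertex `z` uses the ports `c0 z, c1 z`; a unit for the port `y` uses
`d1 z y, e1 z y, d2 z y`. `e g x z` is the port for the link of a node with the value `z` whose parent has the value `x` and
whose grandparent has the value `g`. -/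
structure PD {V : Type} (H : SimpleGraph V) where
  c0 : V → V
  c1 : V → V
  d1 : V → V → V
  e1 : V → V → V
  d2 : V → V → V
  q0 : V → V
  e : V → V → V → V
  tr0 : ∀ z, Th H z → Tr H z (c0 z) (c1 z)
  tr1 : ∀ z y, Th H z → NB H z y → Tr H z (d1 z y) (e1 z y)
  tr2 : ∀ z y, Th H z → NB H z y → Tr H z (d2 z y) y
  ne0 : ∀ z y, Th H z → NB H z y → d1 z y ≠ c0 z
  ne1 : ∀ z y, Th H z → NB H z y → d1 z y ≠ c1 z
  ne2 : ∀ z y, Th H z → NB H z y → d2 z y ≠ e1 z y
  nq : ∀ z, Th H z → NB H z (q0 z)
  en : ∀ g x z, Th H z → H.Adj x z → NB H z (e g x z) ∧ e g x z ≠ x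
  ee : ∀ g x, H.Adj x g → (∀ y, H.Adj x y → y ≠ g → Th H y) →
    ∃ y y', H.Adj x y ∧ H.Adj x y' ∧ y ≠ g ∧ y' ≠ g ∧ e g x y ≠ e g x y'

/-- The trees: four trees for the roots of the kit, and the trees `(x, y)` with the root `x` and the link port `y`. -/
abbrev JX (V : Type) : Type := Fin 4 ⊕ (V × V)

/-- the data: values and free slots of the four roots; `R` is the level of the four trees from which on there are
links, `r + 1` the length of the lines -/
structure DX {V : Type} (H : SimpleGraph V) extends PD H where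
  a4 : Fin 4 → V
  F4 : Fin 4 → Set V
  R : ℕ
  r : ℕ
  two : 2 ≤ R

namespace DX

variable {V : Type} {H : SimpleGraph V} (D : DX H)

/-- the values of the roots -/
def a : JX V → V
  | .inl i => D.a4 i
  | .inr x => x.1

/-- the free slots of the roots -/
def F : JX V → Set V
  | .inl i => D.F4 i
  | .inr _ => ∅

/-- the level of the links -/
def lv : JX V → ℕ
  | .inl _ => D.R
  | .inr _ => 0

/-- the radius of the trees -/
noncomputable def ra (j : JX V) : ℕ := D.lv j + (Nat.card V + 4)

open Classical in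
/-- the link port of the root -/
noncomputable def eps : JX V → V
  | .inl i => D.a4 i
  | .inr x => if NB H x.1 x.2 then x.2 else D.q0 x.1

/-- the value of a node -/
def hd (j : JX V) (l : List V) : V := TreeBall_hd (D.a j) l

/-- marked nodes: they have a link -/
def mkd (j : JX V) (l : List V) : Prop := D.lv j ≤ l.length ∧ Th H (D.hd j l)

/-- the link port -/
noncomputable def lp (j : JX V) : List V → V
  | [] => D.eps j
  | z :: t => D.e (D.hd j t.tail) (D.hd j t) z

/-- the nodes: non-backtracking walks of length at most `ra j` which do not pass through link ports and do not start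
with a step into `F j` -/
def NdX (j : JX V) : List V → Prop
  | [] => True
  | y :: l => NdX j l ∧ H.Adj (D.hd j l) y ∧ (l ≠ [] → y ≠ D.hd j l.tail) ∧
      ¬ (D.mkd j l ∧ y = D.lp j l) ∧ (l = [] → y ∉ D.F j) ∧ l.length < D.ra j

/-- the nodes of the tree `j` -/
abbrev N (j : JX V) : Type := {l : List V // D.NdX j l}

/-- the units: one for every node -/
abbrev U : Type := Σ j : JX V, D.N j

open Classical in
/-- neighbours in the trees: the parent or the children -/
noncomputable def nbX (j : JX V) (l : D.N j) (y : V) : Option (D.N j) :=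
  if h : l.1 ≠ [] ∧ y = D.hd j l.1.tail ∧ D.NdX j l.1.tail then some ⟨l.1.tail, h.2.2⟩
  else if h : D.NdX j (y :: l.1) then some ⟨y :: l.1, h⟩
  else none

open Classical in
/-- the port at `z` served by the unit `u` -/
noncomputable def ep (z : V) (u : D.U) : V :=
  if D.mkd u.1 u.2.1 ∧ D.hd u.1 u.2.1 = z then D.lp u.1 u.2.1 else D.q0 z

/-- first port of the sheet `σ` of the unit -/
noncomputable def pA (z : V) (u : D.U) : Fin 3 → V :=
  ![D.c0 z, D.d1 z (D.ep z u), D.d2 z (D.ep z u)]

/-- second port of the sheet `σ` of the unit -/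
noncomputable def pB (z : V) (u : D.U) : Fin 3 → V := ![D.c1 z, D.e1 z (D.ep z u), D.ep z u]

end DX

/-- The vertices of a cell: the nodes of the trees, the stars and the sheets of the units. -/
inductive ZX {V : Type} {H : SimpleGraph V} (D : DX H) : Type
  | nd (j : JX V) (l : D.N j) : ZX D
  | st (z : TK H) (u : D.U) (b : Bool) : ZX D
  | ds (z : TK H) (u : D.U) (σ : Fin 3) (x : V) : ZX D

section core

variable {V : Type} {H : SimpleGraph V} (D : DX H) {κ : Type}

/-- the value of a vertex -/
def pX : ZX D → V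
  | .nd j l => D.hd j l.1
  | .st z _ _ => z.1
  | .ds _ _ _ x => x

/-- the vertex attached to the first port of the sheet `σ` of the unit `u` -/
def tA (nx : Equiv.Perm (κ × D.U)) (k : κ) (z : TK H) (u : D.U) : Fin 3 → κ × ZX D :=
  ![((nx.symm (k, u)).1, .st z (nx.symm (k, u)).2 false), (k, .st z u false), (k, .st z u true)]

open Classical in
/-- the vertex attached to the second port -/
noncomputable def tB (k : κ) (z : TK H) (u : D.U) : Fin 3 → Option (κ × ZX D) :=
  ![some (k, .st z u false), some (k, .st z u true),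
    if D.mkd u.1 u.2.1 ∧ D.hd u.1 u.2.1 = z.1 then some (k, .nd u.1 u.2) else none]

open Classical in
/-- The partial cover. The units of all cells are arranged in a cycle by `nx`. -/
noncomputable def coreD (nx : Equiv.Perm (κ × D.U)) : Cv V (κ × ZX D) where
  p w := pX D w.2
  nb
    | (k, .nd j l), y =>
        if h : D.mkd j l.1 ∧ y = D.lp j l.1 then some (k, .ds ⟨D.hd j l.1, h.1.2⟩ ⟨j, l⟩ 2 y)
        else (D.nbX j l y).map (fun w => (k, .nd j w))
    | (k, .st z u false), y =>
        if y = D.c1 z.1 then some (k, .ds z u 0 y)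
        else if y = D.c0 z.1 then some ((nx (k, u)).1, .ds z (nx (k, u)).2 0 y)
        else if y = D.d1 z.1 (D.ep z.1 u) then some (k, .ds z u 1 y)
        else none
    | (k, .st z u true), y =>
        if y = D.e1 z.1 (D.ep z.1 u) then some (k, .ds z u 1 y)
        else if y = D.d2 z.1 (D.ep z.1 u) then some (k, .ds z u 2 y)
        else none
    | (k, .ds z u σ x), y =>
        if x = z.1 ∧ (y = D.pA z.1 u σ ∨ y = D.pB z.1 u σ) then none
        else if x = D.pA z.1 u σ ∧ y = z.1 then some (tA D nx k z u σ)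
        else if x = D.pB z.1 u σ ∧ y = z.1 then tB D k z u σ
        else some (k, .ds z u σ y)

/-- The ports with lines: at a node the link port, the unused ports which are not free slots, and the edges of the
tree from the level `lv` on which are not bridges; all ports of the stars; the broken edges of the sheets. -/
def lnX : ZX D → V → Prop
  | .nd j l, y => H.Adj (D.hd j l.1) y ∧ ((D.mkd j l.1 ∧ y = D.lp j l.1) ∨
      (D.nbX j l y = none ∧ ¬ (l.1 = [] ∧ y ∈ D.F j)) ∨
      (NB H (D.hd j l.1) y ∧ ((l.1 ≠ [] ∧ y = D.hd j l.1.tail ∧ D.lv j ≤ l.1.tail.length) ∨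
        (¬ (l.1 ≠ [] ∧ y = D.hd j l.1.tail) ∧ D.lv j ≤ l.1.length))))
  | .st z _ _, y => H.Adj z.1 y
  | .ds z u σ x, y => H.Adj x y ∧ D2 z.1 (D.pA z.1 u σ) (D.pB z.1 u σ) x y

/-- the same for all cells -/
def lnD (w : κ × ZX D) (y : V) : Prop := lnX D w.2 y

/-- the depth -/
def dpX : ZX D → ℕ
  | .nd (.inl _) l => min l.1.length (D.R + 1)
  | _ => D.R + 1

/-- the same for all cells -/
def dpD (w : κ × ZX D) : ℕ := dpX D w.2

/-- the graph with lines as a partial cover -/
noncomputable def cvD (nx : Equiv.Perm (κ × D.U)) : Cv V (κ × CZ (ZX D) V D.r) :=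
  (coreD D nx).clt (lnD D) D.r

/-- the graph of the pins -/
noncomputable def gD (nx : Equiv.Perm (κ × D.U)) : SimpleGraph (κ × CZ (ZX D) V D.r) :=
  (cvD D nx).G H

/-- the roots -/
def roD (i : Fin 4) : CZ (ZX D) V D.r := .inl (.nd (.inl i) ⟨[], trivial⟩)

/-- The solutions on the trees. -/
structure TS (κ : Type) (f : κ → JX V → List V → V) (v : κ → JX V → List V → V → V)
    (Ψ : V → V) : Prop where
  bij : ∀ k j l, D.NdX j l → D.lv j ≤ l.length →
    Set.BijOn (v k j l) (H.neighborSet (D.hd j l)) (H.neighborSet (f k j l))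
  par : ∀ k j y l, D.NdX j (y :: l) → D.lv j ≤ l.length + 1 →
    v k j (y :: l) (D.hd j l) = f k j l
  chd : ∀ k j y l, D.NdX j (y :: l) → D.lv j ≤ l.length → v k j l y = f k j (y :: l)
  typ : ∀ k j y l, D.NdX j (y :: l) → D.lv j ≤ l.length → NB H (D.hd j l) y →
    ∃ φ : H ≃g H, φ (D.hd j l) = f k j l ∧ φ y = f k j (y :: l)
  brg : ∀ k j y l, D.NdX j (y :: l) → D.lv j ≤ l.length + 1 → Bg H (D.hd j l) y →
    Bg H (f k j l) (f k j (y :: l))
  mrk : ∀ k j l, D.NdX j l → D.mkd j l → f k j l = Ψ (D.hd j l)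
  adj : ∀ k j y l, D.NdX j (y :: l) → H.Adj (f k j l) (f k j (y :: l))
  inj : ∀ k j y y' l, D.NdX j (y :: l) → D.NdX j (y' :: l) →
    f k j (y :: l) = f k j (y' :: l) → y = y'
  inj' : ∀ k j y y' l, D.NdX j (y' :: y :: l) → f k j (y' :: y :: l) ≠ f k j l

end core

/-! ## Two branches of a tree -/

/-- the nodes on the path from the end of the branch `A` at the node `l` to the end of the branch `B` -/
def qq {V : Type} (A B l : List V) (i : ℕ) : List V :=
  if i ≤ A.length then A.drop i ++ l else B.drop (A.length + B.length - i) ++ l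

/-- their values, `x` is the value of `l` -/
def vw {V : Type} (x : V) (A B : List V) (i : ℕ) : V :=
  if i ≤ A.length then TreeBall_hd x (A.drop i) else TreeBall_hd x (B.drop (A.length + B.length - i))

/-- the two branches are parts of a path through `x` whose ends are thick and whose inner vertices are not thick -/
structure GP {V : Type} (H : SimpleGraph V) (x : V) (A B : List V) : Prop where
  wA : Wk H x A
  wB : Wk H x B
  ndA : (A ++ [x]).Nodup
  ndB : (B ++ [x]).Nodup
  dis : List.Disjoint A B
  thA : Th H (TreeBall_hd x A)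
  thB : Th H (TreeBall_hd x B)
  nA : ∀ d ∈ A.tail, ¬ Th H d
  nB : ∀ d ∈ B.tail, ¬ Th H d
  nx : A ≠ [] → ¬ Th H x
  neB : B ≠ []

/-- the branches exist at the node `l` of the tree `j`, whose value is `x` -/
structure Frm {V : Type} {H : SimpleGraph V} (D : DX H) (x : V) (A B : List V) (j : JX V)
    (l : List V) : Prop where
  hd : D.hd j l = x
  lv : D.lv j ≤ l.length
  nA : D.NdX j (A ++ l)
  nB : D.NdX j (B ++ l)

/-! ## Gluing -/

/-- the pins are possible -/
def FlexX {V κ Z ι : Type} (H : SimpleGraph V) (Gp : SimpleGraph (κ × Z)) (ro : ι → Z)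
    (a : ι → V) (F : ι → Set V) : Prop :=
  ∃ p : κ × Z → V, LocInj Gp H p ∧ ∀ k i, p (k, ro i) = a i ∧
    p '' Gp.neighborSet (k, ro i) = H.neighborSet (a i) \ F i

/-- up to an automorphism, all solutions have the values of the pins at the roots -/
def ForceX {V κ Z ι : Type} (H : SimpleGraph V) (Gp : SimpleGraph (κ × Z)) (ro : ι → Z)
    (a : ι → V) (F : ι → Set V) : Prop :=
  ∀ f : κ × Z → V, LocInj Gp H f → ∃ Φ : H ≃g H, ∀ k i, Φ (f (k, ro i)) = a i ∧
    (fun q => Φ (f q)) '' Gp.neighborSet (k, ro i) = H.neighborSet (a i) \ F i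

/-- the adjacency relation of the glued graph in terms of the numbers of the cells -/
def adjX {Z Y : Type} (P Q : Z → Z → Prop) (ro : Fin 4 → Z) (B : SimpleGraph Y)
    (ath : ℕ → Y → ℕ → Fin 4 → Prop) (K k l : ℕ) : Z ⊕ Y → Z ⊕ Y → Prop
  | .inl a, .inl b => (k = l ∧ P a b) ∨ (nxt K k l ∧ Q a b) ∨ (nxt K l k ∧ Q b a)
  | .inr y, .inr y' => k = l ∧ B.Adj y y'
  | .inr y, .inl a => ∃ i, a = ro i ∧ ath k y l i
  | .inl a, .inr y => ∃ i, a = ro i ∧ ath l y k i

end Pool.Agent.LHD
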