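import Pool.Agent.LHD.Defs

/-!
# The link ports

`nb_avoid`: `{y | NB H z y}` has at least three elements, so it is not contained in `{a, b}`.
`eps_exists`: let `g, x` be such that `H.Adj x g` and all neighbours `y ≠ g` of `x` are thick: choose `y1 ≠ y2` in `N(x)` different from `g` (the degree is at least 3), `a` with `NB H y1 a`, `a ≠ x`, and `b` with `NB H y2 b`, `b ≠ x`, `b ≠ a` (`nb_avoid`). `e g x y1 = a`, `e g x y2 = b`, and for other thick `z` let `e g x z` be any vertex with
`NB H z (e g x z)`, `e g x z ≠ x` (`nb_avoid`). So: for all `g, x` there is a function `V → V` (the third argument) with the two properties; `choose`.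
-/

namespace Pool.Agent.LHD

open Pool.Agent.LIH Pool.Agent.LHA
open Pool.Agent.LHC (Rg DeepN De Br CZ Ctr nxt nxG glueS sAdj LN LC LO)

variable {V : Type} [Finite V] {H : SimpleGraph V}

theorem nb_avoid {z : V} (hz : Th H z) (a b : V) : ∃ y, NB H z y ∧ y ≠ a ∧ y ≠ b := by
  classical
  by_contra hcon
  push Not at hcon
  have hsub : {y | NB H z y} ⊆ ({a, b} : Set V) := by
    intro y hy
    by_cases h : y = a
    · exact Or.inl h
    · exact Or.inr (hcon y hy h)
  have h1 : {y | NB H z y}.ncard ≤ ({a, b} : Set V).ncard :=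
    Set.ncard_le_ncard hsub (Set.toFinite _)
  have h2 : ({a, b} : Set V).ncard ≤ 2 := by
    have := Set.ncard_insert_le a ({b} : Set V)
    rw [Set.ncard_singleton] at this
    exact this
  have h3 : 3 ≤ {y | NB H z y}.ncard := hz
  omega

theorem eps_exists (h3 : ∀ v, 3 ≤ (H.neighborSet v).ncard) : ∃ e : V → V → V → V,
    (∀ g x z, Th H z → H.Adj x z → NB H z (e g x z) ∧ e g x z ≠ x) ∧
    ∀ g x, H.Adj x g → (∀ y, H.Adj x y → y ≠ g → Th H y) →
      ∃ y y', H.Adj x y ∧ H.Adj x y' ∧ y ≠ g ∧ y' ≠ g ∧ e g x y ≠ e g x y' := by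
  classical
  have key : ∀ g x : V, ∃ f : V → V,
      (∀ z, Th H z → H.Adj x z → NB H z (f z) ∧ f z ≠ x) ∧
      (H.Adj x g → (∀ y, H.Adj x y → y ≠ g → Th H y) →
        ∃ y y', H.Adj x y ∧ H.Adj x y' ∧ y ≠ g ∧ y' ≠ g ∧ f y ≠ f y') := by
    intro g x
    have hdef : ∀ z : V, ∃ w : V, Th H z → NB H z w ∧ w ≠ x := by
      intro z
      by_cases hz : Th H z
      · obtain ⟨w, hw, hw1, -⟩ := nb_avoid hz x x
        exact ⟨w, fun _ => ⟨hw, hw1⟩⟩
      · exact ⟨x, fun h => absurd h hz⟩
    choose d hd using hdef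
    by_cases hc : H.Adj x g ∧ (∀ y, H.Adj x y → y ≠ g → Th H y)
    · obtain ⟨hg, hth⟩ := hc
      have hy1 : ∃ y, H.Adj x y ∧ y ≠ g := by
        by_contra hcon
        push Not at hcon
        have hsub : H.neighborSet x ⊆ ({g} : Set V) := fun y hy => hcon y hy
        have h1 := Set.ncard_le_ncard hsub (Set.toFinite _)
        rw [Set.ncard_singleton] at h1
        have := h3 x
        omega
      obtain ⟨y1, hy1, hy1g⟩ := hy1
      have hy2 : ∃ y, H.Adj x y ∧ y ≠ g ∧ y ≠ y1 := by
        by_contra hcon
        push Not at hcon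
        have hsub : H.neighborSet x ⊆ ({g, y1} : Set V) := by
          intro y hy
          by_cases h : y = g
          · exact Or.inl h
          · exact Or.inr (hcon y hy h)
        have h1 := Set.ncard_le_ncard hsub (Set.toFinite _)
        have h2 : ({g, y1} : Set V).ncard ≤ 2 := by
          have := Set.ncard_insert_le g ({y1} : Set V)
          rw [Set.ncard_singleton] at this
          exact this
        have := h3 x
        omega
      obtain ⟨y2, hy2, hy2g, hy21⟩ := hy2
      obtain ⟨a, ha, hax, -⟩ := nb_avoid (hth y1 hy1 hy1g) x x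
      obtain ⟨b, hb, hbx, hba⟩ := nb_avoid (hth y2 hy2 hy2g) x a
      refine ⟨fun z => if z = y1 then a else if z = y2 then b else d z, ?_, ?_⟩
      · intro z hz hxz
        by_cases h1 : z = y1
        · subst h1
          simp only [if_true]
          exact ⟨ha, hax⟩
        · by_cases h2 : z = y2
          · subst h2
            simp only [if_neg h1, if_true]
            exact ⟨hb, hbx⟩
          · simp only [if_neg h1, if_neg h2]
            exact hd z hz
      · intro _ _
        refine ⟨y1, y2, hy1, hy2, hy1g, hy2g, ?_⟩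
        simp only [if_true, if_neg hy21]
        exact fun h => hba h.symm
    · refine ⟨d, fun z hz _ => hd z hz, fun h1 h2 => absurd ⟨h1, h2⟩ hc⟩
  choose e he1 he2 using key
  exact ⟨e, fun g x z hz hxz => he1 g x z hz hxz, fun g x hg hth => he2 g x hg hth⟩

end Pool.Agent.LHD
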