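import Pool.Agent.LHD.Defs

/-!
# Finiteness

`NdX` implies `l.length ≤ ra j` (by cases), so `D.N j` is contained in the lists of length at most `ra j` over a finite type (`List.finite_length_le`). `JX V = Fin 4 ⊕ V × V`, `D.U = Σ j, D.N j`: finite. `ZX D`: an injective map into `(Σ j, D.N j) ⊕ (TK H × D.U × Bool) ⊕ (TK H × D.U × Fin 3 × V)`.
-/

namespace Pool.Agent.LHD

open Pool.Agent.LIH Pool.Agent.LHA
open Pool.Agent.LHC (Rg DeepN De Br CZ Ctr nxt nxG glueS sAdj LN LC LO)

variable {V : Type} [Finite V] {H : SimpleGraph V}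

instance finNX (D : DX H) (j : JX V) : Finite (D.N j) := by
  have h1 : {l : List V | l.length ≤ D.ra j}.Finite := List.finite_length_le V _
  have h2 : {l : List V | D.NdX j l}.Finite := by
    refine h1.subset ?_
    intro l hl
    cases l with
    | nil => exact Nat.zero_le _
    | cons y t =>
      have h3 : t.length < D.ra j := hl.2.2.2.2.2
      show (y :: t).length ≤ D.ra j
      rw [List.length_cons]
      omega
  exact h2.to_subtype

instance finUX (D : DX H) : Finite D.U := by
  unfold DX.U
  infer_instance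

def FinX_fb (D : DX H) : ZX D → (Σ j : JX V, D.N j) ⊕ (TK H × D.U × Bool) ⊕ (TK H × D.U × Fin 3 × V)
  | .nd j l => .inl ⟨j, l⟩
  | .st z u b => .inr (.inl (z, u, b))
  | .ds z u σ x => .inr (.inr (z, u, σ, x))

instance finZX (D : DX H) : Finite (ZX D) := by
  apply Finite.of_injective (FinX_fb D)
  intro a b h
  cases a with
  | nd j l =>
    cases b with
    | nd j' l' =>
      simp only [FinX_fb, Sum.inl.injEq, Sigma.mk.injEq] at h
      obtain ⟨rfl, h2⟩ := h
      rw [heq_iff_eq] at h2
      rw [h2]
    | _ => simp [FinX_fb] at h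
  | st z u b => cases b <;> cases ‹ZX D› <;> simp [FinX_fb] at h ⊢ <;> exact h
  | ds z u σ x => cases b <;> simp [FinX_fb] at h ⊢; exact h

end Pool.Agent.LHD
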