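import Pool.Agent.LHD.Defs
import Pool.Agent.LHD.Bg1
import Pool.Agent.LHD.NdB

/-!
# The neighbours in the partial cover

Unfold `coreD`. `nb_link`: first `if`. `nb_par`: the port `hd l.tail` is not the link port (`lp_ne`), `nbX_par`. `nb_chd`: `y` is not the link port (`ndx_lp`), `nbX_chd`. `nd_cases`: link port; parent; child; otherwise `nbX = none` (`nbX_none`), and (as `H.Adj (hd l) y`) `ndx_mk` shows that the last alternative holds.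
`nb_stf..`: `c0 ≠ c1` (`D.tr0`), `d1 ≠ c0, c1` (`D.ne0`, `D.ne1`, `ep_nb`), `d2 ≠ e1` (`D.ne2`). `nb_ds..`: `pA ≠ pB` (`tr_AB`), both different from `z.1` (adjacent). `nb_ds_in`: none of the conditions, since `¬ D2 z.1 (pA) (pB) x y`. `nb_ds_out`: the first `if`.
-/

namespace Pool.Agent.LHD

open Pool.Agent.LIH Pool.Agent.LHA
open Pool.Agent.LHC (Rg DeepN De Br CZ Ctr nxt nxG glueS sAdj LN LC LO)

variable {V : Type} {H : SimpleGraph V} (D : DX H) {κ : Type} (nx : Equiv.Perm (κ × D.U))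
  (k : κ)

theorem nb_link {j : JX V} {l : D.N j} (h : D.mkd j l.1) :
    (coreD D nx).nb (k, .nd j l) (D.lp j l.1) =
      some (k, .ds ⟨D.hd j l.1, h.2⟩ ⟨j, l⟩ 2 (D.lp j l.1)) := by
  unfold coreD
  dsimp only
  rw [dif_pos ⟨h, rfl⟩]

theorem nb_par {j : JX V} {l : D.N j} (hl : l.1 ≠ []) :
    (coreD D nx).nb (k, .nd j l) (D.hd j l.1.tail) =
      some (k, .nd j ⟨l.1.tail, ndx_tail D l.2⟩) := by
  unfold coreD
  dsimp only
  rw [dif_neg (fun h => lp_ne D l.2 h.1 hl h.2.symm), nbX_par D hl]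
  rfl

theorem nb_chd {j : JX V} {l : D.N j} {y : V} (h : D.NdX j (y :: l.1)) :
    (coreD D nx).nb (k, .nd j l) y = some (k, .nd j ⟨y :: l.1, h⟩) := by
  unfold coreD
  dsimp only
  rw [dif_neg (ndx_lp D h), nbX_chd D h]
  rfl

theorem nd_cases {j : JX V} {l : D.N j} {y : V} (hy : H.Adj (D.hd j l.1) y) :
    (D.mkd j l.1 ∧ y = D.lp j l.1) ∨
    (l.1 ≠ [] ∧ y = D.hd j l.1.tail ∧ ¬ (D.mkd j l.1 ∧ y = D.lp j l.1)) ∨
    (D.NdX j (y :: l.1) ∧ ¬ (l.1 ≠ [] ∧ y = D.hd j l.1.tail)) ∨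
    ((coreD D nx).nb (k, .nd j l) y = none ∧ D.nbX j l y = none ∧
      ¬ (l.1 ≠ [] ∧ y = D.hd j l.1.tail) ∧ (l.1.length = D.ra j ∨ (l.1 = [] ∧ y ∈ D.F j))) := by
  by_cases h1 : D.mkd j l.1 ∧ y = D.lp j l.1
  · exact Or.inl h1
  by_cases h2 : l.1 ≠ [] ∧ y = D.hd j l.1.tail
  · exact Or.inr (Or.inl ⟨h2.1, h2.2, h1⟩)
  by_cases h3 : D.NdX j (y :: l.1)
  · exact Or.inr (Or.inr (Or.inl ⟨h3, h2⟩))
  have h4 : D.nbX j l y = none := (nbX_none D).2 ⟨h2, h3⟩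
  refine Or.inr (Or.inr (Or.inr ⟨?_, h4, h2, ?_⟩))
  · unfold coreD
    dsimp only
    rw [dif_neg h1, h4]
    rfl
  · by_contra h5
    push Not at h5
    exact h3 (ndx_mk D l.2 hy (fun h e => h2 ⟨h, e⟩) h1 h5.2
      (lt_of_le_of_ne (ndx_len D l.2) h5.1))

theorem nb_stf1 (z : TK H) (u : D.U) :
    (coreD D nx).nb (k, .st z u false) (D.c1 z.1) = some (k, .ds z u 0 (D.c1 z.1)) := by
  unfold coreD
  dsimp only
  rw [if_pos rfl]

theorem nb_stf0 (z : TK H) (u : D.U) : (coreD D nx).nb (k, .st z u false) (D.c0 z.1) =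
    some ((nx (k, u)).1, .ds z (nx (k, u)).2 0 (D.c0 z.1)) := by
  unfold coreD
  dsimp only
  rw [if_neg (D.tr0 z.1 z.2).2.2.1, if_pos rfl]

theorem nb_stf2 (z : TK H) (u : D.U) :
    (coreD D nx).nb (k, .st z u false) (D.d1 z.1 (D.ep z.1 u)) =
      some (k, .ds z u 1 (D.d1 z.1 (D.ep z.1 u))) := by
  unfold coreD
  dsimp only
  rw [if_neg (D.ne1 z.1 _ z.2 (ep_nb D z.2 u)), if_neg (D.ne0 z.1 _ z.2 (ep_nb D z.2 u)),
    if_pos rfl]

theorem nb_stt1 (z : TK H) (u : D.U) :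
    (coreD D nx).nb (k, .st z u true) (D.e1 z.1 (D.ep z.1 u)) =
      some (k, .ds z u 1 (D.e1 z.1 (D.ep z.1 u))) := by
  unfold coreD
  dsimp only
  rw [if_pos rfl]

theorem nb_stt2 (z : TK H) (u : D.U) :
    (coreD D nx).nb (k, .st z u true) (D.d2 z.1 (D.ep z.1 u)) =
      some (k, .ds z u 2 (D.d2 z.1 (D.ep z.1 u))) := by
  unfold coreD
  dsimp only
  rw [if_neg (D.ne2 z.1 _ z.2 (ep_nb D z.2 u)), if_pos rfl]

theorem nb_dsA (z : TK H) (u : D.U) (σ : Fin 3) :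
    (coreD D nx).nb (k, .ds z u σ (D.pA z.1 u σ)) z.1 = some (tA D nx k z u σ) := by
  unfold coreD
  dsimp only
  rw [if_neg (fun h => (tr_AB D z.2 u σ).1.1.ne h.1.symm), if_pos ⟨rfl, rfl⟩]

theorem nb_dsB (z : TK H) (u : D.U) (σ : Fin 3) :
    (coreD D nx).nb (k, .ds z u σ (D.pB z.1 u σ)) z.1 = tB D k z u σ := by
  unfold coreD
  dsimp only
  rw [if_neg (fun h => (tr_AB D z.2 u σ).2.1.1.ne h.1.symm),
    if_neg (fun h => (tr_AB D z.2 u σ).2.2.1 h.1.symm), if_pos ⟨rfl, rfl⟩]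

theorem nb_ds_out (z : TK H) (u : D.U) (σ : Fin 3) {y : V}
    (h : y = D.pA z.1 u σ ∨ y = D.pB z.1 u σ) :
    (coreD D nx).nb (k, .ds z u σ z.1) y = none := by
  unfold coreD
  dsimp only
  rw [if_pos ⟨rfl, h⟩]

theorem nb_ds_in (z : TK H) (u : D.U) (σ : Fin 3) {x y : V}
    (h : ¬ D2 z.1 (D.pA z.1 u σ) (D.pB z.1 u σ) x y) :
    (coreD D nx).nb (k, .ds z u σ x) y = some (k, .ds z u σ y) := by
  unfold D2 De at h
  push Not at h
  unfold coreD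
  dsimp only
  rw [if_neg, if_neg, if_neg]
  · rintro ⟨h1, h2⟩
    exact h.2.2 h1 h2
  · rintro ⟨h1, h2⟩
    exact h.1.2 h1 h2
  · rintro ⟨h1, h2 | h2⟩
    · exact h.1.1 h1 h2
    · exact h.2.1 h1 h2

end Pool.Agent.LHD
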