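import Pool.Agent.LHD.Defs
import Pool.Agent.LHD.Bg1
import Pool.Agent.LHD.NdB
import Pool.Agent.LHD.NdC

/-!
# The ports with lines

`lnD_ok`: `adj`: by definition. `sym`: `ln u y`, `nb u y = some w`. `u = (k, nd j l)`: link port: `w = (k, ds z ⟨j, l⟩ 2 y)` with `z = hd l`, `y = lp = pB z ⟨j, l⟩ 2`; at the port `p u = z`: `H.Adj y z` and `D2 z pA pB y z`. `nbX = none`: then (not link port) `nb u y = none`: impossible. `NB (hd l) y` and `y` the parent port, `lv j ≤ |l.tail|`: `w = (k, nd j l.tail)`, at the port `hd l`: `H.Adj`, `NB` (`nb_symm`), it is not the parent port of `l.tail` (`ndx_ne` for `l = c :: t`), and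
`lv j ≤ |l.tail|`. `NB (hd l) y`, not the parent port, `lv j ≤ |l|`: if it is not the link port then `w = (k, nd j (y :: l))`, at the port `hd l`: it is the parent port, `(y :: l).tail = l`. `u = st`: `w` is a vertex `ds z u' σ y`, `y = pA` or `pB`, at the port `z`: `D2`. `u = (k, ds z u' σ x)`, `D2 z pA pB x y`: `x = z`: `none`. `x = pA`, `y = z`: `w = tA`, a vertex `st z ..`: `H.Adj z x`. `x = pB`, `y = z`: `w = tB`: `st`, or
(`σ = 2`, `mkd`, `hd = z`) the node `(k, nd u'.1 u'.2)` with the link port `x = pB z u' 2 = lp`.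
`lnD_dep`: nodes of the trees `inr`: `R ≤ R + 1`. Nodes of the trees `inl i` (`lv = R`): link port: `mkd` gives `R ≤ |l|`. `nbX = none`, not (`l = []`, `y ∈ F`): by `nd_cases` (or `nbX_none`, `ndx_mk`) the link port or `|l| = ra ≥ R`. `lv ≤ |l.tail|` or `lv ≤ |l|`. So `R ≤ min |l| (R + 1)`. The other vertices: `R + 1`.
`lnD_nb`: `ln u y`, `nb u y = some w`: link port: `lp_nb`. `nbX = none`: impossible. Third case: `NB`. `st`: `y` is `c1, c0, d1` or `e1, d2` (ports with a neighbour): `NB` by `D.tr0`, `D.tr1`, `D.tr2` (`Tr` contains `NB`). `ds`, `D2`: `x = pA` or `pB`, `y = z`: `NB` by `tr_AB`, `nb_symm`.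
-/

namespace Pool.Agent.LHD

open Pool.Agent.LIH Pool.Agent.LHA
open Pool.Agent.LHC (Rg DeepN De Br CZ Ctr nxt nxG glueS sAdj LN LC LO)

variable {V : Type} {H : SimpleGraph V} (D : DX H) {κ : Type} (nx : Equiv.Perm (κ × D.U))

theorem WLn_nb_p {z c c' : V} (h : Tr H z c c') : NB H z c ∧ NB H z c' := ⟨h.1, h.2.1⟩

open Classical in
theorem WLn_stf (k : κ) (z : TK H) (u : D.U) (y : V) :
    (coreD D nx).nb (k, .st z u false) y =
      (if y = D.c1 z.1 then some (k, .ds z u 0 y)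
        else if y = D.c0 z.1 then some ((nx (k, u)).1, .ds z (nx (k, u)).2 0 y)
        else if y = D.d1 z.1 (D.ep z.1 u) then some (k, .ds z u 1 y)
        else none) := rfl

open Classical in
theorem WLn_stt (k : κ) (z : TK H) (u : D.U) (y : V) :
    (coreD D nx).nb (k, .st z u true) y =
      (if y = D.e1 z.1 (D.ep z.1 u) then some (k, .ds z u 1 y)
        else if y = D.d2 z.1 (D.ep z.1 u) then some (k, .ds z u 2 y)
        else none) := rfl

theorem WLn_stf_cases (k : κ) (z : TK H) (u : D.U) (y : V) (w : κ × ZX D)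
    (hw : (coreD D nx).nb (k, .st z u false) y = some w) :
    (y = D.c1 z.1 ∧ w = (k, .ds z u 0 y)) ∨
    (y = D.c0 z.1 ∧ w = ((nx (k, u)).1, .ds z (nx (k, u)).2 0 y)) ∨
    (y = D.d1 z.1 (D.ep z.1 u) ∧ w = (k, .ds z u 1 y)) := by
  rw [WLn_stf] at hw
  split_ifs at hw with h1 h2 h3
  · left
    exact ⟨h1, (Option.some.inj hw).symm⟩
  · right; left
    exact ⟨h2, (Option.some.inj hw).symm⟩
  · right; right
    exact ⟨h3, (Option.some.inj hw).symm⟩

theorem WLn_stt_cases (k : κ) (z : TK H) (u : D.U) (y : V) (w : κ × ZX D)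
    (hw : (coreD D nx).nb (k, .st z u true) y = some w) :
    (y = D.e1 z.1 (D.ep z.1 u) ∧ w = (k, .ds z u 1 y)) ∨
    (y = D.d2 z.1 (D.ep z.1 u) ∧ w = (k, .ds z u 2 y)) := by
  rw [WLn_stt] at hw
  split_ifs at hw with h1 h2
  · left
    exact ⟨h1, (Option.some.inj hw).symm⟩
  · right
    exact ⟨h2, (Option.some.inj hw).symm⟩

theorem WLn_ep {j : JX V} {l : D.N j} (h : D.mkd j l.1) :
    D.ep (D.hd j l.1) ⟨j, l⟩ = D.lp j l.1 := by
  unfold DX.ep
  rw [if_pos ⟨h, rfl⟩]

theorem WLn_adj (u : κ × ZX D) (y : V) (h : lnD D u y) : H.Adj ((coreD D nx).p u) y := by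
  obtain ⟨k, u⟩ := u
  cases u with
  | nd j l => exact h.1
  | st z u b => exact h
  | ds z u σ x => exact h.1

theorem WLn_nd (k : κ) {j : JX V} {l : D.N j} {y : V} (h : lnX D (.nd j l) y) :
    (D.mkd j l.1 ∧ y = D.lp j l.1) ∨
    (l.1 ≠ [] ∧ y = D.hd j l.1.tail ∧ ¬ (D.mkd j l.1 ∧ y = D.lp j l.1) ∧
      NB H (D.hd j l.1) y ∧ D.lv j ≤ l.1.tail.length) ∨
    (D.NdX j (y :: l.1) ∧ ¬ (l.1 ≠ [] ∧ y = D.hd j l.1.tail) ∧
      NB H (D.hd j l.1) y ∧ D.lv j ≤ l.1.length) ∨
    ((coreD D nx).nb (k, .nd j l) y = none ∧ (l.1.length = D.ra j ∨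
      (NB H (D.hd j l.1) y ∧ D.lv j ≤ l.1.length))) := by
  obtain ⟨hadj, hh⟩ := h
  rcases nd_cases D nx k hadj with h1 | ⟨h1, h2, h3⟩ | ⟨h1, h2⟩ | ⟨h1, h2, h3, h4⟩
  · left
    exact h1
  · right; left
    rcases hh with hh | ⟨hh, _⟩ | ⟨hh1, hh2 | hh2⟩
    · exact absurd hh h3
    · rw [h2, nbX_par D h1] at hh
      exact absurd hh (by simp)
    · exact ⟨h1, h2, h3, hh1, hh2.2.2⟩
    · exact absurd ⟨h1, h2⟩ hh2.1
  · right; right; left
    rcases hh with hh | ⟨hh, _⟩ | ⟨hh1, hh2 | hh2⟩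
    · exact absurd hh (ndx_lp D h1)
    · rw [nbX_chd D h1] at hh
      exact absurd hh (by simp)
    · exact absurd ⟨hh2.1, hh2.2.1⟩ h2
    · exact ⟨h1, h2, hh1, hh2.2⟩
  · rcases hh with hh | ⟨_, hh⟩ | ⟨hh1, hh2 | hh2⟩
    · left
      exact hh
    · right; right; right
      refine ⟨h1, Or.inl ?_⟩
      rcases h4 with h4 | h4
      · exact h4
      · exact absurd h4 hh
    · exact absurd ⟨hh2.1, hh2.2.1⟩ h3
    · right; right; right
      exact ⟨h1, Or.inr ⟨hh1, hh2.2⟩⟩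

theorem WLn_ds_cases (k : κ) (z : TK H) (u : D.U) (σ : Fin 3) (x y : V) (w : κ × ZX D)
    (h : D2 z.1 (D.pA z.1 u σ) (D.pB z.1 u σ) x y)
    (hw : (coreD D nx).nb (k, .ds z u σ x) y = some w) :
    (x = D.pA z.1 u σ ∧ y = z.1 ∧ w = tA D nx k z u σ) ∨
    (x = D.pB z.1 u σ ∧ y = z.1 ∧ tB D k z u σ = some w) := by
  rcases h with (⟨h1, h2⟩ | ⟨h1, h2⟩) | (⟨h1, h2⟩ | ⟨h1, h2⟩)
  · rw [h1, nb_ds_out D nx k z u σ (Or.inl h2)] at hw
    exact absurd hw (by simp)
  · left
    rw [h1, h2, nb_dsA D nx k z u σ] at hw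
    exact ⟨h1, h2, (Option.some.inj hw).symm⟩
  · rw [h1, nb_ds_out D nx k z u σ (Or.inr h2)] at hw
    exact absurd hw (by simp)
  · right
    rw [h1, h2, nb_dsB D nx k z u σ] at hw
    exact ⟨h1, h2, hw⟩

open Classical in
theorem WLn_tB2 (k : κ) (z : TK H) (u : D.U) : tB D k z u 2 =
    (if D.mkd u.1 u.2.1 ∧ D.hd u.1 u.2.1 = z.1 then some (k, ZX.nd u.1 u.2) else none) := rfl

theorem WLn_sym (u : κ × ZX D) (y : V) (w : κ × ZX D) (h : lnD D u y)
    (hw : (coreD D nx).nb u y = some w) : lnD D w ((coreD D nx).p u) := by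
  have hadj := WLn_adj D nx u y h
  obtain ⟨k, u⟩ := u
  cases u with
  | nd j l =>
    rcases WLn_nd D nx k h with ⟨h1, h2⟩ | ⟨h1, h2, h3, h4, h5⟩ | ⟨h1, h2, h3, h4⟩ | ⟨h1, h2⟩
    · rw [h2, nb_link D nx k h1] at hw
      have hw' := Option.some.inj hw
      subst hw'
      refine ⟨?_, Or.inr (Or.inr ⟨?_, rfl⟩)⟩
      · have := hadj.symm
        rw [h2] at this
        exact this
      · exact (WLn_ep D h1).symm
    · rw [h2, nb_par D nx k h1] at hw
      have hw' := Option.some.inj hw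
      subst hw'
      refine ⟨?_, Or.inr (Or.inr ⟨?_, Or.inr ⟨?_, h5⟩⟩)⟩
      · have := hadj.symm
        rw [h2] at this
        exact this
      · have := nb_symm h4
        rw [h2] at this
        exact this
      · rintro ⟨g1, g2⟩
        obtain ⟨l, hl⟩ := l
        cases l with
        | nil => exact h1 rfl
        | cons c t => exact ndx_ne D hl g1 g2
    · rw [nb_chd D nx k h1] at hw
      have hw' := Option.some.inj hw
      subst hw'
      refine ⟨hadj.symm, Or.inr (Or.inr ⟨nb_symm h3, Or.inl ⟨?_, rfl, h4⟩⟩)⟩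
      simp
    · rw [h1] at hw
      exact absurd hw (by simp)
  | st z u b =>
    cases b with
    | false =>
      rcases WLn_stf_cases D nx k z u y w hw with ⟨h1, h2⟩ | ⟨h1, h2⟩ | ⟨h1, h2⟩
      · subst h2
        exact ⟨hadj.symm, Or.inr (Or.inr ⟨h1, rfl⟩)⟩
      · subst h2
        exact ⟨hadj.symm, Or.inl (Or.inr ⟨h1, rfl⟩)⟩
      · subst h2
        exact ⟨hadj.symm, Or.inl (Or.inr ⟨h1, rfl⟩)⟩
    | true =>
      rcases WLn_stt_cases D nx k z u y w hw with ⟨h1, h2⟩ | ⟨h1, h2⟩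
      · subst h2
        exact ⟨hadj.symm, Or.inr (Or.inr ⟨h1, rfl⟩)⟩
      · subst h2
        exact ⟨hadj.symm, Or.inl (Or.inr ⟨h1, rfl⟩)⟩
  | ds z u σ x =>
    rcases WLn_ds_cases D nx k z u σ x y w h.2 hw with ⟨h1, h2, h3⟩ | ⟨h1, h2, h3⟩
    · subst h3
      subst h2
      fin_cases σ
      · exact hadj.symm
      · exact hadj.symm
      · exact hadj.symm
    · subst h2
      fin_cases σ
      · have h3' := Option.some.inj h3
        subst h3'
        exact hadj.symm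
      · have h3' := Option.some.inj h3
        subst h3'
        exact hadj.symm
      · have h3 := (WLn_tB2 D k z u).symm.trans h3
        split_ifs at h3 with h4
        have h3' := Option.some.inj h3
        subst h3'
        refine ⟨?_, Or.inl ⟨h4.1, ?_⟩⟩
        · have := hadj.symm
          rw [← h4.2] at this
          exact this
        · change x = D.ep z.1 u at h1
          change x = D.lp u.1 u.2.1
          rw [h1]
          unfold DX.ep
          rw [if_pos h4]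

theorem lnD_ok : LnOk H (coreD D nx) (lnD D) := ⟨WLn_adj D nx, WLn_sym D nx⟩

theorem lnD_dep (u : κ × ZX D) (y : V) (h : lnD D u y) : D.R ≤ dpD D u := by
  obtain ⟨k, u⟩ := u
  cases u with
  | nd j l =>
    cases j with
    | inr x => exact Nat.le_succ _
    | inl i =>
      have hR : D.R ≤ l.1.length := by
        rcases WLn_nd D (Equiv.refl (κ × D.U)) k h with ⟨h1, h2⟩ | ⟨h1, h2, h3, h4, h5⟩ |
          ⟨h1, h2, h3, h4⟩ | ⟨h1, h2 | h2⟩
        · exact h1.1
        · have h6 : D.R ≤ l.1.tail.length := h5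
          rw [List.length_tail] at h6
          omega
        · exact h4
        · rw [h2]
          exact Nat.le_add_right _ _
        · exact h2.2
      exact le_min hR (Nat.le_succ _)
  | st z u b => exact Nat.le_succ _
  | ds z u σ x => exact Nat.le_succ _

theorem lnD_nb (u : κ × ZX D) (y : V) (w : κ × ZX D) (h : lnD D u y)
    (hw : (coreD D nx).nb u y = some w) : NB H ((coreD D nx).p u) y := by
  obtain ⟨k, u⟩ := u
  cases u with
  | nd j l =>
    rcases WLn_nd D nx k h with ⟨h1, h2⟩ | ⟨h1, h2, h3, h4, h5⟩ | ⟨h1, h2, h3, h4⟩ | ⟨h1, h2⟩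
    · rw [h2]
      exact lp_nb D l.2 h1
    · exact h4
    · exact h3
    · rw [h1] at hw
      exact absurd hw (by simp)
  | st z u b =>
    have he := ep_nb D z.2 u
    cases b with
    | false =>
      rcases WLn_stf_cases D nx k z u y w hw with ⟨h1, h2⟩ | ⟨h1, h2⟩ | ⟨h1, h2⟩
      · rw [h1]
        exact (D.tr0 z.1 z.2).2.1
      · rw [h1]
        exact (D.tr0 z.1 z.2).1
      · rw [h1]
        exact (D.tr1 z.1 _ z.2 he).1
    | true =>
      rcases WLn_stt_cases D nx k z u y w hw with ⟨h1, h2⟩ | ⟨h1, h2⟩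
      · rw [h1]
        exact (D.tr1 z.1 _ z.2 he).2.1
      · rw [h1]
        exact (D.tr2 z.1 _ z.2 he).1
  | ds z u σ x =>
    have ht := tr_AB D z.2 u σ
    rcases WLn_ds_cases D nx k z u σ x y w h.2 hw with ⟨h1, h2, h3⟩ | ⟨h1, h2, h3⟩
    · change NB H x y
      rw [h1, h2]
      exact nb_symm ht.1
    · change NB H x y
      rw [h1, h2]
      exact nb_symm ht.2.1

end Pool.Agent.LHD
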