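import Pool.Agent.LHD.Defs
import Pool.Agent.LHD.Bg1
import Pool.Agent.LHD.NdB
import Pool.Agent.LHD.NdC

/-!
# The world is a partial cover

To show: if `nb u y = some v` (`H.Adj (p u) y`) then `p v = y` and `nb v (p u) = some u`. Use `NdC`.
`(k, nd j l)` (`nd_cases`): link port `y = lp`, `z = hd l` thick, `u = ⟨j, l⟩`: `→ ds z u 2 y`, and `y = ep z u = pB z u 2` (definition of `ep`), so `nb_dsB`: `tB D k z u 2 = some (k, nd j l)`. Parent `l.tail`, `l = c :: t`: `nb_par`; the node `t` at the port `c = hd l`: `nb_chd` gives `c :: t`. Child `y :: l`: `nb_chd`, back by `nb_par` (`hd (y :: l).tail = hd l`).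
`(k, st z u false)`: by the definition the ports with a neighbour are `c1, c0, d1`: `nb_stf1`: `→ ds z u 0 (c1)`, `c1 = pB z u 0`, back `tB D k z u 0 = some (k, st z u false)`. `nb_stf0`: `→` the cell and unit `nx (k, u)`, `c0 = pA .. 0`, back `tA D nx .. 0` = the vertex `st` of `nx.symm (nx (k, u)) = (k, u)`. `nb_stf2`: `d1 = pA z u 1`, back `tA .. 1 = (k, st z u false)`. `(k, st z u true)`: `nb_stt1`: `e1 = pB z u 1`, back `tB .. 1 = some (k, st z u true)`;
`nb_stt2`: `d2 = pA z u 2`, back `tA .. 2 = (k, st z u true)`.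
`(k, ds z u σ x)`: if not `D2 z pA pB x y`: `nb_ds_in`, back `nb_ds_in` (`D2` is symmetric). `x = z`, `y = pA, pB`: `none`. `x = pA`, `y = z`: `→ tA`, whose projection is `z`; back at the port `pA`: `σ = 0`: `nb_stf0` for `nx.symm (k, u)`; `σ = 1`: `nb_stf2`; `σ = 2`: `nb_stt2`. `x = pB`, `y = z`: `→ tB`: `σ = 0`: `nb_stf1`; `σ = 1`: `nb_stt1`; `σ = 2`: only if `mkd u.1 u.2.1 ∧ hd = z`, `→ (k, nd u.1 u.2)`, `pB z u 2 = ep z u = lp`: `nb_link`.
-/

namespace Pool.Agent.LHD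

open Pool.Agent.LIH Pool.Agent.LHA
open Pool.Agent.LHC (Rg DeepN De Br CZ Ctr nxt nxG glueS sAdj LN LC LO)

section WOk

variable {V : Type} {H : SimpleGraph V} (D : DX H) {κ : Type} (nx : Equiv.Perm (κ × D.U))

open Classical in
theorem WOk_stf (k : κ) (z : TK H) (u : D.U) (y : V) : (coreD D nx).nb (k, .st z u false) y =
    if y = D.c1 z.1 then some (k, .ds z u 0 y)
    else if y = D.c0 z.1 then some ((nx (k, u)).1, .ds z (nx (k, u)).2 0 y)
    else if y = D.d1 z.1 (D.ep z.1 u) then some (k, .ds z u 1 y)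
    else none := rfl

open Classical in
theorem WOk_stt (k : κ) (z : TK H) (u : D.U) (y : V) : (coreD D nx).nb (k, .st z u true) y =
    if y = D.e1 z.1 (D.ep z.1 u) then some (k, .ds z u 1 y)
    else if y = D.d2 z.1 (D.ep z.1 u) then some (k, .ds z u 2 y)
    else none := rfl

open Classical in
theorem WOk_ds (k : κ) (z : TK H) (u : D.U) (σ : Fin 3) (x y : V) :
    (coreD D nx).nb (k, .ds z u σ x) y =
      if x = z.1 ∧ (y = D.pA z.1 u σ ∨ y = D.pB z.1 u σ) then none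
      else if x = D.pA z.1 u σ ∧ y = z.1 then some (tA D nx k z u σ)
      else if x = D.pB z.1 u σ ∧ y = z.1 then tB D k z u σ
      else some (k, .ds z u σ y) := rfl

theorem WOk_ep {z : V} {u : D.U} (h : D.mkd u.1 u.2.1 ∧ D.hd u.1 u.2.1 = z) :
    D.ep z u = D.lp u.1 u.2.1 := by
  classical
  unfold DX.ep
  rw [if_pos h]

theorem WOk_tB2 (k : κ) {z : TK H} {u : D.U} (h : D.mkd u.1 u.2.1 ∧ D.hd u.1 u.2.1 = z.1) :
    tB D k z u 2 = some (k, .nd u.1 u.2) := by
  classical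
  have h1 : tB D k z u 2 =
      (if D.mkd u.1 u.2.1 ∧ D.hd u.1 u.2.1 = z.1 then some (k, ZX.nd u.1 u.2) else none) := by
    unfold tB
    simp
  rw [h1, if_pos h]

theorem WOk_tB2' (k : κ) {z : TK H} {u : D.U} (h : ¬ (D.mkd u.1 u.2.1 ∧ D.hd u.1 u.2.1 = z.1)) :
    tB D k z u 2 = none := by
  classical
  have h1 : tB D k z u 2 =
      (if D.mkd u.1 u.2.1 ∧ D.hd u.1 u.2.1 = z.1 then some (k, ZX.nd u.1 u.2) else none) := by
    unfold tB
    simp
  rw [h1, if_neg h]

theorem WOk_key_nd (k : κ) (j : JX V) (l : D.N j) (y : V) (v : κ × ZX D)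
    (hy : H.Adj (D.hd j l.1) y) (h : (coreD D nx).nb (k, .nd j l) y = some v) :
    (coreD D nx).p v = y ∧ (coreD D nx).nb v (D.hd j l.1) = some (k, .nd j l) := by
  rcases nd_cases D nx k hy with ⟨h1, h2⟩ | ⟨h1, h2, h3⟩ | ⟨h1, h2⟩ | ⟨h1, _⟩
  · subst h2
    rw [nb_link D nx k h1] at h
    have hv := Option.some.inj h
    subst hv
    refine ⟨rfl, ?_⟩
    have h5 : D.mkd (⟨j, l⟩ : D.U).1 (⟨j, l⟩ : D.U).2.1 ∧
        D.hd (⟨j, l⟩ : D.U).1 (⟨j, l⟩ : D.U).2.1 = D.hd j l.1 := ⟨h1, rfl⟩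
    have h4 : D.pB (D.hd j l.1) ⟨j, l⟩ 2 = D.lp j l.1 := WOk_ep D h5
    have h6 := nb_dsB D nx k (⟨D.hd j l.1, h1.2⟩ : TK H) ⟨j, l⟩ 2
    have h7 := WOk_tB2 D k (z := (⟨D.hd j l.1, h1.2⟩ : TK H)) (u := ⟨j, l⟩) h5
    rw [h7] at h6
    change (coreD D nx).nb (k, .ds (⟨D.hd j l.1, h1.2⟩ : TK H) ⟨j, l⟩ 2
      (D.pB (D.hd j l.1) ⟨j, l⟩ 2)) (D.hd j l.1) = _ at h6
    rw [h4] at h6
    exact h6
  · subst h2
    rw [nb_par D nx k h1] at h
    have hv := Option.some.inj h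
    subst hv
    refine ⟨rfl, ?_⟩
    obtain ⟨l, hl⟩ := l
    cases l with
    | nil => exact absurd rfl h1
    | cons c t =>
      have h8 := nb_chd D nx k (j := j) (l := ⟨t, ndx_tail D hl⟩) (y := c) hl
      have h9 : D.hd j (c :: t) = c := hd_cons D
      change (coreD D nx).nb (k, .nd j ⟨t, ndx_tail D hl⟩) (D.hd j (c :: t)) = _
      rw [h9]
      exact h8
  · rw [nb_chd D nx k h1] at h
    have hv := Option.some.inj h
    subst hv
    have h9 : D.hd j (y :: l.1) = y := hd_cons D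
    refine ⟨h9, ?_⟩
    have h8 := nb_par D nx k (j := j) (l := ⟨y :: l.1, h1⟩) (List.cons_ne_nil _ _)
    exact h8
  · rw [h1] at h
    exact absurd h (by simp)

theorem WOk_key_stf (k : κ) (z : TK H) (u : D.U) (y : V) (v : κ × ZX D)
    (h : (coreD D nx).nb (k, .st z u false) y = some v) :
    (coreD D nx).p v = y ∧ (coreD D nx).nb v z.1 = some (k, .st z u false) := by
  classical
  rw [WOk_stf] at h
  by_cases a1 : y = D.c1 z.1
  · rw [if_pos a1] at h
    have hv := Option.some.inj h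
    subst hv
    refine ⟨rfl, ?_⟩
    rw [a1]
    exact nb_dsB D nx k z u 0
  rw [if_neg a1] at h
  by_cases a2 : y = D.c0 z.1
  · rw [if_pos a2] at h
    have hv := Option.some.inj h
    subst hv
    refine ⟨rfl, ?_⟩
    rw [a2]
    have h1 := nb_dsA D nx (nx (k, u)).1 z (nx (k, u)).2 0
    have h2 : tA D nx (nx (k, u)).1 z (nx (k, u)).2 0 =
        ((nx.symm (nx (k, u))).1, .st z (nx.symm (nx (k, u))).2 false) := rfl
    rw [h2, nx.symm_apply_apply] at h1
    exact h1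
  rw [if_neg a2] at h
  by_cases a3 : y = D.d1 z.1 (D.ep z.1 u)
  · rw [if_pos a3] at h
    have hv := Option.some.inj h
    subst hv
    refine ⟨rfl, ?_⟩
    rw [a3]
    exact nb_dsA D nx k z u 1
  · rw [if_neg a3] at h
    exact absurd h (by simp)

theorem WOk_key_stt (k : κ) (z : TK H) (u : D.U) (y : V) (v : κ × ZX D)
    (h : (coreD D nx).nb (k, .st z u true) y = some v) :
    (coreD D nx).p v = y ∧ (coreD D nx).nb v z.1 = some (k, .st z u true) := by
  classical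
  rw [WOk_stt] at h
  by_cases a1 : y = D.e1 z.1 (D.ep z.1 u)
  · rw [if_pos a1] at h
    have hv := Option.some.inj h
    subst hv
    refine ⟨rfl, ?_⟩
    rw [a1]
    exact nb_dsB D nx k z u 1
  rw [if_neg a1] at h
  by_cases a3 : y = D.d2 z.1 (D.ep z.1 u)
  · rw [if_pos a3] at h
    have hv := Option.some.inj h
    subst hv
    refine ⟨rfl, ?_⟩
    rw [a3]
    exact nb_dsA D nx k z u 2
  · rw [if_neg a3] at h
    exact absurd h (by simp)

theorem WOk_key_ds (k : κ) (z : TK H) (u : D.U) (σ : Fin 3) (x y : V) (v : κ × ZX D)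
    (h : (coreD D nx).nb (k, .ds z u σ x) y = some v) :
    (coreD D nx).p v = y ∧ (coreD D nx).nb v x = some (k, .ds z u σ x) := by
  classical
  have hσ : σ = 0 ∨ σ = 1 ∨ σ = 2 := by omega
  rw [WOk_ds] at h
  by_cases a1 : x = z.1 ∧ (y = D.pA z.1 u σ ∨ y = D.pB z.1 u σ)
  · rw [if_pos a1] at h
    exact absurd h (by simp)
  rw [if_neg a1] at h
  by_cases a2 : x = D.pA z.1 u σ ∧ y = z.1
  · rw [if_pos a2] at h
    have hv := Option.some.inj h
    subst hv
    obtain ⟨b1, b2⟩ := a2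
    subst b2
    rcases hσ with rfl | rfl | rfl
    · refine ⟨rfl, ?_⟩
      have h1 := nb_stf0 D nx (nx.symm (k, u)).1 z (nx.symm (k, u)).2
      have h3 : nx ((nx.symm (k, u)).1, (nx.symm (k, u)).2) = (k, u) := nx.apply_symm_apply (k, u)
      rw [h3] at h1
      rw [b1]
      exact h1
    · refine ⟨rfl, ?_⟩
      rw [b1]
      exact nb_stf2 D nx k z u
    · refine ⟨rfl, ?_⟩
      rw [b1]
      exact nb_stt2 D nx k z u
  rw [if_neg a2] at h
  by_cases a3 : x = D.pB z.1 u σ ∧ y = z.1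
  · rw [if_pos a3] at h
    obtain ⟨b1, b2⟩ := a3
    subst b2
    rcases hσ with rfl | rfl | rfl
    · have hv := Option.some.inj h
      subst hv
      refine ⟨rfl, ?_⟩
      rw [b1]
      exact nb_stf1 D nx k z u
    · have hv := Option.some.inj h
      subst hv
      refine ⟨rfl, ?_⟩
      rw [b1]
      exact nb_stt1 D nx k z u
    · by_cases hm : D.mkd u.1 u.2.1 ∧ D.hd u.1 u.2.1 = z.1
      · rw [WOk_tB2 D k hm] at h
        have hv := Option.some.inj h
        subst hv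
        refine ⟨hm.2, ?_⟩
        obtain ⟨z, hz⟩ := z
        obtain ⟨hm1, hm2⟩ := hm
        have hm2' : D.hd u.1 u.2.1 = z := hm2
        subst hm2'
        have h4 : D.pB (D.hd u.1 u.2.1) u 2 = D.lp u.1 u.2.1 := WOk_ep D ⟨hm1, rfl⟩
        have h5 := nb_link D nx k (l := u.2) hm1
        rw [b1]
        change (coreD D nx).nb (k, .nd u.1 u.2) (D.pB (D.hd u.1 u.2.1) u 2) =
          some (k, .ds ⟨D.hd u.1 u.2.1, hz⟩ u 2 (D.pB (D.hd u.1 u.2.1) u 2))
        rw [h4]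
        exact h5
      · rw [WOk_tB2' D k hm] at h
        exact absurd h (by simp)
  rw [if_neg a3] at h
  have hv := Option.some.inj h
  subst hv
  refine ⟨rfl, ?_⟩
  rw [WOk_ds, if_neg, if_neg, if_neg]
  · rintro ⟨c1, c2⟩
    exact a1 ⟨c2, Or.inr c1⟩
  · rintro ⟨c1, c2⟩
    exact a1 ⟨c2, Or.inl c1⟩
  · rintro ⟨c1, c2 | c2⟩
    · exact a2 ⟨c2, c1⟩
    · exact a3 ⟨c2, c1⟩

end WOk

theorem coreD_ok {V : Type} {H : SimpleGraph V} (D : DX H) {κ : Type}
    (nx : Equiv.Perm (κ × D.U)) : (coreD D nx).Ok H := by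
  rintro ⟨k, w⟩ y v hy h
  cases w with
  | nd j l => exact WOk_key_nd D nx k j l y v hy h
  | st z u b =>
    cases b with
    | false => exact WOk_key_stf D nx k z u y v h
    | true => exact WOk_key_stt D nx k z u y v h
  | ds z u σ x => exact WOk_key_ds D nx k z u σ x y v h

end Pool.Agent.LHD
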