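import Pool.Agent.LHD.Defs
import Pool.Agent.LHD.NdB
import Pool.Agent.LHD.NdC
import Pool.Agent.LHD.CvB
import Pool.Agent.LHD.CtN
import Pool.Agent.LHD.CtO
import Pool.Agent.LHD.WOk
import Pool.Agent.LHD.WLn

/-!
# The roots

The root is the node `[]` of the tree `inl i`, `hd = a4 i`, `lv = R ≥ 2`: it is not marked. `root_in`: `[y]` is a node (`ndx_mk`: `0 < ra`, `y ∉ F4 i`); the port has no line: not the link port (not marked), `nbX ≠ none` (`nbX_chd`), `lv ≤ |l|` is false. So `clt_nb_not` and `nb_chd`. `root_out`: no line (the second alternative is excluded by `y ∈ F`), `[y]` is not a node, `nb = none` (`nd_cases`). `root_adj`: `Cv.adj_iff` for `cvD D nx` (`clt_ok`, `coreD_ok`, `lnD_ok`).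
-/

namespace Pool.Agent.LHD

open Pool.Agent.LIH Pool.Agent.LHA
open Pool.Agent.LHC (Rg DeepN De Br CZ Ctr nxt nxG glueS sAdj LN LC LO)

variable {V : Type} {H : SimpleGraph V} (D : DX H) {κ : Type} (nx : Equiv.Perm (κ × D.U))
  (k : κ) (i : Fin 4)

private theorem rtn_mkd : ¬ D.mkd (.inl i) [] := by
  rintro ⟨h, -⟩
  have h2 : D.R ≤ 0 := h
  have := D.two
  omega

private theorem rtn_ndx {y : V} (hy : H.Adj (D.a4 i) y) (hF : y ∉ D.F4 i) : D.NdX (.inl i) [y] :=
  ndx_mk D (l := []) trivial hy (fun h => absurd rfl h) (fun h => rtn_mkd D i h.1) (fun _ => hF)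
    (Nat.lt_of_lt_of_le (Nat.succ_pos _) (Nat.le_add_left _ _))

theorem root_in {y : V} (hy : H.Adj (D.a4 i) y) (hF : y ∉ D.F4 i) :
    ∃ hn : D.NdX (.inl i) [y],
      (cvD D nx).nb (k, roD D i) y = some (k, .inl (.nd (.inl i) ⟨[y], hn⟩)) := by
  have hn := rtn_ndx D i hy hF
  refine ⟨hn, ?_⟩
  have hnl : ¬ lnD D (k, ZX.nd (.inl i) (⟨[], trivial⟩ : D.N (.inl i))) y := by
    rintro ⟨-, h | h | h⟩
    · exact rtn_mkd D i h.1
    · have := nbX_chd D (l := (⟨[], trivial⟩ : D.N (.inl i))) hn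
      rw [h.1] at this
      cases this
    · have := D.two
      rcases h.2 with h | h
      · exact h.1 rfl
      · have h2 : D.R ≤ 0 := h.2
        omega
  have h1 := clt_nb_not (P := coreD D nx) (r := D.r) hnl
  rw [nb_chd D nx k hn] at h1
  exact h1

theorem root_out {y : V} (hy : H.Adj (D.a4 i) y) (hF : y ∈ D.F4 i) :
    (cvD D nx).nb (k, roD D i) y = none := by
  have hnl : ¬ lnD D (k, ZX.nd (.inl i) (⟨[], trivial⟩ : D.N (.inl i))) y := by
    rintro ⟨-, h | h | h⟩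
    · exact rtn_mkd D i h.1
    · exact h.2 ⟨rfl, hF⟩
    · have := D.two
      rcases h.2 with h | h
      · exact h.1 rfl
      · have h2 : D.R ≤ 0 := h.2
        omega
  have h1 := clt_nb_not (P := coreD D nx) (r := D.r) hnl
  have h2 : (coreD D nx).nb (k, ZX.nd (.inl i) (⟨[], trivial⟩ : D.N (.inl i))) y = none := by
    rcases nd_cases D nx k (l := (⟨[], trivial⟩ : D.N (.inl i))) hy with h | h | h | h
    · exact absurd h.1 (rtn_mkd D i)
    · exact absurd rfl h.1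
    · exact absurd hF (h.1.2.2.2.2.1 rfl)
    · exact h.1
  rw [h2] at h1
  exact h1

theorem root_adj (q : κ × CZ (ZX D) V D.r) : (gD D nx).Adj (k, roD D i) q ↔
    ∃ y, H.Adj (D.a4 i) y ∧ y ∉ D.F4 i ∧ ∃ hn : D.NdX (.inl i) [y],
      q = (k, .inl (.nd (.inl i) ⟨[y], hn⟩)) := by
  have hok : (cvD D nx).Ok H := clt_ok D.r (coreD_ok D nx) (lnD_ok D nx)
  have h1 := Cv.adj_iff hok (k, roD D i) q
  constructor
  · intro h
    obtain ⟨y, hy, hq⟩ := h1.1 h
    have hy' : H.Adj (D.a4 i) y := hy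
    by_cases hF : y ∈ D.F4 i
    · rw [root_out D nx k i hy' hF] at hq
      cases hq
    · obtain ⟨hn, e⟩ := root_in D nx k i hy' hF
      rw [e] at hq
      exact ⟨y, hy', hF, hn, (Option.some.inj hq).symm⟩
  · rintro ⟨y, hy, hF, hn, rfl⟩
    obtain ⟨hn', e⟩ := root_in D nx k i hy hF
    exact h1.2 ⟨y, hy, e⟩

end Pool.Agent.LHD
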