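import Pool.Agent.LHD.Defs
import Pool.Agent.LHD.CvB
import Pool.Agent.LHD.CtO
import Pool.Agent.LHD.WOk
import Pool.Agent.LHD.WLn
import Pool.Agent.LHD.RtN

/-!
# The pins are possible

`p = (cvD D nx).p`, `Cv.p_locinj` (`clt_ok`, `coreD_ok`, `lnD_ok`; `gD D nx = (cvD D nx).G H`). `p (k, roD i) = a4 i`. The image of the neighbours of the root: `root_adj`, `p (k, inl (nd (inl i) [y])) = y`, `root_in`.
-/

namespace Pool.Agent.LHD

open Pool.Agent.LIH Pool.Agent.LHA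
open Pool.Agent.LHC (Rg DeepN De Br CZ Ctr nxt nxG glueS sAdj LN LC LO)

theorem flex_D {V : Type} {H : SimpleGraph V} (D : DX H) {κ : Type}
    (nx : Equiv.Perm (κ × D.U)) : FlexX H (gD D nx) (roD D) D.a4 D.F4 := by
  have hok : (cvD D nx).Ok H := clt_ok D.r (coreD_ok D nx) (lnD_ok D nx)
  refine ⟨(cvD D nx).p, Cv.p_locinj hok, fun k i => ⟨rfl, ?_⟩⟩
  ext y
  constructor
  · rintro ⟨q, hq, rfl⟩
    obtain ⟨y, hy, hF, hn, rfl⟩ := (root_adj D nx k i q).1 hq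
    exact ⟨hy, hF⟩
  · rintro ⟨hy, hF⟩
    obtain ⟨hn, -⟩ := root_in D nx k i hy hF
    exact ⟨(k, .inl (.nd (.inl i) ⟨[y], hn⟩)), (root_adj D nx k i _).2 ⟨y, hy, hF, hn, rfl⟩, rfl⟩

end Pool.Agent.LHD
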