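import Pool.Agent.LHD.Defs
import Pool.Agent.LHD.Bg1
import Pool.Agent.LHD.NdB
import Pool.Agent.LHD.Aut
import Pool.Agent.LHD.NE

/-!
# The values are given by an automorphism

`Ps x = f k0 (inr (x, x)) []`. Claim: `Ps` is a bijection `N(x) → N(Ps x)` for all `x`; then `auto_of_cov`. Consider the tree `inr (x, ε)` and its root `[]`: `f k0 (inr (x, ε)) [] = Ps x` (`ex_root`), and `β y := v k0 (inr (x, ε)) [] y` is a bijection `N(x) → N(Ps x)` (`hT.bij`, `lv = 0`). For `y ∈ N(x)` which is not the link port of a thick `x` (`¬ (Th H x ∧ y = eps)`) `[y]` is a node (`ndx_mk`, `F = ∅`), so `β y = f .. [y] = Ps y` (`hT.chd`, `ex_deep`).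
`x` not thick: `β = Ps` on `N(x)` (take `ε = x`). `x` thick: for every `ε` with `NB H x ε`: `eps (inr (x, ε)) = ε`, so `Ps` is injective on `N(x) \ {ε}` and maps it into `N(Ps x)`. For `y, y' ∈ N(x)` there is such an `ε ≠ y, y'` (at least three elements, `Th`; e.g. `Set.exists_mem_notMem_of_ncard_lt_ncard` with `{y, y'}`). So `Ps` is injective on `N(x)` and maps it into `N(Ps x)`, and both have the same number of elements (`β`): a bijection.
-/

namespace Pool.Agent.LHD

open Pool.Agent.LIH Pool.Agent.LHA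
open Pool.Agent.LHC (Rg DeepN De Br CZ Ctr nxt nxG glueS sAdj LN LC LO)

theorem ps_auto {V : Type} [Finite V] {H : SimpleGraph V} (hc : H.Connected)
    (h3 : ∀ v, 3 ≤ (H.neighborSet v).ncard) {D : DX H} {κ : Type} {f : κ → JX V → List V → V}
    {v : κ → JX V → List V → V → V} {Ψ : V → V} (hT : TS D κ f v Ψ) (k0 : κ) :
    ∃ Φ : H ≃g H, ∀ x, f k0 (.inr (x, x)) [] = Φ x := by
  have hroot : ∀ x ε, f k0 (.inr (x, ε)) [] = f k0 (.inr (x, x)) [] :=
    fun x ε => ex_root hc h3 hT k0 k0 x ε
  have hbij : ∀ x ε, Set.BijOn (v k0 (.inr (x, ε)) []) (H.neighborSet x)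
      (H.neighborSet (f k0 (.inr (x, x)) [])) := by
    intro x ε
    have h4 := hT.bij k0 (.inr (x, ε)) [] trivial (Nat.le_refl 0)
    rw [hroot x ε] at h4
    exact h4
  have hval : ∀ x ε y, H.Adj x y → ¬ (Th H x ∧ y = D.eps (.inr (x, ε))) →
      v k0 (.inr (x, ε)) [] y = f k0 (.inr (y, y)) [] := by
    intro x ε y ha hn
    have hnd : D.NdX (.inr (x, ε)) [y] := by
      refine ndx_mk D (j := .inr (x, ε)) (l := []) trivial ha (fun h => absurd rfl h) ?_
        (fun _ h => h) ?_
      · rintro ⟨hm, hy⟩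
        exact hn ⟨hm.2, hy⟩
      · show 0 < 0 + (Nat.card V + 4)
        omega
    have h4 := hT.chd k0 (.inr (x, ε)) y [] hnd (Nat.le_refl 0)
    have h5 := ex_deep hc h3 hT k0 k0 hnd (Nat.le_refl 0) (Nat.zero_le _)
    rw [h4, h5]
  refine auto_of_cov hc (h := fun x => f k0 (.inr (x, x)) []) ?_
  intro x
  show Set.BijOn (fun x => f k0 (.inr (x, x)) []) (H.neighborSet x)
    (H.neighborSet (f k0 (.inr (x, x)) []))
  by_cases hx : Th H x
  · have heps : ∀ ε, NB H x ε → D.eps (.inr (x, ε)) = ε := by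
      intro ε hε
      unfold DX.eps
      exact if_pos hε
    have hex : ∀ y y' : V, ∃ ε, NB H x ε ∧ y ≠ ε ∧ y' ≠ ε := by
      intro y y'
      have h4 : ({y, y'} : Set V).ncard < {w | NB H x w}.ncard :=
        lt_of_lt_of_le (lt_of_le_of_lt (Set.ncard_insert_le y {y'})
          (by rw [Set.ncard_singleton]; omega)) hx
      obtain ⟨ε, h5, h6⟩ := Set.exists_mem_notMem_of_ncard_lt_ncard h4
      refine ⟨ε, h5, ?_, ?_⟩
      · intro h
        exact h6 (by rw [h]; simp)
      · intro h
        exact h6 (by rw [h]; simp)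
    have hmaps : Set.MapsTo (fun x => f k0 (.inr (x, x)) []) (H.neighborSet x)
        (H.neighborSet (f k0 (.inr (x, x)) [])) := by
      intro y hy
      obtain ⟨ε, h4, h5, _⟩ := hex y y
      have h6 := hval x ε y hy (fun h => h5 (h.2.trans (heps ε h4)))
      have h7 := (hbij x ε).mapsTo hy
      rw [h6] at h7
      exact h7
    have hinj : Set.InjOn (fun x => f k0 (.inr (x, x)) []) (H.neighborSet x) := by
      intro y hy y' hy' he
      obtain ⟨ε, h4, h5, h5'⟩ := hex y y'
      have h6 := hval x ε y hy (fun h => h5 (h.2.trans (heps ε h4)))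
      have h6' := hval x ε y' hy' (fun h => h5' (h.2.trans (heps ε h4)))
      refine (hbij x ε).injOn hy hy' ?_
      rw [h6, h6']
      exact he
    refine ⟨hmaps, hinj, ?_⟩
    have hcard : (H.neighborSet x).ncard = (H.neighborSet (f k0 (.inr (x, x)) [])).ncard := by
      have h4 := hbij x x
      rw [← h4.image_eq, h4.injOn.ncard_image]
    have h8 : (fun x => f k0 (.inr (x, x)) []) '' (H.neighborSet x) =
        H.neighborSet (f k0 (.inr (x, x)) []) := by
      apply Set.eq_of_subset_of_ncard_le hmaps.image_subset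
      rw [hinj.ncard_image, hcard]
    exact h8.ge
  · refine (hbij x x).congr ?_
    intro y hy
    exact hval x x y hy (fun h => hx h.1)

end Pool.Agent.LHD
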