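import Pool.Agent.LHD.Defs
import Pool.Agent.LHD.Bg1
import Pool.Agent.LHD.NdB
import Pool.Agent.LHD.NdC

/-!
# Depth in the world

`dpD_le`: by cases. `dpD_full`: `2 ≤ dpD u`, `nb u y = none`. Nodes: not the link port (`nb_link`), not the parent port, no child (`nb_chd`): `nd_cases`: `nbX = none`, and `l ≠ []` or `y ∉ F j`: for `j = inl i`: `2 ≤ min |l| (R + 1)` gives `l ≠ []`; for `j = inr x`: `F j = ∅`. So `lnX` (second alternative). `st`: all ports. `ds z u σ x`: by `nb_ds_in` `D2 z pA pB x y`.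
`dpD_lip`: node → parent, child: the lengths differ by one (`min |l| (R + 1)`), for `inr` constant. Node → `ds` (link port): `dpD ≤ R + 1`. `st → ds`, `ds → st`, `ds → ds`: `R + 1`. `ds → node` (`tB`, `mkd`): `R + 1 ≤ min |l| (R + 1) + 1` because `R ≤ |l|` (`mkd`, `lv (inl i) = R`), or `R + 1` for `inr`. `dpD_nd`: by cases.
-/

namespace Pool.Agent.LHD

open Pool.Agent.LIH Pool.Agent.LHA
open Pool.Agent.LHC (Rg DeepN De Br CZ Ctr nxt nxG glueS sAdj LN LC LO)

variable {V : Type} {H : SimpleGraph V} (D : DX H) {κ : Type} (nx : Equiv.Perm (κ × D.U))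

theorem wDe_inl (k : κ) (i : Fin 4) (l : D.N (.inl i)) :
    dpD D ((k, .nd (.inl i) l) : κ × ZX D) = min l.1.length (D.R + 1) := rfl

theorem wDe_inr (k : κ) (x : V × V) (l : D.N (.inr x)) :
    dpD D ((k, .nd (.inr x) l) : κ × ZX D) = D.R + 1 := rfl

theorem wDe_st (k : κ) (z : TK H) (u : D.U) (b : Bool) :
    dpD D ((k, .st z u b) : κ × ZX D) = D.R + 1 := rfl

theorem wDe_ds (k : κ) (z : TK H) (u : D.U) (σ : Fin 3) (x : V) :
    dpD D ((k, .ds z u σ x) : κ × ZX D) = D.R + 1 := rfl

theorem dpD_le (u : κ × ZX D) : dpD D u ≤ D.R + 1 := by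
  obtain ⟨k, w⟩ := u
  rcases w with ⟨j, l⟩ | ⟨z, u, b⟩ | ⟨z, u, σ, x⟩
  · rcases j with i | x
    · rw [wDe_inl]
      exact min_le_right _ _
    · rw [wDe_inr]
  · rw [wDe_st]
  · rw [wDe_ds]

theorem dpD_full (u : κ × ZX D) (h : 2 ≤ dpD D u) (y : V) (hy : H.Adj ((coreD D nx).p u) y)
    (hn : (coreD D nx).nb u y = none) : lnD D u y := by
  obtain ⟨k, w⟩ := u
  rcases w with ⟨j, l⟩ | ⟨z, u, b⟩ | ⟨z, u, σ, x⟩
  · change H.Adj (D.hd j l.1) y at hy
    refine ⟨hy, ?_⟩
    rcases nd_cases D nx k hy with h1 | ⟨h1, rfl, h3⟩ | ⟨h1, h2⟩ | ⟨h1, h2, h3, h4⟩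
    · exact Or.inl h1
    · rw [nb_par D nx k h1] at hn
      exact absurd hn (by simp)
    · rw [nb_chd D nx k h1] at hn
      exact absurd hn (by simp)
    · refine Or.inr (Or.inl ⟨h2, ?_⟩)
      rintro ⟨h5, h6⟩
      rcases j with i | x
      · rw [wDe_inl, h5] at h
        simp at h
      · exact h6
  · exact hy
  · refine ⟨hy, ?_⟩
    by_contra hc
    rw [nb_ds_in D nx k z u σ hc] at hn
    exact absurd hn (by simp)

theorem dpD_lip (u : κ × ZX D) (y : V) (w : κ × ZX D) (hy : H.Adj ((coreD D nx).p u) y)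
    (hw : (coreD D nx).nb u y = some w) : dpD D u ≤ dpD D w + 1 := by
  classical
  obtain ⟨k, w'⟩ := u
  rcases w' with ⟨j, l⟩ | ⟨z, u, b⟩ | ⟨z, u, σ, x⟩
  · change H.Adj (D.hd j l.1) y at hy
    rcases nd_cases D nx k hy with h1 | ⟨h1, rfl, h3⟩ | ⟨h1, h2⟩ | ⟨h1, h2, h3, h4⟩
    · obtain ⟨h1, rfl⟩ := h1
      rw [nb_link D nx k h1] at hw
      have h2 := Option.some.inj hw
      subst h2
      rw [wDe_ds]
      exact (dpD_le D _).trans (Nat.le_succ _)
    · rw [nb_par D nx k h1] at hw
      have h2 := Option.some.inj hw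
      subst h2
      rcases j with i | x
      · rw [wDe_inl, wDe_inl]
        change min l.1.length (D.R + 1) ≤ min l.1.tail.length (D.R + 1) + 1
        rw [List.length_tail]
        omega
      · rw [wDe_inr, wDe_inr]
        exact Nat.le_succ _
    · rw [nb_chd D nx k h1] at hw
      have h2 := Option.some.inj hw
      subst h2
      rcases j with i | x
      · rw [wDe_inl, wDe_inl]
        change min l.1.length (D.R + 1) ≤ min (y :: l.1).length (D.R + 1) + 1
        rw [List.length_cons]
        omega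
      · rw [wDe_inr, wDe_inr]
        exact Nat.le_succ _
    · rw [h1] at hw
      exact absurd hw (by simp)
  · have hds : ∃ k' z' u' σ' x', w = (k', ZX.ds z' u' σ' x') := by
      cases b with
      | false =>
        change (if y = D.c1 z.1 then some (k, ZX.ds z u 0 y)
          else if y = D.c0 z.1 then some ((nx (k, u)).1, ZX.ds z (nx (k, u)).2 0 y)
          else if y = D.d1 z.1 (D.ep z.1 u) then some (k, ZX.ds z u 1 y)
          else none) = some w at hw
        split_ifs at hw
        · exact ⟨_, _, _, _, _, (Option.some.inj hw).symm⟩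
        · exact ⟨_, _, _, _, _, (Option.some.inj hw).symm⟩
        · exact ⟨_, _, _, _, _, (Option.some.inj hw).symm⟩
      | true =>
        change (if y = D.e1 z.1 (D.ep z.1 u) then some (k, ZX.ds z u 1 y)
          else if y = D.d2 z.1 (D.ep z.1 u) then some (k, ZX.ds z u 2 y)
          else none) = some w at hw
        split_ifs at hw
        · exact ⟨_, _, _, _, _, (Option.some.inj hw).symm⟩
        · exact ⟨_, _, _, _, _, (Option.some.inj hw).symm⟩
    obtain ⟨k', z', u', σ', x', rfl⟩ := hds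
    rw [wDe_st, wDe_ds]
    exact Nat.le_succ _
  · rw [wDe_ds]
    change (if x = z.1 ∧ (y = D.pA z.1 u σ ∨ y = D.pB z.1 u σ) then none
        else if x = D.pA z.1 u σ ∧ y = z.1 then some (tA D nx k z u σ)
        else if x = D.pB z.1 u σ ∧ y = z.1 then tB D k z u σ
        else some (k, ZX.ds z u σ y)) = some w at hw
    split_ifs at hw with h1 h2 h3
    · have h4 := Option.some.inj hw
      subst h4
      fin_cases σ
      · exact Nat.le_succ _
      · exact Nat.le_succ _
      · exact Nat.le_succ _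
    · fin_cases σ
      · have h4 := Option.some.inj hw
        subst h4
        exact Nat.le_succ _
      · have h4 := Option.some.inj hw
        subst h4
        exact Nat.le_succ _
      · change (if D.mkd u.1 u.2.1 ∧ D.hd u.1 u.2.1 = z.1 then some (k, ZX.nd u.1 u.2) else none) = some w at hw
        split_ifs at hw with h5
        have h4 := Option.some.inj hw
        subst h4
        obtain ⟨j, l⟩ := u
        rcases j with i | x'
        · have h6 : D.R ≤ l.1.length := h5.1.1
          rw [wDe_inl]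
          change D.R + 1 ≤ min l.1.length (D.R + 1) + 1
          omega
        · rw [wDe_inr]
          exact Nat.le_succ _
    · have h4 := Option.some.inj hw
      subst h4
      exact Nat.le_succ _

theorem dpD_nd (k : κ) (j : JX V) (l : D.N j) :
    D.R ≤ dpD D (k, .nd j l) ↔ D.lv j ≤ l.1.length := by
  rcases j with i | x
  · rw [wDe_inl]
    change D.R ≤ min l.1.length (D.R + 1) ↔ D.R ≤ l.1.length
    omega
  · rw [wDe_inr]
    change D.R ≤ D.R + 1 ↔ 0 ≤ l.1.length
    omega

end Pool.Agent.LHD
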