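import Pool.Agent.LHD.Defs
import Pool.Agent.LHD.Bg1
import Pool.Agent.LHD.Nb2
import Pool.Agent.LHD.NdB
import Pool.Agent.LHD.NdC
import Pool.Agent.LHD.WDe

/-!
# Bridges inside the trees

Write `c = y :: l`, `q = hd l`, `u = (k, nd j c)`, `p u = y`. Induction on `ra j - |l|` (for all `y`, `l`). `u` is deep (`dpD_nd`), so `v u` is a bijection `N(y) → N(f u)` (`hS.bij`), and `v u q = f (parent)` (`nb_par`, `hS.con`).
Claim: for all `y' ∈ N(y)`, `y' ≠ q`: if `NB H y y'` then there is an automorphism `φ` with `φ y = f u`, `φ y' = v u y'` (so `NB H (f u) (v u y')`, `nb_typ`); if `Bg H y y'` then `Bg H (f u) (v u y')`. `nd_cases` for `y'`: link port: it has a line and is not a bridge (`lp_nb`): `hS.typ`. Child `y' :: c`: `NB H y y'`: there is a line (`lnX`, third alternative; `lv ≤ |c|`): `hS.typ`; `Bg H y y'`: `v u y' = f (child)` (`nb_chd`, `hS.con`) and the induction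
hypothesis. No child (`c ≠ []`, so `|c| = ra j`): `nb = none`, `nbX = none`: there is a line: `hS.typ` or `hS.brg`.
Now let `Bg H y q`; `H.Adj (f u) (v u q)` (`hS.bij`); suppose `NB H (f u) (v u q)` (`adj_cases`). Case 1: there is `y'` with `NB H y y'` (so `y' ≠ q`). By the claim there is `φ` with `φ y = f u`, so `{t | NB H (f u) t}` has as many elements as `M = {t | NB H y t}` (`nbs_card`). `v u` maps `M` injectively into `{t | NB H (f u) t}` (claim), so onto; so `v u q ∈ v u '' M`, and by injectivity on `N(y)` `q ∈ M`: contradiction. Case 2: there is no such `y'`. `nb_two` at `f u`: there is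
`t ≠ v u q` with `NB H (f u) t`, `t = v u y'` with `y' ∈ N(y)`, `y' ≠ q`, so `Bg H y y'` (`adj_cases`), `Bg H (f u) t` by the claim: contradiction. So `Bg H (f u) (f (parent))`; `bg_symm`.
-/

namespace Pool.Agent.LHD

open Pool.Agent.LIH Pool.Agent.LHA
open Pool.Agent.LHC (Rg DeepN De Br CZ Ctr nxt nxG glueS sAdj LN LC LO)

theorem PL_claim {V : Type} [Finite V] {H : SimpleGraph V} (D : DX H) {κ : Type}
    (nx : Equiv.Perm (κ × D.U)) {f : κ × ZX D → V} {v : κ × ZX D → V → V}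
    (hS : Sl H (coreD D nx) (lnD D) (fun u => D.R ≤ dpD D u) f v) (k : κ) (j : JX V) {y : V}
    {l : List V} (h : D.NdX j (y :: l)) (hl : D.lv j ≤ l.length + 1)
    (ih : ∀ (y' : V) (h' : D.NdX j (y' :: y :: l)), Bg H y y' →
      Bg H (f (k, .nd j ⟨y :: l, h⟩)) (f (k, .nd j ⟨y' :: y :: l, h'⟩)))
    (y' : V) (hy' : H.Adj y y') (hq : y' ≠ D.hd j l) :
    (NB H y y' → ∃ φ : H ≃g H, φ y = f (k, .nd j ⟨y :: l, h⟩) ∧
      φ y' = v (k, .nd j ⟨y :: l, h⟩) y') ∧
    (Bg H y y' → Bg H (f (k, .nd j ⟨y :: l, h⟩)) (v (k, .nd j ⟨y :: l, h⟩) y')) := by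
  have hdeep : D.R ≤ dpD D (k, ZX.nd j ⟨y :: l, h⟩) := (dpD_nd D k j _).mpr hl
  have hlen : D.lv j ≤ (y :: l).length := hl
  rcases nd_cases D nx k (j := j) (l := ⟨y :: l, h⟩) (y := y') hy' with
    ⟨hm, hlp⟩ | ⟨-, hpar, -⟩ | ⟨hc, hnp⟩ | ⟨hn, hnX, hnp, hF⟩
  · have hnb : NB H y y' := by rw [hlp]; exact lp_nb D h hm
    refine ⟨fun hN => ?_, fun hB => absurd hB (nb_not_bg hnb)⟩
    exact hS.typ (k, .nd j ⟨y :: l, h⟩) y' ⟨hy', Or.inl ⟨hm, hlp⟩⟩ hN
  · exact absurd hpar hq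
  · refine ⟨fun hN => ?_, fun hB => ?_⟩
    · exact hS.typ (k, .nd j ⟨y :: l, h⟩) y'
        ⟨hy', Or.inr (Or.inr ⟨hN, Or.inr ⟨hnp, hlen⟩⟩)⟩ hN
    · have hcon := hS.con (k, .nd j ⟨y :: l, h⟩) y' _ hdeep hy'
        (nb_chd D nx k (j := j) (l := ⟨y :: l, h⟩) hc)
      rw [hcon]
      exact ih y' hc hB
  · have hln : lnD D ((k, .nd j ⟨y :: l, h⟩) : κ × ZX D) y' :=
      ⟨hy', Or.inr (Or.inl ⟨hnX, fun hh => absurd hh.1 (List.cons_ne_nil _ _)⟩)⟩
    exact ⟨fun hN => hS.typ _ y' hln hN, fun hB => hS.brg _ y' hln hn hB⟩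

theorem bridge_down {V : Type} [Finite V] {H : SimpleGraph V} (D : DX H) {κ : Type}
    (nx : Equiv.Perm (κ × D.U)) {f : κ × ZX D → V} {v : κ × ZX D → V → V}
    (hS : Sl H (coreD D nx) (lnD D) (fun u => D.R ≤ dpD D u) f v) (k : κ) (j : JX V) {y : V}
    {l : List V} (h : D.NdX j (y :: l)) (hl : D.lv j ≤ l.length + 1)
    (hb : Bg H (D.hd j l) y) :
    Bg H (f (k, .nd j ⟨l, ndx_tail D h⟩)) (f (k, .nd j ⟨y :: l, h⟩)) := by
  obtain ⟨n, hn⟩ : ∃ n, D.ra j - l.length = n := ⟨_, rfl⟩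
  induction n using Nat.strong_induction_on generalizing y l with
  | _ n ihn =>
  have ih : ∀ (y' : V) (h' : D.NdX j (y' :: y :: l)), Bg H y y' →
      Bg H (f (k, .nd j ⟨y :: l, h⟩)) (f (k, .nd j ⟨y' :: y :: l, h'⟩)) := by
    intro y' h' hb'
    have h1 := ndx_len D h
    simp only [List.length_cons] at h1
    exact ihn (D.ra j - (y :: l).length) (by simp only [List.length_cons]; omega) h'
      (by simp only [List.length_cons]; omega) hb' rfl
  have claim := PL_claim D nx hS k j h hl ih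
  have hdeep : D.R ≤ dpD D (k, ZX.nd j ⟨y :: l, h⟩) := (dpD_nd D k j _).mpr hl
  have hbij : Set.BijOn (v (k, .nd j ⟨y :: l, h⟩)) (H.neighborSet y)
      (H.neighborSet (f (k, .nd j ⟨y :: l, h⟩))) := hS.bij _ hdeep
  have hq : H.Adj y (D.hd j l) := (ndx_adj D h).symm
  have hvq : v (k, .nd j ⟨y :: l, h⟩) (D.hd j l) = f (k, .nd j ⟨l, ndx_tail D h⟩) :=
    hS.con (k, .nd j ⟨y :: l, h⟩) (D.hd j l) _ hdeep hq
      (nb_par D nx k (j := j) (l := ⟨y :: l, h⟩) (List.cons_ne_nil _ _))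
  have hbq : Bg H y (D.hd j l) := bg_symm hb
  have hne : ∀ t, NB H y t → t ≠ D.hd j l := by
    rintro t ht rfl
    exact nb_not_bg ht hbq
  rcases adj_cases (hbij.mapsTo hq : H.Adj (f (k, .nd j ⟨y :: l, h⟩)) _) with hN | hB
  · exfalso
    by_cases hex : ∃ y', NB H y y'
    · obtain ⟨y', hy'⟩ := hex
      obtain ⟨φ, hφ, -⟩ := (claim y' hy'.1 (hne y' hy')).1 hy'
      have hcard := nbs_card φ y
      rw [hφ] at hcard
      have hsub : v (k, .nd j ⟨y :: l, h⟩) '' {t | NB H y t} ⊆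
          {t | NB H (f (k, .nd j ⟨y :: l, h⟩)) t} := by
        rintro _ ⟨t, ht, rfl⟩
        exact nb_typ ((claim t ht.1 (hne t ht)).1 ht) ht
      have hinj : Set.InjOn (v (k, .nd j ⟨y :: l, h⟩)) {t | NB H y t} :=
        hbij.injOn.mono fun t ht => ht.1
      have hc2 : (v (k, .nd j ⟨y :: l, h⟩) '' {t | NB H y t}).ncard =
          {t | NB H y t}.ncard := hinj.ncard_image
      have heq := Set.eq_of_subset_of_ncard_le hsub (by rw [hc2, hcard]) (Set.toFinite _)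
      have hmem : v (k, .nd j ⟨y :: l, h⟩) (D.hd j l) ∈
          v (k, .nd j ⟨y :: l, h⟩) '' {t | NB H y t} := by
        rw [heq]; exact hN
      obtain ⟨t, ht, hte⟩ := hmem
      exact hne t ht (hbij.injOn ht.1 hq hte)
    · obtain ⟨c', hc1, hc2⟩ := nb_two hN
      obtain ⟨y', hy', rfl⟩ := hbij.surjOn hc2.1
      have hyq : y' ≠ D.hd j l := by
        rintro rfl; exact hc1 rfl
      rcases adj_cases (show H.Adj y y' from hy') with hn' | hb'
      · exact hex ⟨y', hn'⟩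
      · exact nb_not_bg hc2 ((claim y' hy' hyq).2 hb')
  · rw [hvq] at hB
    exact bg_symm hB

end Pool.Agent.LHD
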