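import Pool.Agent.LHD.Defs
import Pool.Agent.LHD.Bg1
import Pool.Agent.LHD.NdB
import Pool.Agent.LHD.NdC
import Pool.Agent.LHD.BrX

/-!
# The value of the marked nodes

`sheet`: the vertices `(k, ds z u σ x)`, `x ∈ V`: `BrS H univ (D2 z (pA) (pB)) (fun x => f (k, ds z u σ x)) (fun x y => v (k, ds z u σ x) y)`: `bij` by `hS.bij` (the depth is `R + 1`), `eq` by `hS.con` and `nb_ds_in`. The darts in `D2` are ports with lines (`lnX`; `H.Adj` by `tr_AB`) and not bridges, so they are typed (`hS.typ`). `br_tr` (`tr_AB`): `v (ds .. pA) z = v (ds .. pB) z`. By `hS.con`, `nb_dsA`, `nb_dsB` these are `f (tA ..)` and `f w` if `tB .. = some w`.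
`spine`: let `z` be thick. `g (k, u) = f (k, st z u false)`. `sheet` for `σ = 0`, `nx (k, u)`: `tA = (k, st z u false)`, `tB` = the vertex `st z .. false` of `nx (k, u)`: `g (nx (k, u)) = g (k, u)`. So `g` is constant (`hx`). `σ = 1`: `f (k, st z u false) = f (k, st z u true)`. `σ = 2`, if `mkd u.1 u.2.1 ∧ hd = z`: `f (k, st z u true) = f (k, nd u.1 u.2)`. So `f (k, nd j l) = g (k, ⟨j, l⟩)` for marked nodes with `hd l = z`. `Ψ z` = the constant
value of `g` if `z` is thick and there is some `(k, u)`, otherwise anything.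
-/

namespace Pool.Agent.LHD

open Pool.Agent.LIH Pool.Agent.LHA
open Pool.Agent.LHC (Rg DeepN De Br CZ Ctr nxt nxG glueS sAdj LN LC LO)

variable {V : Type} [Finite V] {H : SimpleGraph V} (hc : H.Connected) (D : DX H) {κ : Type}
  (nx : Equiv.Perm (κ × D.U)) {f : κ × ZX D → V} {v : κ × ZX D → V → V}
  (hS : Sl H (coreD D nx) (lnD D) (fun u => D.R ≤ dpD D u) f v)

include hc hS

theorem sheet (k : κ) (z : TK H) (u : D.U) (σ : Fin 3) (w : κ × ZX D)
    (hw : tB D k z u σ = some w) : f (tA D nx k z u σ) = f w := by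
  have hT := tr_AB D z.2 u σ
  have hAz : H.Adj z.1 (D.pA z.1 u σ) := hT.1.1
  have hBz : H.Adj z.1 (D.pB z.1 u σ) := hT.2.1.1
  have hD2 : ∀ x y, D2 z.1 (D.pA z.1 u σ) (D.pB z.1 u σ) x y → NB H x y := by
    intro x y h
    rcases h with (⟨rfl, rfl⟩ | ⟨rfl, rfl⟩) | (⟨rfl, rfl⟩ | ⟨rfl, rfl⟩)
    · exact hT.1
    · exact nb_symm hT.1
    · exact hT.2.1
    · exact nb_symm hT.2.1
  have hdp : ∀ x, D.R ≤ dpD D ((k, .ds z u σ x) : κ × ZX D) := fun x => Nat.le_succ _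
  have hB : BrS H Set.univ (D2 z.1 (D.pA z.1 u σ) (D.pB z.1 u σ)) (fun x => f (k, .ds z u σ x))
      (fun x y => v (k, .ds z u σ x) y) := by
    refine ⟨?_, ?_⟩
    · intro x _
      exact hS.bij (k, .ds z u σ x) (hdp x)
    · intro x _ y _ ha hn
      exact hS.con (k, .ds z u σ x) y _ (hdp x) ha (nb_ds_in D nx k z u σ hn)
  have hb := br_tr hc hT hB (fun x y h =>
    hS.typ (k, .ds z u σ x) y ⟨(hD2 x y h).1, h⟩ (hD2 x y h))
  have h1 : v (k, .ds z u σ (D.pA z.1 u σ)) z.1 = f (tA D nx k z u σ) :=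
    hS.con (k, .ds z u σ (D.pA z.1 u σ)) z.1 _ (hdp _) hAz.symm (nb_dsA D nx k z u σ)
  have h2 : v (k, .ds z u σ (D.pB z.1 u σ)) z.1 = f w :=
    hS.con (k, .ds z u σ (D.pB z.1 u σ)) z.1 _ (hdp _) hBz.symm ((nb_dsB D nx k z u σ).trans hw)
  rw [← h1, ← h2]
  exact hb

theorem spine (hx : Ctr nx) : ∃ Ψ : V → V, ∀ k j (l : D.N j), D.mkd j l.1 →
    f (k, .nd j l) = Ψ (D.hd j l.1) := by
  classical
  have h0 : ∀ (z : TK H) (q q' : κ × D.U), f (q.1, .st z q.2 false) = f (q'.1, .st z q'.2 false) := by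
    intro z
    refine hx V (fun q => f (q.1, .st z q.2 false)) ?_
    intro q
    have h := sheet hc D nx hS (nx q).1 z (nx q).2 0 ((nx q).1, .st z (nx q).2 false) rfl
    have e : tA D nx (nx q).1 z (nx q).2 0 = (q.1, .st z q.2 false) := by
      change ((nx.symm ((nx q).1, (nx q).2)).1, (.st z (nx.symm ((nx q).1, (nx q).2)).2 false : ZX D)) = _
      rw [Prod.mk.eta, Equiv.symm_apply_apply]
    rw [e] at h
    exact h.symm
  refine ⟨fun x => if h : Th H x ∧ Nonempty (κ × D.U) then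
    f ((Classical.choice h.2).1, .st ⟨x, h.1⟩ (Classical.choice h.2).2 false) else x, ?_⟩
  intro k j l hm
  have hne : Nonempty (κ × D.U) := ⟨(k, ⟨j, l⟩)⟩
  have hth : Th H (D.hd j l.1) := hm.2
  have h1 := sheet hc D nx hS k ⟨D.hd j l.1, hth⟩ ⟨j, l⟩ 1 (k, .st ⟨D.hd j l.1, hth⟩ ⟨j, l⟩ true) rfl
  have h2 := sheet hc D nx hS k ⟨D.hd j l.1, hth⟩ ⟨j, l⟩ 2 (k, .nd j l) (by
    change (if D.mkd j l.1 ∧ D.hd j l.1 = D.hd j l.1 then some (k, (.nd j l : ZX D)) else none) = _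
    rw [if_pos ⟨hm, rfl⟩])
  have h1' : f (k, .st ⟨D.hd j l.1, hth⟩ ⟨j, l⟩ false) = f (k, .st ⟨D.hd j l.1, hth⟩ ⟨j, l⟩ true) := h1
  have h2' : f (k, .st ⟨D.hd j l.1, hth⟩ ⟨j, l⟩ true) = f (k, .nd j l) := h2
  simp only
  rw [dif_pos ⟨hth, hne⟩, ← h2', ← h1']
  exact h0 ⟨D.hd j l.1, hth⟩ (k, ⟨j, l⟩) (Classical.choice hne)

end Pool.Agent.LHD
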