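import Pool.Agent.LHD.Defs
import Pool.Agent.LHD.Bg1
import Pool.Agent.LHD.NdB
import Pool.Agent.LHD.NdC
import Pool.Agent.LHD.WDe
import Pool.Agent.LHD.WSp
import Pool.Agent.LHD.PL

/-!
# The solutions on the trees

`spine` gives `Ψ`. `f' k j l = f (k, nd j ⟨l, h⟩)` if `h : NdX j l` and anything otherwise, in the same way `v' k j l y = v (k, nd j ⟨l, h⟩) y`. Let `u = (k, nd j l)`. `bij`: `hS.bij` (`dpD_nd`). `par`: `hS.con`, `nb_par` (`dpD_nd` for `y :: l`). `chd`: `hS.con`, `nb_chd`. `typ`: the port `y` of `l` has a line (third alternative of `lnX`: `H.Adj`, `NB`, it is not the parent port by `ndx_ne`, `lv j ≤ |l|`): `hS.typ`, and `v u y = f (child)` (`chd`).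
`brg`: `bridge_down`. `mrk`: `Ψ`. `adj`: `hS.adj` with `nb_chd`. `inj`: `hS.inj` with `nb_chd`. `inj'`: `hS.inj` at the node `y :: l` with the ports `y'` (child, `nb_chd`) and `hd j l` (parent, `nb_par`): `y' = hd j l`, but `ndx_ne`.
-/

namespace Pool.Agent.LHD

open Pool.Agent.LIH Pool.Agent.LHA
open Pool.Agent.LHC (Rg DeepN De Br CZ Ctr nxt nxG glueS sAdj LN LC LO)

theorem ts_exists {V : Type} [Finite V] {H : SimpleGraph V} (hc : H.Connected) (D : DX H)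
    {κ : Type} (nx : Equiv.Perm (κ × D.U)) (hx : Ctr nx) {f : κ × ZX D → V}
    {v : κ × ZX D → V → V}
    (hS : Sl H (coreD D nx) (lnD D) (fun u => D.R ≤ dpD D u) f v) :
    ∃ (f' : κ → JX V → List V → V) (v' : κ → JX V → List V → V → V) (Ψ : V → V),
      TS D κ f' v' Ψ ∧ ∀ k j (l : D.N j), f' k j l.1 = f (k, .nd j l) := by
  classical
  obtain ⟨Ψ, hΨ⟩ := spine hc D nx hS hx
  obtain ⟨f', hf'⟩ : ∃ f' : κ → JX V → List V → V, f' = fun k j l =>
    if h : D.NdX j l then f (k, .nd j ⟨l, h⟩) else D.hd j l := ⟨_, rfl⟩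
  obtain ⟨v', hv'⟩ : ∃ v' : κ → JX V → List V → V → V, v' = fun k j l y =>
    if h : D.NdX j l then v (k, .nd j ⟨l, h⟩) y else y := ⟨_, rfl⟩
  have ef : ∀ k j l (h : D.NdX j l), f' k j l = f (k, .nd j ⟨l, h⟩) := by
    intro k j l h
    rw [hf']
    exact dif_pos h
  have ev : ∀ k j l (h : D.NdX j l) y, v' k j l y = v (k, .nd j ⟨l, h⟩) y := by
    intro k j l h y
    rw [hv']
    exact dif_pos h
  have echd : ∀ k j y l (h : D.NdX j (y :: l)), D.lv j ≤ l.length →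
      v (k, .nd j ⟨l, ndx_tail D h⟩) y = f (k, .nd j ⟨y :: l, h⟩) := by
    intro k j y l h hl
    exact hS.con (k, .nd j ⟨l, ndx_tail D h⟩) y (k, .nd j ⟨y :: l, h⟩)
      ((dpD_nd D k j ⟨l, ndx_tail D h⟩).2 hl) (ndx_adj D h)
      (nb_chd D nx k (l := ⟨l, ndx_tail D h⟩) h)
  refine ⟨f', v', Ψ, ⟨?_, ?_, ?_, ?_, ?_, ?_, ?_, ?_, ?_⟩, ?_⟩
  · intro k j l h hl
    have h1 := hS.bij (k, .nd j ⟨l, h⟩) ((dpD_nd D k j ⟨l, h⟩).2 hl)
    rw [ef k j l h]
    have h2 : v' k j l = v (k, .nd j ⟨l, h⟩) := by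
      funext y
      exact ev k j l h y
    rw [h2]
    exact h1
  · intro k j y l h hl
    rw [ev k j _ h, ef k j l (ndx_tail D h)]
    exact hS.con (k, .nd j ⟨y :: l, h⟩) (D.hd j l) (k, .nd j ⟨l, ndx_tail D h⟩)
      ((dpD_nd D k j ⟨y :: l, h⟩).2 hl) (ndx_adj D h).symm
      (nb_par D nx k (l := ⟨y :: l, h⟩) (List.cons_ne_nil y l))
  · intro k j y l h hl
    rw [ev k j l (ndx_tail D h), ef k j _ h]
    exact echd k j y l h hl
  · intro k j y l h hl hb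
    rw [ef k j l (ndx_tail D h), ef k j _ h, ← echd k j y l h hl]
    refine hS.typ (k, .nd j ⟨l, ndx_tail D h⟩) y ⟨ndx_adj D h, Or.inr (Or.inr ⟨hb, Or.inr ⟨?_, hl⟩⟩)⟩ hb
    rintro ⟨h1, h2⟩
    exact ndx_ne D h h1 h2
  · intro k j y l h hl hb
    rw [ef k j l (ndx_tail D h), ef k j _ h]
    exact bridge_down D nx hS k j h hl hb
  · intro k j l h hm
    rw [ef k j l h]
    exact hΨ k j ⟨l, h⟩ hm
  · intro k j y l h
    rw [ef k j l (ndx_tail D h), ef k j _ h]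
    exact hS.adj (k, .nd j ⟨l, ndx_tail D h⟩) y (k, .nd j ⟨y :: l, h⟩) (ndx_adj D h)
      (nb_chd D nx k (l := ⟨l, ndx_tail D h⟩) h)
  · intro k j y y' l h h' he
    rw [ef k j _ h, ef k j _ h'] at he
    exact hS.inj (k, .nd j ⟨l, ndx_tail D h⟩) y y' (k, .nd j ⟨y :: l, h⟩) (k, .nd j ⟨y' :: l, h'⟩)
      (ndx_adj D h) (ndx_adj D h') (nb_chd D nx k (l := ⟨l, ndx_tail D h⟩) h)
      (nb_chd D nx k (l := ⟨l, ndx_tail D h⟩) h') he
  · intro k j y y' l h he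
    have h1 : D.NdX j (y :: l) := ndx_tail D h
    rw [ef k j _ h, ef k j l (ndx_tail D h1)] at he
    have h2 := hS.inj (k, .nd j ⟨y :: l, h1⟩) y' (D.hd j l) (k, .nd j ⟨y' :: y :: l, h⟩)
      (k, .nd j ⟨l, ndx_tail D h1⟩)
      (ndx_adj D h) (ndx_adj D h1).symm (nb_chd D nx k (l := ⟨y :: l, h1⟩) h)
      (nb_par D nx k (l := ⟨y :: l, h1⟩) (List.cons_ne_nil y l)) he
    exact ndx_ne D h (List.cons_ne_nil y l) h2
  · intro k j l
    exact ef k j l.1 l.2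

end Pool.Agent.LHD
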