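import Pool.Agent.LHD.Defs
import Pool.Agent.LHD.FinX
import Pool.Agent.LHD.CtS
import Pool.Agent.LHD.WOk
import Pool.Agent.LHD.WLn
import Pool.Agent.LHD.WDe

/-!
# The structure `Sl` for the world

`clt_sl` for `P = coreD D nx`, `ln = lnD D`, `δ = dpD D`, `N = D.R` (`gD D nx = ((coreD D nx).clt (lnD D) D.r).G H` by definition): `coreD_ok`, `lnD_ok`, `dpD_full`, `dpD_lip`, `dpD_le` (`R + 1 ≤ r + 2`), `lnD_dep`, `lnD_nb`; `finZX`.
-/

namespace Pool.Agent.LHD

open Pool.Agent.LIH Pool.Agent.LHA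
open Pool.Agent.LHC (Rg DeepN De Br CZ Ctr nxt nxG glueS sAdj LN LC LO)

theorem world_sl {V : Type} [Finite V] {H : SimpleGraph V} (hc : H.Connected) (D : DX H)
    {κ : Type} [Finite κ] (nx : Equiv.Perm (κ × D.U)) (hN : DeepN H D.R) (hr : D.R ≤ D.r + 1)
    {F : κ × CZ (ZX D) V D.r → V} (hF : LocInj (gD D nx) H F) :
    Sl H (coreD D nx) (lnD D) (fun u => D.R ≤ dpD D u) (fun u => F (u.1, .inl u.2))
      (fun u y => (cvD D nx).vl F (u.1, .inl u.2) y) :=
  clt_sl (δ := dpD D) hc hN (coreD_ok D nx) (lnD_ok D nx) (fun u h y hy hn => dpD_full D nx u h y hy hn)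
    (fun u y w hy hw => dpD_lip D nx u y w hy hw) (fun u => (dpD_le D u).trans (by omega)) hr
    (fun u y h => lnD_dep D u y h) (fun u y w h hw => lnD_nb D nx u y w h hw) hF

end Pool.Agent.LHD
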