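import Pool.Agent.LHD.Defs
import Pool.Agent.LHD.NdB
import Pool.Agent.LHD.WSl
import Pool.Agent.LHD.TSx
import Pool.Agent.LHD.StA
import Pool.Agent.LHD.B2
import Pool.Agent.LHD.RtN

/-!
# The pins force the values at the roots

If `κ` is empty take the identity. Otherwise let `k0 : κ`; `world_sl` (`F = f`), `ts_exists` gives `f', v', Ψ`; `ps_auto` gives `Φ'`, `exact_low` gives `f' k (inl i) l = Φ' (hd l)` for `|l| ≤ R + 1`, so `f (k, roD i) = Φ' (a4 i)` and `f (k, inl (nd (inl i) [y])) = Φ' y`. `Φ = Φ'.symm`. The image of the neighbours of the root (`root_adj`) is the set of the `y ∈ N(a4 i)`, `y ∉ F4 i` (`root_in` for the existence of the node `[y]`).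
-/

namespace Pool.Agent.LHD

open Pool.Agent.LIH Pool.Agent.LHA
open Pool.Agent.LHC (Rg DeepN De Br CZ Ctr nxt nxG glueS sAdj LN LC LO)

theorem force_D {V : Type} [Finite V] {H : SimpleGraph V} (hc : H.Connected)
    (h3 : ∀ v, 3 ≤ (H.neighborSet v).ncard) (D : DX H)
    (hF : ∀ i, D.F4 i ⊂ H.neighborSet (D.a4 i)) {κ : Type} [Finite κ]
    (nx : Equiv.Perm (κ × D.U)) (hx : Ctr nx) (hN : DeepN H D.R) (hr : D.R ≤ D.r + 1) :
    ForceX H (gD D nx) (roD D) D.a4 D.F4 := by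
  intro F hFl
  rcases isEmpty_or_nonempty κ with he | ⟨⟨k0⟩⟩
  · exact ⟨RelIso.refl _, fun k => isEmptyElim k⟩
  · have hS := world_sl hc D nx hN hr hFl
    obtain ⟨f', v', Ψ, hT, hf'⟩ := ts_exists hc D nx hx hS
    obtain ⟨Φ', hΦ'⟩ := ps_auto hc h3 hT k0
    have h0 : ∀ k i, F (k, roD D i) = Φ' (D.a4 i) := by
      intro k i
      have h1 := exact_low hc h3 hF hT k0 hΦ' k i (l := []) trivial (Nat.zero_le _)
      have h2 := hf' k (.inl i) ⟨[], trivial⟩
      exact h2.symm.trans h1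
    have h1 : ∀ k i y (hn : D.NdX (.inl i) [y]), F (k, .inl (.nd (.inl i) ⟨[y], hn⟩)) = Φ' y := by
      intro k i y hn
      have h1 := exact_low hc h3 hF hT k0 hΦ' k i (l := [y]) hn (by
        simp only [List.length_cons, List.length_nil]
        omega)
      have h2 := hf' k (.inl i) ⟨[y], hn⟩
      exact h2.symm.trans h1
    refine ⟨Φ'.symm, fun k i => ⟨?_, ?_⟩⟩
    · rw [h0]
      exact Φ'.symm_apply_apply _
    · ext y
      constructor
      · rintro ⟨q, hq, rfl⟩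
        obtain ⟨y, hy, hyF, hn, rfl⟩ := (root_adj D nx k i q).1 hq
        show Φ'.symm (F _) ∈ _
        rw [h1, Φ'.symm_apply_apply]
        exact ⟨hy, hyF⟩
      · rintro ⟨hy, hyF⟩
        obtain ⟨hn, -⟩ := root_in D nx k i hy hyF
        refine ⟨(k, .inl (.nd (.inl i) ⟨[y], hn⟩)), (root_adj D nx k i _).2 ⟨y, hy, hyF, hn, rfl⟩, ?_⟩
        show Φ'.symm (F _) = y
        rw [h1, Φ'.symm_apply_apply]

end Pool.Agent.LHD
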