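import Pool.Agent.LHD.Defs

/-!
# Gluing

Compare `LHA/Glue.lean` and `LHC/BGl.lean`. `sAdj` is symmetric and irreflexive, so adjacency in `glueS` is `sAdj`.
(→) Let `f` be locally injective on the glued graph. `f' (k, z) = f (k, inl z)` is locally injective on `Gp`; `ForceX` gives `Φ`. `c k y = Φ (f (k, inr y))`. `hom`, `inj`: local injectivity at `(k, inr y)`. `mem`: let `att k y l i`: `(k, inr y)` is a neighbour of `(l, inl (ro i))`, so `c k y ∈ N(a i)`; if `c k y ∉ F i` then by `ForceX` there is a neighbour `q` of `(l, ro i)` in `Gp` with `Φ (f' q) = c k y`, but `q` and `(k, inr y)` are different neighbours of `(l, inl (ro i))`: contradiction.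
`ne`: `(k, inr y')` and `(l, inl (ro i))` are different neighbours of `(k, inr y)`, the value of the second one is `a i`. `ne'`: two neighbours of `(k, inr y)` with the same value are equal, `ro` is injective. `dis`: the same at `(l, inl (ro i))`.
(←) `FlexX` gives `p`. `f (k, inl z) = p (k, z)`, `f (k, inr y) = c k y`. Edges: attachments: `c k y ∈ F i ⊆ N(a i)`. Injectivity at `(l, inl z)`: two neighbours in `Gp`: `p` is locally injective; if `z = ro i` (`i` is unique): a neighbour in `Gp` has its value in `N(a i) \ F i` and an attached vertex in `F i`; two attached vertices: `dis`. At `(k, inr y)`: `inj`, `ne`, `ne'`.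
-/

namespace Pool.Agent.LHD

open Pool.Agent.LIH Pool.Agent.LHA
open Pool.Agent.LHC (Rg DeepN De Br CZ Ctr nxt nxG glueS sAdj LN LC LO)

theorem GlX_inj {V W' : Type} {H : SimpleGraph V} {G : SimpleGraph W'} {f : W' → V}
    (hf : LocInj G H f) {v x y : W'} (hx : G.Adj v x) (hy : G.Adj v y) (h : f x = f y) : x = y :=
  hf.2 v (by simpa using hx) (by simpa using hy) h

theorem GlX_adj {κ Z Y ι : Type} (Gp : SimpleGraph (κ × Z)) (ro : ι → Z) (B : SimpleGraph Y)
    (att : κ → Y → κ → ι → Prop) (u v : κ × (Z ⊕ Y)) :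
    (glueS Gp ro B att).Adj u v ↔ sAdj Gp ro B att u v := by
  have hs : ∀ u v, sAdj Gp ro B att u v → sAdj Gp ro B att v u := by
    rintro ⟨k, x | x⟩ ⟨l, y | y⟩ h
    · exact SimpleGraph.Adj.symm h
    · exact h
    · exact h
    · exact ⟨h.1.symm, h.2.symm⟩
  have hi : ∀ u, ¬ sAdj Gp ro B att u u := by
    rintro ⟨k, x | x⟩ h
    · exact Gp.irrefl h
    · exact B.irrefl h.2
  unfold glueS
  rw [SimpleGraph.fromRel_adj]
  constructor
  · rintro ⟨_, h | h⟩
    · exact h
    · exact hs _ _ h
  · intro h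
    refine ⟨?_, Or.inl h⟩
    rintro rfl
    exact hi _ h

theorem glueX_iff {V κ Z Y : Type} {H : SimpleGraph V} (Gp : SimpleGraph (κ × Z))
    (ro : Fin 4 → Z) (hro : Function.Injective ro) (B : SimpleGraph Y)
    (att : κ → Y → κ → Fin 4 → Prop) (a : Fin 4 → V) (F : Fin 4 → Set V)
    (hF : ∀ i, F i ⊆ H.neighborSet (a i)) (h1 : FlexX H Gp ro a F) (h2 : ForceX H Gp ro a F) :
    (∃ f, LocInj (glueS Gp ro B att) H f) ↔ ∃ c : κ → Y → V, GoodCol H a F B att c := by
  constructor
  · rintro ⟨f, hf⟩
    have hP : LocInj Gp H (fun z : κ × Z => f (z.1, .inl z.2)) := by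
      refine ⟨fun u v huv => hf.1 _ _ ?_, ?_⟩
      · rw [GlX_adj]; exact huv
      · intro v x hx y hy hxy
        have hx' : (glueS Gp ro B att).Adj (v.1, .inl v.2) (x.1, .inl x.2) := by
          rw [GlX_adj]; exact hx
        have hy' : (glueS Gp ro B att).Adj (v.1, .inl v.2) (y.1, .inl y.2) := by
          rw [GlX_adj]; exact hy
        have := GlX_inj hf hx' hy' hxy
        rw [Prod.mk.injEq, Sum.inl.injEq] at this
        exact Prod.ext this.1 this.2
    obtain ⟨Φ, hΦ⟩ := h2 _ hP
    have hatt : ∀ {k y l i}, att k y l i →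
        (glueS Gp ro B att).Adj (k, .inr y) (l, .inl (ro i)) := by
      intro k y l i h
      rw [GlX_adj]
      exact ⟨i, rfl, h⟩
    have hB : ∀ {k y y'}, B.Adj y y' → (glueS Gp ro B att).Adj (k, .inr y) (k, .inr y') := by
      intro k y y' h
      rw [GlX_adj]
      exact ⟨rfl, h⟩
    have hval : ∀ l i, Φ (f (l, .inl (ro i))) = a i := fun l i => (hΦ l i).1
    refine ⟨fun k y => Φ (f (k, .inr y)), ?_, ?_, ?_, ?_, ?_, ?_⟩
    · intro k y y' h
      exact Φ.map_rel_iff.2 (hf.1 _ _ (hB h))
    · intro k y y1 y2 h1 h2 h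
      have := GlX_inj hf (hB h1) (hB h2) (Φ.injective h)
      simpa using this
    · intro k y l i h
      by_contra hnF
      have hmem : Φ (f (k, .inr y)) ∈ H.neighborSet (a i) \ F i := by
        refine ⟨?_, hnF⟩
        rw [SimpleGraph.mem_neighborSet, ← hval l i]
        exact Φ.map_rel_iff.2 (hf.1 _ _ (hatt h)).symm
      rw [← (hΦ l i).2] at hmem
      obtain ⟨q, hq, he⟩ := hmem
      have hq2 : (glueS Gp ro B att).Adj (l, .inl (ro i)) (q.1, .inl q.2) := by
        rw [GlX_adj]; exact hq
      have := GlX_inj hf hq2 (hatt h).symm (Φ.injective he)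
      simp at this
    · intro k y y' l i h h' he
      rw [← hval l i] at he
      have := GlX_inj hf (hB h) (hatt h') (Φ.injective he)
      simp at this
    · intro k y l i l' i' h h' he
      rw [← hval l i, ← hval l' i'] at he
      have := GlX_inj hf (hatt h) (hatt h') (Φ.injective he)
      simp only [Prod.mk.injEq, Sum.inl.injEq] at this
      exact ⟨this.1, hro this.2⟩
    · intro l i k y k' y' h h' he
      have := GlX_inj hf (hatt h).symm (hatt h').symm (Φ.injective he)
      simpa using this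
  · rintro ⟨c, hc⟩
    obtain ⟨p, hp, hpr⟩ := h1
    have hadj : ∀ k y l i, att k y l i → H.Adj (a i) (c k y) := fun k y l i h =>
      hF i (hc.mem k y l i h)
    refine ⟨fun z => match z with
      | (l, .inl x) => p (l, x)
      | (k, .inr y) => c k y, ?_, ?_⟩
    · rintro ⟨k, x1 | x1⟩ ⟨l, y | y⟩ h <;> rw [GlX_adj] at h
      · exact hp.1 _ _ h
      · obtain ⟨i, rfl, h⟩ := h
        show H.Adj (p (k, ro i)) (c l y)
        rw [(hpr k i).1]
        exact hadj _ _ _ _ h
      · obtain ⟨i, rfl, h⟩ := h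
        show H.Adj (c k x1) (p (l, ro i))
        rw [(hpr l i).1]
        exact (hadj _ _ _ _ h).symm
      · obtain ⟨h1, h2⟩ := h
        subst h1
        exact hc.hom _ _ _ h2
    · rintro ⟨k, v | v⟩ ⟨k1, x1 | x1⟩ hx ⟨k2, y | y⟩ hy he
      · rw [SimpleGraph.mem_neighborSet, GlX_adj] at hx hy
        have e := GlX_inj hp hx hy he
        rw [Prod.mk.injEq] at e
        rw [e.1, e.2]
      · rw [SimpleGraph.mem_neighborSet, GlX_adj] at hx hy
        obtain ⟨i, hi, hi'⟩ := hy
        subst hi
        have hm : p (k1, x1) ∈ H.neighborSet (a i) \ F i := by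
          rw [← (hpr k i).2]
          exact ⟨(k1, x1), hx, rfl⟩
        have h3 := hc.mem _ _ _ _ hi'
        have he' : p (k1, x1) = c k2 y := he
        rw [← he'] at h3
        exact (hm.2 h3).elim
      · rw [SimpleGraph.mem_neighborSet, GlX_adj] at hx hy
        obtain ⟨i, hi, hi'⟩ := hx
        subst hi
        have hm : p (k2, y) ∈ H.neighborSet (a i) \ F i := by
          rw [← (hpr k i).2]
          exact ⟨(k2, y), hy, rfl⟩
        have h3 := hc.mem _ _ _ _ hi'
        have he' : c k1 x1 = p (k2, y) := he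
        rw [he'] at h3
        exact (hm.2 h3).elim
      · rw [SimpleGraph.mem_neighborSet, GlX_adj] at hx hy
        obtain ⟨i, hi, hi1⟩ := hx
        obtain ⟨j, hj, hj1⟩ := hy
        subst hi
        have e := hro hj
        subst e
        obtain ⟨e1, e2⟩ := hc.dis _ _ _ _ _ _ hi1 hj1 he
        subst e1 e2
        rfl
      · rw [SimpleGraph.mem_neighborSet, GlX_adj] at hx hy
        obtain ⟨i, hi, hi1⟩ := hx
        obtain ⟨j, hj, hj1⟩ := hy
        subst hi hj
        change p (k1, ro i) = p (k2, ro j) at he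
        rw [(hpr k1 i).1, (hpr k2 j).1] at he
        obtain ⟨e1, e2⟩ := hc.ne' _ _ _ _ _ _ hi1 hj1 he
        subst e1 e2
        rfl
      · rw [SimpleGraph.mem_neighborSet, GlX_adj] at hx hy
        obtain ⟨i, hi, hi1⟩ := hx
        obtain ⟨hy1, hy2⟩ := hy
        subst hi hy1
        change p (k1, ro i) = c k y at he
        rw [(hpr k1 i).1] at he
        exact (hc.ne _ _ _ _ _ hy2 hi1 he.symm).elim
      · rw [SimpleGraph.mem_neighborSet, GlX_adj] at hx hy
        obtain ⟨i, hi, hi1⟩ := hy
        obtain ⟨hx1, hx2⟩ := hx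
        subst hi hx1
        change c k x1 = p (k2, ro i) at he
        rw [(hpr k2 i).1] at he
        exact (hc.ne _ _ _ _ _ hx2 hi1 he).elim
      · rw [SimpleGraph.mem_neighborSet, GlX_adj] at hx hy
        obtain ⟨hx1, hx2⟩ := hx
        obtain ⟨hy1, hy2⟩ := hy
        subst hx1 hy1
        have e := hc.inj _ _ _ _ hx2 hy2 he
        subst e
        rfl

end Pool.Agent.LHD
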