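import Pool.Agent.LHD.Defs
import Pool.Agent.LHD.Bg1
import Pool.Agent.LHD.Av1
import Pool.Agent.LHD.Nb2

/-!
# The ports of the units

`tr_symm`: in the third case `c ∈ Ex H z c'` (`ex_symm`), `Ex H z c' = Ex H z c` (`ex_eq`).
`unit_ports`. Case 1: there is `c` with `NB H z c` and `3 ≤ |Ex H z c|`: let `c0, c1, c2 ∈ Ex H z c` be different; all elements `w` of `Ex H z c` satisfy `NB H z w` (`ex_nb`) and `Ex H z w = Ex H z c` (`ex_eq`). `Tr H z c0 c1`. For `y`: `d1 = c2`, `e1 = c0`, `d2` an element of `Ex H z c` different from `c0` and `y` (at least 3 elements);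
`Tr H z d2 y` by the first alternative.
Case 2: `|Ex H z c| = 2` for all `c` with `NB H z c` (`≥ 2` by `nb_iff_ex`). So every such `c` has a partner `c̄ ≠ c`, `Ex H z c = {c, c̄}`, `Tr H z c c̄` (third alternative; `NB H z c̄` by `ex_nb`), the partner of `c̄` is `c`. Take some `c0` and `c1 = c̄0`. As there are at least three `NB` neighbours (`Th`) there is `d` with `NB H z d`, `d ≠ c0, c1`, `d' = d̄`; `d' ≠ c0, c1` (otherwise
`d = c̄0` or ..). For `y`: `d2 = ȳ`, and `(d1, e1) = (d', d)` if `y = d` and `(d, d')` otherwise. `d2 ≠ e1`: if `y = d` then `d2 = d' ≠ d`. If `y ≠ d` then `d2 = ȳ ≠ d'`, because `ȳ = d'` implies `y = d`.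
-/

namespace Pool.Agent.LHD

open Pool.Agent.LIH Pool.Agent.LHA
open Pool.Agent.LHC (Rg DeepN De Br CZ Ctr nxt nxG glueS sAdj LN LC LO)

variable {V : Type} [Finite V] {H : SimpleGraph V}

omit [Finite V] in
theorem tr_symm {z c c' : V} (h : Tr H z c c') : Tr H z c' c := by
  obtain ⟨h1, h2, h3, h4⟩ := h
  refine ⟨h2, h1, h3.symm, ?_⟩
  rcases h4 with h4 | h4 | ⟨h4, h5⟩
  · exact Or.inr (Or.inl h4)
  · exact Or.inl h4
  · refine Or.inr (Or.inr ⟨ex_symm h1.1 h4, ?_⟩)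
    rw [ex_eq h1.1 h4]
    exact h5

theorem unit_ports {z : V} (hz : Th H z) : ∃ c0 c1, Tr H z c0 c1 ∧ ∀ y, NB H z y →
    ∃ d1 e1 d2, Tr H z d1 e1 ∧ Tr H z d2 y ∧ d1 ≠ c0 ∧ d1 ≠ c1 ∧ d2 ≠ e1 := by
  by_cases hcase : ∃ c, NB H z c ∧ 3 ≤ (Ex H z c).ncard
  · obtain ⟨c, hc, h3⟩ := hcase
    obtain ⟨c0, c1, c2, m0, m1, m2, h01, h02, h12⟩ := (Set.two_lt_ncard_iff (Set.toFinite _)).1 (by omega : 2 < (Ex H z c).ncard)
    have T : ∀ w w', w ∈ Ex H z c → NB H z w' → w ≠ w' → Tr H z w w' := by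
      intro w w' hw hw' hne
      refine ⟨ex_nb hc hw, hw', hne, Or.inl ?_⟩
      rw [ex_eq hc.1 hw]
      exact h3
    refine ⟨c0, c1, T c0 c1 m0 (ex_nb hc m1) h01, ?_⟩
    intro y hy
    by_cases hy1 : y = c1
    · exact ⟨c2, c0, c2, T c2 c0 m2 (ex_nb hc m0) h02.symm, T c2 y m2 hy (by rw [hy1]; exact h12.symm), h02.symm,
        h12.symm, h02.symm⟩
    · exact ⟨c2, c0, c1, T c2 c0 m2 (ex_nb hc m0) h02.symm, T c1 y m1 hy (fun e => hy1 e.symm), h02.symm,
        h12.symm, h01.symm⟩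
  · push Not at hcase
    have hex : ∀ c, NB H z c → ∃ p, p ≠ c ∧ NB H z p ∧ Ex H z c = {c, p} ∧ Tr H z c p := by
      intro c hc
      have h2 := (nb_iff_ex hc.1).1 hc
      have h3 := hcase c hc
      have h4 : (Ex H z c).ncard = 2 := by omega
      obtain ⟨w, hw, hwc⟩ := Set.exists_ne_of_one_lt_ncard (by omega : 1 < (Ex H z c).ncard) c
      refine ⟨w, hwc, ex_nb hc hw, ?_, hc, ex_nb hc hw, hwc.symm, Or.inr (Or.inr ⟨hw, h4⟩)⟩
      symm
      refine Set.eq_of_subset_of_ncard_le ?_ ?_ (Set.toFinite _)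
      · rintro x (rfl | rfl)
        · exact ex_self hc.1
        · exact hw
      · rw [h4, Set.ncard_pair hwc.symm]
    choose! pt h1 h2 h3 h4 using hex
    have hpp : ∀ c, NB H z c → pt (pt c) = c := by
      intro c hc
      have m : pt c ∈ Ex H z c := by
        rw [h3 c hc]
        exact Or.inr rfl
      have e := ex_eq hc.1 m
      have m' : pt (pt c) ∈ Ex H z c := by
        rw [← e, h3 _ (h2 c hc)]
        exact Or.inr rfl
      rw [h3 c hc] at m'
      rcases m' with m' | m'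
      · exact m'
      · exact absurd m' (h1 _ (h2 c hc))
    unfold Th at hz
    obtain ⟨a, b, c', ma, mb, mc, hab, hac, hbc⟩ := (Set.two_lt_ncard_iff (Set.toFinite _)).1
      (by omega : 2 < {y | NB H z y}.ncard)
    have hd : ∃ d, NB H z d ∧ d ≠ a ∧ d ≠ pt a := by
      by_cases hb : b = pt a
      · exact ⟨c', mc, hac.symm, fun e => hbc (hb.trans e.symm)⟩
      · exact ⟨b, mb, hab.symm, hb⟩
    obtain ⟨d, md, hda, hdp⟩ := hd
    have hd1 : pt d ≠ a := by
      intro e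
      apply hdp
      rw [← e, hpp d md]
    have hd2 : pt d ≠ pt a := by
      intro e
      apply hda
      rw [← hpp d md, e, hpp a ma]
    refine ⟨a, pt a, h4 a ma, ?_⟩
    intro y hy
    by_cases hyd : y = d
    · subst hyd
      exact ⟨pt y, y, pt y, tr_symm (h4 y hy), tr_symm (h4 y hy), hd1, hd2, h1 y hy⟩
    · refine ⟨d, pt d, pt y, h4 d md, tr_symm (h4 y hy), hda, hdp, ?_⟩
      intro e
      apply hyd
      rw [← hpp y hy, e, hpp d md]

end Pool.Agent.LHD
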