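import Pool.Agent.LHD.Defs
import Pool.Agent.LHD.Up1
import Pool.Agent.LHD.Eps

/-!
# The ports exist

`unit_ports` and `eps_exists`; `q0 z` any vertex with `NB H z (q0 z)` (`Th H z`: the set has at least three elements; `nb_avoid`). For vertices which are not thick all values are arbitrary (`choose` with hypotheses, or `if`).
-/

namespace Pool.Agent.LHD

open Pool.Agent.LIH Pool.Agent.LHA
open Pool.Agent.LHC (Rg DeepN De Br CZ Ctr nxt nxG glueS sAdj LN LC LO)

theorem pd_exists {V : Type} [Finite V] {H : SimpleGraph V}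
    (h3 : ∀ v, 3 ≤ (H.neighborSet v).ncard) : Nonempty (PD H) := by
  have hA : ∀ z, ∃ c0 c1, Th H z → Tr H z c0 c1 ∧ ∀ y, NB H z y →
      ∃ d1 e1 d2, Tr H z d1 e1 ∧ Tr H z d2 y ∧ d1 ≠ c0 ∧ d1 ≠ c1 ∧ d2 ≠ e1 := by
    intro z
    by_cases hz : Th H z
    · obtain ⟨c0, c1, h⟩ := unit_ports hz
      exact ⟨c0, c1, fun _ => h⟩
    · exact ⟨z, z, fun h => absurd h hz⟩
  choose c0 c1 hc using hA
  have hB : ∀ z y, ∃ d1 e1 d2, Th H z → NB H z y →
      Tr H z d1 e1 ∧ Tr H z d2 y ∧ d1 ≠ c0 z ∧ d1 ≠ c1 z ∧ d2 ≠ e1 := by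
    intro z y
    by_cases hz : Th H z
    · by_cases hy : NB H z y
      · obtain ⟨d1, e1, d2, h⟩ := (hc z hz).2 y hy
        exact ⟨d1, e1, d2, fun _ _ => h⟩
      · exact ⟨z, z, z, fun _ h => absurd h hy⟩
    · exact ⟨z, z, z, fun h => absurd h hz⟩
  choose d1 e1 d2 hd using hB
  have hQ : ∀ z, ∃ q, Th H z → NB H z q := by
    intro z
    by_cases hz : Th H z
    · obtain ⟨q, hq, -, -⟩ := nb_avoid hz z z
      exact ⟨q, fun _ => hq⟩
    · exact ⟨z, fun h => absurd h hz⟩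
  choose q0 hq using hQ
  obtain ⟨e, he1, he2⟩ := eps_exists h3
  exact ⟨{ c0 := c0, c1 := c1, d1 := d1, e1 := e1, d2 := d2, q0 := q0, e := e
           tr0 := fun z hz => (hc z hz).1
           tr1 := fun z y hz hy => (hd z y hz hy).1
           tr2 := fun z y hz hy => (hd z y hz hy).2.1
           ne0 := fun z y hz hy => (hd z y hz hy).2.2.1
           ne1 := fun z y hz hy => (hd z y hz hy).2.2.2.1
           ne2 := fun z y hz hy => (hd z y hz hy).2.2.2.2
           nq := hq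
           en := he1
           ee := he2 }⟩

end Pool.Agent.LHD
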