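import Pool.Agent.LHD.Defs
import Pool.Agent.LHD.NdB
import Pool.Agent.LHD.NdC
import Pool.Agent.LHD.CvB
import Pool.Agent.LHD.WOk
import Pool.Agent.LHD.FinX
import Pool.Agent.LHC.BNx

/-!
# The adjacency relation of the cells in terms of numbers

`Cv.adj_iff` (`coreD_ok`): adjacent means that there is a port with this neighbour. `nb (k, z) y` is `(k, w)` with `w` independent of `k`, except at `st z u false` at `c0` (`→` the unit `nx (k, u)`, `ds z .. 0 c0`) and at `ds z u 0 (pA)` at `z` (`→ st z .. false` of `nx.symm (k, u)`). `Pool.Agent.LHC.nxG_form` for `D.U` (finite, `finUX`): `nxG K U (k, u) = (l, u') ↔ (k = l ∧ N0 u u') ∨ (nxt K k l ∧ N1 u u')`.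
`Q1 z z'`: `∃ t u u', N1 u u' ∧ z = st t u false ∧ z' = ds t u' 0 (c0 t)`. `Q0 z z'`: (`∃ t u u', N0 u u' ∧ ...` the same pairs, in both orders) or the edges inside a cell: a list by cases, or `∃ y, H.Adj (pX z) y ∧ nb' z y = some z'` where `nb' z y` is the second component of `(coreD D nx').nb ((), z) y` for `κ = Unit`, `nx' = 1`, except at the ports named above (where it is `none`). `k = l` can be written as `k.1 = l.1` (`Fin.ext_iff`).
-/

namespace Pool.Agent.LHD

open Pool.Agent.LIH Pool.Agent.LHA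
open Pool.Agent.LHC (Rg DeepN De Br CZ Ctr nxt nxG glueS sAdj LN LC LO)

section

variable {V : Type} {H : SimpleGraph V} (D : DX H)

open Classical in
/-- the neighbours inside a cell which do not depend on the permutation -/
noncomputable def WFm_nb : ZX D → V → Option (ZX D)
  | .nd j l, y =>
      if h : D.mkd j l.1 ∧ y = D.lp j l.1 then some (.ds ⟨D.hd j l.1, h.1.2⟩ ⟨j, l⟩ 2 y)
      else (D.nbX j l y).map (fun w => .nd j w)
  | .st z u false, y =>
      if y = D.c1 z.1 then some (.ds z u 0 y)
      else if y = D.c0 z.1 then none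
      else if y = D.d1 z.1 (D.ep z.1 u) then some (.ds z u 1 y)
      else none
  | .st z u true, y =>
      if y = D.e1 z.1 (D.ep z.1 u) then some (.ds z u 1 y)
      else if y = D.d2 z.1 (D.ep z.1 u) then some (.ds z u 2 y)
      else none
  | .ds z u σ x, y =>
      if x = z.1 ∧ (y = D.pA z.1 u σ ∨ y = D.pB z.1 u σ) then none
      else if x = D.pA z.1 u σ ∧ y = z.1 then
        (if σ = 0 then none else if σ = 1 then some (.st z u false) else some (.st z u true))
      else if x = D.pB z.1 u σ ∧ y = z.1 then (if σ = 0 then some (.st z u false)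
        else if σ = 1 then some (.st z u true) else
          if D.mkd u.1 u.2.1 ∧ D.hd u.1 u.2.1 = z.1 then some (.nd u.1 u.2) else none)
      else some (.ds z u σ y)

theorem WFm_cc (z : TK H) : D.c0 z.1 ≠ D.c1 z.1 := (D.tr0 z.1 z.2).2.2.1

theorem WFm_cz (z : TK H) : D.c0 z.1 ≠ z.1 := (D.tr0 z.1 z.2).1.1.ne'

theorem WFm_iff {κ : Type} (nx : Equiv.Perm (κ × D.U)) (k l : κ) (z z' : ZX D) (y : V) :
    (coreD D nx).nb (k, z) y = some (l, z') ↔ (k = l ∧ WFm_nb D z y = some z') ∨
      (∃ (t : TK H) (u u' : D.U), nx (k, u) = (l, u') ∧ z = .st t u false ∧ y = D.c0 t.1 ∧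
        z' = .ds t u' 0 (D.c0 t.1)) ∨
      (∃ (t : TK H) (u u' : D.U), nx (l, u') = (k, u) ∧ z' = .st t u' false ∧
        z = .ds t u 0 (D.c0 t.1) ∧ y = t.1) := by
  classical
  cases z with
  | nd j t =>
    simp only [reduceCtorEq, false_and, and_false, exists_false, or_false]
    by_cases h : D.mkd j t.1 ∧ y = D.lp j t.1
    · simp only [coreD, WFm_nb, dif_pos h, Option.some.injEq, Prod.mk.injEq]
    · simp only [coreD, WFm_nb, dif_neg h, Option.map_eq_some_iff, Prod.mk.injEq]
      constructor
      · rintro ⟨w, h1, h2, rfl⟩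
        exact ⟨h2, w, h1, rfl⟩
      · rintro ⟨h1, w, h2, rfl⟩
        exact ⟨w, h2, h1, rfl⟩
  | st t u b =>
    cases b with
    | false =>
      rw [WOk_stf]
      have hc := WFm_cc D t
      simp only [WFm_nb, ZX.st.injEq, reduceCtorEq, false_and, and_false, exists_false, or_false]
      by_cases h1 : y = D.c1 t.1
      · have h1' : ¬ y = D.c0 t.1 := fun h => hc (h.symm.trans h1)
        rw [if_pos h1, if_pos h1]
        constructor
        · intro h
          have h2 := Option.some.inj h
          rw [Prod.mk.injEq] at h2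
          exact Or.inl ⟨h2.1, by rw [h2.2]⟩
        · rintro (⟨h2, h3⟩ | ⟨t', u1, u', _, ⟨h3, _⟩, h4, _⟩)
          · rw [h2, Option.some.inj h3]
          · subst h3
            exact absurd h4 h1'
      · by_cases h2 : y = D.c0 t.1
        · rw [if_neg h1, if_pos h2, if_neg h1, if_pos h2]
          constructor
          · intro h
            have h3 := Option.some.inj h
            rw [Prod.mk.injEq] at h3
            refine Or.inr ⟨t, u, (nx (k, u)).2, Prod.ext h3.1 rfl, ⟨rfl, rfl, trivial⟩, h2, ?_⟩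
            rw [← h3.2, h2]
          · rintro (⟨_, h3⟩ | ⟨t', u1, u', h3, ⟨h4, h5, _⟩, h6, h7⟩)
            · exact absurd h3 (by simp)
            · subst h4
              subst h5
              rw [h3, h7, h2]
        · rw [if_neg h1, if_neg h2, if_neg h1, if_neg h2]
          by_cases h3 : y = D.d1 t.1 (D.ep t.1 u)
          · rw [if_pos h3, if_pos h3]
            constructor
            · intro h
              have h2 := Option.some.inj h
              rw [Prod.mk.injEq] at h2
              exact Or.inl ⟨h2.1, by rw [h2.2]⟩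
            · rintro (⟨h4, h5⟩ | ⟨t', u1, u', _, ⟨h4, _⟩, h5, _⟩)
              · rw [h4, Option.some.inj h5]
              · subst h4
                exact absurd h5 h2
          · rw [if_neg h3, if_neg h3]
            constructor
            · intro h
              exact absurd h (by simp)
            · rintro (⟨_, h5⟩ | ⟨t', u1, u', _, ⟨h4, _⟩, h5, _⟩)
              · exact absurd h5 (by simp)
              · subst h4
                exact absurd h5 h2
    | true =>
      rw [WOk_stt]
      simp only [WFm_nb, ZX.st.injEq, reduceCtorEq, false_and, and_false, exists_false, or_false]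
      by_cases h1 : y = D.e1 t.1 (D.ep t.1 u)
      · rw [if_pos h1, if_pos h1]
        simp only [Option.some.injEq, Prod.mk.injEq]
      · rw [if_neg h1, if_neg h1]
        by_cases h2 : y = D.d2 t.1 (D.ep t.1 u)
        · rw [if_pos h2, if_pos h2]
          simp only [Option.some.injEq, Prod.mk.injEq]
        · rw [if_neg h2, if_neg h2]
          simp
  | ds t u σ x =>
    have hσ : σ = 0 ∨ σ = 1 ∨ σ = 2 := by omega
    have hcz := WFm_cz D t
    have hcc := WFm_cc D t
    rw [WOk_ds]
    simp only [reduceCtorEq, false_and, and_false, exists_false, false_or]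
    by_cases h1 : x = t.1 ∧ (y = D.pA t.1 u σ ∨ y = D.pB t.1 u σ)
    · simp only [WFm_nb, if_pos h1, reduceCtorEq, and_false, false_or, false_iff]
      rintro ⟨t', u1, u', _, _, h2, _⟩
      rw [ZX.ds.injEq] at h2
      obtain ⟨h3, _, _, h4⟩ := h2
      subst h3
      exact hcz (h4.symm.trans h1.1)
    · by_cases h2 : x = D.pA t.1 u σ ∧ y = t.1
      · simp only [WFm_nb, if_neg h1, if_pos h2]
        rcases hσ with rfl | rfl | rfl
        · simp only [if_true, reduceCtorEq, and_false, false_or]
          have e : tA D nx k t u 0 = ((nx.symm (k, u)).1, .st t (nx.symm (k, u)).2 false) := rfl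
          rw [e]
          constructor
          · intro h
            have h3 := Option.some.inj h
            rw [Prod.mk.injEq] at h3
            refine ⟨t, u, (nx.symm (k, u)).2, ?_, h3.2.symm, ?_, h2.2⟩
            · rw [← h3.1]
              exact nx.apply_symm_apply (k, u)
            · rw [h2.1]
              rfl
          · rintro ⟨t', u1, u', h3, h4, h5, h6⟩
            rw [ZX.ds.injEq] at h5
            obtain ⟨h7, h8, _, _⟩ := h5
            subst h7
            subst h8
            have h9 : nx.symm (k, u) = (l, u') := by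
              rw [← h3, nx.symm_apply_apply]
            rw [h9, h4]
        · have e : tA D nx k t u 1 = (k, .st t u false) := rfl
          rw [e, if_neg (by decide), if_pos rfl]
          constructor
          · intro h
            have h3 := Option.some.inj h
            rw [Prod.mk.injEq] at h3
            exact Or.inl ⟨h3.1, by rw [h3.2]⟩
          · rintro (⟨h3, h4⟩ | ⟨t', u1, u', _, _, h4, _⟩)
            · rw [h3, Option.some.inj h4]
            · rw [ZX.ds.injEq] at h4
              exact absurd h4.2.2.1 (by decide)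
        · have e : tA D nx k t u 2 = (k, .st t u true) := rfl
          rw [e, if_neg (by decide), if_neg (by decide)]
          constructor
          · intro h
            have h3 := Option.some.inj h
            rw [Prod.mk.injEq] at h3
            exact Or.inl ⟨h3.1, by rw [h3.2]⟩
          · rintro (⟨h3, h4⟩ | ⟨t', u1, u', _, _, h4, _⟩)
            · rw [h3, Option.some.inj h4]
            · rw [ZX.ds.injEq] at h4
              exact absurd h4.2.2.1 (by decide)
      · have hno : ∀ {l' : κ} {z' : ZX D}, ¬ (∃ (t' : TK H) (u1 u' : D.U), nx (l', u') = (k, u1) ∧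
            z' = .st t' u' false ∧ (ZX.ds t u σ x : ZX D) = .ds t' u1 0 (D.c0 t'.1) ∧
              y = t'.1) := by
          rintro l' z' ⟨t', u1, u', _, _, h5, h6⟩
          rw [ZX.ds.injEq] at h5
          obtain ⟨h7, h8, h9, h10⟩ := h5
          subst h7
          subst h8
          subst h9
          exact h2 ⟨h10, h6⟩
        by_cases h3 : x = D.pB t.1 u σ ∧ y = t.1
        · simp only [WFm_nb, if_neg h1, if_neg h2, if_pos h3]
          rw [or_iff_left hno]
          rcases hσ with rfl | rfl | rfl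
          · have e : tB D k t u 0 = some (k, .st t u false) := rfl
            rw [e, if_pos rfl]
            simp only [Option.some.injEq, Prod.mk.injEq]
          · have e : tB D k t u 1 = some (k, .st t u true) := rfl
            rw [e, if_neg (by decide), if_pos rfl]
            simp only [Option.some.injEq, Prod.mk.injEq]
          · rw [if_neg (by decide), if_neg (by decide)]
            by_cases hm : D.mkd u.1 u.2.1 ∧ D.hd u.1 u.2.1 = t.1
            · rw [WOk_tB2 D k hm, if_pos hm]
              simp only [Option.some.injEq, Prod.mk.injEq]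
            · rw [WOk_tB2' D k hm, if_neg hm]
              simp
        · simp only [WFm_nb, if_neg h1, if_neg h2, if_neg h3]
          rw [or_iff_left hno]
          simp only [Option.some.injEq, Prod.mk.injEq]

end

theorem coreD_form {V : Type} [Finite V] {H : SimpleGraph V} (D : DX H) :
    ∃ Q0 Q1 : ZX D → ZX D → Prop, ∀ (K : ℕ) (k l : Fin K) (z z' : ZX D),
      ((coreD D (nxG K D.U)).G H).Adj (k, z) (l, z') ↔
        (k = l ∧ Q0 z z') ∨ (nxt K k.1 l.1 ∧ Q1 z z') ∨ (nxt K l.1 k.1 ∧ Q1 z' z) := by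
  obtain ⟨N0, N1, hN⟩ := Pool.Agent.LHC.nxG_form D.U
  refine ⟨fun z z' => (∃ y, H.Adj (pX D z) y ∧ WFm_nb D z y = some z') ∨
    (∃ (t : TK H) (u u' : D.U), N0 u u' ∧ z = .st t u false ∧ z' = .ds t u' 0 (D.c0 t.1)) ∨
    (∃ (t : TK H) (u u' : D.U), N0 u u' ∧ z' = .st t u false ∧ z = .ds t u' 0 (D.c0 t.1)),
    fun z z' => ∃ (t : TK H) (u u' : D.U), N1 u u' ∧ z = .st t u false ∧
      z' = .ds t u' 0 (D.c0 t.1), ?_⟩
  intro K k l z z'
  rw [Cv.adj_iff (coreD_ok D _)]
  have hp : (coreD D (nxG K D.U)).p (k, z) = pX D z := rfl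
  rw [hp]
  constructor
  · rintro ⟨y, h1, h2⟩
    rw [WFm_iff] at h2
    rcases h2 with ⟨h2, h3⟩ | ⟨t, u, u', h2, h3, h4, h5⟩ | ⟨t, u, u', h2, h3, h4, h5⟩
    · exact Or.inl ⟨h2, Or.inl ⟨y, h1, h3⟩⟩
    · rcases (hN K k l u u').mp h2 with ⟨h6, h7⟩ | ⟨h6, h7⟩
      · exact Or.inl ⟨h6, Or.inr (Or.inl ⟨t, u, u', h7, h3, h5⟩)⟩
      · exact Or.inr (Or.inl ⟨h6, t, u, u', h7, h3, h5⟩)
    · rcases (hN K l k u' u).mp h2 with ⟨h6, h7⟩ | ⟨h6, h7⟩
      · exact Or.inl ⟨h6.symm, Or.inr (Or.inr ⟨t, u', u, h7, h3, h4⟩)⟩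
      · exact Or.inr (Or.inr ⟨h6, t, u', u, h7, h3, h4⟩)
  · rintro (⟨h1, ⟨y, h2, h3⟩ | ⟨t, u, u', h2, h3, h4⟩ | ⟨t, u, u', h2, h3, h4⟩⟩ |
      ⟨h1, t, u, u', h2, h3, h4⟩ | ⟨h1, t, u, u', h2, h3, h4⟩)
    · refine ⟨y, h2, ?_⟩
      rw [WFm_iff]
      exact Or.inl ⟨h1, h3⟩
    · refine ⟨D.c0 t.1, ?_, ?_⟩
      · rw [h3]; exact (D.tr0 t.1 t.2).1.1
      · rw [WFm_iff]
        exact Or.inr (Or.inl ⟨t, u, u', (hN K k l u u').mpr (Or.inl ⟨h1, h2⟩), h3, rfl, h4⟩)
    · refine ⟨t.1, ?_, ?_⟩
      · rw [h4]; exact (D.tr0 t.1 t.2).1.1.symm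
      · rw [WFm_iff]
        exact Or.inr (Or.inr ⟨t, u', u, (hN K l k u u').mpr (Or.inl ⟨h1.symm, h2⟩), h3, h4, rfl⟩)
    · refine ⟨D.c0 t.1, ?_, ?_⟩
      · rw [h3]; exact (D.tr0 t.1 t.2).1.1
      · rw [WFm_iff]
        exact Or.inr (Or.inl ⟨t, u, u', (hN K k l u u').mpr (Or.inr ⟨h1, h2⟩), h3, rfl, h4⟩)
    · refine ⟨t.1, ?_, ?_⟩
      · rw [h4]; exact (D.tr0 t.1 t.2).1.1.symm
      · rw [WFm_iff]
        exact Or.inr (Or.inr ⟨t, u', u, (hN K l k u u').mpr (Or.inr ⟨h1, h2⟩), h3, h4, rfl⟩)

end Pool.Agent.LHD
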