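import Pool.Agent.LHD.Defs
import Pool.Agent.LHD.CtA
import Pool.Agent.LHD.WOk
import Pool.Agent.LHD.WLn
import Pool.Agent.LHD.WFm
import Pool.Agent.LHD.FinX

/-!
# The adjacency relation of the graph of the pins

`clt_adj` with `π = pX D` (`(coreD D nx).p (k, z) = pX D z`), `coreD_form`: `Q0, Q1`; `lnD D (k, z) y = lnX D z y`. `P a b`: `(∃ z z', a = inl z ∧ b = inl z' ∧ ¬ lnX z (π z') ∧ Q0 z z') ∨ (∃ z z', a = inr (z, π z', 0, π z) ∧ b = inr (z', π z, 0, π z') ∧ lnX z (π z') ∧ Q0 z z') ∨ ∃ z y, LN H π z y a b ∨ (lnX z y ∧ LO π z y a b) ∨ (¬ lnX z y ∧ LC H π z y a b)`. `Q a b`: the first two alternatives with `Q1` instead of `Q0`.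
For the third alternative `nxt K l k ∧ Q b a`: if `Q1 z' z` and `nxt K l k` then `(k, z)` and `(l, z')` are adjacent in `(coreD D nx).G H`, and `lnX z (π z') ↔ lnX z' (π z)`: by `lnD_ok` (`sym`) and `Cv.adj_p` in both directions (the condition of adjacency is known on both sides of the equivalence to be proved; prove the two implications separately). `k = l ↔ k.1 = l.1`.
-/

namespace Pool.Agent.LHD

open Pool.Agent.LIH Pool.Agent.LHA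
open Pool.Agent.LHC (Rg DeepN De Br CZ Ctr nxt nxG glueS sAdj LN LC LO)

/-- the edges of the graph with lines given by the edges of the partial cover -/
def wAd_R {V : Type} {H : SimpleGraph V} (D : DX H) (Q : ZX D → ZX D → Prop) (a b : CZ (ZX D) V D.r) : Prop :=
  (∃ z z', a = .inl z ∧ b = .inl z' ∧ ¬ lnX D z (pX D z') ∧ Q z z') ∨
  (∃ z z', a = .inr (z, pX D z', 0, pX D z) ∧ b = .inr (z', pX D z, 0, pX D z') ∧ lnX D z (pX D z') ∧ Q z z')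

theorem wAd_sym {V : Type} {H : SimpleGraph V} (D : DX H) {κ : Type} (nx : Equiv.Perm (κ × D.U)) {k l : κ}
    {z z' : ZX D} (h : ((coreD D nx).G H).Adj (k, z) (l, z')) (h' : lnX D z (pX D z')) : lnX D z' (pX D z) :=
  (lnD_ok D nx).sym (k, z) (pX D z') (l, z') h' ((Cv.adj_p (coreD_ok D nx) _ _).1 h).2

theorem gD_adj {V : Type} [Finite V] {H : SimpleGraph V} (D : DX H) :
    ∃ P Q : CZ (ZX D) V D.r → CZ (ZX D) V D.r → Prop, ∀ (K : ℕ) (k l : Fin K)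
      (a b : CZ (ZX D) V D.r), (gD D (nxG K D.U)).Adj (k, a) (l, b) ↔
        (k.1 = l.1 ∧ P a b) ∨ (nxt K k.1 l.1 ∧ Q a b) ∨ (nxt K l.1 k.1 ∧ Q b a) := by
  obtain ⟨Q0, Q1, hQ⟩ := coreD_form D
  refine ⟨fun a b => wAd_R D Q0 a b ∨
      ∃ z y, LN H (pX D) z y a b ∨ (lnX D z y ∧ LO (pX D) z y a b) ∨ (¬ lnX D z y ∧ LC H (pX D) z y a b),
    wAd_R D Q1, ?_⟩
  intro K k l a b
  have h := clt_adj (r := D.r) (coreD_ok D (nxG K D.U)) (lnD_ok D (nxG K D.U)) (π := pX D) (fun _ _ => rfl) k l a b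
  refine h.trans ?_
  rw [← Fin.ext_iff (a := k) (b := l)]
  constructor
  · rintro (⟨z, z', ha, hb, hl, hadj⟩ | ⟨z, z', ha, hb, hl, hadj⟩ | ⟨hk, z, y, hor⟩)
    · rcases (hQ K k l z z').1 hadj with ⟨hk, hq⟩ | ⟨hn, hq⟩ | ⟨hn, hq⟩
      · exact Or.inl ⟨hk, Or.inl (Or.inl ⟨z, z', ha, hb, hl, hq⟩)⟩
      · exact Or.inr (Or.inl ⟨hn, Or.inl ⟨z, z', ha, hb, hl, hq⟩⟩)
      · exact Or.inr (Or.inr ⟨hn, Or.inl ⟨z', z, hb, ha, fun h1 => hl (wAd_sym D _ hadj.symm h1), hq⟩⟩)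
    · rcases (hQ K k l z z').1 hadj with ⟨hk, hq⟩ | ⟨hn, hq⟩ | ⟨hn, hq⟩
      · exact Or.inl ⟨hk, Or.inl (Or.inr ⟨z, z', ha, hb, hl, hq⟩)⟩
      · exact Or.inr (Or.inl ⟨hn, Or.inr ⟨z, z', ha, hb, hl, hq⟩⟩)
      · exact Or.inr (Or.inr ⟨hn, Or.inr ⟨z', z, hb, ha, wAd_sym D _ hadj hl, hq⟩⟩)
    · exact Or.inl ⟨hk, Or.inr ⟨z, y, hor⟩⟩
  · rintro (⟨hk, (⟨z, z', ha, hb, hl, hq⟩ | ⟨z, z', ha, hb, hl, hq⟩) | ⟨z, y, hor⟩⟩ |
      ⟨hn, ⟨z, z', ha, hb, hl, hq⟩ | ⟨z, z', ha, hb, hl, hq⟩⟩ | ⟨hn, ⟨z', z, hb, ha, hl, hq⟩ | ⟨z', z, hb, ha, hl, hq⟩⟩)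
    · exact Or.inl ⟨z, z', ha, hb, hl, (hQ K k l z z').2 (Or.inl ⟨hk, hq⟩)⟩
    · exact Or.inr (Or.inl ⟨z, z', ha, hb, hl, (hQ K k l z z').2 (Or.inl ⟨hk, hq⟩)⟩)
    · exact Or.inr (Or.inr ⟨hk, z, y, hor⟩)
    · exact Or.inl ⟨z, z', ha, hb, hl, (hQ K k l z z').2 (Or.inr (Or.inl ⟨hn, hq⟩))⟩
    · exact Or.inr (Or.inl ⟨z, z', ha, hb, hl, (hQ K k l z z').2 (Or.inr (Or.inl ⟨hn, hq⟩))⟩)
    · have hadj := (hQ K k l z z').2 (Or.inr (Or.inr ⟨hn, hq⟩))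
      exact Or.inl ⟨z, z', ha, hb, fun h1 => hl (wAd_sym D _ hadj h1), hadj⟩
    · have hadj := (hQ K k l z z').2 (Or.inr (Or.inr ⟨hn, hq⟩))
      exact Or.inr (Or.inl ⟨z, z', ha, hb, wAd_sym D _ hadj.symm hl, hadj⟩)

end Pool.Agent.LHD
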