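import Pool.Agent.LHD.Defs
import Pool.Agent.LHD.PDx
import Pool.Agent.LHD.FinX
import Pool.Agent.LHD.WAd
import Pool.Agent.LHD.FrX
import Pool.Agent.LHD.FlX
import Pool.Agent.LHD.GlX
import Pool.Agent.LHD.DfX
import Pool.Agent.LHC.PrtC
import Pool.Agent.LHC.DeeC
import Pool.Agent.LHC.BNx
import Pool.Agent.LHA.KitEx
import Pool.Agent.LHA.CellL
import Pool.Agent.LHA.CellS
import Pool.Agent.LHA.CellC
import Pool.Agent.LHA.Net3
import Pool.Agent.LHA.Mode
import Pool.Agent.LHA.SatL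
import Pool.Agent.LHA.Sat
import Pool.Agent.LIH.Grid
import Pool.Agent.LIH.Emit
import Pool.Agent.LIH.Hard
import Pool.Agent.LIH.Member

/-!
# The theorem
-/

namespace Pool.Agent.LHD

open Pool.Agent.LIH Pool.Agent.LHA
open Pool.Agent.LHC (Rg DeepN De Br CZ Ctr nxt nxG glueS sAdj LN LC LO)

theorem roD_inj {V : Type} {H : SimpleGraph V} (D : DX H) : Function.Injective (roD D) := by
  intro i j h
  unfold roD at h
  have h1 := Sum.inl.inj h
  injection h1 with h2 _
  exact Sum.inl.inj h2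

open NPC in
theorem reduces_D {V : Type} [Finite V] {H : SimpleGraph V} (hc : H.Connected)
    (h3 : ∀ v, 3 ≤ (H.neighborSet v).ncard) (h4 : ∃ v, 4 ≤ (H.neighborSet v).ncard)
    {L : Set (List Bool)} (hL : L ∈ NP) : Reduces L (LIHOM H) := by
  classical
  obtain ⟨r, hr⟩ := Pool.Agent.LHC.exists_deepN hc
  obtain ⟨K⟩ := kit_exists h3 h4
  obtain ⟨pd⟩ := pd_exists h3
  let D : DX H := { toPD := pd, a4 := K.a, F4 := K.F, R := r, r := r, two := hr.1 }
  obtain ⟨m, Nv, J, lit, hm, hNv, hlt, hsat, hdef⟩ := np_sat hL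
  obtain ⟨r0, r1, r2, r3⟩ := K.R_vals
  obtain ⟨μ, hμ⟩ := trip_mode K.R r0 r1 r2 r3
  obtain ⟨PP, QQ, hPQ⟩ := gD_adj D
  refine Pool.Agent.LHC.reduces_cells (Z := CZ (ZX D) V D.r ⊕ (Fin 3 × Fin K.len))
    ((Nv + 3 * (J * Polynomial.C m) + 1) * (6 * (2 * (J * Polynomial.C m) + 1)))
    (fun y n0 s t k l => adjX PP QQ (roD D) K.B (atZ K (lk3 (Nv.eval n0) (J.eval n0 * m)
      (lit3 μ (Nv.eval n0) (J.eval n0 * m) m (lit y n0)))) (KK (Nv.eval n0) (J.eval n0 * m))
      k l s t) ?_ ?_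
  · intro s t k A B hA hB
    exact def_adjX K PP QQ (roD D) μ Nv J hm hdef s t hA hB
  · intro z
    set n0 := z.length + 1 with hn0
    set N := ntw3 (Nv.eval n0) (J.eval n0 * m)
      (lit3 μ (Nv.eval n0) (J.eval n0 * m) m (lit (prep z) n0)) with hN
    have hK : N.K = ((Nv + 3 * (J * Polynomial.C m) + 1) *
        (6 * (2 * (J * Polynomial.C m) + 1))).eval n0 := by
      simp only [hN, ntw3, KK, TT, Polynomial.eval_mul, Polynomial.eval_add,
        Polynomial.eval_one, Polynomial.eval_C, Polynomial.eval_ofNat]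
    refine ⟨Fin N.K, finCongr hK, glueS (gD D (nxG N.K D.U)) (roD D) K.B (atN K N), ?_, ?_⟩
    · intro k l s t
      exact glueX_num (hPQ N.K) (roD D) K.B (atZ K N.lk) k l s t
    · have hlt3 := lit3_lt μ (Nv.eval n0) (J.eval n0) m hm (lit (prep z) n0) (hlt z)
      have hTs : TSol (Trip K.R) (2 * (J.eval n0 * m) + 1)
          (lit3 μ (Nv.eval n0) (J.eval n0 * m) m (lit (prep z) n0)) ↔
          SatOK (J.eval n0) m (lit (prep z) n0) := by
        rw [← tsol_iff_sat μ (Nv.eval n0) (J.eval n0) m hm (lit (prep z) n0) (hlt z)]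
        unfold TSol
        simp only [hμ]
      have hfl : FlexX H (gD D (nxG N.K D.U)) (roD D) K.a K.F := flex_D D (nxG N.K D.U)
      have hfo : ForceX H (gD D (nxG N.K D.U)) (roD D) K.a K.F :=
        force_D hc h3 D (fun i => K.F_ssub i) (nxG N.K D.U) (Pool.Agent.LHC.nxG_ctr N.K D.U) hr
          (Nat.le_succ r)
      have hgl : (∃ f, LocInj (glueS (gD D (nxG N.K D.U)) (roD D) K.B (atN K N)) H f) ↔
          ∃ c : Fin N.K → (Fin 3 × Fin K.len) → V, GoodCol H K.a K.F K.B (atN K N) c :=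
        glueX_iff (gD D (nxG N.K D.U)) (roD D) (roD_inj D) K.B (atN K N) K.a K.F
          (fun i => K.F_sub i) hfl hfo
      rw [hsat z, hgl, ← hTs]
      constructor
      · intro hs
        exact cell_complete K N (net_complete K.R _ _ _ hs)
      · rintro ⟨c, hcx⟩
        exact net_sound K.R _ _ _ hlt3 (cell_sound K N c hcx)

theorem npcD {n : ℕ} {H : SimpleGraph (Fin n)} (hc : H.Connected)
    (h3 : ∀ v, 3 ≤ (H.neighborSet v).ncard) (h4 : ∃ v, 4 ≤ (H.neighborSet v).ncard) :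
    NPComplete (LIHOM H) :=
  ⟨lihom_mem_np H, fun _ hL => reduces_D hc h3 h4 hL⟩

end Pool.Agent.LHD
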